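import Pool.Agent.Lib.CMP.KDefs

/-!
# CMP block K: unitary changes of variables (helper2)
-/

set_option autoImplicit false

open scoped ComplexConjugate Matrix
open Complex MeasureTheory

namespace Pool.CMP.S2

noncomputable section

variable {n : ℕ}

open Pool.CMN.Jac (IsU Sg)

/-! ### the change of variables -/

theorem det_real {m : ℕ} (g : Matrix (Fin m) (Fin m) ℂ) :
    LinearMap.det ((Matrix.toLin' g).restrictScalars ℝ) = ‖g.det‖ ^ 2 := by
  rw [LinearMap.det_restrictScalars, LinearMap.det_toLin', Algebra.norm_complex_apply,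
    Complex.normSq_eq_norm_sq]

theorem mp_mulVec {m : ℕ} (g : Matrix (Fin m) (Fin m) ℂ) (hg : ‖g.det‖ = 1) :
    MeasurePreserving (fun z : Fin m → ℂ => g *ᵥ z) volume volume := by
  let f : (Fin m → ℂ) →ₗ[ℝ] (Fin m → ℂ) := (Matrix.toLin' g).restrictScalars ℝ
  have hf : ∀ z, f z = g *ᵥ z := fun z => by simp [f]
  have hd : LinearMap.det f = 1 := by
    rw [det_real, hg, one_pow]
  have hc : Continuous f := f.continuous_of_finiteDimensional
  have h1 := Measure.map_linearMap_addHaar_eq_smul_addHaar (volume : Measure (Fin m → ℂ))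
    (f := f) (by rw [hd]; exact one_ne_zero)
  rw [hd] at h1
  have h2 : (fun z : Fin m → ℂ => g *ᵥ z) = f := funext fun z => (hf z).symm
  rw [h2]
  refine ⟨hc.measurable, ?_⟩
  rw [h1]
  simp

/-- The homeomorphism of an invertible matrix. -/
def homeo {m : ℕ} (g : Matrix (Fin m) (Fin m) ℂ) (hg : ‖g.det‖ = 1) :
    (Fin m → ℂ) ≃ₜ (Fin m → ℂ) where
  toFun z := g *ᵥ z
  invFun z := g⁻¹ *ᵥ z
  left_inv z := by
    have hu : IsUnit g.det := by
      rw [isUnit_iff_ne_zero]
      intro h0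
      rw [h0, norm_zero] at hg
      exact zero_ne_one hg
    change g⁻¹ *ᵥ (g *ᵥ z) = z
    rw [Matrix.mulVec_mulVec, Matrix.nonsing_inv_mul g hu, Matrix.one_mulVec]
  right_inv z := by
    have hu : IsUnit g.det := by
      rw [isUnit_iff_ne_zero]
      intro h0
      rw [h0, norm_zero] at hg
      exact zero_ne_one hg
    change g *ᵥ (g⁻¹ *ᵥ z) = z
    rw [Matrix.mulVec_mulVec, Matrix.mul_nonsing_inv g hu, Matrix.one_mulVec]
  continuous_toFun := Continuous.matrix_mulVec continuous_const continuous_id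
  continuous_invFun := Continuous.matrix_mulVec continuous_const continuous_id

/-- **Change of variables.** -/
theorem integral_mulVec {m : ℕ} {E : Type*} [NormedAddCommGroup E] [NormedSpace ℝ E]
    (g : Matrix (Fin m) (Fin m) ℂ) (hg : ‖g.det‖ = 1) (f : (Fin m → ℂ) → E) :
    ∫ z, f (g *ᵥ z) = ∫ z, f z :=
  (mp_mulVec g hg).integral_comp (homeo g hg).measurableEmbedding f

theorem integrable_mulVec {m : ℕ} {E : Type*} [NormedAddCommGroup E]
    (g : Matrix (Fin m) (Fin m) ℂ) (hg : ‖g.det‖ = 1) (f : (Fin m → ℂ) → E) :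
    Integrable (fun z => f (g *ᵥ z)) ↔ Integrable f :=
  (mp_mulVec g hg).integrable_comp_emb (homeo g hg).measurableEmbedding

/-! ### the hermitian form -/

variable {k : Fin (n + 1) → ℝ}

theorem H_eq (z w : Fin (n + 1) → ℂ) :
    H k z w = star z ⬝ᵥ (Matrix.diagonal (fun i => (k i : ℂ)) *ᵥ w) := by
  simp only [H, dotProduct, Matrix.mulVec_diagonal, Pi.star_apply, RCLike.star_def]
  exact Finset.sum_congr rfl fun i _ => by ring

theorem H_mulVec {g : Matrix (Fin (n + 1)) (Fin (n + 1)) ℂ} (hg : IsU k g)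
    (z w : Fin (n + 1) → ℂ) : H k (g *ᵥ z) (g *ᵥ w) = H k z w := by
  rw [H_eq, H_eq, Matrix.star_mulVec, Matrix.mulVec_mulVec, ← Matrix.dotProduct_mulVec,
    Matrix.mulVec_mulVec, ← Matrix.mul_assoc, hg]

theorem H_self (z : Fin (n + 1) → ℂ) : H k z z = -(rho k z : ℂ) := by
  simp only [H, rho]
  push_cast
  rw [neg_neg]
  refine Finset.sum_congr rfl fun i _ => ?_
  rw [mul_assoc, Complex.conj_mul']

theorem H_conj (z w : Fin (n + 1) → ℂ) : conj (H k z w) = H k w z := by
  simp only [H, map_sum, map_mul, Complex.conj_conj, Complex.conj_ofReal]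
  exact Finset.sum_congr rfl fun i _ => by ring

theorem H_add_right (z w w' : Fin (n + 1) → ℂ) : H k z (w + w') = H k z w + H k z w' := by
  simp only [H, Pi.add_apply, ← Finset.sum_add_distrib]
  exact Finset.sum_congr rfl fun i _ => by ring

theorem H_smul_right (c : ℂ) (z w : Fin (n + 1) → ℂ) : H k z (c • w) = c * H k z w := by
  simp only [H, Pi.smul_apply, smul_eq_mul, Finset.mul_sum]
  exact Finset.sum_congr rfl fun i _ => by ring

theorem H_smul_left (c : ℂ) (z w : Fin (n + 1) → ℂ) : H k (c • z) w = conj c * H k z w := by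
  rw [← H_conj w (c • z), H_smul_right, map_mul, H_conj]

theorem H_add_left (z z' w : Fin (n + 1) → ℂ) : H k (z + z') w = H k z w + H k z' w := by
  rw [← H_conj w (z + z'), H_add_right, map_add, H_conj, H_conj]

theorem H_sub_right (z w w' : Fin (n + 1) → ℂ) : H k z (w - w') = H k z w - H k z w' := by
  have h1 := H_add_right (k := k) z w ((-1 : ℂ) • w')
  rw [H_smul_right] at h1
  have h2 : w - w' = w + (-1 : ℂ) • w' := by rw [neg_one_smul, sub_eq_add_neg]
  rw [h2, h1]
  ring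

theorem H_sub_left (z z' w : Fin (n + 1) → ℂ) : H k (z - z') w = H k z w - H k z' w := by
  rw [← H_conj w (z - z'), H_sub_right, map_sub, H_conj, H_conj]

theorem rho_mulVec {g : Matrix (Fin (n + 1)) (Fin (n + 1)) ℂ} (hg : IsU k g)
    (w : Fin (n + 1) → ℂ) : rho k (g *ᵥ w) = rho k w := by
  have h1 := H_mulVec hg w w
  rw [H_self, H_self, neg_inj] at h1
  exact_mod_cast h1

theorem rho_smul (c : ℂ) (w : Fin (n + 1) → ℂ) : rho k (c • w) = ‖c‖ ^ 2 * rho k w := by
  simp only [rho, Pi.smul_apply, smul_eq_mul, norm_mul, mul_pow, mul_neg, Finset.mul_sum]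
  congr 1
  exact Finset.sum_congr rfl fun i _ => by ring

theorem tt_mulVec {g : Matrix (Fin (n + 1)) (Fin (n + 1)) ℂ} (hg : IsU k g)
    (w z : Fin (n + 1) → ℂ) : tt k (g *ᵥ w) (g *ᵥ z) = tt k w z := by
  rw [tt, tt, H_mulVec hg, rho_mulVec hg, rho_mulVec hg]

theorem tt_smul {c : ℂ} (hc : c ≠ 0) (w z : Fin (n + 1) → ℂ) : tt k (c • w) z = tt k w z := by
  have h1 : ‖c‖ ^ 2 ≠ 0 := pow_ne_zero _ (norm_ne_zero_iff.2 hc)
  rw [tt, tt, H_smul_right, rho_smul, norm_mul, mul_pow]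
  rw [show rho k z * (‖c‖ ^ 2 * rho k w) = ‖c‖ ^ 2 * (rho k z * rho k w) by ring]
  rw [mul_div_mul_left _ _ h1]

theorem ker_mulVec {g : Matrix (Fin (n + 1)) (Fin (n + 1)) ℂ} (hg : IsU k g)
    (w z : Fin (n + 1) → ℂ) : ker k (g *ᵥ w) (g *ᵥ z) = ker k w z := by
  rw [ker, ker, tt_mulVec hg, rho_mulVec hg, H_mulVec hg, H_mulVec hg]

theorem ker_smul {c : ℂ} (hc : c ≠ 0) (w z : Fin (n + 1) → ℂ) :
    ker k (c • w) z = c * ker k w z := by
  rw [ker, ker, tt_smul hc, H_smul_right]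
  ring

/-- **K2, for all unitary matrices.** -/
theorem Av_mulVec (hk : Sg k) {g : Matrix (Fin (n + 1)) (Fin (n + 1)) ℂ} (hg : IsU k g)
    (S : (Fin (n + 1) → ℂ) → ℂ) (w : Fin (n + 1) → ℂ) :
    Av k S (g *ᵥ w) = Av k (fun z => S (g *ᵥ z)) w := by
  rw [Av, Av, ← integral_mulVec g (hg.norm_det hk.ne)]
  simp_rw [ker_mulVec hg]

theorem Av_smul (S : (Fin (n + 1) → ℂ) → ℂ) {c : ℂ} (hc : c ≠ 0) (w : Fin (n + 1) → ℂ) :
    Av k S (c • w) = c * Av k S w := by
  rw [Av, Av, ← integral_const_mul]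
  refine integral_congr_ae (Filter.Eventually.of_forall fun z => ?_)
  change ker k (c • w) z * S z = c * (ker k w z * S z)
  rw [ker_smul hc]
  ring

/-- Row K2. -/
theorem _root_.Pool.CMP.k2 : K2 := fun _ _ hk => ⟨fun _ hg S w => Av_mulVec hk hg S w, fun S _ hc w => Av_smul S hc w⟩

end

end Pool.CMP.S2
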