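import Pool.Agent.Lib.CMP.EDefs
import Pool.Agent.Lib.CMN.PD44
import Pool.Agent.Lib.CMN.Coc
import Pool.Agent.Lib.CMN.Cocx
import Pool.Agent.Lib.CMN.JacBr

/-!
# Tank CMP, row E1 (helper64): arithmetic groups acting cocompactly on the ball are finitely
generated
-/

set_option autoImplicit false

open scoped ComplexConjugate Matrix
open Complex
open Pool.Agent.CMN (SLn ball actC hat Cocompact IsArith InSU Good ev)

namespace Pool.CMP

variable {n : ℕ}

/-- The centre of the ball. -/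
theorem zero_mem_ball {k : Fin (n + 1) → ℝ} (hs : Pool.CMN.Jac.Sg k) :
    (0 : Fin n → ℂ) ∈ ball k := by
  change ∑ j : Fin n, k j.castSucc * ‖(0 : Fin n → ℂ) j‖ ^ 2 + k (Fin.last n) < 0
  simpa using hs.neg

/-- The ball is star convex. -/
theorem starConvex_ball {k : Fin (n + 1) → ℝ} (hs : Pool.CMN.Jac.Sg k) :
    StarConvex ℝ (0 : Fin n → ℂ) (ball k) := by
  intro y hy a b _ hb hab
  have hb1 : b ≤ 1 := by linarith
  have hy' : ∑ j : Fin n, k j.castSucc * ‖y j‖ ^ 2 + k (Fin.last n) < 0 := hy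
  change ∑ j : Fin n, k j.castSucc * ‖(a • (0 : Fin n → ℂ) + b • y) j‖ ^ 2 + k (Fin.last n) < 0
  refine lt_of_le_of_lt (add_le_add_left (Finset.sum_le_sum fun j _ => ?_) _) hy'
  have h1 : ‖(a • (0 : Fin n → ℂ) + b • y) j‖ ≤ ‖y j‖ := by
    simp only [Pi.add_apply, Pi.smul_apply, Pi.zero_apply, smul_zero, zero_add, norm_smul,
      Real.norm_of_nonneg hb]
    exact mul_le_of_le_one_left (norm_nonneg _) hb1
  exact mul_le_mul_of_nonneg_left (pow_le_pow_left₀ (norm_nonneg _) h1 2) (hs.pos j).le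

/-- The ball is preconnected. -/
theorem isPreconnected_ball {k : Fin (n + 1) → ℝ} (hs : Pool.CMN.Jac.Sg k) :
    IsPreconnected (ball k) :=
  ((starConvex_ball hs).isPathConnected (zero_mem_ball hs)).isConnected.isPreconnected

/-- A properly discontinuous cocompact group on the ball is finitely generated. -/
theorem fg_of {k : Fin (n + 1) → ℝ} (hs : Pool.CMN.Jac.Sg k) {Γ : Subgroup (SLn n)}
    (hU : ∀ g ∈ Γ, Pool.CMN.Jac.IsU k g.1) (hc : Cocompact k Γ)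
    (hpd : ∀ C : Set (Fin n → ℂ), IsCompact C → C ⊆ ball k →
      {g : Γ | ∃ y ∈ C, actC g.1 y ∈ C}.Finite) : Γ.FG := by
  have hopen : IsOpen (ball k) := Pool.CMN.Jac.isOpen_Bl k
  obtain ⟨C, hC, hCb, hcov⟩ := hc
  obtain ⟨K, hK, hCK, hKb⟩ := exists_compact_between hC hopen hCb
  have hSf := hpd K hK hKb
  set S : Set Γ := {g : Γ | ∃ y ∈ K, actC g.1 y ∈ K} with hS
  set T : Set (SLn n) := Subtype.val '' S with hT
  have hTf : T.Finite := hSf.image _
  have hTΓ : Subgroup.closure T ≤ Γ := by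
    rw [Subgroup.closure_le]
    rintro _ ⟨g, _, rfl⟩
    exact g.2
  have hmemT : ∀ g ∈ Γ, ∀ y ∈ K, actC g y ∈ K → g ∈ Subgroup.closure T := fun g hg y hy h =>
    Subgroup.subset_closure ⟨⟨g, hg⟩, ⟨y, hy, h⟩, rfl⟩
  have hcont : ∀ g ∈ Γ, ContinuousOn (actC g) (ball k) := fun g hg =>
    Pool.CMN.Jac.continuousOn_act hs (hU g hg)
  -- the two open sets
  set V : Set (Fin n → ℂ) := ⋃ g ∈ Subgroup.closure T, ball k ∩ actC g ⁻¹' interior K with hV
  set W : Set (Fin n → ℂ) := ⋃ g ∈ {g : SLn n | g ∈ Γ ∧ g ∉ Subgroup.closure T},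
    ball k ∩ actC g ⁻¹' interior K with hW
  have hVo : IsOpen V := isOpen_biUnion fun g hg =>
    (hcont g (hTΓ hg)).isOpen_inter_preimage hopen isOpen_interior
  have hWo : IsOpen W := isOpen_biUnion fun g hg =>
    (hcont g hg.1).isOpen_inter_preimage hopen isOpen_interior
  have hcover : ball k ⊆ V ∪ W := by
    intro y hy
    obtain ⟨g, hg, hgC⟩ := hcov y hy
    by_cases h : g ∈ Subgroup.closure T
    · exact Or.inl (Set.mem_biUnion h ⟨hy, hCK hgC⟩)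
    · exact Or.inr (Set.mem_biUnion (show g ∈ {g : SLn n | g ∈ Γ ∧ g ∉ Subgroup.closure T} from
        ⟨hg, h⟩) ⟨hy, hCK hgC⟩)
  have hdisj : ∀ y ∈ V, y ∉ W := by
    intro y hyV hyW
    obtain ⟨g, hg, hy, hgy⟩ := Set.mem_iUnion₂.1 hyV
    obtain ⟨g', ⟨hg', hng'⟩, _, hgy'⟩ := Set.mem_iUnion₂.1 hyW
    have hgΓ := hTΓ hg
    apply hng'
    have h1 : actC (g' * g⁻¹) (actC g y) = actC g' y := by
      rw [← Pool.Agent.CMN.JB.actC_mul hs (hU g hgΓ) hy, inv_mul_cancel_right]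
    have h2 : g' * g⁻¹ ∈ Subgroup.closure T := by
      refine hmemT _ (Γ.mul_mem hg' (Γ.inv_mem hgΓ)) (actC g y) (interior_subset hgy) ?_
      rw [h1]
      exact interior_subset hgy'
    have h3 : g' = g' * g⁻¹ * g := by rw [inv_mul_cancel_right]
    rw [h3]
    exact (Subgroup.closure T).mul_mem h2 hg
  -- a base point
  obtain ⟨g₀, hg₀, hg₀C⟩ := hcov 0 (zero_mem_ball hs)
  set y₀ := actC g₀ 0 with hy₀
  have hy₀b : y₀ ∈ ball k := hCb hg₀C
  have hy₀V : y₀ ∈ V := by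
    refine Set.mem_biUnion (Subgroup.one_mem _) ⟨hy₀b, ?_⟩
    rw [Set.mem_preimage, Pool.Agent.CMN.JB.actC_one]
    exact hCK hg₀C
  have hΓT : Γ ≤ Subgroup.closure T := by
    intro g hg
    by_contra hng
    have hgi := Γ.inv_mem hg
    have hzb : actC g⁻¹ y₀ ∈ ball k := Pool.Agent.CMN.JB.actC_mem hs (hU _ hgi) hy₀b
    have hzW : actC g⁻¹ y₀ ∈ W := by
      refine Set.mem_biUnion (show g ∈ {g : SLn n | g ∈ Γ ∧ g ∉ Subgroup.closure T} from
        ⟨hg, hng⟩) ⟨hzb, ?_⟩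
      rw [Set.mem_preimage, ← Pool.Agent.CMN.JB.actC_mul hs (hU _ hgi) hy₀b, mul_inv_cancel,
        Pool.Agent.CMN.JB.actC_one]
      exact hCK hg₀C
    obtain ⟨z, _, hzV, hzW⟩ := isPreconnected_ball hs V W hVo hWo hcover ⟨y₀, hy₀b, hy₀V⟩
      ⟨_, hzb, hzW⟩
    exact hdisj z hzV hzW
  exact ⟨hTf.toFinset, by rw [Set.Finite.coe_toFinset]; exact le_antisymm hTΓ hΓT⟩

/-- Row E1. -/
theorem e1 : E1 := by
  intro F _ _ _ n v₁ D h Γ hG hv hΓ
  exact fg_of (Pool.Agent.CMN.JB.sg_of hG) (fun g hg => Pool.Agent.CMN.JB.isU_of_mem hΓ hg)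
    (Pool.Agent.CMN.cocx Pool.Agent.CMN.coc F n v₁ D h Γ hG hv hΓ)
    (Pool.Agent.CMN.pdx F n v₁ D h Γ hG hΓ)

end Pool.CMP
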