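import Pool.Agent.Lib.CMP.VDefs

/-!
# Tank CMP, row V3: a closed holomorphic one-form on the ball has a primitive (helper70)
-/

set_option autoImplicit false

open Complex

namespace Pool.Agent.CMP

open Pool.Agent.CMN

noncomputable section

variable {n : ℕ}

namespace V3aux

theorem convexBall {k : Fin (n + 1) → ℝ} (hk : ∀ j : Fin n, 0 < k j.castSucc) :
    Convex ℝ (ball k) := by
  have hc : ∀ i : Fin n, ConvexOn ℝ Set.univ (fun y : Fin n → ℂ => ‖y i‖ ^ 2) := by
    intro i
    have h2 : ConvexOn ℝ Set.univ (fun y : Fin n → ℂ => ‖y i‖) := by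
      have := (convexOn_norm (E := ℂ) convex_univ).comp_linearMap
        (LinearMap.proj (R := ℝ) (φ := fun _ : Fin n => ℂ) i)
      simpa [Function.comp_def] using this
    exact h2.pow (fun y _ => norm_nonneg _) 2
  have hs : ConvexOn ℝ Set.univ
      (fun y : Fin n → ℂ => ∑ j : Fin n, k j.castSucc * ‖y j‖ ^ 2 + k (Fin.last n)) := by
    have e0 : ConvexOn ℝ Set.univ
        (fun y : Fin n → ℂ => ∑ j : Fin n, k j.castSucc * ‖y j‖ ^ 2) := by
      refine ⟨convex_univ, fun x _ y _ a b ha hb hab => ?_⟩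
      simp only [smul_eq_mul, Finset.mul_sum]
      rw [← Finset.sum_add_distrib]
      refine Finset.sum_le_sum fun j _ => ?_
      have := (hc j).2 (Set.mem_univ x) (Set.mem_univ y) ha hb hab
      simp only [smul_eq_mul] at this
      have h3 := mul_le_mul_of_nonneg_left this (hk j).le
      linarith
    exact e0.add (convexOn_const (k (Fin.last n)) (convex_univ (𝕜 := ℝ) (E := Fin n → ℂ)))
  have := hs.convex_lt 0
  simpa [ball] using this

theorem isOpenBall (k : Fin (n + 1) → ℝ) : IsOpen (ball k) := by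
  have hf : Continuous fun y : Fin n → ℂ =>
      ∑ j : Fin n, k j.castSucc * ‖y j‖ ^ 2 + k (Fin.last n) := by fun_prop
  exact isOpen_lt hf continuous_const

/-- the one-form as a map to the dual space -/
def form1 (ω : Fin n → (Fin n → ℂ) → ℂ) (y : Fin n → ℂ) : (Fin n → ℂ) →L[ℂ] ℂ :=
  ∑ j, ω j y • ContinuousLinearMap.proj (R := ℂ) (φ := fun _ : Fin n => ℂ) j

theorem form1_apply (ω : Fin n → (Fin n → ℂ) → ℂ) (y v : Fin n → ℂ) :
    form1 ω y v = ∑ j, ω j y * v j := by
  simp [form1]

theorem form1_single (ω : Fin n → (Fin n → ℂ) → ℂ) (y : Fin n → ℂ) (j : Fin n) :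
    form1 ω y (Pi.single j 1) = ω j y := by
  classical
  rw [form1_apply, Finset.sum_eq_single j]
  · simp
  · intro i _ hi
    simp [hi]
  · simp

theorem apply_eq_sum (f : (Fin n → ℂ) →L[ℂ] ℂ) (x : Fin n → ℂ) :
    f x = ∑ i, x i * f (Pi.single i 1) := by
  classical
  conv_lhs => rw [pi_eq_sum_univ' x]
  rw [map_sum]
  refine Finset.sum_congr rfl fun i _ => ?_
  rw [map_smul, smul_eq_mul]

theorem hasFDerivAt_form1 {ω : Fin n → (Fin n → ℂ) → ℂ} {y : Fin n → ℂ}
    (h : ∀ j, DifferentiableAt ℂ (ω j) y) :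
    HasFDerivAt (form1 ω) (∑ j, ((fderiv ℂ (ω j) y).restrictScalars ℝ).smulRight
      (ContinuousLinearMap.proj (R := ℂ) (φ := fun _ : Fin n => ℂ) j)) y := by
  unfold form1
  refine HasFDerivAt.fun_sum fun j _ => ?_
  have h1 : HasFDerivAt (ω j) ((fderiv ℂ (ω j) y).restrictScalars ℝ) y :=
    (h j).hasFDerivAt.restrictScalars ℝ
  exact h1.smul_const (ContinuousLinearMap.proj (R := ℂ) (φ := fun _ : Fin n => ℂ) j :
    (Fin n → ℂ) →L[ℂ] ℂ)

end V3aux

open V3aux in
theorem v3 : V3 := by
  intro n k ω hk hω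
  obtain ⟨hd, hc⟩ := hω
  have hop := isOpenBall k
  have hda : ∀ y ∈ ball k, ∀ j, DifferentiableAt ℂ (ω j) y := fun y hy j =>
    (hd j).differentiableAt (hop.mem_nhds hy)
  have hD := fun y hy => hasFDerivAt_form1 (hda y hy)
  obtain ⟨R, hR⟩ := (convexBall hk.pos).exists_forall_hasFDerivAt_of_fderiv_symmetric
    (ω := form1 ω) hop
    (fun y hy => (hD y hy).differentiableAt.differentiableWithinAt) (by
      intro a ha x y
      rw [(hD a ha).fderiv]
      have key : ∀ x y : Fin n → ℂ, (∑ j, ((fderiv ℂ (ω j) a).restrictScalars ℝ).smulRight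
          (ContinuousLinearMap.proj (R := ℂ) (φ := fun _ : Fin n => ℂ) j)) x y =
          ∑ j, ∑ i, x i * y j * fderiv ℂ (ω j) a (Pi.single i 1) := by
        intro x y
        simp only [sum_apply, ContinuousLinearMap.smulRight_apply,
          ContinuousLinearMap.coe_restrictScalars', smul_apply,
          ContinuousLinearMap.proj_apply, smul_eq_mul]
        refine Finset.sum_congr rfl fun j _ => ?_
        rw [apply_eq_sum, Finset.sum_mul]
        exact Finset.sum_congr rfl fun i _ => by ring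
      rw [key, key, Finset.sum_comm]
      refine Finset.sum_congr rfl fun i _ => Finset.sum_congr rfl fun j _ => ?_
      rw [hc a ha j i]
      ring)
  refine ⟨R, fun y hy => (hR y hy).differentiableAt.differentiableWithinAt, fun y hy j => ?_⟩
  rw [(hR y hy).fderiv, form1_single]

end

end Pool.Agent.CMP
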