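import Pool.Agent.Lib.CMP.EDefs
import Pool.Agent.Lib.CMP.V3
import Pool.Agent.Lib.CMN.JacBr

/-!
# Tank CMP, rows E2, E4, E4p: invariant holomorphic functions are constant (maximum principle),
primitives of closed forms and their periods (helper70)
-/

set_option autoImplicit false

open scoped ComplexConjugate Matrix
open Complex MeasureTheory
open Pool.Agent.CMN (SLn ball actC hat Cocompact IsArith InSU Good ev theta IsSB InvOne ClosedHol)

namespace Pool.CMP

noncomputable section

theorem zero_mem_ball2 {n : ℕ} {k : Fin (n + 1) → ℝ} (hk : Pool.Agent.CMN.Sg k) :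
    (0 : Fin n → ℂ) ∈ ball k := by
  simp [ball, hk.neg]

theorem e2 : E2 := by
  intro n k Γ f hk hco hf hinv
  obtain ⟨C, hC, hCb, hcov⟩ := hco
  have hop : IsOpen (ball k) := Pool.Agent.CMP.V3aux.isOpenBall k
  have hconv := Pool.Agent.CMP.V3aux.convexBall hk.pos
  have hne : C.Nonempty := by
    obtain ⟨g, _, hg⟩ := hcov 0 (zero_mem_ball2 hk)
    exact ⟨_, hg⟩
  obtain ⟨c, hc, hmax⟩ := hC.exists_isMaxOn hne (hf.continuousOn.mono hCb).norm
  have hcb : c ∈ ball k := hCb hc
  have hm : IsMaxOn (norm ∘ f) (ball k) c := by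
    intro y hy
    obtain ⟨g, hg, hgy⟩ := hcov y hy
    have := hmax hgy
    have h2 : ‖f (actC g y)‖ ≤ ‖f c‖ := this
    rw [hinv g hg y hy] at h2
    exact h2
  have key := Complex.eqOn_of_isPreconnected_of_isMaxOn_norm hconv.isPreconnected hop hf hcb hm
  intro y hy y' hy'
  rw [key hy, key hy']
  rfl

theorem e4 : E4 := Pool.Agent.CMP.v3

theorem e4p : E4p := by
  intro n k ω Γ P hk hΓ hω hP hdP
  have hs : Pool.CMN.Jac.Sg k := Pool.Agent.CMN.JB.sg hk
  have hop : IsOpen (ball k) := Pool.Agent.CMP.V3aux.isOpenBall k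
  have hconv := Pool.Agent.CMP.V3aux.convexBall hk.pos
  have h0 := zero_mem_ball2 hk
  have hPat : ∀ y ∈ ball k, DifferentiableAt ℂ P y := fun y hy =>
    hP.differentiableAt (hop.mem_nhds hy)
  -- the derivative of the difference vanishes
  have key : ∀ g ∈ Γ, ∀ y ∈ ball k, P (actC g y) = P y + (P (actC g 0) - P 0) := by
    intro g hg y hy
    have hU := hΓ g hg
    have hact : ∀ y ∈ ball k, HasFDerivAt (actC g) (Pool.CMN.Jac.dact g.1 y) y := fun y hy =>
      Pool.CMN.Jac.hasFDerivAt_act g.1 (Pool.CMN.Jac.jf_ne hs hU hy)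
    have hd : ∀ y ∈ ball k, HasFDerivAt (fun y => P (actC g y) - P y)
        (0 : (Fin n → ℂ) →L[ℂ] ℂ) y := by
      intro y hy
      have h1 : HasFDerivAt (fun y => P (actC g y))
          ((fderiv ℂ P (actC g y)).comp (Pool.CMN.Jac.dact g.1 y)) y :=
        (hPat _ (Pool.Agent.CMN.JB.actC_mem hs hU hy)).hasFDerivAt.comp y (hact y hy)
      have h2 := h1.fun_sub (hPat y hy).hasFDerivAt
      have hz : (fderiv ℂ P (actC g y)).comp (Pool.CMN.Jac.dact g.1 y) - fderiv ℂ P y = 0 := by
        refine ContinuousLinearMap.ext fun x => ?_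
        rw [Pool.Agent.CMP.V3aux.apply_eq_sum]
        refine (Finset.sum_eq_zero fun j _ => ?_)
        have h3 : ((fderiv ℂ P (actC g y)).comp (Pool.CMN.Jac.dact g.1 y)) (Pi.single j 1) =
            ω j y := by
          rw [ContinuousLinearMap.comp_apply, Pool.Agent.CMP.V3aux.apply_eq_sum, ← hω g hg y hy j]
          refine Finset.sum_congr rfl fun i _ => ?_
          rw [hdP _ (Pool.Agent.CMN.JB.actC_mem hs hU hy), mul_comm,
            Pool.Agent.CMN.JB.fderiv_actC hs hU hy]
          congr 1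
          simp [Pool.CMN.Jac.dact, Matrix.col_apply]
        rw [sub_apply, h3, hdP y hy j]
        simp
      rw [hz] at h2
      exact h2
    have hconst : P (actC g y) - P y = P (actC g 0) - P 0 := by
      exact hop.is_const_of_fderiv_eq_zero (𝕜 := ℂ) hconv.isPreconnected
        (fun y hy => (hd y hy).differentiableAt.differentiableWithinAt)
        (fun y hy => (hd y hy).fderiv) hy h0
    rw [← hconst]
    ring
  refine ⟨fun g => P (actC g 0) - P 0, ?_, ⟨hP, key⟩⟩
  intro g hg g' hg'
  have h1 := Pool.Agent.CMN.JB.actC_mul hs (g := g) (hΓ g' hg') h0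
  have h2 := key g hg (actC g' 0) (Pool.Agent.CMN.JB.actC_mem hs (hΓ g' hg') h0)
  simp only
  rw [h1, h2]
  ring

end

end Pool.CMP
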