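import Pool.Agent.Lib.CMP.EDefs
import Pool.Agent.Lib.CMN.JacBr
import Pool.Agent.Lib.CMN.FxCalc

/-!
# Tank CMP, row E3: averaging over `Γ/Γ'` (helper52)
-/

set_option autoImplicit false

open scoped ComplexConjugate Matrix
open Complex MeasureTheory
open Pool.Agent.CMN (SLn ball actC hat Cocompact IsArith InSU Good ev)

namespace Pool.CMP

noncomputable section

variable {n : ℕ}

/-- A function with periods on a subgroup of finite index gives one on the group. -/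
theorem per_avg {k : Fin (n + 1) → ℝ} (hs : Pool.CMN.Jac.Sg k) {Γ Δ : Subgroup (SLn n)}
    (hU : ∀ g ∈ Γ, Pool.CMN.Jac.IsU k g.1) (hle : Δ ≤ Γ) (hfi : Δ.relIndex Γ ≠ 0)
    {q : SLn n → ℂ} (hq : Add Γ q) {f' : (Fin n → ℂ) → ℂ} (hf : Per k Δ q f') :
    ∃ f, Per k Γ q f := by
  classical
  have hfin : (Δ.subgroupOf Γ).FiniteIndex := ⟨hfi⟩
  have : Fintype (Γ ⧸ Δ.subgroupOf Γ) := Fintype.ofFinite _
  let Φ : (Γ ⧸ Δ.subgroupOf Γ) → (Fin n → ℂ) → ℂ := fun c y =>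
    f' (actC ((c.out⁻¹ : Γ) : SLn n) y) - q ((c.out⁻¹ : Γ) : SLn n)
  have hΦ : ∀ (g : Γ) (y : Fin n → ℂ), y ∈ ball k → Φ (g : Γ ⧸ Δ.subgroupOf Γ) y =
      f' (actC ((g⁻¹ : Γ) : SLn n) y) - q ((g⁻¹ : Γ) : SLn n) := by
    intro g y hy
    have h1 : (g : Γ ⧸ Δ.subgroupOf Γ).out⁻¹ * g ∈ Δ.subgroupOf Γ :=
      QuotientGroup.eq.1 (QuotientGroup.out_eq' _)
    rw [Subgroup.mem_subgroupOf] at h1
    have h2 : (g : Γ ⧸ Δ.subgroupOf Γ).out⁻¹ =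
        ((g : Γ ⧸ Δ.subgroupOf Γ).out⁻¹ * g) * g⁻¹ := by group
    change f' (actC (((g : Γ ⧸ Δ.subgroupOf Γ).out⁻¹ : Γ) : SLn n) y) -
      q (((g : Γ ⧸ Δ.subgroupOf Γ).out⁻¹ : Γ) : SLn n) = _
    rw [h2, Subgroup.coe_mul _ ((g : Γ ⧸ Δ.subgroupOf Γ).out⁻¹ * g) g⁻¹,
      Pool.Agent.CMN.JB.actC_mul hs (hU _ (g⁻¹).2) hy,
      hf.per _ h1 _ (Pool.Agent.CMN.JB.actC_mem hs (hU _ (g⁻¹).2) hy),
      hq _ (hle h1) _ (g⁻¹).2]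
    ring
  have hm : (Fintype.card (Γ ⧸ Δ.subgroupOf Γ) : ℂ) ≠ 0 := by
    exact_mod_cast Fintype.card_ne_zero
  refine ⟨fun y => (Fintype.card (Γ ⧸ Δ.subgroupOf Γ) : ℂ)⁻¹ * ∑ c, Φ c y, ?_, ?_⟩
  · refine DifferentiableOn.const_mul (DifferentiableOn.fun_sum fun c _ => ?_) _
    refine DifferentiableOn.sub_const ?_ _
    intro y hy
    have hu := hU _ (c.out⁻¹ : Γ).2
    have h1 : DifferentiableAt ℂ (actC ((c.out⁻¹ : Γ) : SLn n)) y :=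
      (Pool.CMN.Jac.hasFDerivAt_act _ (Pool.Agent.CMN.JB.jf_ne' hs hu hy)).differentiableAt
    exact (hf.hol _ (Pool.Agent.CMN.JB.actC_mem hs hu hy)).comp y h1.differentiableWithinAt
      (fun z hz => Pool.Agent.CMN.JB.actC_mem hs hu hz)
  · intro γ hγ y hy
    have hγy := Pool.Agent.CMN.JB.actC_mem hs (hU _ hγ) hy
    have h1 : ∀ c : Γ ⧸ Δ.subgroupOf Γ, Φ c (actC γ y) =
        Φ ((⟨γ, hγ⟩ : Γ)⁻¹ • c) y + q γ := by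
      intro c
      obtain ⟨g, rfl⟩ := QuotientGroup.mk_surjective c
      have h2 : (⟨γ, hγ⟩ : Γ)⁻¹ • (g : Γ ⧸ Δ.subgroupOf Γ) =
          (((⟨γ, hγ⟩ : Γ)⁻¹ * g : Γ) : Γ ⧸ Δ.subgroupOf Γ) := rfl
      rw [hΦ g _ hγy, h2, hΦ _ _ hy]
      have h3 : (((⟨γ, hγ⟩ : Γ)⁻¹ * g)⁻¹ : Γ) = g⁻¹ * ⟨γ, hγ⟩ := by group
      rw [h3, Subgroup.coe_mul, Pool.Agent.CMN.JB.actC_mul hs (hU _ hγ) hy,
        hq _ (g⁻¹).2 _ hγ]
      ring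
    have h4 : ∑ c : Γ ⧸ Δ.subgroupOf Γ, Φ ((⟨γ, hγ⟩ : Γ)⁻¹ • c) y = ∑ c, Φ c y :=
      Equiv.sum_comp (MulAction.toPerm ((⟨γ, hγ⟩ : Γ)⁻¹)) (fun c => Φ c y)
    simp only [h1, Finset.sum_add_distrib, Finset.sum_const, Finset.card_univ, nsmul_eq_mul, h4]
    field_simp

/-- **Row E3.** -/
theorem e3 : E3 := by
  intro F _ _ _ n v₁ D h Γ Γ' q f' hG hΓ hΓ' hq hf
  exact per_avg (Pool.Agent.CMN.JB.sg_of hG) (fun g hg => Pool.Agent.CMN.JB.isU_of_mem hΓ hg)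
    inf_le_left (Pool.Agent.CMN.FX.isArith_relIndex hG hΓ
      (Pool.Agent.CMN.FX.isArith_inf2 hG hΓ hΓ')) hq hf

end

end Pool.CMP
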