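import Pool.Agent.Lib.CMP.EDefs

/-!
# Tank CMP, row E5 (helper94): a period homomorphism over a basis
-/

set_option autoImplicit false

open Complex
open Pool.Agent.CMN (SLn)

namespace Pool.CMP.E5x

noncomputable section

variable {n : ℕ}

theorem ind_add {S : Finset (SLn n)} {p : SLn n → ℂ}
    (hp : Add (Subgroup.closure (S : Set (SLn n))) p) (A : AddSubgroup ℂ)
    (hA : ∀ s ∈ S, p s ∈ A) : ∀ g ∈ Subgroup.closure (S : Set (SLn n)), p g ∈ A := by
  have h1 : p 1 = 0 := by
    have h := hp 1 (Subgroup.one_mem _) 1 (Subgroup.one_mem _)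
    rw [mul_one] at h
    linear_combination -h
  intro g hg
  induction hg using Subgroup.closure_induction with
  | mem x hx => exact hA x (by exact_mod_cast hx)
  | one => rw [h1]; exact A.zero_mem
  | mul x y hx hy h2 h3 => rw [hp x hx y hy]; exact A.add_mem h2 h3
  | inv x hx h2 =>
    have h := hp x hx x⁻¹ (Subgroup.inv_mem _ hx)
    rw [mul_inv_cancel, h1] at h
    have h3 : p x⁻¹ = -p x := by linear_combination -h
    rw [h3]
    exact A.neg_mem h2

theorem e5 : E5 := by
  intro E _ _ τ₀ n Γ p hfg hp
  obtain ⟨S, rfl⟩ := hfg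
  classical
  let _ : Algebra E ℂ := τ₀.toAlgebra
  have halg : Algebra.IsAlgebraic ℤ E := ⟨fun x =>
    (IsFractionRing.isAlgebraic_iff ℤ ℚ E).mpr (Algebra.IsAlgebraic.isAlgebraic x)⟩
  have hsm : ∀ (c : E) (x : ℂ), c • x = τ₀ c * x := fun c x => by
    rw [Algebra.smul_def]
    rfl
  let W : Submodule E ℂ := Submodule.span E (p '' (S : Set (SLn n)))
  have hWf : Module.Finite E W := by
    refine Module.Finite.iff_fg.mpr ?_
    exact Submodule.fg_span (S.finite_toSet.image p)
  have hW : ∀ g ∈ Subgroup.closure (S : Set (SLn n)), p g ∈ W :=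
    ind_add hp W.toAddSubgroup fun s hs =>
      Submodule.subset_span ⟨s, by exact_mod_cast hs, rfl⟩
  let B := Module.finBasis E W
  have hl : ∀ j, ∃ l : ℂ →ₗ[E] E, l ∘ₗ W.subtype = B.coord j := fun j =>
    LinearMap.exists_extend (B.coord j)
  choose l hl using hl
  obtain ⟨M, hM0, hM⟩ := Algebra.IsAlgebraic.exists_integral_multiples ℤ
    ((Finset.univ ×ˢ S).image fun x : Fin (Module.finrank E W) × SLn n => l x.1 (p x.2))
  have hM0' : (M : E) ≠ 0 := by exact_mod_cast hM0
  refine ⟨Module.finrank E W, fun j => (B j : ℂ) / (M : ℂ), fun j x => (M : E) * l j x,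
    fun j => ⟨fun x y => by
        change (M : E) * l j (x + y) = (M : E) * l j x + (M : E) * l j y
        rw [map_add, mul_add], fun c x => by
        change (M : E) * l j (τ₀ c * x) = c * ((M : E) * l j x)
        rw [← hsm, map_smul, smul_eq_mul]
        ring⟩, fun j => ?_, fun g hg => ?_⟩
  · let A : AddSubgroup ℂ :=
      { carrier := {x | IsIntegral ℤ ((M : E) * l j x)}
        add_mem' := fun {x y} hx hy => by
          change IsIntegral ℤ ((M : E) * l j (x + y))
          rw [map_add, mul_add]
          exact IsIntegral.add hx hy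
        zero_mem' := by
          change IsIntegral ℤ ((M : E) * l j 0)
          rw [map_zero, mul_zero]
          exact isIntegral_zero
        neg_mem' := fun {x} hx => by
          change IsIntegral ℤ ((M : E) * l j (-x))
          rw [map_neg, mul_neg]
          exact IsIntegral.neg hx }
    refine ind_add hp A fun s hs => ?_
    change IsIntegral ℤ ((M : E) * l j (p s))
    have h1 := hM (l j (p s)) (Finset.mem_image.mpr ⟨(j, s), by simp [hs], rfl⟩)
    rwa [zsmul_eq_mul] at h1
  · have h1 := B.sum_repr ⟨p g, hW g hg⟩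
    have h2 := congrArg (fun x : W => (x : ℂ)) h1
    simp only [AddSubmonoidClass.coe_finsetSum, Submodule.coe_smul, hsm] at h2
    rw [← h2]
    refine Finset.sum_congr rfl fun j _ => ?_
    have h3 : l j (p g) = B.repr ⟨p g, hW g hg⟩ j := by
      have := congrArg (fun f : W →ₗ[E] E => f ⟨p g, hW g hg⟩) (hl j)
      simpa using this
    rw [map_mul, h2, h3, map_intCast]
    have hMC : (M : ℂ) ≠ 0 := by exact_mod_cast hM0
    field_simp

end

end Pool.CMP.E5x
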