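import Pool.Agent.Lib.CMP.EDefs
import Pool.Agent.Lib.HCM.Emb

/-!
# Tank CMP: rows E6 and ET (helper51)
-/

set_option autoImplicit false

open scoped ComplexConjugate Matrix
open Complex MeasureTheory
open Pool.Agent.CMN (SLn ball actC hat Cocompact IsArith InSU Good ev theta IsSB InvOne ClosedHol
  IsInt Mat cmat)
open Pool.Agent.HCM (CMData Sig reflex IsMap P2 cj cj_apply)

namespace Pool.CMP

noncomputable section

variable {F E : Type} [Field F] [NumberField F] [Field E] [NumberField E] [Algebra F E]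
  {D : F} {δ : E} {v₁ : F →+* ℝ} {τ₀ : E →+* ℂ}

/-- `τ δ = i √(v D)` if `τ` is above `v` and `Im (τ δ) > 0` -/
theorem delta_pos (H : CMData F E D δ v₁ τ₀) {τ : E →+* ℂ} {v : F →+* ℝ}
    (hv : ∀ a : F, τ (algebraMap F E a) = v a) (h : 0 < (τ δ).im) :
    τ δ = I * (√(v D) : ℂ) := by
  obtain ⟨h1, h2⟩ := H.delta_sq hv
  apply Complex.ext
  · rw [h1, mul_re, I_re, I_im, ofReal_re, ofReal_im]
    ring
  · rw [mul_im, I_re, I_im, ofReal_re, ofReal_im, zero_mul, one_mul, zero_add, ← h2,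
      Real.sqrt_sq h.le]

theorem delta_neg (H : CMData F E D δ v₁ τ₀) {τ : E →+* ℂ} {v : F →+* ℝ}
    (hv : ∀ a : F, τ (algebraMap F E a) = v a) (h : (τ δ).im < 0) :
    τ δ = -(I * (√(v D) : ℂ)) := by
  obtain ⟨h1, h2⟩ := H.delta_sq hv
  apply Complex.ext
  · rw [h1, neg_re, mul_re, I_re, I_im, ofReal_re, ofReal_im]
    ring
  · rw [neg_im, mul_im, I_re, I_im, ofReal_re, ofReal_im, zero_mul, one_mul, zero_add, ← h2,
      Real.sqrt_sq_eq_abs, abs_of_neg h, neg_neg]

theorem e6 : E6 := by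
  intro F E _ _ _ _ _ D δ v₁ τ₀ H N h Γ g lam L hΓ hl hL γ hγ γ' hγ' j
  obtain ⟨c, hc, hcc⟩ := H.exists_conj
  -- entries
  have hent : ∀ j l, ∃ e : E, τ₀ e = γ.1 j l := by
    intro j l
    obtain ⟨x, y, -, -, hxy⟩ := (hΓ γ hγ).1 j l
    refine ⟨algebraMap F E x + algebraMap F E y * δ, ?_⟩
    rw [map_add, map_mul, H.above, H.above, delta_pos H H.above H.upper, hxy]
    ring
  choose e he using hent
  have h1 := hL γ hγ γ' hγ' e he j
  have h2 : ∀ x : E, conj (τ₀ (g x)) = τ₀ (c (g x)) := fun x =>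
    congrArg (fun k : E →+* ℂ => k (g x)) (hc τ₀)
  have h3 : ∀ x : E, conj (τ₀ (g.symm x)) = τ₀ (g.symm (c x)) := fun x =>
    congrArg (fun k : E →+* ℂ => k x) (hc (τ₀.comp (g.symm : E →+* E)))
  have hadd : ∀ (s : Finset (Fin (N + 1))) (f : Fin (N + 1) → ℂ),
      lam (∑ l ∈ s, f l) = ∑ l ∈ s, lam (f l) := by
    intro s f
    classical
    induction s using Finset.induction_on with
    | empty =>
      have h := hl.add 0 0
      rw [add_zero] at h
      simpa using left_eq_add.1 h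
    | insert i s hi ih => rw [Finset.sum_insert hi, Finset.sum_insert hi, hl.add, ih]
  change τ₀ (g.symm (lam (L (γ * γ') j))) = _
  rw [h1, hl.add, hadd, map_add, map_add, map_sum, map_sum]
  congr 1
  refine Finset.sum_congr rfl fun l _ => ?_
  have h4 : conj ((τ₀.comp (g : E →+* E)) (e j l)) = τ₀ (c (g (e j l))) := h2 _
  rw [h4, hl.mul, map_mul, map_mul, ← h3, g.symm_apply_apply, he]

theorem et : ET := by
  intro hTH F E _ _ _ _ _ D δ v₁ τ₀ H n h a φ g P hn hS ha hφ hg hP hP'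
  have hR := H.real
  have hG : Good v₁ D h := ⟨H.int, H.pos, hS.pos, hS.last, hS.neg⟩
  obtain ⟨v, hv⟩ := H.real_on (τ₀.comp (g : E →+* E))
  obtain ⟨κ, Γ, L, hκ, hA, hcoc, hL⟩ := hTH F n v₁ D h a φ v hG ha hφ
  refine ⟨Γ, L, κ⁻¹, hA, ?_, ?_⟩
  · intro γ hγ γ' hγ' e he j
    have hgen : ∀ j l, ∃ p : F × F, e j l = algebraMap F E p.1 + algebraMap F E p.2 * δ := by
      intro j l
      obtain ⟨x, y, hxy⟩ := H.gen (e j l)
      exact ⟨(x, y), hxy⟩
    choose p hp using hgen
    have h1 : cmat v₁ D ((Matrix.of fun j l => (p j l).1, Matrix.of fun j l => (p j l).2) :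
        Mat (n + 1) F) = γ.1 := by
      ext j l
      rw [← he j l, hp j l, map_add, map_mul, H.above, H.above, delta_pos H H.above H.upper]
      change (v₁ (p j l).1 : ℂ) + I * (√(v₁ D) : ℂ) * (v₁ (p j l).2 : ℂ) = _
      ring
    rw [hcoc γ hγ γ' hγ' _ h1 j]
    congr 1
    refine Finset.sum_congr rfl fun l _ => ?_
    congr 1
    have h2 : (τ₀.comp (g : E →+* E)) (e j l) =
        (v (p j l).1 : ℂ) + (v (p j l).2 : ℂ) * (τ₀.comp (g : E →+* E)) δ := by
      rw [hp j l, map_add, map_mul, hv, hv]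
    have h3 : cmat v D ((Matrix.of fun j l => (p j l).1, Matrix.of fun j l => (p j l).2) :
        Mat (n + 1) F) j l = (v (p j l).1 : ℂ) + I * (√(v D) : ℂ) * (v (p j l).2 : ℂ) := rfl
    -- the sign
    have h4 : 0 < ((τ₀.comp (g : E →+* E)) δ).im * v a := by
      have h5 : τ₀ (g (δ * algebraMap F E a)) = (τ₀.comp (g : E →+* E)) δ * v a := by
        rw [← hv, ← map_mul]; rfl
      rw [h5, mul_im, ofReal_re, ofReal_im, mul_zero, zero_add] at hg
      exact hg
    rw [h3, h2]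
    by_cases h5 : 0 < v a
    · rw [if_pos h5, delta_pos H hv ((pos_iff_pos_of_mul_pos h4).2 h5)]
      congr 1
      ring
    · rw [if_neg h5]
      have h6 : v a < 0 := by
        refine lt_of_le_of_ne (not_lt.1 h5) fun h7 => ?_
        rw [h7, mul_zero] at h4
        exact lt_irrefl _ h4
      have h7 : ((τ₀.comp (g : E →+* E)) δ).im < 0 := by
        by_contra h8
        have := mul_nonpos_of_nonneg_of_nonpos (not_lt.1 h8) h6.le
        linarith
      rw [delta_neg H hv h7]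
      simp only [map_add, map_mul, map_neg, conj_I, conj_ofReal]
      ring
  · intro γ hγ y hy
    rw [← hL γ hγ P hP hP' y hy, ← mul_assoc, inv_mul_cancel₀ hκ, one_mul]

end

end Pool.CMP
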