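import Pool.Agent.Lib.CMP.VDefs

/-!
# Tank CMP, row V7: the group of the complement (helper60)
-/

set_option autoImplicit false

open scoped ComplexConjugate Matrix
open Complex

namespace Pool.Agent.CMP

open Pool.Agent.CMN

section

variable {n : ℕ}

theorem emb1_zero_zero (g : SLn n) : (emb1 g).1 0 0 = 1 := rfl

theorem emb1_zero_succ (g : SLn n) (j : Fin (n + 1)) : (emb1 g).1 0 j.succ = 0 := rfl

theorem emb1_succ_zero (g : SLn n) (i : Fin (n + 1)) : (emb1 g).1 i.succ 0 = 0 := rfl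

theorem emb1_succ_succ (g : SLn n) (i j : Fin (n + 1)) : (emb1 g).1 i.succ j.succ = g.1 i j := rfl

theorem emb1_mulVec (g : SLn n) (c : ℂ) (z : Fin (n + 1) → ℂ) :
    (emb1 g).1 *ᵥ (Fin.cons c z : Fin (n + 2) → ℂ) = (Fin.cons c (g.1 *ᵥ z) : Fin (n + 2) → ℂ) := by
  funext i
  refine Fin.cases ?_ (fun i => ?_) i
  · simp [Matrix.mulVec, dotProduct, Fin.sum_univ_succ, emb1_zero_zero, emb1_zero_succ]
  · simp [Matrix.mulVec, dotProduct, Fin.sum_univ_succ, emb1_succ_zero, emb1_succ_succ]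

theorem emb1_mul (g g' : SLn n) : emb1 (g * g') = emb1 g * emb1 g' := by
  apply Subtype.ext
  ext i j
  rw [Matrix.SpecialLinearGroup.coe_mul, Matrix.mul_apply, Fin.sum_univ_succ]
  refine Fin.cases ?_ (fun i => ?_) i <;> refine Fin.cases ?_ (fun j => ?_) j
  · simp [emb1_zero_zero, emb1_zero_succ]
  · simp [emb1_zero_zero, emb1_zero_succ]
  · simp [emb1_succ_zero]
  · simp only [emb1_succ_zero, emb1_succ_succ, zero_mul, zero_add]
    rw [Matrix.SpecialLinearGroup.coe_mul, Matrix.mul_apply]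

theorem emb1_one : emb1 (1 : SLn n) = 1 := by
  have h : emb1 (1 : SLn n) * emb1 1 = emb1 1 * 1 := by rw [← emb1_mul, mul_one, mul_one]
  exact mul_left_cancel h

/-- `emb1` as a homomorphism. -/
noncomputable def embH : SLn n →* SLn (n + 1) where
  toFun := emb1
  map_one' := emb1_one
  map_mul' := emb1_mul

theorem hat_cons (c : ℂ) (y : Fin n → ℂ) :
    hat (Fin.cons c y : Fin (n + 1) → ℂ) = (Fin.cons c (hat y) : Fin (n + 2) → ℂ) := by
  unfold hat
  exact (Fin.cons_snoc_eq_snoc_cons (β := ℂ) c y 1).symm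

theorem actC_emb1 (g : SLn n) (y : Fin n → ℂ) :
    actC (emb1 g) (Fin.cons 0 y : Fin (n + 1) → ℂ) = (Fin.cons 0 (actC g y) : Fin (n + 1) → ℂ) := by
  funext j
  unfold actC
  rw [hat_cons, emb1_mulVec]
  have hl : (Fin.last (n + 1)) = (Fin.last n).succ := rfl
  refine Fin.cases ?_ (fun j => ?_) j
  · rw [Fin.cons_zero]
    have h0 : (Fin.castSucc (0 : Fin (n + 1)) : Fin (n + 2)) = 0 := rfl
    rw [h0, Fin.cons_zero, zero_div]
  · rw [Fin.cons_succ, ← Fin.succ_castSucc, Fin.cons_succ, hl, Fin.cons_succ]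

end

section

variable {n : ℕ} {F : Type} [Field F]

theorem gram_entry {m : ℕ} (U : Matrix (Fin m) (Fin m) ℂ) (d : Fin m → ℂ) (i j : Fin m) :
    (Uᴴ * Matrix.diagonal d * U) i j = ∑ l, conj (U l i) * d l * U l j := by
  rw [Matrix.mul_apply]
  simp [Matrix.mul_diagonal, Matrix.conjTranspose_apply]

/-- The isometries of the complement, as isometries of the whole space. -/
theorem inSU_emb1 (v₁ : F →+* ℝ) (D hx : F) (h : Fin (n + 1) → F) (g : SLn n) :
    InSU v₁ D (Fin.cons hx h : Fin (n + 2) → F) (emb1 g) ↔ InSU v₁ D h g := by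
  have hI0 : IsInt v₁ D 0 := ⟨0, 0, isIntegral_zero, isIntegral_zero, by simp⟩
  have hI1 : IsInt v₁ D 1 := ⟨1, 0, isIntegral_one, isIntegral_zero, by simp⟩
  have key : ∀ i j : Fin (n + 1), ((emb1 g).1ᴴ * Matrix.diagonal (fun j =>
      (v₁ ((Fin.cons hx h : Fin (n + 2) → F) j) : ℂ)) * (emb1 g).1) i.succ j.succ =
      (g.1ᴴ * Matrix.diagonal (fun j => (v₁ (h j) : ℂ)) * g.1) i j := by
    intro i j
    rw [gram_entry, gram_entry, Fin.sum_univ_succ]
    simp only [emb1_zero_succ, emb1_succ_succ, map_zero, zero_mul, zero_add, Fin.cons_succ]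
  have kd : ∀ i j : Fin (n + 1), (Matrix.diagonal (fun j =>
      (v₁ ((Fin.cons hx h : Fin (n + 2) → F) j) : ℂ))) i.succ j.succ =
      (Matrix.diagonal (fun j => (v₁ (h j) : ℂ))) i j := by
    intro i j
    simp only [Matrix.diagonal_apply, Fin.succ_inj, Fin.cons_succ]
  constructor
  · rintro ⟨h1, h2⟩
    refine ⟨fun i j => ?_, ?_⟩
    · have := h1 i.succ j.succ
      rwa [emb1_succ_succ] at this
    · ext i j
      rw [← key, h2, kd]
  · rintro ⟨h1, h2⟩
    refine ⟨fun i j => ?_, ?_⟩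
    · refine Fin.cases ?_ (fun i => ?_) i <;> refine Fin.cases ?_ (fun j => ?_) j
      · rw [emb1_zero_zero]; exact hI1
      · rw [emb1_zero_succ]; exact hI0
      · rw [emb1_succ_zero]; exact hI0
      · rw [emb1_succ_succ]; exact h1 i j
    · ext i j
      refine Fin.cases ?_ (fun i => ?_) i <;> refine Fin.cases ?_ (fun j => ?_) j
      · rw [gram_entry, Fin.sum_univ_succ]
        simp [emb1_zero_zero, emb1_succ_zero]
      · rw [gram_entry, Fin.sum_univ_succ, Matrix.diagonal_apply_ne _ (Fin.succ_ne_zero j).symm]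
        simp [emb1_zero_succ, emb1_succ_zero]
      · rw [gram_entry, Fin.sum_univ_succ, Matrix.diagonal_apply_ne _ (Fin.succ_ne_zero i)]
        simp [emb1_zero_succ, emb1_succ_zero]
      · rw [key, h2, kd]

end

theorem v7 : V7 := by
  classical
  intro F _ _ _ n v₁ D hx h Γ _ _ hΓ
  refine ⟨Γ.comap embH, ⟨fun g hg => ?_, ?_⟩, fun g hg => hg, fun g _ y _ => actC_emb1 g y⟩
  · exact (inSU_emb1 v₁ D hx h g).1 (hΓ.le _ hg)
  · obtain ⟨S, hS, hS2⟩ := hΓ.fin
    let c : SLn (n + 1) → SLn n := fun t =>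
      if ht : ∃ g : SLn n, ∃ γ ∈ Γ, emb1 g = γ * t then ht.choose else 1
    refine ⟨c '' S, hS.image c, fun g hg => ?_⟩
    obtain ⟨γ, hγ, t, ht, h1⟩ := hS2 (emb1 g) ((inSU_emb1 v₁ D hx h g).2 hg)
    have hex : ∃ g : SLn n, ∃ γ ∈ Γ, emb1 g = γ * t := ⟨g, γ, hγ, h1⟩
    have hct : c t = hex.choose := dif_pos hex
    obtain ⟨γ', hγ', h2⟩ := hex.choose_spec
    rw [← hct] at h2
    refine ⟨g * (c t)⁻¹, ?_, c t, ⟨t, ht, rfl⟩, by group⟩
    change embH (g * (c t)⁻¹) ∈ Γ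
    rw [map_mul, map_inv]
    change emb1 g * (emb1 (c t))⁻¹ ∈ Γ
    rw [h1, h2]
    have : γ * t * (γ' * t)⁻¹ = γ * γ'⁻¹ := by group
    rw [this]
    exact Γ.mul_mem hγ (Γ.inv_mem hγ')

end Pool.Agent.CMP
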