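import Pool.Agent.Lib.CMP.E8
import Pool.Agent.Lib.CMP.V7

/-!
# Tank CMP, rows E7b and E7c: the geometry of the embedding `SU(W) → SU(V)` (helper52)
-/

set_option autoImplicit false

open scoped ComplexConjugate Matrix
open Complex MeasureTheory
open Pool.Agent.CMN (SLn ball actC hat Cocompact IsArith InSU Good ev)

namespace Pool.CMP

noncomputable section

variable {n : ℕ}

theorem hV_zero {F : Type} [Field F] (h : Fin (n + 1) → F) : hV h 0 = 1 := rfl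

theorem hV_succ {F : Type} [Field F] (h : Fin (n + 1) → F) (j : Fin (n + 1)) :
    hV h j.succ = h j := rfl

theorem good_hV {F : Type} [Field F] [NumberField F] {v₁ : F →+* ℝ} {D : F}
    {h : Fin (n + 1) → F} (hG : Good v₁ D h) : Good v₁ D (hV h) := by
  have hlast : hV h (Fin.last (n + 1)) = h (Fin.last n) := hV_succ h (Fin.last n)
  refine ⟨hG.Di, hG.D0, fun v j => ?_, fun v hv => ?_, ?_⟩
  · refine Fin.cases ?_ (fun i => ?_) j
    · have h0 : ((0 : Fin (n + 1)).castSucc : Fin (n + 2)) = 0 := rfl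
      rw [h0, hV_zero, map_one]
      exact one_pos
    · rw [← Fin.succ_castSucc, hV_succ]
      exact hG.hp v i
  · rw [hlast]
    exact hG.hl v hv
  · rw [hlast]
    exact hG.hn

theorem emb_mul (g g' : SLn n) : emb (g * g') = emb g * emb g' := by
  rw [E8x.emb_eq, E8x.emb_eq, E8x.emb_eq, Pool.Agent.CMP.emb1_mul]

theorem inSU_emb {F : Type} [Field F] {v₁ : F →+* ℝ} {D : F} {h : Fin (n + 1) → F} {g : SLn n} :
    InSU v₁ D (hV h) (emb g) ↔ InSU v₁ D h g := by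
  rw [E8x.emb_eq]
  exact Pool.Agent.CMP.inSU_emb1 v₁ D 1 h g

theorem ext_mem_ball {F : Type} [Field F] [NumberField F] {v₁ : F →+* ℝ}
    {h : Fin (n + 1) → F} (y : Fin n → ℂ) :
    y ∈ ball (ev v₁ h) ↔ ext y ∈ ball (ev v₁ (hV h)) := by
  have h1 : ∑ j : Fin (n + 1), ev v₁ (hV h) j.castSucc * ‖ext y j‖ ^ 2 =
      ∑ j : Fin n, ev v₁ h j.castSucc * ‖y j‖ ^ 2 := by
    rw [Fin.sum_univ_succ]
    have h0 : ext y 0 = 0 := rfl
    rw [h0, norm_zero, zero_pow two_ne_zero, mul_zero, zero_add]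
    rfl
  have h2 : ev v₁ (hV h) (Fin.last (n + 1)) = ev v₁ h (Fin.last n) := rfl
  change ∑ j : Fin n, ev v₁ h j.castSucc * ‖y j‖ ^ 2 + ev v₁ h (Fin.last n) < 0 ↔
    ∑ j : Fin (n + 1), ev v₁ (hV h) j.castSucc * ‖ext y j‖ ^ 2 +
      ev v₁ (hV h) (Fin.last (n + 1)) < 0
  rw [h1, h2]

theorem actC_emb (g : SLn n) (y : Fin n → ℂ) : actC (emb g) (ext y) = ext (actC g y) := by
  rw [E8x.emb_eq]
  exact Pool.Agent.CMP.actC_emb1 g y

/-- **Row E7b.** -/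
theorem e7b : E7b := by
  intro F _ _ n v₁ D h hG
  exact ⟨good_hV hG, emb_mul, fun g hg => inSU_emb.2 hg, ext_mem_ball, actC_emb⟩

/-- **Row E7c.** -/
theorem e7c : E7c := by
  classical
  intro F _ _ n v₁ D h Γ _ hΓ
  refine ⟨Γ.comap Pool.Agent.CMP.embH, ⟨fun g hg => ?_, ?_⟩, fun g hg => ?_⟩
  · exact (Pool.Agent.CMP.inSU_emb1 v₁ D 1 h g).1 (hΓ.le _ hg)
  · obtain ⟨S, hS, hS2⟩ := hΓ.fin
    let c : SLn (n + 1) → SLn n := fun t =>
      if ht : ∃ g : SLn n, ∃ γ ∈ Γ, Pool.Agent.CMP.emb1 g = γ * t then ht.choose else 1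
    refine ⟨c '' S, hS.image c, fun g hg => ?_⟩
    obtain ⟨γ, hγ, t, ht, h1⟩ := hS2 (Pool.Agent.CMP.emb1 g)
      ((Pool.Agent.CMP.inSU_emb1 v₁ D 1 h g).2 hg)
    have hex : ∃ g : SLn n, ∃ γ ∈ Γ, Pool.Agent.CMP.emb1 g = γ * t := ⟨g, γ, hγ, h1⟩
    have hct : c t = hex.choose := dif_pos hex
    obtain ⟨γ', hγ', h2⟩ := hex.choose_spec
    rw [← hct] at h2
    refine ⟨g * (c t)⁻¹, ?_, c t, ⟨t, ht, rfl⟩, by group⟩
    change Pool.Agent.CMP.embH (g * (c t)⁻¹) ∈ Γ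
    rw [map_mul, map_inv]
    change Pool.Agent.CMP.emb1 g * (Pool.Agent.CMP.emb1 (c t))⁻¹ ∈ Γ
    rw [h1, h2]
    have : γ * t * (γ' * t)⁻¹ = γ * γ'⁻¹ := by group
    rw [this]
    exact Γ.mul_mem hγ (Γ.inv_mem hγ')
  · rw [E8x.emb_eq]
    exact hg

end

end Pool.CMP
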