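import Pool.Agent.Lib.CMN.Jac

/-!
# Tank CMP (the CM type of theta one-forms), block K: definitions and rows (helper37)

`k` is a hermitian form of signature `(n,1)` on `ℂ^(n+1)`, `ρ(w) = -k(w,w)`, and the cone is
`ρ > 0`.  Every cocycle of a cocompact group `Γ` with values in `ℂ^(n+1)`, acted on by `conj γ`,
comes from a holomorphic function on the cone, homogeneous of degree one (`n ≥ 2`).
-/

set_option autoImplicit false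

open scoped ComplexConjugate Matrix
open Complex MeasureTheory

namespace Pool.CMP

noncomputable section

variable {n : ℕ}

/-- The hermitian form, conjugate linear in `z`. -/
def H (k : Fin (n + 1) → ℝ) (z w : Fin (n + 1) → ℂ) : ℂ := ∑ j, (k j : ℂ) * conj (z j) * w j

/-- `ρ(w) = -k(w,w)`. -/
def rho (k : Fin (n + 1) → ℝ) (w : Fin (n + 1) → ℂ) : ℝ := -∑ j, k j * ‖w j‖ ^ 2

/-- The cone `ρ > 0`. -/
def cone (k : Fin (n + 1) → ℝ) : Set (Fin (n + 1) → ℂ) := {w | 0 < rho k w}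

/-- `t(w,z) = |k(z,w)|² / (ρ(z) ρ(w))`, it is `≥ 1` on the cone. -/
def tt (k : Fin (n + 1) → ℝ) (w z : Fin (n + 1) → ℂ) : ℝ := ‖H k z w‖ ^ 2 / (rho k z * rho k w)

/-- Smooth, `1` for `t ≤ 1`, positive for `t < 2`, `0` for `2 ≤ t`. -/
def kf (t : ℝ) : ℝ := Real.smoothTransition (2 - t)

/-- Smooth, positive for `1/2 < r < 2`, `0` elsewhere. -/
def eta (r : ℝ) : ℝ := Real.smoothTransition (r - 1 / 2) * Real.smoothTransition (2 - r)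

/-- The kernel. -/
def ker (k : Fin (n + 1) → ℝ) (w z : Fin (n + 1) → ℂ) : ℂ :=
  ((kf (tt k w z) * eta (rho k z) : ℝ) : ℂ) * (H k z w / H k z z)

/-- The averaging operator. -/
def Av (k : Fin (n + 1) → ℝ) (S : (Fin (n + 1) → ℂ) → ℂ) (w : Fin (n + 1) → ℂ) : ℂ :=
  ∫ z, ker k w z * S z

/-- The last basis vector, a point of the cone. -/
def en (n : ℕ) : Fin (n + 1) → ℂ := Pi.single (Fin.last n) 1

/-- The eigenvalue on linear functions. -/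
def alpha0 (k : Fin (n + 1) → ℝ) : ℝ :=
  ∫ z, kf (tt k (en n) z) * eta (rho k z) * tt k (en n) z

/-- The bound on sections. -/
def alpha1 (k : Fin (n + 1) → ℝ) : ℝ :=
  ∫ z, kf (tt k (en n) z) * eta (rho k z) * √(tt k (en n) z)

/-- `∂f/∂w_j`. -/
def dz (f : (Fin (n + 1) → ℂ) → ℂ) (j : Fin (n + 1)) (w : Fin (n + 1) → ℂ) : ℂ :=
  (1 / 2 : ℂ) * (fderiv ℝ f w (Pi.single j 1) - I * fderiv ℝ f w (Pi.single j I))

/-- `∂f/∂(conj w_j)`. -/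
def dzb (f : (Fin (n + 1) → ℂ) → ℂ) (j : Fin (n + 1)) (w : Fin (n + 1) → ℂ) : ℂ :=
  (1 / 2 : ℂ) * (fderiv ℝ f w (Pi.single j 1) + I * fderiv ℝ f w (Pi.single j I))

/-- The flat Laplace operator of signature `(n,1)`. -/
def Box (k : Fin (n + 1) → ℝ) (f : (Fin (n + 1) → ℂ) → ℂ) (w : Fin (n + 1) → ℂ) : ℂ :=
  ∑ j, ((k j)⁻¹ : ℂ) * dz (dzb f j) j w

/-- Homogeneous of degree one. -/
def Hom1 (k : Fin (n + 1) → ℝ) (S : (Fin (n + 1) → ℂ) → ℂ) : Prop :=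
  ∀ c : ℂ, c ≠ 0 → ∀ w ∈ cone k, S (c • w) = c * S w

/-- A cocompact, properly discontinuous group of isometries, in terms of the cone. -/
structure Disc (k : Fin (n + 1) → ℝ)
    (Γ : Subgroup (Matrix.SpecialLinearGroup (Fin (n + 1)) ℂ)) : Prop where
  isU : ∀ g ∈ Γ, Pool.CMN.Jac.IsU k g.1
  /-- proper discontinuity -/
  pd : ∀ Q : Set (Fin (n + 1) → ℂ), IsCompact Q → Q ⊆ cone k →
    {g : Γ | ∃ w ∈ Q, g.1.1 *ᵥ w ∈ Q}.Finite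
  /-- cocompactness -/
  cc : ∃ Q : Set (Fin (n + 1) → ℂ), IsCompact Q ∧ Q ⊆ cone k ∧ ∀ w ∈ cone k, ∃ g ∈ Γ,
    ∃ c : ℂ, c ≠ 0 ∧ c • (g.1 *ᵥ w) ∈ Q

/-- Cocycles with values in `ℂ^(n+1)`, acted on by `conj γ`. -/
def Coc (Γ : Subgroup (Matrix.SpecialLinearGroup (Fin (n + 1)) ℂ))
    (L : Matrix.SpecialLinearGroup (Fin (n + 1)) ℂ → Fin (n + 1) → ℂ) : Prop :=
  ∀ g ∈ Γ, ∀ g' ∈ Γ, ∀ j, L (g * g') j = ∑ l, conj (g.1 j l) * L g' l + L g j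

/-- `S` is a primitive of the cocycle `L`. -/
def Prim (k : Fin (n + 1) → ℝ) (Γ : Subgroup (Matrix.SpecialLinearGroup (Fin (n + 1)) ℂ))
    (L : Matrix.SpecialLinearGroup (Fin (n + 1)) ℂ → Fin (n + 1) → ℂ)
    (S : (Fin (n + 1) → ℂ) → ℂ) : Prop :=
  ∀ g ∈ Γ, ∀ w ∈ cone k, S (g.1 *ᵥ w) = S w + ∑ j, (k j : ℂ) * L g j * (g.1 *ᵥ w) j

/-! ## The rows of block K -/

/-- K1: reversed Cauchy-Schwarz, and compactness of the support of the kernel. -/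
def K1 : Prop := ∀ (n : ℕ) (k : Fin (n + 1) → ℝ), Pool.CMN.Jac.Sg k →
  (∀ z ∈ cone k, ∀ w ∈ cone k, 1 ≤ tt k w z) ∧
  ∀ Q : Set (Fin (n + 1) → ℂ), IsCompact Q → Q ⊆ cone k →
    ∃ Q' : Set (Fin (n + 1) → ℂ), IsCompact Q' ∧ Q' ⊆ cone k ∧
      ∀ w ∈ Q, ∀ z, 1 / 2 ≤ rho k z → rho k z ≤ 2 → tt k w z ≤ 2 → z ∈ Q'

/-- K2: invariance and homogeneity of the averaging operator. -/
def K2 : Prop := ∀ (n : ℕ) (k : Fin (n + 1) → ℝ), Pool.CMN.Jac.Sg k →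
  (∀ g : Matrix.SpecialLinearGroup (Fin (n + 1)) ℂ, Pool.CMN.Jac.IsU k g.1 →
    ∀ (S : (Fin (n + 1) → ℂ) → ℂ) (w : Fin (n + 1) → ℂ),
      Av k S (g.1 *ᵥ w) = Av k (fun z => S (g.1 *ᵥ z)) w) ∧
  ∀ (S : (Fin (n + 1) → ℂ) → ℂ) (c : ℂ), c ≠ 0 → ∀ w, Av k S (c • w) = c * Av k S w

/-- K3: linear functions are eigenfunctions. -/
def K3 : Prop := ∀ (n : ℕ) (k : Fin (n + 1) → ℝ), Pool.CMN.Jac.Sg k →
  ∀ (l : Fin (n + 1) → ℂ), ∀ w ∈ cone k,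
    Av k (fun z => ∑ j, l j * z j) w = (alpha0 k : ℂ) * ∑ j, l j * w j

/-- K4: the contraction estimate. -/
def K4 : Prop := ∀ (n : ℕ) (k : Fin (n + 1) → ℝ), 1 ≤ n → Pool.CMN.Jac.Sg k →
  0 ≤ alpha1 k ∧ alpha1 k < alpha0 k ∧
  ∀ (u : (Fin (n + 1) → ℂ) → ℂ) (C : ℝ), ContinuousOn u (cone k) →
    (∀ z ∈ cone k, ‖u z‖ ≤ C * √(rho k z)) →
    ∀ w ∈ cone k, ‖Av k u w‖ ≤ alpha1 k * C * √(rho k w)

/-- K5: smoothing. -/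
def K5 : Prop := ∀ (n : ℕ) (k : Fin (n + 1) → ℝ), Pool.CMN.Jac.Sg k →
  ∀ S : (Fin (n + 1) → ℂ) → ℂ, ContinuousOn S (cone k) →
    ∀ m : ℕ, ContDiffOn ℝ m (Av k S) (cone k)

/-- K6: a continuous primitive. -/
def K6 : Prop := ∀ (n : ℕ) (k : Fin (n + 1) → ℝ)
  (Γ : Subgroup (Matrix.SpecialLinearGroup (Fin (n + 1)) ℂ))
  (L : Matrix.SpecialLinearGroup (Fin (n + 1)) ℂ → Fin (n + 1) → ℂ),
  Pool.CMN.Jac.Sg k → Disc k Γ → Coc Γ L →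
  ∃ S : (Fin (n + 1) → ℂ) → ℂ, ContinuousOn S (cone k) ∧ Hom1 k S ∧ Prim k Γ L S

/-- K7: invariant sections are bounded. -/
def K7 : Prop := ∀ (n : ℕ) (k : Fin (n + 1) → ℝ)
  (Γ : Subgroup (Matrix.SpecialLinearGroup (Fin (n + 1)) ℂ))
  (u : (Fin (n + 1) → ℂ) → ℂ), Pool.CMN.Jac.Sg k → Disc k Γ → ContinuousOn u (cone k) →
  Hom1 k u → (∀ g ∈ Γ, ∀ w ∈ cone k, u (g.1 *ᵥ w) = u w) →
  ∃ C : ℝ, 0 ≤ C ∧ ∀ w ∈ cone k, ‖u w‖ ≤ C * √(rho k w)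

/-- K8: the fixed point. -/
def K8 : Prop := ∀ (n : ℕ) (k : Fin (n + 1) → ℝ)
  (Γ : Subgroup (Matrix.SpecialLinearGroup (Fin (n + 1)) ℂ))
  (L : Matrix.SpecialLinearGroup (Fin (n + 1)) ℂ → Fin (n + 1) → ℂ),
  1 ≤ n → Pool.CMN.Jac.Sg k → Disc k Γ → Coc Γ L →
  ∃ S : (Fin (n + 1) → ℂ) → ℂ, ContinuousOn S (cone k) ∧ Hom1 k S ∧ Prim k Γ L S ∧
    ∀ w ∈ cone k, Av k S w = (alpha0 k : ℂ) * S w

/-- K9: `ρ □` commutes with the averaging operator. -/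
def K9 : Prop := ∀ (n : ℕ) (k : Fin (n + 1) → ℝ), Pool.CMN.Jac.Sg k →
  ∀ S : (Fin (n + 1) → ℂ) → ℂ, (∀ m : ℕ, ContDiffOn ℝ m S (cone k)) → Hom1 k S →
    ∀ w ∈ cone k, Av k (fun z => (rho k z : ℂ) * Box k S z) w = (rho k w : ℂ) * Box k (Av k S) w

/-- K10: the divergence identity, integrated over `Γ\cone`. -/
def K10 : Prop := ∀ (n : ℕ) (k : Fin (n + 1) → ℝ)
  (Γ : Subgroup (Matrix.SpecialLinearGroup (Fin (n + 1)) ℂ))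
  (L : Matrix.SpecialLinearGroup (Fin (n + 1)) ℂ → Fin (n + 1) → ℂ)
  (S : (Fin (n + 1) → ℂ) → ℂ),
  2 ≤ n → Pool.CMN.Jac.Sg k → Disc k Γ → (∀ m : ℕ, ContDiffOn ℝ m S (cone k)) → Hom1 k S →
  Prim k Γ L S → (∀ w ∈ cone k, Box k S w = 0) → ∀ w ∈ cone k, ∀ j, dzb S j w = 0

/-- KOD, the theorem of block K. -/
def KOD : Prop := ∀ (n : ℕ) (k : Fin (n + 1) → ℝ)
  (Γ : Subgroup (Matrix.SpecialLinearGroup (Fin (n + 1)) ℂ))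
  (L : Matrix.SpecialLinearGroup (Fin (n + 1)) ℂ → Fin (n + 1) → ℂ),
  2 ≤ n → Pool.CMN.Jac.Sg k → Disc k Γ → Coc Γ L →
  ∃ S : (Fin (n + 1) → ℂ) → ℂ, DifferentiableOn ℂ S (cone k) ∧ Hom1 k S ∧ Prim k Γ L S

end

end Pool.CMP
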