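import Pool.Agent.Lib.CMN.Api
import Pool.Agent.Lib.CMP.KDefs

/-!
# Tank CMP (the CM type of theta one-forms), block V: vector valued theta one-forms (helper37)
-/

set_option autoImplicit false

open scoped ComplexConjugate Matrix
open Complex

namespace Pool.Agent.CMP

open Pool.Agent.CMN

noncomputable section

variable {n : ℕ} {F : Type} [Field F] [NumberField F]

/-- The scalar theta function `∑ φ(ξ) gauss(ξ, y)`. -/
def theta0 (v₁ : F →+* ℝ) (D : F) (h : Fin (n + 1) → F) (a : F) (φ : (Fin (n + 1) → F) → ℂ)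
    (y : Fin n → ℂ) : ℂ := ∑' ξ : Fin (n + 1) → F, φ ξ * gauss v₁ D h a ξ y

open Classical in
/-- The linear factor of the place `v`: `v(ξ_m)`, and for `v = v₁` the projection
`v₁(ξ_m) + ⟨ξ, yh⟩ yh_m / w²`. -/
def vfac (v₁ v : F →+* ℝ) (h : Fin (n + 1) → F) (m : Fin (n + 1)) (ξ : Fin (n + 1) → F)
    (y : Fin n → ℂ) : ℂ :=
  (v (ξ m) : ℂ) + if v = v₁ then hat y m * s (ev v₁ h) (ev v₁ ξ) y / w (ev v₁ h) y else 0

open Classical in
/-- The vector valued theta one-form at the place `v`: the coefficient of `dy_j` in the component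
`m`. -/
def vform (v₁ v : F →+* ℝ) (D : F) (h : Fin (n + 1) → F) (a : F) (φ : (Fin (n + 1) → F) → ℂ)
    (m : Fin (n + 1)) (j : Fin n) (y : Fin n → ℂ) : ℂ :=
  (∑' ξ : Fin (n + 1) → F, φ ξ * gauss v₁ D h a ξ y * vfac v₁ v h m ξ y *
      ds (ev v₁ h) (ev v₁ ξ) j y) -
    if v = v₁ then (√(v₁ D) / (4 * Real.pi * v₁ a) : ℝ) * theta0 v₁ D h a φ y *
      ((if m = j.castSucc then 1 else 0) / w (ev v₁ h) y +
        hat y m * ((v₁ (h j.castSucc) : ℂ) * y j) / w (ev v₁ h) y ^ 3) else 0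

/-- `conj z` if `v a > 0`, `z` otherwise. -/
def cjs (v : F →+* ℝ) (a : F) (z : ℂ) : ℂ := if 0 < v a then conj z else z

/-! ## The rows -/

/-- V1: invariance, in terms of pairs. -/
def V1 : Prop :=
  ∀ (F : Type) [Field F] [NumberField F] [NumberField.IsTotallyReal F] (n : ℕ) (v₁ : F →+* ℝ)
    (D : F) (h : Fin (n + 1) → F) (a : F) (N : ℕ), Good v₁ D h → 0 < v₁ a → 0 < N →
    ∃ c : ℕ, 0 < c ∧ ∀ (G : Type) [Group G] (e : G → Mat n F), (∀ γ, e γ ∈ Gam D h c) →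
      e 1 = (1, 0) → (∀ γ γ', e (γ * γ') = mulM D (e γ) (e γ')) →
      ∃ Γ : Subgroup G, Γ.FiniteIndex ∧ ∀ γ ∈ Γ, ∀ φ : (Fin (n + 1) → F) → ℂ,
        SBJ N (fun ξ : Unit → Fin (n + 1) → F => φ (ξ ())) → ∀ y ∈ ball (ev v₁ h),
        ∀ (v : F →+* ℝ) m j,
        ∑ l, vform v₁ v D h a φ m l (act v₁ D (e γ) y) * dact v₁ D (e γ) y l j =
          ∑ m', cjs v a (cmat v D (e γ) m m') * vform v₁ v D h a φ m' j y

/-- V2: the vector valued theta one-forms are holomorphic and closed. -/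
def V2 : Prop :=
  ∀ (F : Type) [Field F] [NumberField F] [NumberField.IsTotallyReal F] (n : ℕ) (v₁ v : F →+* ℝ)
    (D : F) (h : Fin (n + 1) → F) (a : F) (φ : (Fin (n + 1) → F) → ℂ) (m : Fin (n + 1)),
    Good v₁ D h → 0 < v₁ a → IsSB φ → ClosedHol (ev v₁ h) (vform v₁ v D h a φ m)

/-- V3: a closed holomorphic one-form on the ball has a primitive. -/
def V3 : Prop := ∀ (n : ℕ) (k : Fin (n + 1) → ℝ) (ω : Fin n → (Fin n → ℂ) → ℂ), Sg k →
  ClosedHol k ω → ∃ R : (Fin n → ℂ) → ℂ, DifferentiableOn ℂ R (ball k) ∧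
    ∀ y ∈ ball k, ∀ j, fderiv ℂ R y (Pi.single j 1) = ω j y

/-- V4: the cocycle of the place `v` (from V1, V2, V3, GAMFIN). -/
def V4 : Prop :=
  ∀ (F : Type) [Field F] [NumberField F] [NumberField.IsTotallyReal F] (n : ℕ) (v₁ v : F →+* ℝ)
    (D : F) (h : Fin (n + 1) → F) (a : F) (φ : (Fin (n + 1) → F) → ℂ),
    Good v₁ D h → 0 < v₁ a → IsSB φ →
    ∃ Γ : Subgroup (SLn n), IsArith v₁ D h Γ ∧ ∃ R : Fin (n + 1) → (Fin n → ℂ) → ℂ,
      (∀ m, DifferentiableOn ℂ (R m) (ball (ev v₁ h))) ∧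
      (∀ m, ∀ y ∈ ball (ev v₁ h), ∀ j,
        fderiv ℂ (R m) y (Pi.single j 1) = vform v₁ v D h a φ m j y) ∧
      ∀ g ∈ Γ, ∀ p ∈ Gam D h 1, cmat v₁ D p = g.1 → ∃ L : Fin (n + 1) → ℂ,
        ∀ y ∈ ball (ev v₁ h), ∀ m,
          R m (actC g y) = ∑ m', cjs v a (cmat v D p m m') * R m' y + L m

/-- The constant of the restriction to the orthogonal complement of the first basis vector. -/
def kap (v : F →+* ℝ) (D hx a : F) (φx : F → ℂ) : ℂ :=
  ∑' ξ : F, φx ξ * cexp (-(Real.pi : ℂ) * ∑ u : F →+* ℝ,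
    ((|u a| / √(u D) * (u hx * u ξ * u ξ) : ℝ) : ℂ)) * (v ξ : ℂ)

/-- Schwartz-Bruhat functions on `F`. -/
def IsSB1 (φx : F → ℂ) : Prop :=
  ∃ N : ℕ, 0 < N ∧ (∀ ξ, φx ξ ≠ 0 → IsIntegral ℤ ((N : F) * ξ)) ∧
    ∀ ξ η : F, IsIntegral ℤ η → φx (ξ + (N : F) * η) = φx ξ

/-- The product function on `F^(n+2) = F × F^(n+1)`. -/
def prodSB (φx : F → ℂ) (φ : (Fin (n + 1) → F) → ℂ) : (Fin (n + 2) → F) → ℂ :=
  fun ξ => φx (ξ 0) * φ (Fin.tail ξ)

/-- V5: restriction to the ball of the orthogonal complement of the first basis vector. -/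
def V5 : Prop :=
  ∀ (F : Type) [Field F] [NumberField F] [NumberField.IsTotallyReal F] (n : ℕ) (v₁ v : F →+* ℝ)
    (D hx : F) (h : Fin (n + 1) → F) (a : F) (φx : F → ℂ) (φ : (Fin (n + 1) → F) → ℂ),
    Good v₁ D h → (∀ u : F →+* ℝ, 0 < u hx) → 0 < v₁ a → IsSB1 φx → IsSB φ →
    IsSB (prodSB φx φ) ∧ Good v₁ D (Fin.cons hx h : Fin (n + 2) → F) ∧
    ∀ y ∈ ball (ev v₁ h), ∀ j : Fin n,
      vform v₁ v D (Fin.cons hx h : Fin (n + 2) → F) a (prodSB φx φ) 0 j.succ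
        (Fin.cons 0 y : Fin (n + 1) → ℂ) = kap v D hx a φx * theta v₁ D h a φ j y

/-- V6: the constant is not zero for some `φx`. -/
def V6 : Prop :=
  ∀ (F : Type) [Field F] [NumberField F] [NumberField.IsTotallyReal F] (v : F →+* ℝ) (D hx a : F),
    (∀ u : F →+* ℝ, 0 < u D) → (∀ u : F →+* ℝ, 0 < u hx) → a ≠ 0 →
    ∃ φx : F → ℂ, IsSB1 φx ∧ kap v D hx a φx ≠ 0

/-- The embedding of `SL_(n+1)` into `SL_(n+2)` as the stabiliser of the first basis vector. -/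
def emb1 (g : SLn n) : SLn (n + 1) :=
  ⟨Matrix.of fun i j => Fin.cases (Fin.cases 1 (fun _ => 0) j)
    (fun i' => Fin.cases 0 (fun j' => g.1 i' j') j) i, by
    rw [Matrix.det_succ_row_zero]
    simp only [Fin.sum_univ_succ, Matrix.of_apply, Fin.cases_zero, Fin.cases_succ]
    simp only [Fin.val_zero, pow_zero, mul_zero, zero_mul, Finset.sum_const_zero, add_zero,
      one_mul, mul_one]
    have : (Matrix.submatrix (Matrix.of fun (i j : Fin (n + 2)) =>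
        (Fin.cases (Fin.cases (1 : ℂ) (fun _ => 0) j)
        (fun i' => Fin.cases 0 (fun j' => g.1 i' j') j) i : ℂ)) Fin.succ (Fin.succAbove 0)) =
        g.1 := by
      ext i j
      simp
    rw [this]
    exact g.2⟩

/-- V7: the group of the complement. -/
def V7 : Prop :=
  ∀ (F : Type) [Field F] [NumberField F] [NumberField.IsTotallyReal F] (n : ℕ) (v₁ : F →+* ℝ)
    (D hx : F) (h : Fin (n + 1) → F) (Γ : Subgroup (SLn (n + 1))), Good v₁ D h →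
    (∀ u : F →+* ℝ, 0 < u hx) → IsArith v₁ D (Fin.cons hx h : Fin (n + 2) → F) Γ →
    ∃ Γ' : Subgroup (SLn n), IsArith v₁ D h Γ' ∧ (∀ g ∈ Γ', emb1 g ∈ Γ) ∧
      ∀ g ∈ Γ', ∀ y ∈ ball (ev v₁ h),
        actC (emb1 g) (Fin.cons 0 y : Fin (n + 1) → ℂ) = (Fin.cons 0 (actC g y) : Fin (n + 1) → ℂ)

end

end Pool.Agent.CMP
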