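import Pool.Agent.Lib.CMP.EDefs
import Pool.Agent.Lib.CMP.VDefs
import Pool.Agent.Lib.K708.HolAn

/-!
# Tank CMP, row E8 = X (helper94): the derivative of a holomorphic primitive in the direction `x`
-/

set_option autoImplicit false

open scoped ComplexConjugate Matrix Topology
open Complex MeasureTheory
open Pool.Agent.CMN (SLn ball actC hat Cocompact IsArith InSU Good ev theta IsSB InvOne ClosedHol)

namespace Pool.CMP.E8x

noncomputable section

variable {n : ℕ}

theorem continuous_rho' (k : Fin (n + 1) → ℝ) : Continuous (rho k) := by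
  unfold rho
  fun_prop

theorem isOpen_cone' (k : Fin (n + 1) → ℝ) : IsOpen (cone k) :=
  isOpen_lt continuous_const (continuous_rho' k)

theorem cone_smul {k : Fin (n + 1) → ℝ} {w : Fin (n + 1) → ℂ} (hw : w ∈ cone k) {c : ℂ}
    (hc : c ≠ 0) : c • w ∈ cone k := by
  have h1 : rho k (c • w) = ‖c‖ ^ 2 * rho k w := by
    simp only [rho, Pi.smul_apply, smul_eq_mul, norm_mul, mul_pow, mul_neg, Finset.mul_sum]
    congr 1
    exact Finset.sum_congr rfl fun j _ => by ring
  change 0 < rho k (c • w)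
  rw [h1]
  have : 0 < ‖c‖ := norm_pos_iff.mpr hc
  exact mul_pos (by positivity) hw

/-- The derivative of a function homogeneous of degree one is homogeneous of degree zero. -/
theorem fderiv_smul_of_hom1 {k : Fin (n + 1) → ℝ} {S : (Fin (n + 1) → ℂ) → ℂ}
    (hS : DifferentiableOn ℂ S (cone k)) (h1 : Hom1 k S) {w : Fin (n + 1) → ℂ} (hw : w ∈ cone k)
    {c : ℂ} (hc : c ≠ 0) : fderiv ℂ S (c • w) = fderiv ℂ S w := by
  have hw' := cone_smul hw hc
  have hd : HasFDerivAt S (fderiv ℂ S (c • w)) (c • w) :=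
    (hS.differentiableAt ((isOpen_cone' k).mem_nhds hw')).hasFDerivAt
  have hd0 : HasFDerivAt S (fderiv ℂ S w) w :=
    (hS.differentiableAt ((isOpen_cone' k).mem_nhds hw)).hasFDerivAt
  have h2 : HasFDerivAt (fun z : Fin (n + 1) → ℂ => S (c • z))
      ((fderiv ℂ S (c • w)).comp (c • ContinuousLinearMap.id ℂ (Fin (n + 1) → ℂ))) w :=
    HasFDerivAt.comp (f := fun z : Fin (n + 1) → ℂ => c • z) w hd
      ((hasFDerivAt_id w).const_smul c)
  have h3 : HasFDerivAt (fun z : Fin (n + 1) → ℂ => S (c • z)) (c • fderiv ℂ S w) w := by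
    refine (hd0.const_smul c).congr_of_eventuallyEq ?_
    filter_upwards [(isOpen_cone' k).mem_nhds hw] with z hz
    simpa using h1 c hc z hz
  have h4 := h2.unique h3
  ext v
  have h5 := congrArg (fun A : (Fin (n + 1) → ℂ) →L[ℂ] ℂ => A v) h4
  simp only [ContinuousLinearMap.comp_apply, FunLike.coe_smul, Pi.smul_apply,
    ContinuousLinearMap.id_apply, map_smul, smul_eq_mul] at h5
  exact mul_left_cancel₀ hc h5

/-- The derivative of the quasi-periodicity relation. -/
theorem fderiv_prim {k : Fin (n + 1) → ℝ} {S : (Fin (n + 1) → ℂ) → ℂ}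
    (hS : DifferentiableOn ℂ S (cone k)) {G : Matrix (Fin (n + 1)) (Fin (n + 1)) ℂ}
    {l : Fin (n + 1) → ℂ}
    (hG : ∀ w ∈ cone k, G *ᵥ w ∈ cone k)
    (hp : ∀ w ∈ cone k, S (G *ᵥ w) = S w + ∑ j, l j * (G *ᵥ w) j)
    {w : Fin (n + 1) → ℂ} (hw : w ∈ cone k) (v : Fin (n + 1) → ℂ) :
    fderiv ℂ S (G *ᵥ w) (G *ᵥ v) = fderiv ℂ S w v + ∑ j, l j * (G *ᵥ v) j := by
  have hd : HasFDerivAt S (fderiv ℂ S (G *ᵥ w)) (G *ᵥ w) :=
    (hS.differentiableAt ((isOpen_cone' k).mem_nhds (hG w hw))).hasFDerivAt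
  have hd0 : HasFDerivAt S (fderiv ℂ S w) w :=
    (hS.differentiableAt ((isOpen_cone' k).mem_nhds hw)).hasFDerivAt
  have hL : HasFDerivAt (fun z : Fin (n + 1) → ℂ => G *ᵥ z)
      (LinearMap.toContinuousLinearMap (Matrix.mulVecLin G)) w :=
    (LinearMap.toContinuousLinearMap (Matrix.mulVecLin G)).hasFDerivAt
  have h2 := HasFDerivAt.comp (f := fun z : Fin (n + 1) → ℂ => G *ᵥ z) w hd hL
  let ℓ : (Fin (n + 1) → ℂ) →ₗ[ℂ] ℂ :=
    { toFun := fun z => ∑ j, l j * (G *ᵥ z) j
      map_add' := fun x y => by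
        simp only [Matrix.mulVec_add, Pi.add_apply, mul_add, Finset.sum_add_distrib]
      map_smul' := fun c x => by
        simp only [Matrix.mulVec_smul, Pi.smul_apply, smul_eq_mul, RingHom.id_apply,
          Finset.mul_sum]
        exact Finset.sum_congr rfl fun j _ => by ring }
  have h3 : HasFDerivAt (S ∘ fun z : Fin (n + 1) → ℂ => G *ᵥ z)
      (fderiv ℂ S w + LinearMap.toContinuousLinearMap ℓ) w := by
    refine (hd0.add (LinearMap.toContinuousLinearMap ℓ).hasFDerivAt).congr_of_eventuallyEq ?_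
    filter_upwards [(isOpen_cone' k).mem_nhds hw] with z hz
    simpa [ℓ] using hp z hz
  have h4 := congrArg (fun A : (Fin (n + 1) → ℂ) →L[ℂ] ℂ => A v) (h2.unique h3)
  simpa [ℓ] using h4

/-- The embedding of the ball of `W` into the cone of `V`. -/
def cv (y : Fin n → ℂ) : Fin (n + 2) → ℂ := Fin.cons (α := fun _ => ℂ) 0 (hat y)

/-- The form of `V`. -/
def kV (k : Fin (n + 1) → ℝ) : Fin (n + 2) → ℝ := Fin.cons (α := fun _ => ℝ) 1 k

theorem cv_mem {k : Fin (n + 1) → ℝ} {y : Fin n → ℂ} (hy : y ∈ ball k) : cv y ∈ cone (kV k) := by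
  change 0 < rho (kV k) (cv y)
  have hy' : ∑ j : Fin n, k j.castSucc * ‖y j‖ ^ 2 + k (Fin.last n) < 0 := hy
  unfold rho
  rw [Fin.sum_univ_succ, Fin.sum_univ_castSucc]
  simp only [kV, cv, Fin.cons_zero, Fin.cons_succ, hat, Fin.snoc_castSucc, Fin.snoc_last]
  simp only [norm_zero, norm_one]
  linarith

theorem emb1_mulVec (g : SLn n) (a : ℂ) (z : Fin (n + 1) → ℂ) :
    (Pool.Agent.CMP.emb1 g).1 *ᵥ (Fin.cons a z : Fin (n + 2) → ℂ) = Fin.cons a (g.1 *ᵥ z) := by
  funext i
  refine Fin.cases ?_ (fun i' => ?_) i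
  · simp [Pool.Agent.CMP.emb1, Matrix.mulVec, dotProduct, Fin.sum_univ_succ]
  · simp [Pool.Agent.CMP.emb1, Matrix.mulVec, dotProduct, Fin.sum_univ_succ]

/-- X: the derivative in the direction `x` of a holomorphic primitive has the periods
`L (emb1 g) 0`. -/
theorem x_row {k : Fin (n + 1) → ℝ} (hk : Pool.Agent.CMN.Sg k) {Γ : Subgroup (SLn (n + 1))}
    {L : SLn (n + 1) → Fin (n + 2) → ℂ} {S : (Fin (n + 2) → ℂ) → ℂ}
    (hU : ∀ g ∈ Γ, Pool.CMN.Jac.IsU (kV k) g.1)
    (hS : DifferentiableOn ℂ S (cone (kV k))) (h1 : Hom1 (kV k) S) (hP : Prim (kV k) Γ L S) :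
    DifferentiableOn ℂ (fun y => fderiv ℂ S (cv y) (Pi.single 0 1)) (ball k) ∧
    ∀ g : SLn n, Pool.Agent.CMP.emb1 g ∈ Γ → ∀ y ∈ ball k,
      fderiv ℂ S (cv (actC g y)) (Pi.single 0 1) =
        fderiv ℂ S (cv y) (Pi.single 0 1) + L (Pool.Agent.CMP.emb1 g) 0 := by
  constructor
  · intro y hy
    have ho := Pool.Agent.K708.holo_omega (isOpen_cone' (kV k)) hS
    have h2 : DifferentiableAt ℂ (fderiv ℂ S) (cv y) := by
      have h3 : ContDiffAt ℂ 2 S (cv y) :=
        ((ho (cv y) (cv_mem hy)).contDiffAt ((isOpen_cone' _).mem_nhds (cv_mem hy))).of_le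
          (by exact_mod_cast le_top)
      exact (h3.fderiv_right (m := 1) (by norm_num)).differentiableAt (by norm_num)
    have h4 : DifferentiableAt ℂ (fun y : Fin n → ℂ => cv y) y := by
      rw [differentiableAt_pi]
      intro i
      refine Fin.cases ?_ (fun i' => ?_) i
      · simp [cv]
      · refine Fin.lastCases ?_ (fun i'' => ?_) i'
        · simp [cv, hat]
        · simp only [cv, hat, Fin.cons_succ, Fin.snoc_castSucc]
          fun_prop
    exact ((h2.comp y h4).clm_apply (differentiableAt_const _)).differentiableWithinAt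
  · intro g hg y hy
    set G := (Pool.Agent.CMP.emb1 g).1 with hGdef
    have hGc : ∀ w ∈ cone (kV k), G *ᵥ w ∈ cone (kV k) := by
      intro w hw
      change 0 < rho (kV k) (G *ᵥ w)
      have h2 := Pool.CMN.Jac.Hn_mulVec (hU _ hg) w
      have h3 : rho (kV k) (G *ᵥ w) = rho (kV k) w := by
        simp only [Pool.CMN.Jac.Hn] at h2
        simp only [rho]
        rw [← hGdef] at h2
        rw [h2]
      rw [h3]
      exact hw
    have hp : ∀ w ∈ cone (kV k), S (G *ᵥ w) = S w +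
        ∑ j, ((kV k j : ℂ) * L (Pool.Agent.CMP.emb1 g) j) * (G *ᵥ w) j := hP _ hg
    have h5 := fderiv_prim hS hGc hp (cv_mem hy) (Pi.single 0 1)
    have h6 : (Pi.single 0 1 : Fin (n + 2) → ℂ) = Fin.cons 1 0 := by
      funext i
      refine Fin.cases ?_ (fun i' => ?_) i
      · simp
      · simp
    have h7 : G *ᵥ (Pi.single 0 1 : Fin (n + 2) → ℂ) = Pi.single 0 1 := by
      rw [h6, hGdef, emb1_mulVec, Matrix.mulVec_zero]
    rw [h7] at h5
    have h8 : G *ᵥ cv y = Fin.cons 0 (g.1 *ᵥ hat y) := by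
      rw [hGdef]
      exact emb1_mulVec g 0 (hat y)
    have hj : (g.1 *ᵥ hat y) (Fin.last n) ≠ 0 := by
      intro h0
      have h9 := hGc _ (cv_mem hy)
      rw [h8] at h9
      have h10 : 0 < rho (kV k) (Fin.cons 0 (g.1 *ᵥ hat y)) := h9
      unfold rho at h10
      rw [Fin.sum_univ_succ, Fin.sum_univ_castSucc] at h10
      simp only [kV, Fin.cons_zero, Fin.cons_succ, h0, norm_zero] at h10
      have h11 : 0 ≤ ∑ i : Fin n, k i.castSucc * ‖(g.1 *ᵥ hat y) i.castSucc‖ ^ 2 :=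
        Finset.sum_nonneg fun i _ => mul_nonneg (hk.pos i).le (by positivity)
      linarith
    have h12 : (Fin.cons 0 (g.1 *ᵥ hat y) : Fin (n + 2) → ℂ) =
        (g.1 *ᵥ hat y) (Fin.last n) • cv (actC g y) := by
      funext i
      refine Fin.cases ?_ (fun i' => ?_) i
      · simp [cv]
      · refine Fin.lastCases ?_ (fun i'' => ?_) i'
        · simp [cv, hat]
        · simp only [cv, hat, actC, Fin.cons_succ, Fin.snoc_castSucc, Pi.smul_apply, smul_eq_mul]
          rw [mul_div_cancel₀]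
          exact hj
    have h13 : cv (actC g y) ∈ cone (kV k) := by
      have h14 := hGc _ (cv_mem hy)
      rw [h8, h12] at h14
      have h15 := cone_smul h14 (inv_ne_zero hj)
      rwa [smul_smul, inv_mul_cancel₀ hj, one_smul] at h15
    rw [h8, h12, fderiv_smul_of_hom1 hS h1 h13 hj] at h5
    rw [h5]
    congr 1
    rw [Fin.sum_univ_succ]
    simp [kV]

/-- `emb = emb1` -/
theorem emb_eq (g : SLn n) : emb g = Pool.Agent.CMP.emb1 g := by
  apply Subtype.ext
  ext i j
  refine Fin.cases ?_ (fun i' => ?_) i <;> refine Fin.cases ?_ (fun j' => ?_) j <;>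
    simp [emb, embM, Pool.Agent.CMP.emb1]

end

end Pool.CMP.E8x
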