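import Pool.Agent.Lib.CMN.Rows
import Pool.Agent.Lib.CMP.KDefs
import Pool.Agent.Lib.HCM.Stat

/-!
# Tank CMP, block E: everything between the theta part (row T) and block K (helper94)

`W` is the hermitian space of the `n`-ball, `V = Ex + W`, `h(x,x) = 1`; the coordinate of `x` has
index `0`, the last coordinate of `V` is the last coordinate of `W`.
-/

set_option autoImplicit false

open scoped ComplexConjugate Matrix
open Complex MeasureTheory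
open Pool.Agent.CMN (SLn ball actC hat Cocompact IsArith InSU Good ev theta IsSB InvOne ClosedHol)
open Pool.Agent.HCM (CMData Sig reflex IsMap P2)

namespace Pool.CMP

noncomputable section

/-! ## `W` and `V` -/

/-- `h_V`. -/
def hV {F : Type} [Field F] {n : ℕ} (h : Fin (n + 1) → F) : Fin (n + 2) → F :=
  Fin.cons (α := fun _ => F) 1 h

/-- The matrix `diag(1, g)`. -/
def embM {n : ℕ} (g : Matrix (Fin (n + 1)) (Fin (n + 1)) ℂ) :
    Matrix (Fin (n + 2)) (Fin (n + 2)) ℂ :=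
  Matrix.of fun i j => Fin.cons (α := fun _ => ℂ) (Fin.cons (α := fun _ => ℂ) 1 (fun _ => 0) j)
    (fun i' => Fin.cons (α := fun _ => ℂ) 0 (fun j' => g i' j') j) i

theorem det_embM {n : ℕ} (g : Matrix (Fin (n + 1)) (Fin (n + 1)) ℂ) : (embM g).det = g.det := by
  rw [Matrix.det_succ_row_zero, Fin.sum_univ_succ, Finset.sum_eq_zero]
  · have h1 : (embM g).submatrix Fin.succ ((0 : Fin (n + 2)).succAbove) = g := by
      ext i j
      simp [embM]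
    rw [h1]
    simp [embM]
  · intro j _
    simp [embM]

/-- `diag(1, g)` as an element of `SL_(n+2)`. -/
def emb {n : ℕ} (g : SLn n) : SLn (n + 1) := ⟨embM g.1, by rw [det_embM]; exact g.2⟩

/-- The embedding of the ball of `W` in the ball of `V`. -/
def ext {n : ℕ} (y : Fin n → ℂ) : Fin (n + 1) → ℂ := Fin.cons (α := fun _ => ℂ) 0 y

/-- Additive maps on `Γ`. -/
def Add {n : ℕ} (Γ : Subgroup (SLn n)) {A : Type} [AddCommGroup A] (q : SLn n → A) : Prop :=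
  ∀ g ∈ Γ, ∀ g' ∈ Γ, q (g * g') = q g + q g'

/-- `f` is holomorphic on the ball with periods `q`. -/
structure Per {n : ℕ} (k : Fin (n + 1) → ℝ) (Γ : Subgroup (SLn n)) (q : SLn n → ℂ)
    (f : (Fin n → ℂ) → ℂ) : Prop where
  hol : DifferentiableOn ℂ f (ball k)
  per : ∀ g ∈ Γ, ∀ y ∈ ball k, f (actC g y) = f y + q g

/-- Cocycles for the action by `conj τ(γ)`; the entries of `γ` are viewed in `E` by means of
`τ₀`. -/
def CocT {E : Type} [Field E] (τ₀ τ : E →+* ℂ) {N : ℕ} (Γ : Subgroup (SLn N))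
    (L : SLn N → Fin (N + 1) → ℂ) : Prop :=
  ∀ g ∈ Γ, ∀ g' ∈ Γ, ∀ e : Fin (N + 1) → Fin (N + 1) → E, (∀ j l, τ₀ (e j l) = g.1 j l) →
    ∀ j, L (g * g') j = ∑ l, conj (τ (e j l)) * L g' l + L g j

/-- `lam : ℂ → E` is linear over `E`, acting on `ℂ` by means of `τ₀`. -/
structure Lam {E : Type} [Field E] (τ₀ : E →+* ℂ) (lam : ℂ → E) : Prop where
  add : ∀ x y, lam (x + y) = lam x + lam y
  mul : ∀ (c : E) (x : ℂ), lam (τ₀ c * x) = c * lam x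

/-! ## The rows -/

/-- E1: arithmetic groups are finitely generated. -/
def E1 : Prop := ∀ (F : Type) [Field F] [NumberField F] [NumberField.IsTotallyReal F] (n : ℕ)
  (v₁ : F →+* ℝ) (D : F) (h : Fin (n + 1) → F) (Γ : Subgroup (SLn n)),
  Good v₁ D h → (∃ v : F →+* ℝ, v ≠ v₁) → IsArith v₁ D h Γ → Γ.FG

/-- E2: invariant holomorphic functions are constant. -/
def E2 : Prop := ∀ (n : ℕ) (k : Fin (n + 1) → ℝ) (Γ : Subgroup (SLn n)) (f : (Fin n → ℂ) → ℂ),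
  Pool.Agent.CMN.Sg k → Cocompact k Γ → DifferentiableOn ℂ f (ball k) →
  (∀ g ∈ Γ, ∀ y ∈ ball k, f (actC g y) = f y) → ∀ y ∈ ball k, ∀ y' ∈ ball k, f y = f y'

/-- E3: averaging over `Γ/Γ'`. -/
def E3 : Prop := ∀ (F : Type) [Field F] [NumberField F] [NumberField.IsTotallyReal F] (n : ℕ)
  (v₁ : F →+* ℝ) (D : F) (h : Fin (n + 1) → F) (Γ Γ' : Subgroup (SLn n)) (q : SLn n → ℂ)
  (f' : (Fin n → ℂ) → ℂ), Good v₁ D h → IsArith v₁ D h Γ → IsArith v₁ D h Γ' → Add Γ q →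
  Per (ev v₁ h) (Γ ⊓ Γ') q f' → ∃ f, Per (ev v₁ h) Γ q f

/-- E4: closed holomorphic one-forms on the ball have a primitive; if the form is invariant the
primitive has periods. -/
def E4 : Prop := ∀ (n : ℕ) (k : Fin (n + 1) → ℝ) (ω : Fin n → (Fin n → ℂ) → ℂ),
  Pool.Agent.CMN.Sg k → ClosedHol k ω →
  ∃ P : (Fin n → ℂ) → ℂ, DifferentiableOn ℂ P (ball k) ∧
    (∀ y ∈ ball k, ∀ i, fderiv ℂ P y (Pi.single i 1) = ω i y)

/-- E4p: periods of a primitive of an invariant form. -/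
def E4p : Prop := ∀ (n : ℕ) (k : Fin (n + 1) → ℝ) (ω : Fin n → (Fin n → ℂ) → ℂ)
  (Γ : Subgroup (SLn n)) (P : (Fin n → ℂ) → ℂ), Pool.Agent.CMN.Sg k →
  (∀ g ∈ Γ, Pool.CMN.Jac.IsU k g.1) → InvOne k Γ ω → DifferentiableOn ℂ P (ball k) →
  (∀ y ∈ ball k, ∀ i, fderiv ℂ P y (Pi.single i 1) = ω i y) →
  ∃ p : SLn n → ℂ, Add Γ p ∧ Per k Γ p P

/-- E4a: holomorphic functions on the ball are analytic. -/
def E4a : Prop := ∀ (n : ℕ) (k : Fin (n + 1) → ℝ) (f : (Fin n → ℂ) → ℂ),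
  Pool.Agent.CMN.Sg k → DifferentiableOn ℂ f (ball k) → AnalyticOnNhd ℂ f (ball k)

/-- E5: a period homomorphism over a basis. -/
def E5 : Prop := ∀ (E : Type) [Field E] [NumberField E] (τ₀ : E →+* ℂ) (n : ℕ)
  (Γ : Subgroup (SLn n)) (p : SLn n → ℂ), Γ.FG → Add Γ p →
  ∃ (J : ℕ) (b : Fin J → ℂ) (lam : Fin J → ℂ → E), (∀ j, Lam τ₀ (lam j)) ∧
    (∀ j, ∀ g ∈ Γ, IsIntegral ℤ (lam j (p g))) ∧
    ∀ g ∈ Γ, p g = ∑ j, b j * τ₀ (lam j (p g))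

/-- E6: the change of the embedding. -/
def E6 : Prop := ∀ (F E : Type) [Field F] [NumberField F] [Field E] [NumberField E] [Algebra F E]
  (D : F) (δ : E) (v₁ : F →+* ℝ) (τ₀ : E →+* ℂ), CMData F E D δ v₁ τ₀ →
  ∀ (N : ℕ) (h : Fin (N + 1) → F) (Γ : Subgroup (SLn N)) (g : E ≃+* E) (lam : ℂ → E)
    (L : SLn N → Fin (N + 1) → ℂ), (∀ γ ∈ Γ, InSU v₁ D h γ) → Lam τ₀ lam →
    CocT τ₀ (τ₀.comp (g : E →+* E)) Γ L →
    Coc Γ (fun γ j => τ₀ (g.symm (lam (L γ j))))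

/-- E7: an arithmetic group acting on the cone. -/
def E7 : Prop := ∀ (F : Type) [Field F] [NumberField F] [NumberField.IsTotallyReal F] (n : ℕ)
  (v₁ : F →+* ℝ) (D : F) (h : Fin (n + 1) → F) (Γ : Subgroup (SLn n)),
  Good v₁ D h → (∃ v : F →+* ℝ, v ≠ v₁) → IsArith v₁ D h Γ → Disc (ev v₁ h) Γ

/-- E7b: geometry of the embedding. -/
def E7b : Prop := ∀ (F : Type) [Field F] [NumberField F] (n : ℕ) (v₁ : F →+* ℝ) (D : F)
  (h : Fin (n + 1) → F), Good v₁ D h → Good v₁ D (hV h) ∧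
  (∀ g g' : SLn n, emb (g * g') = emb g * emb g') ∧
  (∀ g : SLn n, InSU v₁ D h g → InSU v₁ D (hV h) (emb g)) ∧
  (∀ y : Fin n → ℂ, y ∈ ball (ev v₁ h) ↔ ext y ∈ ball (ev v₁ (hV h))) ∧
  ∀ (g : SLn n) (y : Fin n → ℂ), actC (emb g) (ext y) = ext (actC g y)

/-- E7c: the intersection of an arithmetic subgroup of `SU(V)` with `SU(W)`. -/
def E7c : Prop := ∀ (F : Type) [Field F] [NumberField F] (n : ℕ) (v₁ : F →+* ℝ) (D : F)
  (h : Fin (n + 1) → F) (Γ : Subgroup (SLn (n + 1))), Good v₁ D h → IsArith v₁ D (hV h) Γ →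
  ∃ Γ' : Subgroup (SLn n), IsArith v₁ D h Γ' ∧ ∀ g ∈ Γ', emb g ∈ Γ

/-- E8: the derivative of a holomorphic primitive in the direction `x`. -/
def E8 : Prop := ∀ (n : ℕ) (k : Fin (n + 1) → ℝ) (Γ : Subgroup (SLn (n + 1)))
  (Γ' : Subgroup (SLn n)) (L : SLn (n + 1) → Fin (n + 2) → ℂ) (S : (Fin (n + 2) → ℂ) → ℂ),
  Pool.Agent.CMN.Sg k → (∀ g ∈ Γ', Pool.CMN.Jac.IsU k g.1) → (∀ g ∈ Γ', emb g ∈ Γ) →
  DifferentiableOn ℂ S (cone (Fin.cons (α := fun _ => ℝ) 1 k)) →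
  Hom1 (Fin.cons (α := fun _ => ℝ) 1 k) S → Prim (Fin.cons (α := fun _ => ℝ) 1 k) Γ L S →
  ∃ f, Per k Γ' (fun g => L (emb g) 0) f

/-- TH: the theta part, in the form of the places of `F` and pairs of matrices (helper51). -/
def TH : Prop := ∀ (F : Type) [Field F] [NumberField F] [NumberField.IsTotallyReal F] (n : ℕ)
  (v₁ : F →+* ℝ) (D : F) (h : Fin (n + 1) → F) (a : F) (φ : (Fin (n + 1) → F) → ℂ) (v : F →+* ℝ),
  Good v₁ D h → 0 < v₁ a → IsSB φ →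
  ∃ (κ : ℂ) (Γ : Subgroup (SLn (n + 1))) (L : SLn (n + 1) → Fin (n + 2) → ℂ),
    κ ≠ 0 ∧ IsArith v₁ D (hV h) Γ ∧
    (∀ g ∈ Γ, ∀ g' ∈ Γ, ∀ p : Pool.Agent.CMN.Mat (n + 1) F, Pool.Agent.CMN.cmat v₁ D p = g.1 →
      ∀ j, L (g * g') j = ∑ l, (if 0 < v a then conj (Pool.Agent.CMN.cmat v D p j l) else
        Pool.Agent.CMN.cmat v D p j l) * L g' l + L g j) ∧
    ∀ γ : SLn n, emb γ ∈ Γ → ∀ f : (Fin n → ℂ) → ℂ, DifferentiableOn ℂ f (ball (ev v₁ h)) →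
      (∀ y ∈ ball (ev v₁ h), ∀ i, fderiv ℂ f y (Pi.single i 1) = theta v₁ D h a φ i y) →
      ∀ y ∈ ball (ev v₁ h), κ * (f (actC γ y) - f y) = L (emb γ) 0

/-- T: the theta part, in the form of the embeddings of `E`. -/
def T : Prop := ∀ (F E : Type) [Field F] [NumberField F] [Field E] [NumberField E] [Algebra F E]
  (D : F) (δ : E) (v₁ : F →+* ℝ) (τ₀ : E →+* ℂ), CMData F E D δ v₁ τ₀ →
  ∀ (n : ℕ) (h : Fin (n + 1) → F) (a : F) (φ : (Fin (n + 1) → F) → ℂ) (g : E ≃+* E)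
    (P : (Fin n → ℂ) → ℂ), 0 < n → Sig v₁ h → 0 < v₁ a → IsSB φ →
    0 < (τ₀ (g (δ * algebraMap F E a))).im → DifferentiableOn ℂ P (ball (ev v₁ h)) →
    (∀ y ∈ ball (ev v₁ h), ∀ i, fderiv ℂ P y (Pi.single i 1) = theta v₁ D h a φ i y) →
    ∃ (Γ : Subgroup (SLn (n + 1))) (L : SLn (n + 1) → Fin (n + 2) → ℂ) (κ : ℂ),
      IsArith v₁ D (hV h) Γ ∧ CocT τ₀ (τ₀.comp (g : E →+* E)) Γ L ∧
      ∀ γ : SLn n, emb γ ∈ Γ → ∀ y ∈ ball (ev v₁ h), P (actC γ y) - P y = κ * L (emb γ) 0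

/-- ET: from places to embeddings. -/
def ET : Prop := TH → T

/-- EP: the assembly. -/
def EP : Prop := T → KOD → P2

end

end Pool.CMP
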