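import Pool.Agent.Lib.CMP.E8
import Pool.Agent.Lib.HCM.Emb

/-!
# Tank CMP: the assembly of `P2` from the rows (helper51)
-/

set_option autoImplicit false

open scoped ComplexConjugate Matrix
open Complex MeasureTheory
open Pool.Agent.CMN (SLn ball actC hat Cocompact IsArith InSU Good ev theta IsSB InvOne ClosedHol
  COCX HOL)
open Pool.Agent.HCM (CMData Sig reflex IsMap P2)

namespace Pool.CMP

noncomputable section

theorem ev_hV {F : Type} [Field F] {n : ℕ} (v₁ : F →+* ℝ) (h : Fin (n + 1) → F) :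
    ev v₁ (hV h) = Fin.cons (α := fun _ => ℝ) 1 (ev v₁ h) := by
  funext j
  refine Fin.cases ?_ (fun i => ?_) j
  · simp [ev, hV]
  · simp [ev, hV]

theorem Lam.comp_mul {E : Type} [Field E] {τ₀ : E →+* ℂ} {lam : ℂ → E} (hl : Lam τ₀ lam) (κ : ℂ) :
    Lam τ₀ (fun x => lam (κ * x)) := by
  refine ⟨fun x y => ?_, fun c x => ?_⟩
  · rw [mul_add, hl.add]
  · rw [← hl.mul]
    congr 1
    ring

theorem Lam.zero {E : Type} [Field E] {τ₀ : E →+* ℂ} {lam : ℂ → E} (hl : Lam τ₀ lam) :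
    lam 0 = 0 := by
  have h := hl.add 0 0
  rw [add_zero] at h
  exact left_eq_add.1 h

theorem isOpen_ballP {n : ℕ} (k : Fin (n + 1) → ℝ) : IsOpen (ball k) := by
  unfold ball
  exact isOpen_lt (by fun_prop) continuous_const

section one

variable {F E : Type} [Field F] [NumberField F] [Field E] [NumberField E] [Algebra F E]
  {D : F} {δ : E} {v₁ : F →+* ℝ} {τ₀ : E →+* ℂ}

/-- the periods of one functional, at one embedding of the reflex type -/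
theorem one_emb (hT : T) (hK : KOD) (e3 : E3) (e6 : E6) (e7 : E7) (e7b : E7b) (e7c : E7c)
    (H : CMData F E D δ v₁ τ₀) {n : ℕ} (hn : 0 < n) {h : Fin (n + 1) → F}
    {Γ : Subgroup (SLn n)} {a : F} {φ : (Fin (n + 1) → F) → ℂ} (hS : Sig v₁ h)
    (hA : IsArith v₁ D h Γ) (ha : 0 < v₁ a) (hφ : IsSB φ) {P : (Fin n → ℂ) → ℂ}
    (hP : DifferentiableOn ℂ P (ball (ev v₁ h)))
    (hP' : ∀ y ∈ ball (ev v₁ h), ∀ i, fderiv ℂ P y (Pi.single i 1) = theta v₁ D h a φ i y)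
    {p : SLn n → ℂ} (hp : Add Γ p) (hPer : Per (ev v₁ h) Γ p P)
    {lam : ℂ → E}
    (hl : Lam τ₀ lam) {τ : E →+* ℂ} (hτ : τ ∈ reflex δ τ₀ a) :
    ∃ f, Per (ev v₁ h) Γ (fun γ => τ (lam (p γ))) f := by
  have hR := H.real
  have hG : Good v₁ D h := ⟨H.int, H.pos, hS.pos, hS.last, hS.neg⟩
  obtain ⟨hGV, hmul, hin, hball, hact⟩ := e7b F n v₁ D h hG
  obtain ⟨g, rfl, hg⟩ := hτ
  obtain ⟨ΓV, L, κ, hAV, hCoc, hL⟩ := hT F E D δ v₁ τ₀ H n h a φ g.symm P hn hS ha hφ hg hP hP'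
  have hSg : Pool.CMN.Jac.Sg (ev v₁ (hV h)) := ⟨fun j => hGV.hp v₁ j, hGV.hn⟩
  have hD : Disc (ev v₁ (hV h)) ΓV := e7 F (n + 1) v₁ D (hV h) ΓV hGV H.two hAV
  have hCoc' := e6 F E D δ v₁ τ₀ H (n + 1) (hV h) ΓV g.symm (fun x => lam (κ * x)) L hAV.le
    (hl.comp_mul κ) hCoc
  obtain ⟨S, hS1, hS2, hS3⟩ := hK (n + 1) (ev v₁ (hV h)) ΓV _ (by omega) hSg hD hCoc'
  obtain ⟨Γ', hA', hΓ'⟩ := e7c F n v₁ D h ΓV hG hAV
  have hU : ∀ g ∈ ΓV, Pool.CMN.Jac.IsU (E8x.kV (ev v₁ h)) g.1 := by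
    intro g hg
    have h1 : Pool.CMN.Jac.IsU (ev v₁ (hV h)) g.1 := (hAV.le g hg).2
    rw [ev_hV] at h1
    exact h1
  rw [ev_hV] at hS1 hS2 hS3
  obtain ⟨hf1, hf2⟩ := E8x.x_row (k := ev v₁ h) ⟨fun j => hG.hp v₁ j, hG.hn⟩ hU hS1 hS2 hS3
  have hf' : Per (ev v₁ h) Γ' (fun γ => τ₀ (g.symm.symm (lam (κ * L (emb γ) 0)))) _ :=
    ⟨hf1, fun γ hγ y hy => by
      have h1 := hΓ' γ hγ
      rw [E8x.emb_eq] at h1
      have h2 := hf2 γ h1 y hy
      rw [← E8x.emb_eq] at h2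
      exact h2⟩
  refine e3 F n v₁ D h Γ Γ' (fun γ => τ₀.comp (g : E →+* E) (lam (p γ)))
    (fun y => fderiv ℂ S (E8x.cv y) (Pi.single 0 1)) hG hA hA' ?_ ?_
  · intro γ hγ γ' hγ'
    change τ₀.comp (g : E →+* E) (lam (p (γ * γ'))) = _
    rw [hp γ hγ γ' hγ', hl.add, map_add]
  · refine ⟨hf'.hol, fun γ hγ y hy => ?_⟩
    rw [hf'.per γ hγ.2 y hy]
    congr 1
    have h1 := hL γ (hΓ' γ hγ.2) y hy
    have h2 := hPer.per γ hγ.1 y hy
    rw [h2, add_sub_cancel_left] at h1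
    change τ₀ (g.symm.symm (lam (κ * L (emb γ) 0))) = τ₀ (g (lam (p γ)))
    rw [← h1]
    rfl

end one

/-- **The assembly of `P2`.** -/
theorem ep_of (cocx : COCX) (hol : HOL) (e1 : E1) (e2 : E2) (e3 : E3) (e4 : E4) (e4p : E4p)
    (e5 : E5) (e6 : E6) (e7 : E7) (e7b : E7b) (e7c : E7c) : EP := by
  classical
  intro hT hK F E _ _ _ _ _ D δ v₁ τ₀ H n h Γ a φ hn hS hA ha hφ hI
  have hR := H.real
  have hG : Good v₁ D h := ⟨H.int, H.pos, hS.pos, hS.last, hS.neg⟩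
  have hSg : Pool.Agent.CMN.Sg (ev v₁ h) := ⟨fun j => hG.hp v₁ j, hG.hn⟩
  have hCC := cocx F n v₁ D h Γ hG H.two hA
  obtain ⟨P, hP, hP'⟩ := e4 n (ev v₁ h) _ hSg (hol F n v₁ D h a φ hG ha hφ)
  obtain ⟨p, hp, hPer⟩ := e4p n (ev v₁ h) _ Γ P hSg (fun g hg => (hA.le g hg).2) hI hP hP'
  obtain ⟨J, b, lam, hlam, hint, hsum⟩ := e5 E τ₀ n Γ p (e1 F n v₁ D h Γ hG H.two hA) hp
  have hex : ∀ (j : Fin J) (τ : E →+* ℂ), ∃ f : (Fin n → ℂ) → ℂ, τ ∈ reflex δ τ₀ a →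
      Per (ev v₁ h) Γ (fun γ => τ (lam j (p γ))) f := by
    intro j τ
    by_cases hτ : τ ∈ reflex δ τ₀ a
    · obtain ⟨f, hf⟩ := one_emb hT hK e3 e6 e7 e7b e7c H hn hS hA ha hφ hP hP' hp hPer
        (hlam j) hτ
      exact ⟨f, fun _ => hf⟩
    · exact ⟨0, fun h => absurd h hτ⟩
  choose f hf using hex
  refine ⟨J, b, f, fun j γ => lam j (p γ), fun j => ⟨hint j, fun τ hτ => (hf j τ hτ).hol,
    fun τ hτ => (hf j τ hτ).per⟩, ?_⟩
  -- `τ₀` lies in the reflex type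
  have h0 : τ₀ ∈ reflex δ τ₀ a := by
    refine ⟨RingEquiv.refl E, by ext x; rfl, ?_⟩
    change 0 < (τ₀ (δ * algebraMap F E a)).im
    rw [map_mul, H.above, mul_im, ofReal_re, ofReal_im, mul_zero, zero_add]
    exact mul_pos H.upper ha
  -- the difference is constant
  have hdiff : ∀ y ∈ ball (ev v₁ h), DifferentiableAt ℂ P y := fun y hy =>
    (hP y hy).differentiableAt ((isOpen_ballP _).mem_nhds hy)
  have hdf : ∀ j, ∀ y ∈ ball (ev v₁ h), DifferentiableAt ℂ (f j τ₀) y := fun j y hy =>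
    ((hf j τ₀ h0).hol y hy).differentiableAt ((isOpen_ballP _).mem_nhds hy)
  have hconst := e2 n (ev v₁ h) Γ (fun y => P y - ∑ j, b j * f j τ₀ y) hSg hCC
    (hP.sub (DifferentiableOn.fun_sum fun j _ => ((hf j τ₀ h0).hol).const_mul _)) (by
      intro g hg y hy
      simp only [hPer.per g hg y hy, (hf _ τ₀ h0).per g hg y hy, mul_add,
        Finset.sum_add_distrib]
      rw [← hsum g hg]
      ring)
  intro y hy i
  rw [← hP' y hy i]
  have h1 : HasFDerivAt (fun y => P y - ∑ j, b j * f j τ₀ y)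
      (fderiv ℂ P y - ∑ j, b j • fderiv ℂ (f j τ₀) y) y := by
    refine (hdiff y hy).hasFDerivAt.sub ?_
    exact HasFDerivAt.fun_sum fun j _ => (hdf j y hy).hasFDerivAt.const_mul _
  have h2 : HasFDerivAt (fun y => P y - ∑ j, b j * f j τ₀ y)
      (0 : (Fin n → ℂ) →L[ℂ] ℂ) y := by
    have h3 : HasFDerivAt (fun _ : Fin n → ℂ => P y - ∑ j, b j * f j τ₀ y)
        (0 : (Fin n → ℂ) →L[ℂ] ℂ) y := hasFDerivAt_const _ _
    refine h3.congr_of_eventuallyEq ?_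
    filter_upwards [(isOpen_ballP _).mem_nhds hy] with z hz
    exact hconst z hz y hy
  have h4 := h1.unique h2
  have h5 := congrArg (fun l : (Fin n → ℂ) →L[ℂ] ℂ => l (Pi.single i 1)) h4
  simp only [sub_apply, sum_apply, smul_apply, zero_apply, smul_eq_mul] at h5
  exact sub_eq_zero.1 h5

end

end Pool.CMP
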