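import Pool.Agent.Lib.CMP.KDefs

/-!
# Tank CMP, block K: basic facts on the cone (helper85)
-/

set_option autoImplicit false

open scoped ComplexConjugate Matrix
open Complex MeasureTheory

namespace Pool.CMP

variable {n : ℕ} {k : Fin (n + 1) → ℝ}

namespace B7

theorem rho_eq (w : Fin (n + 1) → ℂ) : rho k w = -Pool.CMN.Jac.Hn k w := rfl

theorem rho_smul (c : ℂ) (w : Fin (n + 1) → ℂ) : rho k (c • w) = ‖c‖ ^ 2 * rho k w := by
  rw [rho_eq, rho_eq, Pool.CMN.Jac.Hn_smul]
  ring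

theorem rho_mulVec {g : Matrix (Fin (n + 1)) (Fin (n + 1)) ℂ} (hg : Pool.CMN.Jac.IsU k g)
    (w : Fin (n + 1) → ℂ) : rho k (g *ᵥ w) = rho k w := by
  rw [rho_eq, rho_eq, Pool.CMN.Jac.Hn_mulVec hg]

theorem continuous_rho : Continuous (rho k) := by
  unfold rho
  fun_prop

theorem isOpen_cone : IsOpen (cone k) := isOpen_lt continuous_const continuous_rho

theorem mem_cone {w : Fin (n + 1) → ℂ} : w ∈ cone k ↔ 0 < rho k w := Iff.rfl

theorem smul_mem_cone {c : ℂ} (hc : c ≠ 0) {w : Fin (n + 1) → ℂ} (hw : w ∈ cone k) :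
    c • w ∈ cone k := by
  rw [mem_cone, rho_smul]
  have := norm_pos_iff.2 hc
  have := mem_cone.1 hw
  positivity

theorem mulVec_mem_cone {g : Matrix (Fin (n + 1)) (Fin (n + 1)) ℂ} (hg : Pool.CMN.Jac.IsU k g)
    {w : Fin (n + 1) → ℂ} (hw : w ∈ cone k) : g *ᵥ w ∈ cone k := by
  rw [mem_cone, rho_mulVec hg]
  exact hw

/-- The invariance of the bilinear form `∑ k_j x_j y_j` under `(conj g, g)`. -/
theorem bil_mulVec {g : Matrix (Fin (n + 1)) (Fin (n + 1)) ℂ} (hg : Pool.CMN.Jac.IsU k g)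
    (x y : Fin (n + 1) → ℂ) :
    ∑ j, (k j : ℂ) * (∑ l, conj (g j l) * x l) * (g *ᵥ y) j = ∑ j, (k j : ℂ) * x j * y j := by
  have h1 : ∀ l m, ∑ j, conj (g j l) * (k j : ℂ) * g j m = if l = m then (k l : ℂ) else 0 := by
    intro l m
    have h2 := congrFun (congrFun hg l) m
    rw [Matrix.mul_apply] at h2
    simp only [Matrix.mul_diagonal, Matrix.conjTranspose_apply, RCLike.star_def] at h2
    rw [Matrix.diagonal_apply] at h2
    exact h2
  calc ∑ j, (k j : ℂ) * (∑ l, conj (g j l) * x l) * (g *ᵥ y) j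
      = ∑ j, ∑ l, ∑ m, (conj (g j l) * (k j : ℂ) * g j m) * (x l * y m) := by
        refine Finset.sum_congr rfl fun j _ => ?_
        have h2 : (g *ᵥ y) j = ∑ m, g j m * y m := rfl
        rw [h2, mul_assoc, Finset.sum_mul_sum, Finset.mul_sum]
        refine Finset.sum_congr rfl fun l _ => ?_
        rw [Finset.mul_sum]
        refine Finset.sum_congr rfl fun m _ => ?_
        ring
    _ = ∑ l, ∑ m, (∑ j, conj (g j l) * (k j : ℂ) * g j m) * (x l * y m) := by
        rw [Finset.sum_comm]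
        refine Finset.sum_congr rfl fun l _ => ?_
        rw [Finset.sum_comm]
        refine Finset.sum_congr rfl fun m _ => ?_
        rw [Finset.sum_mul]
    _ = ∑ l, ∑ m, (if l = m then (k l : ℂ) else 0) * (x l * y m) := by
        simp only [h1]
    _ = ∑ j, (k j : ℂ) * x j * y j := by
        refine Finset.sum_congr rfl fun l _ => ?_
        rw [Finset.sum_eq_single l]
        · rw [if_pos rfl]
          ring
        · intro m _ hm
          rw [if_neg (Ne.symm hm), zero_mul]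
        · exact fun h => absurd (Finset.mem_univ _) h

end B7

open B7 in
/-- K7. -/
theorem k7 : K7 := by
  intro n k Γ u hs hD hu h1 inv
  obtain ⟨Q, hQc, hQs, hQ⟩ := hD.cc
  have hcont : ContinuousOn (fun w => ‖u w‖ / √(rho k w)) Q := by
    refine ContinuousOn.div (hu.mono hQs).norm
      (Real.continuous_sqrt.comp_continuousOn continuous_rho.continuousOn) fun w hw => ?_
    exact (Real.sqrt_pos.2 (mem_cone.1 (hQs hw))).ne'
  obtain ⟨C, hC⟩ := hQc.exists_bound_of_continuousOn hcont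
  refine ⟨max C 0, le_max_right _ _, fun w hw => ?_⟩
  obtain ⟨g, hg, c, hc, hgQ⟩ := hQ w hw
  have h2 := hC _ hgQ
  have hgw : g.1 *ᵥ w ∈ cone k := mulVec_mem_cone (hD.isU g hg) hw
  rw [h1 c hc _ hgw, inv g hg w hw, rho_smul, rho_mulVec (hD.isU g hg), norm_mul,
    Real.sqrt_mul (by positivity), Real.sqrt_sq (norm_nonneg c)] at h2
  have hc' : 0 < ‖c‖ := norm_pos_iff.2 hc
  have hr : 0 < √(rho k w) := Real.sqrt_pos.2 (mem_cone.1 hw)
  rw [mul_div_mul_left _ _ hc'.ne', Real.norm_of_nonneg (by positivity), div_le_iff₀ hr] at h2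
  exact h2.trans (mul_le_mul_of_nonneg_right (le_max_left _ _) hr.le)

end Pool.CMP
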