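import Pool.Agent.Lib.CMP.EDefs
import Pool.Agent.Lib.CMP.KBas
import Pool.Agent.Lib.CMN.JacBr

/-!
# Tank CMP, row KDISC = E7: an arithmetic group acting on the cone (helper66)
-/

set_option autoImplicit false

open scoped ComplexConjugate Matrix
open Complex MeasureTheory
open Pool.Agent.CMN (SLn ball actC hat Cocompact IsArith InSU Good ev PDX COCX)
open Pool.Agent.CMN.JB (sg_of isU_of_mem)

namespace Pool.CMP

namespace KDisc

noncomputable section

variable {n : ℕ} {k : Fin (n + 1) → ℝ}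

/-- the projection of the cone to the ball -/
def pj (w : Fin (n + 1) → ℂ) : Fin n → ℂ := fun j => w j.castSucc / w (Fin.last n)

theorem rho_split (w : Fin (n + 1) → ℂ) :
    rho k w = -(∑ j : Fin n, k j.castSucc * ‖w j.castSucc‖ ^ 2 +
      k (Fin.last n) * ‖w (Fin.last n)‖ ^ 2) := by
  rw [rho, Fin.sum_univ_castSucc]

theorem last_ne (hs : Pool.CMN.Jac.Sg k) {w : Fin (n + 1) → ℂ} (hw : w ∈ cone k) :
    w (Fin.last n) ≠ 0 := by
  intro h0
  have h1 : 0 < rho k w := hw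
  rw [rho_split, h0, norm_zero] at h1
  have h2 : 0 ≤ ∑ j : Fin n, k j.castSucc * ‖w j.castSucc‖ ^ 2 :=
    Finset.sum_nonneg fun j _ => mul_nonneg (hs.pos j).le (by positivity)
  nlinarith

theorem smul_hat_pj (hs : Pool.CMN.Jac.Sg k) {w : Fin (n + 1) → ℂ} (hw : w ∈ cone k) :
    w (Fin.last n) • hat (pj w) = w := by
  have h0 := last_ne hs hw
  ext i
  refine Fin.lastCases ?_ (fun j => ?_) i
  · simp [hat]
  · simp only [Pi.smul_apply, smul_eq_mul, hat, Fin.snoc_castSucc, pj]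
    field_simp

theorem inv_smul_eq (hs : Pool.CMN.Jac.Sg k) {w : Fin (n + 1) → ℂ} (hw : w ∈ cone k) :
    (w (Fin.last n))⁻¹ • w = hat (pj w) := by
  have h1 := congrArg (fun v => (w (Fin.last n))⁻¹ • v) (smul_hat_pj hs hw)
  simp only [smul_smul, inv_mul_cancel₀ (last_ne hs hw), one_smul] at h1
  exact h1.symm

theorem hat_mem_cone {y : Fin n → ℂ} : hat y ∈ cone k ↔ y ∈ ball k := by
  change 0 < rho k (hat y) ↔ _
  rw [rho_split]
  simp only [hat, Fin.snoc_castSucc, Fin.snoc_last, norm_one, one_pow, mul_one, ball,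
    Set.mem_ofPred_eq]
  constructor <;> intro h <;> linarith

theorem pj_mem_ball (hs : Pool.CMN.Jac.Sg k) {w : Fin (n + 1) → ℂ} (hw : w ∈ cone k) :
    pj w ∈ ball k := by
  have h0 := last_ne hs hw
  rw [← hat_mem_cone]
  have h1 := B7.smul_mem_cone (k := k) (inv_ne_zero h0) hw
  rwa [inv_smul_eq hs hw] at h1

theorem pj_mulVec (hs : Pool.CMN.Jac.Sg k) {w : Fin (n + 1) → ℂ} (hw : w ∈ cone k) (g : SLn n) :
    pj (g.1 *ᵥ w) = actC g (pj w) := by
  have h0 := last_ne hs hw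
  funext j
  have h1 : g.1 *ᵥ w = w (Fin.last n) • (g.1 *ᵥ hat (pj w)) := by
    rw [← Matrix.mulVec_smul, smul_hat_pj hs hw]
  simp only [pj, actC]
  rw [h1]
  simp only [Pi.smul_apply, smul_eq_mul]
  rw [mul_div_mul_left _ _ h0]

theorem continuousOn_pj (hs : Pool.CMN.Jac.Sg k) : ContinuousOn pj (cone k) := by
  refine continuousOn_pi.2 fun j => ?_
  exact (continuous_apply _).continuousOn.div (continuous_apply _).continuousOn
    fun w hw => last_ne hs hw

theorem continuous_hat : Continuous (hat (n := n)) := by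
  refine continuous_pi fun i => ?_
  refine Fin.lastCases ?_ (fun j => ?_) i
  · simp only [hat, Fin.snoc_last]; exact continuous_const
  · simp only [hat, Fin.snoc_castSucc]; exact continuous_apply j

end

end KDisc

open KDisc

/-- Row KDISC. -/
theorem kdisc (pdx : PDX) (cocx : COCX) : E7 := by
  intro F _ _ _ n v₁ D h Γ hG hv hΓ
  have hs : Pool.CMN.Jac.Sg (ev v₁ h) := sg_of hG
  have hU : ∀ g ∈ Γ, Pool.CMN.Jac.IsU (ev v₁ h) g.1 := fun g hg => isU_of_mem hΓ hg
  refine ⟨hU, ?_, ?_⟩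
  · intro Q hQ hQc
    refine (pdx F n v₁ D h Γ hG hΓ (pj '' Q) (hQ.image_of_continuousOn
      ((continuousOn_pj hs).mono hQc)) ?_).subset ?_
    · rintro _ ⟨w, hw, rfl⟩
      exact pj_mem_ball hs (hQc hw)
    · rintro g ⟨w, hw, hgw⟩
      refine ⟨pj w, ⟨w, hw, rfl⟩, ?_⟩
      rw [← pj_mulVec hs (hQc hw)]
      exact ⟨_, hgw, rfl⟩
  · obtain ⟨C, hC, hCb, hcov⟩ := cocx F n v₁ D h Γ hG hv hΓ
    refine ⟨hat '' C, hC.image continuous_hat, ?_, ?_⟩
    · rintro _ ⟨y, hy, rfl⟩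
      exact hat_mem_cone.2 (hCb hy)
    · intro w hw
      obtain ⟨g, hg, hgy⟩ := hcov (pj w) (pj_mem_ball hs hw)
      have hgw : g.1 *ᵥ w ∈ cone (ev v₁ h)   := B7.mulVec_mem_cone (hU g hg) hw
      have h0 := last_ne hs hgw
      refine ⟨g, hg, ((g.1 *ᵥ w) (Fin.last n))⁻¹, inv_ne_zero h0, ?_⟩
      rw [inv_smul_eq hs hgw, pj_mulVec hs hw]
      exact ⟨_, hgy, rfl⟩

end Pool.CMP
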