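import Pool.Agent.Lib.CMP.KDefs

/-!
# Tank CMP, row K10 split in two (helper87)

`K10a`: everything pointwise (the vector field `XX`, its divergence, horizontality, equivariance).
`K10b`: a horizontal `Γ`-equivariant vector field on the cone with divergence `≥ 0` has
divergence `0`.
`k10_of : K10a → K10b → K10`.
-/

set_option autoImplicit false

open scoped ComplexConjugate Matrix
open Complex MeasureTheory

namespace Pool.CMP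

noncomputable section

variable {n : ℕ}

/-- `N = ∑ k_j⁻¹ |∂S/∂(conj w_j)|²`, it is `≥ 0` on the cone for `S` homogeneous of degree one. -/
def NN (k : Fin (n + 1) → ℝ) (S : (Fin (n + 1) → ℂ) → ℂ) (w : Fin (n + 1) → ℂ) : ℝ :=
  ∑ j, (k j)⁻¹ * ‖dzb S j w‖ ^ 2

/-- The vector field
`X_l = ρ^(-n) (k_l⁻¹ ∑ k_j⁻¹ (∂S/∂(conj w_j)) conj(∂²S/∂(conj w_j)∂w_l) + (N/ρ) w_l)`. -/
def XX (k : Fin (n + 1) → ℝ) (S : (Fin (n + 1) → ℂ) → ℂ) (l : Fin (n + 1))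
    (w : Fin (n + 1) → ℂ) : ℂ :=
  (((rho k w)⁻¹ ^ n : ℝ) : ℂ) *
    ((((k l)⁻¹ : ℝ) : ℂ) * ∑ j, (((k j)⁻¹ : ℝ) : ℂ) * (dzb S j w * conj (dz (dzb S j) l w)) +
      ((NN k S w * (rho k w)⁻¹ : ℝ) : ℂ) * w l)

/-- K10a: the pointwise part. -/
def K10a : Prop := ∀ (n : ℕ) (k : Fin (n + 1) → ℝ) (S : (Fin (n + 1) → ℂ) → ℂ),
  Pool.CMN.Jac.Sg k → (∀ m : ℕ, ContDiffOn ℝ m S (cone k)) → Hom1 k S →
  (∀ w ∈ cone k, Box k S w = 0) →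
  (∀ l, ∀ m : ℕ, ContDiffOn ℝ m (XX k S l) (cone k)) ∧
  (∀ w ∈ cone k, 0 ≤ NN k S w ∧ (NN k S w = 0 → ∀ j, dzb S j w = 0)) ∧
  (∀ w ∈ cone k, (rho k w)⁻¹ ^ (n + 1) * (((n : ℝ) - 1) * NN k S w) ≤
    (∑ l, dz (XX k S l) l w).re) ∧
  (∀ w ∈ cone k, ∑ l, (k l : ℂ) * conj (w l) * XX k S l w = 0) ∧
  ∀ (g : Matrix (Fin (n + 1)) (Fin (n + 1)) ℂ) (L : Fin (n + 1) → ℂ), Pool.CMN.Jac.IsU k g →
    (∀ w ∈ cone k, S (g *ᵥ w) = S w + ∑ j, (k j : ℂ) * L j * (g *ᵥ w) j) →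
    ∀ w ∈ cone k, ∀ l, XX k S l (g *ᵥ w) = ∑ m, g l m * XX k S m w

/-- K10b: the integration over `Γ \ cone`. -/
def K10b : Prop := ∀ (n : ℕ) (k : Fin (n + 1) → ℝ)
  (Γ : Subgroup (Matrix.SpecialLinearGroup (Fin (n + 1)) ℂ))
  (X : Fin (n + 1) → (Fin (n + 1) → ℂ) → ℂ), Pool.CMN.Jac.Sg k → Disc k Γ →
  (∀ l, ∀ m : ℕ, ContDiffOn ℝ m (X l) (cone k)) →
  (∀ w ∈ cone k, ∑ l, (k l : ℂ) * conj (w l) * X l w = 0) →
  (∀ g ∈ Γ, ∀ w ∈ cone k, ∀ l, X l (g.1 *ᵥ w) = ∑ m, g.1 l m * X m w) →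
  (∀ w ∈ cone k, 0 ≤ (∑ l, dz (X l) l w).re) →
  ∀ w ∈ cone k, (∑ l, dz (X l) l w).re = 0

theorem k10_of (ha : K10a) (hb : K10b) : K10 := by
  intro n k Γ L S hn hk hD hS hh hP hB w hw j
  obtain ⟨h1, h2, h3, h4, h5⟩ := ha n k S hk hS hh hB
  have hn1 : (0 : ℝ) < (n : ℝ) - 1 := by
    have : (2 : ℝ) ≤ n := by exact_mod_cast hn
    linarith
  have hr : ∀ w ∈ cone k, 0 < (rho k w)⁻¹ ^ (n + 1) := fun w hw => pow_pos (inv_pos.2 hw) _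
  have h6 := hb n k Γ (XX k S) hk hD h1 h4
    (fun g hg w hw l => h5 g.1 (L g) (hD.isU g hg) (fun w hw => hP g hg w hw) w hw l)
    (fun w hw => le_trans (mul_nonneg (hr w hw).le (mul_nonneg hn1.le (h2 w hw).1)) (h3 w hw))
    w hw
  have h7 := h3 w hw
  rw [h6] at h7
  refine (h2 w hw).2 (le_antisymm ?_ (h2 w hw).1) j
  by_contra hc
  push Not at hc
  have := mul_pos (hr w hw) (mul_pos hn1 hc)
  linarith

end

end Pool.CMP
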