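import Pool.Agent.Lib.CMP.KSm
import Pool.Agent.Lib.CMP.K10Defs

/-!
# Tank CMP, block K, row K10: integration over `Γ\cone` (helper41)
-/

set_option autoImplicit false

open scoped ComplexConjugate Matrix
open Complex MeasureTheory

namespace Pool.CMP.K10I

noncomputable section

variable {n : ℕ} {k : Fin (n + 1) → ℝ}

theorem rho_mulVec {g : Matrix (Fin (n + 1)) (Fin (n + 1)) ℂ} (hg : Pool.CMN.Jac.IsU k g)
    (w : Fin (n + 1) → ℂ) : rho k (g *ᵥ w) = rho k w := by
  have := Pool.CMN.Jac.Hn_mulVec hg w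
  unfold Pool.CMN.Jac.Hn at this
  unfold rho
  rw [this]

theorem rho_smul (c : ℂ) (w : Fin (n + 1) → ℂ) : rho k (c • w) = ‖c‖ ^ 2 * rho k w := by
  unfold rho
  rw [mul_neg, Finset.mul_sum]
  congr 1
  refine Finset.sum_congr rfl fun j _ => ?_
  rw [Pi.smul_apply, smul_eq_mul, norm_mul]; ring

theorem integrable_cone {a : (Fin (n + 1) → ℂ) → ℂ} (ha : ContinuousOn a (cone k))
    {K : Set (Fin (n + 1) → ℂ)} (hK : IsCompact K) (hKc : K ⊆ cone k)
    (h0 : ∀ w, w ∉ K → a w = 0) : Integrable a := by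
  have h1 : Integrable (K.indicator a) :=
    (integrable_indicator_iff hK.measurableSet).2 ((ha.mono hKc).integrableOn_compact hK)
  have h2 : K.indicator a = a := by
    funext w
    by_cases hw : w ∈ K
    · rw [Set.indicator_of_mem hw]
    · rw [Set.indicator_of_notMem hw, h0 w hw]
  rwa [h2] at h1

/-- `eta` scaled -/
def er (r t : ℝ) : ℝ := eta (t / r)

theorem er_nonneg (r t : ℝ) : 0 ≤ er r t := eta_nonneg _

theorem contDiff_er (r : ℝ) {m : ℕ∞} : ContDiff ℝ m (er r) :=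
  contDiff_eta.comp (contDiff_id.div_const r)

theorem er_left {r t : ℝ} (hr : 0 < r) (h : t < r / 2) : er r t = 0 :=
  eta_eq_zero_left (by rw [div_le_iff₀ hr]; linarith)

theorem er_right {r t : ℝ} (hr : 0 < r) (h : 2 * r < t) : er r t = 0 :=
  eta_eq_zero_right (by rw [le_div_iff₀ hr]; exact h.le)

theorem smooth_inv {r : ℝ} (hr0 : 0 < r) {m : ℕ} {F : (Fin (n + 1) → ℂ) → ℝ}
    (hF : ContDiffOn ℝ m F (cone k))
    (hpos : ∀ w ∈ cone k, r / 2 ≤ rho k w → rho k w ≤ 2 * r → 0 < F w) :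
    ContDiffOn ℝ m (fun w => er r (rho k w) / F w) (cone k) := by
  intro w hw
  by_cases h : r / 2 ≤ rho k w ∧ rho k w ≤ 2 * r
  · refine ContDiffWithinAt.div ?_ (hF w hw) (hpos w hw h.1 h.2).ne'
    exact ((contDiff_er r (m := (m : ℕ∞))).comp (contDiff_rho k)).contDiffWithinAt
  · refine ((contDiffAt_const (c := (0 : ℝ))).congr_of_eventuallyEq ?_).contDiffWithinAt
    rw [not_and_or, not_le, not_le] at h
    rcases h with h | h
    · filter_upwards [(continuous_rho k).continuousAt.eventually_lt continuousAt_const h] with z hz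
      rw [er_left hr0 hz, zero_div]
    · filter_upwards [continuousAt_const.eventually_lt (continuous_rho k).continuousAt h] with z hz
      rw [er_right hr0 hz, zero_div]

/-- the derivation attached to the coefficients `Y` -/
def DD (Y : Fin (n + 1) → (Fin (n + 1) → ℂ) → ℂ) (h : (Fin (n + 1) → ℂ) → ℂ)
    (w : Fin (n + 1) → ℂ) : ℂ := ∑ j, Y j w * dz h j w

theorem DD_mul {Y : Fin (n + 1) → (Fin (n + 1) → ℂ) → ℂ} {f g : (Fin (n + 1) → ℂ) → ℂ}
    {w : Fin (n + 1) → ℂ} (hf : DifferentiableAt ℝ f w) (hg : DifferentiableAt ℝ g w) :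
    DD Y (fun z => f z * g z) w = DD Y f w * g w + f w * DD Y g w := by
  unfold DD
  rw [Finset.sum_mul, Finset.mul_sum, ← Finset.sum_add_distrib]
  refine Finset.sum_congr rfl fun j _ => ?_
  rw [dz_mul hf hg]; ring

theorem DD_congr {Y : Fin (n + 1) → (Fin (n + 1) → ℂ) → ℂ} {f g : (Fin (n + 1) → ℂ) → ℂ}
    {w : Fin (n + 1) → ℂ} (h : f =ᶠ[nhds w] g) : DD Y f w = DD Y g w := by
  unfold DD
  exact Finset.sum_congr rfl fun j _ => by rw [dz_congr h]

theorem DD_sum {ι : Type*} {s : Finset ι} {Y : Fin (n + 1) → (Fin (n + 1) → ℂ) → ℂ}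
    {f : ι → (Fin (n + 1) → ℂ) → ℂ} {w : Fin (n + 1) → ℂ}
    (hf : ∀ i ∈ s, DifferentiableAt ℝ (f i) w) :
    DD Y (fun z => ∑ i ∈ s, f i z) w = ∑ i ∈ s, DD Y (f i) w := by
  unfold DD
  rw [Finset.sum_comm]
  refine Finset.sum_congr rfl fun j _ => ?_
  rw [dz_sum hf, Finset.mul_sum]

theorem DD_comp {Y : Fin (n + 1) → (Fin (n + 1) → ℂ) → ℂ} {f : (Fin (n + 1) → ℂ) → ℂ}
    {w : Fin (n + 1) → ℂ} {g : Matrix (Fin (n + 1)) (Fin (n + 1)) ℂ}
    (hf : DifferentiableAt ℝ f (g *ᵥ w)) (hY : ∀ i, Y i (g *ᵥ w) = ∑ j, g i j * Y j w) :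
    DD Y (fun z => f (g *ᵥ z)) w = DD Y f (g *ᵥ w) := by
  unfold DD
  simp only [(dz_comp_mulVec g hf _).1, hY, Finset.sum_mul, Finset.mul_sum]
  rw [Finset.sum_comm]
  refine Finset.sum_congr rfl fun i _ => Finset.sum_congr rfl fun j _ => by ring

/-- a real function of `ρ` is killed -/
theorem DD_rho {Y : Fin (n + 1) → (Fin (n + 1) → ℂ) → ℂ} {w : Fin (n + 1) → ℂ}
    (h0 : ∑ j, Y j w * dz (fun z => (rho k z : ℂ)) j w = 0) {e : ℝ → ℝ}
    (he : Differentiable ℝ e) : DD Y (fun z => ((e (rho k z) : ℝ) : ℂ)) w = 0 := by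
  have hr : DifferentiableAt ℝ (rho k) w := (contDiff_rho k (m := 1)).differentiable (by norm_num) w
  have h1 : ∀ v, fderiv ℝ (fun z => ((e (rho k z) : ℝ) : ℂ)) w v =
      ((deriv e (rho k w) : ℝ) : ℂ) * fderiv ℝ (fun z => (rho k z : ℂ)) w v := by
    intro v
    have a1 : HasFDerivAt (fun z => e (rho k z)) (deriv e (rho k w) • fderiv ℝ (rho k) w) w :=
      (he (rho k w)).hasDerivAt.comp_hasFDerivAt w hr.hasFDerivAt
    have a2 := (Complex.ofRealCLM.hasFDerivAt (x := e (rho k w))).comp w a1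
    have a3 := (Complex.ofRealCLM.hasFDerivAt (x := rho k w)).comp w hr.hasFDerivAt
    rw [show (fun z => ((e (rho k z) : ℝ) : ℂ)) = (Complex.ofRealCLM ∘ fun z => e (rho k z)) from rfl,
      a2.fderiv, show (fun z => (rho k z : ℂ)) = (Complex.ofRealCLM ∘ rho k) from rfl, a3.fderiv]
    simp
  have h2 : ∀ j, dz (fun z => ((e (rho k z) : ℝ) : ℂ)) j w =
      ((deriv e (rho k w) : ℝ) : ℂ) * dz (fun z => (rho k z : ℂ)) j w := by
    intro j
    unfold dz
    rw [h1, h1]; ring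
  unfold DD
  simp only [h2]
  calc _ = ((deriv e (rho k w) : ℝ) : ℂ) * ∑ j, Y j w * dz (fun z => (rho k z : ℂ)) j w := by
        rw [Finset.mul_sum]; exact Finset.sum_congr rfl fun j _ => by ring
    _ = 0 := by rw [h0, mul_zero]

variable {Γ : Subgroup (Matrix.SpecialLinearGroup (Fin (n + 1)) ℂ)}

/-- the compact set in the slice `1/2 ≤ ρ ≤ 2` which meets every orbit -/
theorem exists_slice {r : ℝ} (hr0 : 0 < r) (hd : Disc k Γ) : ∃ K : Set (Fin (n + 1) → ℂ), IsCompact K ∧ K ⊆ cone k ∧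
    ∀ w ∈ cone k, r / 2 ≤ rho k w → rho k w ≤ 2 * r → ∃ g ∈ Γ, g.1 *ᵥ w ∈ K := by
  obtain ⟨Q, hQ, hQc, hcov⟩ := hd.cc
  rcases Q.eq_empty_or_nonempty with hne | hne
  · refine ⟨∅, isCompact_empty, Set.empty_subset _, fun w hw _ _ => ?_⟩
    obtain ⟨g, _, c, _, h⟩ := hcov w hw
    rw [hne] at h; exact absurd h (Set.notMem_empty _)
  obtain ⟨q₁, hq₁, hmin⟩ := hQ.exists_isMinOn hne (continuous_rho k).continuousOn
  obtain ⟨q₂, hq₂, hmax⟩ := hQ.exists_isMaxOn hne (continuous_rho k).continuousOn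
  have hm : 0 < rho k q₁ := hQc hq₁
  have hM : 0 < rho k q₂ := hQc hq₂
  set A : Set ℂ := {c | r / (2 * rho k q₂) ≤ ‖c‖ ^ 2 ∧ ‖c‖ ^ 2 ≤ 2 * r / rho k q₁} with hA
  have hAc : IsCompact A := by
    refine Metric.isCompact_of_isClosed_isBounded ?_ ?_
    · exact (isClosed_le continuous_const (continuous_norm.pow 2)).inter
        (isClosed_le (continuous_norm.pow 2) continuous_const)
    · refine (Metric.isBounded_closedBall (x := (0 : ℂ)) (r := 2 * r / rho k q₁ + 1)).subset ?_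
      intro c hc
      rw [mem_closedBall_zero_iff]
      have := hc.2
      nlinarith [norm_nonneg c, sq_nonneg (‖c‖ - 1)]
  refine ⟨(fun p : ℂ × (Fin (n + 1) → ℂ) => p.1 • p.2) '' (A ×ˢ Q),
    (hAc.prod hQ).image (by fun_prop), ?_, ?_⟩
  · rintro _ ⟨⟨c, q⟩, ⟨hc, hq⟩, rfl⟩
    change 0 < rho k (c • q)
    rw [rho_smul]
    refine mul_pos ?_ (hQc hq)
    exact lt_of_lt_of_le (by positivity) hc.1
  · intro w hw h1 h2
    obtain ⟨g, hg, c, hc, hq⟩ := hcov w hw
    refine ⟨g, hg, ⟨c⁻¹, c • (g.1 *ᵥ w)⟩, ⟨?_, hq⟩, ?_⟩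
    · have e1 : rho k (c • (g.1 *ᵥ w)) = ‖c‖ ^ 2 * rho k w := by
        rw [rho_smul, rho_mulVec (hd.isU g hg)]
      have e2 : rho k q₁ ≤ rho k (c • (g.1 *ᵥ w)) := hmin hq
      have e3 : rho k (c • (g.1 *ᵥ w)) ≤ rho k q₂ := hmax hq
      rw [e1] at e2 e3
      have hc2 : 0 < ‖c‖ ^ 2 := by positivity
      have hw0 : 0 < rho k w := hw
      constructor
      · rw [norm_inv, inv_pow, div_le_iff₀ (by positivity), inv_mul_eq_div, le_div_iff₀ hc2]
        nlinarith
      · rw [norm_inv, inv_pow, inv_eq_one_div, div_le_div_iff₀ hc2 hm]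
        nlinarith
    · change c⁻¹ • c • (g.1 *ᵥ w) = g.1 *ᵥ w
      rw [smul_smul, inv_mul_cancel₀ hc, one_smul]

/-- the sum over the orbit -/
def FF (Γ : Subgroup (Matrix.SpecialLinearGroup (Fin (n + 1)) ℂ)) (f : (Fin (n + 1) → ℂ) → ℝ)
    (w : Fin (n + 1) → ℂ) : ℝ := ∑' g : Γ, f (g.1.1 *ᵥ w)

theorem fin_loc (hd : Disc k Γ) {L N : Set (Fin (n + 1) → ℂ)} (hL : IsCompact L)
    (hLc : L ⊆ cone k) (hN : IsCompact N) (hNc : N ⊆ cone k) :
    {g : Γ | ∃ w ∈ N, g.1.1 *ᵥ w ∈ L}.Finite := by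
  refine (hd.pd (N ∪ L) (hN.union hL) (Set.union_subset hNc hLc)).subset ?_
  rintro g ⟨w, hw, h⟩
  exact ⟨w, Or.inl hw, Or.inr h⟩

theorem FF_eq {f : (Fin (n + 1) → ℂ) → ℝ} {L N : Set (Fin (n + 1) → ℂ)}
    (hf0 : ∀ w, w ∉ L → f w = 0) {T : Finset Γ}
    (hT : ∀ g : Γ, (∃ w ∈ N, g.1.1 *ᵥ w ∈ L) → g ∈ T) {w : Fin (n + 1) → ℂ} (hw : w ∈ N) :
    FF Γ f w = ∑ g ∈ T, f (g.1.1 *ᵥ w) :=
  tsum_eq_sum fun g hg => hf0 _ fun h => hg (hT g ⟨w, hw, h⟩)

theorem FF_inv {f : (Fin (n + 1) → ℂ) → ℝ} {g : Matrix.SpecialLinearGroup (Fin (n + 1)) ℂ}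
    (hg : g ∈ Γ) (w : Fin (n + 1) → ℂ) : FF Γ f (g.1 *ᵥ w) = FF Γ f w := by
  unfold FF
  rw [← (Equiv.mulRight (⟨g, hg⟩ : Γ)).tsum_eq (fun h : Γ => f (h.1.1 *ᵥ w))]
  refine tsum_congr fun h => ?_
  rw [Matrix.mulVec_mulVec]; rfl

theorem mulVec_cone (hd : Disc k Γ) {g : Matrix.SpecialLinearGroup (Fin (n + 1)) ℂ}
    (hg : g ∈ Γ) {w : Fin (n + 1) → ℂ} (hw : w ∈ cone k) : g.1 *ᵥ w ∈ cone k := by
  change 0 < rho k _
  rw [rho_mulVec (hd.isU g hg)]; exact hw

theorem contDiff_mulVec (g : Matrix (Fin (n + 1)) (Fin (n + 1)) ℂ) {m : WithTop ℕ∞} :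
    ContDiff ℝ m (fun w : Fin (n + 1) → ℂ => g *ᵥ w) :=
  (LinearMap.toContinuousLinearMap ((Matrix.mulVecLin g).restrictScalars ℝ)).contDiff

theorem contDiffOn_FF (hd : Disc k Γ) {f : (Fin (n + 1) → ℂ) → ℝ} {L : Set (Fin (n + 1) → ℂ)}
    (hL : IsCompact L) (hLc : L ⊆ cone k) (hf0 : ∀ w, w ∉ L → f w = 0) {m : ℕ}
    (hf : ContDiff ℝ m f) : ContDiffOn ℝ m (FF Γ f) (cone k) := by
  intro w₀ hw₀
  obtain ⟨N, hN, hwN, hNc⟩ := exists_compact_subset (isOpen_cone k) hw₀
  have hfin := fin_loc hd hL hLc hN hNc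
  have h1 : ContDiffAt ℝ m (fun w => ∑ g ∈ hfin.toFinset, f (g.1.1 *ᵥ w)) w₀ :=
    (ContDiff.sum fun g _ => hf.comp (contDiff_mulVec g.1.1)).contDiffAt
  refine (h1.congr_of_eventuallyEq ?_).contDiffWithinAt
  filter_upwards [isOpen_interior.mem_nhds hwN] with w hw
  exact FF_eq hf0 (fun g hg => hfin.mem_toFinset.2 hg) (interior_subset hw)

theorem FF_pos (hd : Disc k Γ) {f : (Fin (n + 1) → ℂ) → ℝ} {L : Set (Fin (n + 1) → ℂ)}
    (hL : IsCompact L) (hLc : L ⊆ cone k) (hf0 : ∀ w, w ∉ L → f w = 0) (hfn : ∀ w, 0 ≤ f w)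
    {w : Fin (n + 1) → ℂ} (hw : w ∈ cone k)
    (h : ∃ g ∈ Γ, 0 < f ((g : Matrix.SpecialLinearGroup (Fin (n + 1)) ℂ).1 *ᵥ w)) :
    0 < FF Γ f w := by
  have hfin := fin_loc hd hL hLc (isCompact_singleton (x := w)) (by simpa using hw)
  rw [FF_eq hf0 (N := {w}) (fun g hg => hfin.mem_toFinset.2 hg) rfl]
  obtain ⟨g, hg, hpos⟩ := h
  refine Finset.sum_pos' (fun g _ => hfn _) ⟨⟨g, hg⟩, ?_, hpos⟩
  rw [hfin.mem_toFinset]
  refine ⟨w, rfl, ?_⟩
  by_contra hn
  rw [hf0 _ hn] at hpos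
  exact lt_irrefl _ hpos

theorem inv_mulVec (g : Γ) (w : Fin (n + 1) → ℂ) : (g⁻¹ : Γ).1.1 *ᵥ (g.1.1 *ᵥ w) = w := by
  rw [Matrix.mulVec_mulVec, ← Matrix.SpecialLinearGroup.coe_mul, ← Subgroup.coe_mul,
    inv_mul_cancel]
  simp

theorem mulVec_inv (g : Γ) (w : Fin (n + 1) → ℂ) : g.1.1 *ᵥ ((g⁻¹ : Γ).1.1 *ᵥ w) = w := by
  rw [Matrix.mulVec_mulVec, ← Matrix.SpecialLinearGroup.coe_mul, ← Subgroup.coe_mul,
    mul_inv_cancel]
  simp

/-- The integral half of row K10. -/
theorem main (hd : Disc k Γ) {Y : Fin (n + 1) → (Fin (n + 1) → ℂ) → ℂ}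
    (hY : ∀ j, ContDiffOn ℝ 1 (Y j) (cone k))
    (hρ : ∀ w ∈ cone k, ∑ j, Y j w * dz (fun z => (rho k z : ℂ)) j w = 0)
    (hD0 : ∀ w ∈ cone k, 0 ≤ (∑ j, dz (Y j) j w).re)
    (hinv : ∀ g ∈ Γ, ∀ w ∈ cone k, ∀ i, Y i (g.1 *ᵥ w) = ∑ j, g.1 i j * Y j w) :
    ∀ w ∈ cone k, (∑ j, dz (Y j) j w).re = 0 := by
  intro w₀ hw₀
  set r : ℝ := rho k w₀ with hrdef
  have hr0 : 0 < r := hw₀
  set D : (Fin (n + 1) → ℂ) → ℂ := fun w => ∑ j, dz (Y j) j w with hDdef
  obtain ⟨K₀, hK₀, hK₀c, hcov₀⟩ := exists_slice hr0 hd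
  obtain ⟨K, hK, hKc, hcov, hw₀K⟩ : ∃ K : Set (Fin (n + 1) → ℂ), IsCompact K ∧ K ⊆ cone k ∧
      (∀ w ∈ cone k, r / 2 ≤ rho k w → rho k w ≤ 2 * r → ∃ g ∈ Γ, g.1 *ᵥ w ∈ K) ∧ w₀ ∈ K :=
    ⟨K₀ ∪ {w₀}, hK₀.union isCompact_singleton,
      Set.union_subset hK₀c (Set.singleton_subset_iff.2 hw₀), fun w hw h1 h2 => by
        obtain ⟨g, hg, h⟩ := hcov₀ w hw h1 h2
        exact ⟨g, hg, Or.inl h⟩, Or.inr rfl⟩
  obtain ⟨L, hL, hKL, hLc⟩ := exists_compact_between hK (isOpen_cone k) hKc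
  obtain ⟨f, hfs, hfc, hfr⟩ := (isOpen_interior (s := L)).exists_contDiff_support_eq (n := ⊤)
  have hfc' : ∀ m : ℕ, ContDiff ℝ m f := fun m => hfc.of_le (by exact_mod_cast le_top)
  have hfn : ∀ w, 0 ≤ f w := fun w => (hfr (Set.mem_range_self w)).1
  have hf0' : ∀ w, w ∉ interior L → f w = 0 := fun w hw => by
    rw [← hfs] at hw; exact Function.notMem_support.1 hw
  have hf0 : ∀ w, w ∉ L → f w = 0 := fun w hw => hf0' w fun h => hw (interior_subset h)
  have hfp : ∀ w ∈ interior L, 0 < f w := fun w hw => by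
    rw [← hfs] at hw; exact lt_of_le_of_ne (hfn w) (Ne.symm hw)
  have hFp : ∀ w ∈ cone k, r / 2 ≤ rho k w → rho k w ≤ 2 * r → 0 < FF Γ f w := by
    intro w hw h1 h2
    obtain ⟨g, hg, hgK⟩ := hcov w hw h1 h2
    exact FF_pos hd hL hLc hf0 hfn hw ⟨g, hg, hfp _ (hKL hgK)⟩
  have hFs : ∀ m : ℕ, ContDiffOn ℝ m (FF Γ f) (cone k) := fun m =>
    contDiffOn_FF hd hL hLc hf0 (hfc' m)
  -- complex valued versions
  set fc : (Fin (n + 1) → ℂ) → ℂ := fun w => (f w : ℂ) with hfcdef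
  set Fc : (Fin (n + 1) → ℂ) → ℂ := fun w => (FF Γ f w : ℂ) with hFcdef
  set ec : (Fin (n + 1) → ℂ) → ℂ := fun w => ((er r (rho k w) : ℝ) : ℂ) with hecdef
  set P1 : (Fin (n + 1) → ℂ) → ℂ := fun w => ((er r (rho k w) / FF Γ f w : ℝ) : ℂ) with hP1
  set P2 : (Fin (n + 1) → ℂ) → ℂ := fun w => ((er r (rho k w) / (FF Γ f w) ^ 2 : ℝ) : ℂ) with hP2
  have hfcs : ∀ m : ℕ, ContDiff ℝ m fc := fun m => Complex.ofRealCLM.contDiff.comp (hfc' m)
  have hFcs : ∀ m : ℕ, ContDiffOn ℝ m Fc (cone k) := fun m =>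
    Complex.ofRealCLM.contDiff.comp_contDiffOn (hFs m)
  have hecs : ∀ m : ℕ, ContDiff ℝ m ec := fun m =>
    Complex.ofRealCLM.contDiff.comp ((contDiff_er r (m := (m : ℕ∞))).comp (contDiff_rho k))
  have hP1s : ∀ m : ℕ, ContDiffOn ℝ m P1 (cone k) := fun m =>
    Complex.ofRealCLM.contDiff.comp_contDiffOn (smooth_inv hr0 (hFs m) hFp)
  have hP2s : ∀ m : ℕ, ContDiffOn ℝ m P2 (cone k) := fun m =>
    Complex.ofRealCLM.contDiff.comp_contDiffOn (smooth_inv hr0 ((hFs m).pow 2)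
      fun w hw h1 h2 => pow_pos (hFp w hw h1 h2) 2)
  have hLn : ∀ w, w ∉ L → Lᶜ ∈ nhds w := fun w hw => hL.isClosed.isOpen_compl.mem_nhds hw
  have hfc0 : ∀ w, w ∉ L → fc =ᶠ[nhds w] fun _ => 0 := by
    intro w hw
    filter_upwards [hLn w hw] with z hz
    simp only [hfcdef, hf0 z hz, ofReal_zero]
  have hDfc0 : ∀ w, w ∉ L → DD Y fc w = 0 := by
    intro w hw
    rw [DD_congr (hfc0 w hw)]
    simp [DD, dz_const]
  have hDfc : ContinuousOn (DD Y fc) (cone k) := by
    unfold DD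
    refine continuousOn_finsetSum _ fun j _ => (hY j).continuousOn.mul ?_
    exact (contDiffOn_dz (m := 0) (isOpen_cone k) ((hfcs 1).contDiffOn) j).continuousOn
  set G : (Fin (n + 1) → ℂ) → ℂ := fun w => P1 w * fc w with hG
  have hGs : ∀ m : ℕ, ContDiffOn ℝ m G (cone k) := fun m => (hP1s m).mul (hfcs m).contDiffOn
  have hG0 : ∀ w, w ∉ L → G w = 0 := fun w hw => by
    simp only [hG, hfcdef, hf0 w hw, ofReal_zero, mul_zero]
  have hG0' : ∀ w, w ∉ L → G =ᶠ[nhds w] fun _ => 0 := by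
    intro w hw
    filter_upwards [hLn w hw] with z hz
    exact hG0 z hz
  -- integration by parts
  have hYG : ∀ j, ContDiffOn ℝ 1 (fun w => Y j w * G w) (cone k) := fun j =>
    (hY j).mul (by simpa using hGs 1)
  have hibp := fun j => integral_dz_zero (isOpen_cone k) (hYG j) hL hLc
    (fun w hw => by rw [hG0 w hw, mul_zero]) j
  have hsum0 : ∫ w, ∑ j, dz (fun w => Y j w * G w) j w = 0 := by
    rw [integral_finsetSum _ fun j _ => (hibp j).1]
    exact Finset.sum_eq_zero fun j _ => (hibp j).2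
  have hpt : ∀ w, ∑ j, dz (fun w => Y j w * G w) j w = D w * G w + DD Y G w := by
    intro w
    by_cases hw : w ∈ cone k
    · rw [hDdef, DD, Finset.sum_mul, ← Finset.sum_add_distrib]
      refine Finset.sum_congr rfl fun j _ => ?_
      rw [dz_mul (((hY j).contDiffAt ((isOpen_cone k).mem_nhds hw)).differentiableAt (by norm_num))
        (((hGs 1).contDiffAt ((isOpen_cone k).mem_nhds hw)).differentiableAt (by norm_num))]
    · have hwL : w ∉ L := fun h => hw (hLc h)
      have e1 : ∀ j, dz (fun w => Y j w * G w) j w = 0 := by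
        intro j
        have : (fun w => Y j w * G w) =ᶠ[nhds w] fun _ => 0 := by
          filter_upwards [hG0' w hwL] with z hz
          rw [hz, mul_zero]
        rw [dz_congr this, dz_const]
      rw [Finset.sum_eq_zero fun j _ => e1 j, hG0 w hwL, DD_congr (hG0' w hwL)]
      simp [DD, dz_const]
  -- the derivative of `G`
  have hDG : ∀ w, DD Y G w = P1 w * DD Y fc w - P2 w * (fc w * DD Y Fc w) := by
    intro w
    by_cases hw : w ∈ cone k
    · by_cases hr : r / 2 ≤ rho k w ∧ rho k w ≤ 2 * r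
      · have hF := hFp w hw hr.1 hr.2
        have hFne : Fc w ≠ 0 := by
          simp only [hFcdef]; exact_mod_cast hF.ne'
        have dF : DifferentiableAt ℝ Fc w :=
          ((hFcs 1).contDiffAt ((isOpen_cone k).mem_nhds hw)).differentiableAt (by norm_num)
        have df : DifferentiableAt ℝ fc w := (hfcs 1).differentiable (by norm_num) w
        have de : DifferentiableAt ℝ ec w := (hecs 1).differentiable (by norm_num) w
        have dFi : DifferentiableAt ℝ (fun z => (Fc z)⁻¹) w := dF.inv hFne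
        have hde : DD Y ec w = 0 := DD_rho (hρ w hw)
          ((contDiff_er r (m := 1)).differentiable (by norm_num))
        have hdFi : DD Y (fun z => (Fc z)⁻¹) w = -((Fc w)⁻¹ * (Fc w)⁻¹ * DD Y Fc w) := by
          have e1 : DD Y (fun z => Fc z * (Fc z)⁻¹) w = 0 := by
            have : (fun z => Fc z * (Fc z)⁻¹) =ᶠ[nhds w] fun _ => 1 := by
              filter_upwards [dF.continuousAt.eventually_ne hFne] with z hz
              exact mul_inv_cancel₀ hz
            rw [DD_congr this]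
            simp [DD, dz_const]
          rw [DD_mul dF dFi] at e1
          field_simp
          field_simp at e1
          linear_combination e1
        have hG' : G = fun z => ec z * ((Fc z)⁻¹ * fc z) := by
          funext z
          simp only [hG, hP1, hecdef, hFcdef]
          push_cast; ring
        have dprod : DifferentiableAt ℝ (fun z => (Fc z)⁻¹ * fc z) w := dFi.mul df
        rw [hG', DD_mul de dprod, DD_mul dFi df, hde, hdFi]
        simp only [hP1, hP2, hecdef, hFcdef]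
        push_cast
        ring
      · have hev : ∀ᶠ z in nhds w, er r (rho k z) = 0 := by
          rw [not_and_or, not_le, not_le] at hr
          rcases hr with h | h
          · filter_upwards [(continuous_rho k).continuousAt.eventually_lt continuousAt_const h]
              with z hz
            exact er_left hr0 hz
          · filter_upwards [continuousAt_const.eventually_lt (continuous_rho k).continuousAt h]
              with z hz
            exact er_right hr0 hz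
        have e1 : G =ᶠ[nhds w] fun _ => 0 := by
          filter_upwards [hev] with z hz
          simp only [hG, hP1, hz, zero_div, ofReal_zero, zero_mul]
        have e2 := hev.self_of_nhds
        rw [DD_congr e1]
        simp only [hP1, hP2, e2, zero_div, ofReal_zero, zero_mul, sub_zero]
        simp [DD, dz_const]
    · have hwL : w ∉ L := fun h => hw (hLc h)
      rw [DD_congr (hG0' w hwL), hDfc0 w hwL]
      simp only [hfcdef, hf0 w hwL, ofReal_zero]
      simp [DD, dz_const]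
  -- unfolding
  set hfin := fin_loc hd hL hLc hL hLc with hfindef
  set T : Finset Γ := hfin.toFinset with hT
  have hTm : ∀ g : Γ, g ∈ T ↔ ∃ w ∈ L, g.1.1 *ᵥ w ∈ L := fun g => hfin.mem_toFinset
  have hTinv : ∀ g ∈ T, g⁻¹ ∈ T := by
    intro g hg
    obtain ⟨w, hw, hgw⟩ := (hTm g).1 hg
    exact (hTm _).2 ⟨_, hgw, by rw [inv_mulVec]; exact hw⟩
  have hFT : ∀ w ∈ L, FF Γ f w = ∑ g ∈ T, f (g.1.1 *ᵥ w) := fun w hw =>
    FF_eq hf0 (fun g hg => (hTm g).2 hg) hw
  have hFT' : ∀ w ∈ L, ∑ g ∈ T, fc ((g⁻¹ : Γ).1.1 *ᵥ w) = Fc w := by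
    intro w hw
    simp only [hfcdef, hFcdef, hFT w hw]
    push_cast
    exact Finset.sum_nbij' (fun g => g⁻¹) (fun g => g⁻¹) hTinv hTinv (by simp) (by simp) (by simp)
  have hDF : ∀ w, fc w * DD Y Fc w = ∑ g ∈ T, fc w * DD Y fc (g.1.1 *ᵥ w) := by
    intro w
    by_cases hw : w ∈ interior L
    · have e1 : Fc =ᶠ[nhds w] fun z => ∑ g ∈ T, fc (g.1.1 *ᵥ z) := by
        filter_upwards [isOpen_interior.mem_nhds hw] with z hz
        simp only [hFcdef, hfcdef, hFT z (interior_subset hz)]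
        push_cast; rfl
      rw [DD_congr e1, DD_sum, Finset.mul_sum]
      · refine Finset.sum_congr rfl fun g _ => ?_
        rw [DD_comp ((hfcs 1).differentiable (by norm_num) _)
          (hinv g.1 g.2 w (hLc (interior_subset hw)))]
      · intro g _
        exact (((hfcs 1).comp (contDiff_mulVec g.1.1)).differentiable (by norm_num)) w
    · have : fc w = 0 := by simp only [hfcdef, hf0' w hw, ofReal_zero]
      rw [this]; simp
  have hP2inv : ∀ g : Γ, ∀ w, P2 (g.1.1 *ᵥ w) = P2 w := by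
    intro g w
    simp only [hP2, FF_inv g.2, rho_mulVec (hd.isU g.1 g.2)]
  have hI2 : ∫ w, P2 w * (fc w * DD Y Fc w) = ∫ w, P1 w * DD Y fc w := by
    have s1 : ∀ w, P2 w * (fc w * DD Y Fc w) = ∑ g ∈ T, P2 w * (fc w * DD Y fc (g.1.1 *ᵥ w)) := by
      intro w; rw [hDF, Finset.mul_sum]
    have s2 : ∀ g ∈ T, Integrable (fun w => P2 w * (fc w * DD Y fc (g.1.1 *ᵥ w))) := by
      intro g _
      refine integrable_cone (k := k) ?_ hL hLc ?_
      · refine (hP2s 0).continuousOn.mul ((hfcs 0).continuous.continuousOn.mul ?_)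
        exact hDfc.comp (contDiff_mulVec (m := 0) g.1.1).continuous.continuousOn
          fun w hw => mulVec_cone hd g.2 hw
      · intro w hw
        simp only [hfcdef, hf0 w hw, ofReal_zero, zero_mul, mul_zero]
    have s3 : ∀ g ∈ T, Integrable (fun w => P2 w * (fc ((g⁻¹ : Γ).1.1 *ᵥ w) * DD Y fc w)) := by
      intro g _
      refine integrable_cone (k := k) ?_ hL hLc ?_
      · refine (hP2s 0).continuousOn.mul (ContinuousOn.mul ?_ hDfc)
        exact ((hfcs 0).continuous.comp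
          (contDiff_mulVec (m := 0) (g⁻¹ : Γ).1.1).continuous).continuousOn
      · intro w hw
        rw [hDfc0 w hw, mul_zero, mul_zero]
    calc ∫ w, P2 w * (fc w * DD Y Fc w)
        = ∫ w, ∑ g ∈ T, P2 w * (fc w * DD Y fc (g.1.1 *ᵥ w)) := by simp only [s1]
      _ = ∑ g ∈ T, ∫ w, P2 w * (fc w * DD Y fc (g.1.1 *ᵥ w)) := integral_finsetSum _ s2
      _ = ∑ g ∈ T, ∫ w, P2 w * (fc ((g⁻¹ : Γ).1.1 *ᵥ w) * DD Y fc w) := by
          refine Finset.sum_congr rfl fun g _ => ?_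
          rw [← integral_comp_mulVec g.1.1 (by rw [g.1.2]; simp)
            (fun w => P2 w * (fc ((g⁻¹ : Γ).1.1 *ᵥ w) * DD Y fc w))]
          refine integral_congr_ae (Filter.Eventually.of_forall fun w => ?_)
          simp only [inv_mulVec, hP2inv]
      _ = ∫ w, ∑ g ∈ T, P2 w * (fc ((g⁻¹ : Γ).1.1 *ᵥ w) * DD Y fc w) :=
          (integral_finsetSum _ s3).symm
      _ = ∫ w, P1 w * DD Y fc w := by
          refine integral_congr_ae (Filter.Eventually.of_forall fun w => ?_)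
          simp only
          by_cases hw : w ∈ L
          · rw [← Finset.mul_sum, ← Finset.sum_mul, hFT' w hw]
            simp only [hP1, hP2, hFcdef]
            by_cases h0 : FF Γ f w = 0
            · simp [h0]
            · push_cast
              have : (FF Γ f w : ℂ) ≠ 0 := by exact_mod_cast h0
              field_simp
          · rw [hDfc0 w hw]; simp
  have hIDG : ∫ w, DD Y G w = 0 := by
    have i1 : Integrable (fun w => P1 w * DD Y fc w) :=
      integrable_cone (k := k) ((hP1s 0).continuousOn.mul hDfc) hL hLc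
        fun w hw => by rw [hDfc0 w hw, mul_zero]
    have i2 : Integrable (fun w => P2 w * (fc w * DD Y Fc w)) := by
      refine integrable_cone (k := k) ?_ hL hLc fun w hw => by
        simp only [hfcdef, hf0 w hw, ofReal_zero, zero_mul, mul_zero]
      refine (hP2s 0).continuousOn.mul ((hfcs 0).continuous.continuousOn.mul ?_)
      unfold DD
      refine continuousOn_finsetSum _ fun j _ => (hY j).continuousOn.mul ?_
      exact (contDiffOn_dz (m := 0) (isOpen_cone k) (hFcs 1) j).continuousOn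
    simp only [hDG]
    rw [integral_sub i1 i2, hI2, sub_self]
  have hDcont : ContinuousOn D (cone k) :=
    continuousOn_finsetSum _ fun j _ =>
      (contDiffOn_dz (m := 0) (isOpen_cone k) (by simpa using hY j) j).continuousOn
  have iDG : Integrable (fun w => D w * G w) :=
    integrable_cone (k := k) (hDcont.mul (hGs 0).continuousOn) hL hLc
      fun w hw => by rw [hG0 w hw, mul_zero]
  have hfinal : ∫ w, D w * G w = 0 := by
    have h1 : ∫ w, (D w * G w + DD Y G w) = 0 := by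
      rw [← hsum0]; exact integral_congr_ae (Filter.Eventually.of_forall fun w => (hpt w).symm)
    have i3 : Integrable (DD Y G) := by
      refine integrable_cone (k := k) ?_ hL hLc fun w hw => by
        rw [DD_congr (hG0' w hw)]; simp [DD, dz_const]
      unfold DD
      refine continuousOn_finsetSum _ fun j _ => (hY j).continuousOn.mul ?_
      exact (contDiffOn_dz (m := 0) (isOpen_cone k) (hGs 1) j).continuousOn
    rw [integral_add iDG i3, hIDG, add_zero] at h1
    exact h1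
  -- positivity
  set R : (Fin (n + 1) → ℂ) → ℝ := fun w => (D w).re * (er r (rho k w) / FF Γ f w * f w) with hR
  have hRc : ∀ w, (D w * G w).re = R w := by
    intro w
    simp only [hR, hG, hP1, hfcdef]
    rw [← ofReal_mul, re_mul_ofReal]
  have hFn : ∀ w, 0 ≤ FF Γ f w := fun w => tsum_nonneg fun g => hfn _
  have hR0 : ∀ w, 0 ≤ R w := by
    intro w
    by_cases hw : w ∈ cone k
    · exact mul_nonneg (hD0 w hw) (mul_nonneg (div_nonneg (er_nonneg _ _) (hFn w)) (hfn w))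
    · simp only [hR, hf0 w fun h => hw (hLc h), mul_zero, le_refl]
  have hRi : Integrable R := by
    refine iDG.re.congr (Filter.Eventually.of_forall fun w => ?_)
    exact hRc w
  have hRint : ∫ w, R w = 0 := by
    have h1 : (∫ w, D w * G w).re = ∫ w, (D w * G w).re := (integral_re iDG).symm
    rw [hfinal, zero_re] at h1
    simp only [hRc] at h1
    exact h1.symm
  have hRae : R =ᵐ[volume] 0 :=
    (integral_eq_zero_iff_of_nonneg hR0 hRi).1 hRint
  have hRcont : ContinuousOn R (cone k) := by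
    have h1 := Complex.continuous_re.comp_continuousOn (hDcont.mul (hGs 0).continuousOn)
    exact h1.congr fun w _ => (hRc w).symm
  have hReq : Set.EqOn R (fun _ => 0) (cone k) :=
    MeasureTheory.Measure.eqOn_open_of_ae_eq (ae_restrict_of_ae hRae) (isOpen_cone k) hRcont
      continuousOn_const
  have h3 := hReq hw₀
  have h4 : 0 < er r (rho k w₀) / FF Γ f w₀ * f w₀ := by
    refine mul_pos (div_pos ?_ ?_) (hfp _ (hKL hw₀K))
    · unfold er
      rw [← hrdef, div_self hr0.ne']; exact eta_pos (by norm_num) (by norm_num)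
    · exact hFp _ hw₀ (by rw [← hrdef]; linarith) (by rw [← hrdef]; linarith)
  exact (mul_eq_zero.1 h3).resolve_right h4.ne'

theorem dz_rho (j : Fin (n + 1)) (w : Fin (n + 1) → ℂ) :
    dz (fun z => (rho k z : ℂ)) j w = -((k j : ℂ) * conj (w j)) := by
  have e1 : (fun z : Fin (n + 1) → ℂ => (rho k z : ℂ)) =
      fun z => -1 * ∑ i, (k i : ℂ) * (conj (z i) * z i) := by
    funext z
    have := H_self k z
    unfold H at this
    rw [← neg_eq_iff_eq_neg.2 this]
    rw [neg_one_mul]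
    congr 1
    exact Finset.sum_congr rfl fun i _ => by ring
  have d1 : ∀ i : Fin (n + 1), DifferentiableAt ℝ (fun z : Fin (n + 1) → ℂ => conj (z i) * z i) w :=
    fun i => ((differentiable_conj_coord i) w).mul ((differentiable_coord i) w)
  have d2 : ∀ i : Fin (n + 1), DifferentiableAt ℝ
      (fun z : Fin (n + 1) → ℂ => (k i : ℂ) * (conj (z i) * z i)) w := fun i =>
    (d1 i).const_mul _
  rw [e1, dz_const_mul _ (DifferentiableAt.fun_sum fun i _ => d2 i), dz_sum fun i _ => d2 i]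
  rw [Finset.sum_eq_single j]
  · rw [dz_const_mul _ (d1 j), dz_mul ((differentiable_conj_coord j) w) ((differentiable_coord j) w),
      dz_conj_coord, dz_coord, if_pos rfl]
    ring
  · intro i _ hi
    rw [dz_const_mul _ (d1 i), dz_mul ((differentiable_conj_coord i) w) ((differentiable_coord i) w),
      dz_conj_coord, dz_coord, if_neg hi]
    ring
  · intro h; exact absurd (Finset.mem_univ _) h

theorem k10b : K10b := by
  intro n k Γ X _ hd hX hρ hinv hD0
  refine main hd (fun j => by simpa using hX j 1) ?_ hD0 hinv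
  intro w hw
  have h := hρ w hw
  rw [← neg_eq_zero, ← Finset.sum_neg_distrib] at h
  rw [← h]
  exact Finset.sum_congr rfl fun j _ => by rw [dz_rho]; ring

end

end Pool.CMP.K10I

namespace Pool.CMP

theorem k10_of_K10a (ha : K10a) : K10 := k10_of ha K10I.k10b

end Pool.CMP
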