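import Pool.Agent.Lib.CMP.KDefs
import Pool.Agent.Lib.CMN.Boost

/-!
# Tank CMP, row K10P: the two slot positivity (helper44)
-/

set_option autoImplicit false

open scoped ComplexConjugate Matrix
open Complex Matrix

namespace Pool.CMP.K10P

noncomputable section

variable {n : ℕ} {k : Fin (n + 1) → ℝ} {w : Fin (n + 1) → ℂ}

/-- every vector of the cone is a multiple of the last column of a unitary matrix -/
theorem exists_unitary (hk : Pool.CMN.Jac.Sg k) (hw : w ∈ cone k) :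
    ∃ (U : Matrix (Fin (n + 1)) (Fin (n + 1)) ℂ) (c : ℂ), Pool.CMN.Jac.IsU k U ∧ c ≠ 0 ∧
      ∀ i, w i = c * U i (Fin.last n) := by
  have h0 : Pool.CMN.Jac.Hn k w < 0 := by
    have : rho k w = -Pool.CMN.Jac.Hn k w := rfl
    have h1 : 0 < rho k w := hw
    linarith
  have hl := Pool.CMN.Jac.last_ne_zero hk.pos h0
  set y : Fin n → ℂ := fun i => w i.castSucc / w (Fin.last n) with hy
  have hwy : w = w (Fin.last n) • Pool.CMN.Jac.Yv y := by
    funext i
    refine Fin.lastCases ?_ (fun i => ?_) i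
    · simp
    · simp only [Pi.smul_apply, smul_eq_mul, Pool.CMN.Jac.Yv_castSucc, hy]
      field_simp
  have hyB : y ∈ Pool.CMN.Jac.Bl k := by
    rw [Pool.CMN.Jac.mem_Bl_iff]
    rw [hwy, Pool.CMN.Jac.Hn_smul] at h0
    by_contra hcon
    rw [not_lt] at hcon
    exact absurd h0 (not_lt.mpr (mul_nonneg (by positivity) hcon))
  have hlam := Pool.CMN.Jac.lam_pos hk hyB
  have hlam' : (Pool.CMN.Jac.lam k y : ℂ) ≠ 0 := by exact_mod_cast hlam.ne'
  refine ⟨Pool.CMN.Jac.bst k y, w (Fin.last n) / Pool.CMN.Jac.lam k y,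
    Pool.CMN.Jac.isU_bst hk hyB, div_ne_zero hl hlam', fun i => ?_⟩
  have h1 := congrFun (Pool.CMN.Jac.bst_mulVec hk hyB) i
  have h2 : Pool.CMN.Jac.Yv (0 : Fin n → ℂ) = Pi.single (Fin.last n) 1 := by
    funext i
    refine Fin.lastCases ?_ (fun i => ?_) i
    · simp
    · simp
  rw [h2, Matrix.mulVec_single_one] at h1
  simp only [Matrix.col_apply, Pi.smul_apply, smul_eq_mul] at h1
  rw [h1]
  conv_lhs => rw [hwy]
  simp only [Pi.smul_apply, smul_eq_mul]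
  field_simp

/-- the inverse form -/
def Di (k : Fin (n + 1) → ℝ) : Matrix (Fin (n + 1)) (Fin (n + 1)) ℂ :=
  Matrix.diagonal fun i => ((k i)⁻¹ : ℂ)

theorem U_Di (hk : ∀ i, k i ≠ 0) {U : Matrix (Fin (n + 1)) (Fin (n + 1)) ℂ}
    (hU : Pool.CMN.Jac.IsU k U) : U * Di k * Uᴴ = Di k := by
  set D : Matrix (Fin (n + 1)) (Fin (n + 1)) ℂ := Matrix.diagonal fun i => (k i : ℂ) with hD
  have hk' : ∀ i, (k i : ℂ) ≠ 0 := fun i => by exact_mod_cast hk i
  have h1 : Di k * D = 1 := by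
    rw [Di, hD, Matrix.diagonal_mul_diagonal]
    rw [← Matrix.diagonal_one]
    congr 1
    funext i
    exact inv_mul_cancel₀ (hk' i)
  have h2 : D * Di k = 1 := by
    rw [Di, hD, Matrix.diagonal_mul_diagonal]
    rw [← Matrix.diagonal_one]
    congr 1
    funext i
    exact mul_inv_cancel₀ (hk' i)
  have h3 : Di k * Uᴴ * D * U = 1 := by
    have : Uᴴ * D * U = D := hU
    rw [Matrix.mul_assoc (Di k), Matrix.mul_assoc (Di k), this, h1]
  have h4 : U * (Di k * Uᴴ * D) = 1 := mul_eq_one_comm.mp h3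
  calc U * Di k * Uᴴ = U * (Di k * Uᴴ * D) * Di k := by
        rw [← Matrix.mul_assoc, Matrix.mul_assoc _ D, h2, Matrix.mul_one, ← Matrix.mul_assoc]
    _ = Di k := by rw [h4, Matrix.one_mul]

/-- one slot -/
theorem one_slot (hk : Pool.CMN.Jac.Sg k) (hw : w ∈ cone k) {c : Fin (n + 1) → ℂ}
    (hc : ∑ i, conj (w i) * c i = 0) :
    0 ≤ ∑ i, (k i)⁻¹ * ‖c i‖ ^ 2 ∧ (∑ i, (k i)⁻¹ * ‖c i‖ ^ 2 = 0 → ∀ i, c i = 0) := by
  obtain ⟨U, a, hU, ha, hwa⟩ := exists_unitary hk hw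
  set c' : Fin (n + 1) → ℂ := Uᴴ *ᵥ c with hc'
  have hform : ∀ x : Fin (n + 1) → ℂ, star x ⬝ᵥ (Di k *ᵥ x) = ((∑ i, (k i)⁻¹ * ‖x i‖ ^ 2 : ℝ) : ℂ) := by
    intro x
    simp only [dotProduct, Di, mulVec_diagonal, Pi.star_apply, RCLike.star_def]
    push_cast
    refine Finset.sum_congr rfl fun i _ => ?_
    rw [mul_left_comm, Complex.conj_mul']
  have h1 : ∑ i, (k i)⁻¹ * ‖c i‖ ^ 2 = ∑ i, (k i)⁻¹ * ‖c' i‖ ^ 2 := by
    have h2 : star c' ⬝ᵥ (Di k *ᵥ c') = star c ⬝ᵥ (Di k *ᵥ c) := by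
      rw [hc', Matrix.star_mulVec, Matrix.conjTranspose_conjTranspose, Matrix.mulVec_mulVec,
        ← Matrix.dotProduct_mulVec, Matrix.mulVec_mulVec, ← Matrix.mul_assoc, U_Di hk.ne hU]
    rw [hform, hform] at h2
    exact_mod_cast h2.symm
  have h3 : c' (Fin.last n) = 0 := by
    have h4 : conj a * c' (Fin.last n) = 0 := by
      rw [hc', Matrix.mulVec, dotProduct, Finset.mul_sum, ← hc]
      refine Finset.sum_congr rfl fun i _ => ?_
      rw [Matrix.conjTranspose_apply, hwa i, map_mul, RCLike.star_def]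
      ring
    exact (mul_eq_zero.mp h4).resolve_left (by simpa using ha)
  have h5 : ∑ i, (k i)⁻¹ * ‖c' i‖ ^ 2 = ∑ i : Fin n, (k i.castSucc)⁻¹ * ‖c' i.castSucc‖ ^ 2 := by
    rw [Fin.sum_univ_castSucc, h3]
    simp
  have h6 : ∀ i : Fin n, 0 ≤ (k i.castSucc)⁻¹ * ‖c' i.castSucc‖ ^ 2 := fun i =>
    mul_nonneg (inv_nonneg.mpr (hk.pos i).le) (by positivity)
  rw [h1, h5]
  refine ⟨Finset.sum_nonneg fun i _ => h6 i, fun h7 => ?_⟩
  have h8 := (Finset.sum_eq_zero_iff_of_nonneg fun i _ => h6 i).mp h7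
  have h9 : c' = 0 := by
    funext i
    refine Fin.lastCases h3 (fun i => ?_) i
    have h10 := h8 i (Finset.mem_univ i)
    rcases mul_eq_zero.mp h10 with h11 | h11
    · exact absurd h11 (inv_ne_zero (hk.pos i).ne')
    · simpa using h11
  have h10 : (U * Di k) *ᵥ c' = Di k *ᵥ c := by
    rw [hc', Matrix.mulVec_mulVec, U_Di hk.ne hU]
  rw [h9, Matrix.mulVec_zero] at h10
  intro i
  have h11 := congrFun h10 i
  rw [Di, Matrix.mulVec_diagonal] at h11
  have hki : ((k i)⁻¹ : ℂ) ≠ 0 := inv_ne_zero (by exact_mod_cast hk.ne i)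
  exact (mul_eq_zero.mp h11.symm).resolve_left hki

theorem trace_form (M : Matrix (Fin (n + 1)) (Fin (n + 1)) ℂ) :
    (Di k * M * Di k * Mᴴ).trace = ((∑ l, (k l)⁻¹ * ∑ j, (k j)⁻¹ * ‖M j l‖ ^ 2 : ℝ) : ℂ) := by
  have h1 : (Di k * M * Di k * Mᴴ).trace =
      ∑ j, ∑ l, ((k j)⁻¹ : ℂ) * M j l * ((k l)⁻¹ : ℂ) * conj (M j l) := by
    rw [Matrix.trace]
    refine Finset.sum_congr rfl fun j _ => ?_
    rw [Matrix.diag_apply, Matrix.mul_apply]
    refine Finset.sum_congr rfl fun l _ => ?_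
    rw [Di, Matrix.mul_diagonal, Matrix.diagonal_mul, Matrix.conjTranspose_apply, RCLike.star_def]
  rw [h1, Finset.sum_comm]
  push_cast
  refine Finset.sum_congr rfl fun l _ => ?_
  rw [Finset.mul_sum]
  refine Finset.sum_congr rfl fun j _ => ?_
  rw [← mul_conj']
  ring

/-- two slots -/
theorem two_slot (hk : Pool.CMN.Jac.Sg k) (hw : w ∈ cone k)
    {M : Matrix (Fin (n + 1)) (Fin (n + 1)) ℂ}
    (h1 : ∀ l, ∑ j, conj (w j) * M j l = 0) (h2 : ∀ j, ∑ l, w l * M j l = 0) :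
    0 ≤ ∑ l, (k l)⁻¹ * ∑ j, (k j)⁻¹ * ‖M j l‖ ^ 2 := by
  obtain ⟨U, a, hU, ha, hwa⟩ := exists_unitary hk hw
  set M' : Matrix (Fin (n + 1)) (Fin (n + 1)) ℂ := Uᴴ * M * U with hM'
  have hform : ∑ l, (k l)⁻¹ * ∑ j, (k j)⁻¹ * ‖M j l‖ ^ 2 =
      ∑ l, (k l)⁻¹ * ∑ j, (k j)⁻¹ * ‖M' j l‖ ^ 2 := by
    have h3 : (Di k * M' * Di k * M'ᴴ).trace = (Di k * M * Di k * Mᴴ).trace := by
      have h4 : Di k * M' * Di k * M'ᴴ = (Di k * Uᴴ * M * Di k * Mᴴ) * U := by
        rw [hM', Matrix.conjTranspose_mul, Matrix.conjTranspose_mul,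
          Matrix.conjTranspose_conjTranspose]
        calc Di k * (Uᴴ * M * U) * Di k * (Uᴴ * (Mᴴ * U)) =
            Di k * Uᴴ * M * (U * Di k * Uᴴ) * Mᴴ * U := by simp only [Matrix.mul_assoc]
          _ = _ := by rw [U_Di hk.ne hU]
      rw [h4, Matrix.trace_mul_comm]
      congr 1
      calc U * (Di k * Uᴴ * M * Di k * Mᴴ) = (U * Di k * Uᴴ) * M * Di k * Mᴴ := by
            simp only [Matrix.mul_assoc]
        _ = _ := by rw [U_Di hk.ne hU]
    rw [trace_form, trace_form] at h3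
    exact_mod_cast h3.symm
  have ha' : conj a ≠ 0 := by simpa using ha
  have hrow : ∀ l, M' (Fin.last n) l = 0 := by
    intro l
    have h4 : ∀ m, conj a * (Uᴴ * M) (Fin.last n) m = 0 := by
      intro m
      rw [Matrix.mul_apply, Finset.mul_sum, ← h1 m]
      refine Finset.sum_congr rfl fun i _ => ?_
      rw [Matrix.conjTranspose_apply, hwa i, map_mul, RCLike.star_def]
      ring
    rw [hM', Matrix.mul_apply]
    refine Finset.sum_eq_zero fun m _ => ?_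
    rw [(mul_eq_zero.mp (h4 m)).resolve_left ha', zero_mul]
  have hcol : ∀ j, M' j (Fin.last n) = 0 := by
    intro j
    have h4 : ∀ m, a * (M * U) m (Fin.last n) = 0 := by
      intro m
      rw [Matrix.mul_apply, Finset.mul_sum, ← h2 m]
      refine Finset.sum_congr rfl fun i _ => ?_
      rw [hwa i]
      ring
    rw [hM', Matrix.mul_assoc, Matrix.mul_apply]
    refine Finset.sum_eq_zero fun m _ => ?_
    rw [(mul_eq_zero.mp (h4 m)).resolve_left ha, mul_zero]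
  rw [hform, Fin.sum_univ_castSucc]
  have h5 : ∑ j, (k j)⁻¹ * ‖M' j (Fin.last n)‖ ^ 2 = 0 :=
    Finset.sum_eq_zero fun j _ => by rw [hcol]; simp
  rw [h5, mul_zero, add_zero]
  refine Finset.sum_nonneg fun l _ => mul_nonneg (inv_nonneg.mpr (hk.pos l).le) ?_
  rw [Fin.sum_univ_castSucc, hrow]
  simp only [norm_zero, ne_eq, OfNat.ofNat_ne_zero, not_false_eq_true, zero_pow, mul_zero,
    add_zero]
  exact Finset.sum_nonneg fun j _ => mul_nonneg (inv_nonneg.mpr (hk.pos j).le) (by positivity)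

end

end Pool.CMP.K10P
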