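import Pool.Agent.Lib.CMP.Wirt
import Pool.Agent.Lib.CMP.K10Q

/-!
# Tank CMP, row K10P: the vector field of row K10 (helper44)

`N = ∑ k_j⁻¹ |S_jbar|²`, `V^l = ∑_j k_j⁻¹ k_l⁻¹ S_jbar conj(S_jbar,l)`,
`Y = ρ^(-n) V + ρ^(-n-1) N Eu`: it is tangent to `ρ = const`, and
`Div Y = ρ^(-n-1) (ρ A + n N) ≥ (n - 1) ρ^(-n-1) N`.
-/

set_option autoImplicit false

open scoped ComplexConjugate Matrix
open Complex

namespace Pool.CMP.K10P

open Pool.CMP.W

noncomputable section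

variable {n : ℕ} {k : Fin (n + 1) → ℝ} {S : (Fin (n + 1) → ℂ) → ℂ} {w : Fin (n + 1) → ℂ}

/-! ### the cone -/

theorem continuous_rho' (k : Fin (n + 1) → ℝ) : Continuous (rho k) := by
  unfold rho; fun_prop

theorem isOpen_cone' (k : Fin (n + 1) → ℝ) : IsOpen (cone k) :=
  isOpen_lt continuous_const (continuous_rho' k)

theorem rho_coe (k : Fin (n + 1) → ℝ) (x : Fin (n + 1) → ℂ) :
    (rho k x : ℂ) = -∑ j, (k j : ℂ) * (x j * conj (x j)) := by
  rw [rho]
  push_cast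
  congr 1
  refine Finset.sum_congr rfl fun j _ => ?_
  rw [mul_conj']

theorem dz_rho (k : Fin (n + 1) → ℝ) (l : Fin (n + 1)) (w : Fin (n + 1) → ℂ) :
    dz (fun x => (rho k x : ℂ)) l w = -((k l : ℂ) * conj (w l)) := by
  have h1 : (fun x => (rho k x : ℂ)) = fun x => ∑ j, (-(k j : ℂ)) * (x j * conj (x j)) := by
    funext x
    rw [rho_coe, ← Finset.sum_neg_distrib]
    exact Finset.sum_congr rfl fun j _ => by ring
  rw [h1, dz_sum _ (fun j _ => by fun_prop), Finset.sum_eq_single l]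
  · rw [dz_const_mul _ (by fun_prop), dz_mul (by fun_prop) (by fun_prop), dz_coord, if_pos rfl,
      dz_conj_coord]
    ring
  · intro j _ hj
    rw [dz_const_mul _ (by fun_prop), dz_mul (by fun_prop) (by fun_prop), dz_coord, if_neg hj,
      dz_conj_coord]
    ring
  · simp

theorem sm_rho (k : Fin (n + 1) → ℝ) (U : Set (Fin (n + 1) → ℂ)) :
    Sm U (fun x => (rho k x : ℂ)) := by
  refine Sm.congr (f := fun x => -∑ j, (k j : ℂ) * (x j * conj (x j))) ?_ fun x _ => rho_coe k x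
  exact (Sm.sum _ fun j _ => (Sm.const _).mul ((Sm.coord j).mul (Sm.coord j).conj)).neg

theorem rho_ne (hw : w ∈ cone k) : (rho k w : ℂ) ≠ 0 := by
  exact_mod_cast (ne_of_gt hw)

/-- `1 / ρ` -/
def ri (k : Fin (n + 1) → ℝ) (x : Fin (n + 1) → ℂ) : ℂ := (rho k x : ℂ)⁻¹

theorem sm_ri (k : Fin (n + 1) → ℝ) : Sm (cone k) (ri k) :=
  (sm_rho k _).inv fun _ hx => rho_ne hx

theorem dz_ri (hw : w ∈ cone k) (l : Fin (n + 1)) :
    dz (ri k) l w = (k l : ℂ) * conj (w l) * ri k w ^ 2 := by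
  have ho := isOpen_cone' k
  have h1 : dz (fun x => (rho k x : ℂ) * ri k x) l w = 0 :=
    (dz_congr (g := fun _ => (1 : ℂ)) ho hw (fun x hx => mul_inv_cancel₀ (rho_ne hx)) l).trans
      (dz_const _ _)
  rw [dz_mul ((sm_rho k _).differentiableAt ho hw) ((sm_ri k).differentiableAt ho hw), dz_rho] at h1
  have h2 : (rho k w : ℂ) * ri k w = 1 := mul_inv_cancel₀ (rho_ne hw)
  linear_combination (ri k w) * h1 - (dz (ri k) l w) * h2

theorem dz_ri_pow (hw : w ∈ cone k) (l : Fin (n + 1)) (m : ℕ) :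
    dz (fun x => ri k x ^ m) l w = m * ((k l : ℂ) * conj (w l)) * ri k w ^ (m + 1) := by
  have ho := isOpen_cone' k
  induction m with
  | zero => simp
  | succ m ih =>
    have h1 : (fun x => ri k x ^ (m + 1)) = fun x => ri k x ^ m * ri k x := by
      funext x; rw [pow_succ]
    rw [h1, dz_mul (((sm_ri k).pow m).differentiableAt ho hw) ((sm_ri k).differentiableAt ho hw), ih,
      dz_ri hw]
    push_cast
    ring

/-! ### the relations -/

theorem euler' (hS : DifferentiableAt ℝ S w) (h : ∀ c : ℂ, c ≠ 0 → S (c • w) = c * S w) :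
    ∑ i, w i * dz S i w = S w ∧ ∑ i, conj (w i) * dzb S i w = 0 := by
  have key : ∀ a : ℂ, fderiv ℝ S w (a • w) = a * S w := by
    intro a
    have h1 : HasDerivAt (fun t : ℝ => S ((1 + (t : ℂ) * a) • w))
        (fderiv ℝ S w (a • w)) 0 := by
      have h2 : HasDerivAt (fun t : ℝ => (1 + (t : ℂ) * a) • w) (a • w) 0 := by
        have h3 : HasDerivAt (fun t : ℝ => (1 + (t : ℂ) * a)) a 0 := by
          have := ((hasDerivAt_id (0 : ℝ)).ofReal_comp.mul_const a).const_add (1 : ℂ)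
          simpa using this
        simpa using h3.smul_const w
      have h4 : HasFDerivAt S (fderiv ℝ S w) ((1 + ((0 : ℝ) : ℂ) * a) • w) := by
        simpa using hS.hasFDerivAt
      exact h4.comp_hasDerivAt (0 : ℝ) h2
    have h5 : HasDerivAt (fun t : ℝ => (1 + (t : ℂ) * a) * S w) (a * S w) 0 := by
      have := (((hasDerivAt_id (0 : ℝ)).ofReal_comp.mul_const a).const_add (1 : ℂ)).mul_const (S w)
      simpa using this
    have h6 : (fun t : ℝ => S ((1 + (t : ℂ) * a) • w)) =ᶠ[nhds 0]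
        fun t : ℝ => (1 + (t : ℂ) * a) * S w := by
      have hc : ContinuousAt (fun t : ℝ => (1 + (t : ℂ) * a)) 0 := by fun_prop
      have : ∀ᶠ t : ℝ in nhds 0, (1 + (t : ℂ) * a) ≠ 0 :=
        hc.eventually_ne (by simp)
      filter_upwards [this] with t ht
      exact h _ ht
    exact h1.unique (h5.congr_of_eventuallyEq h6)
  have k1 := key 1
  have k2 := key I
  rw [fderiv_eq_sum, Finset.sum_add_distrib] at k1 k2
  simp only [Pi.smul_apply, smul_eq_mul, one_mul, map_mul, conj_I, mul_assoc,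
    ← Finset.mul_sum] at k1 k2
  constructor
  · linear_combination (1/2 : ℂ) * k1 - (1/2 : ℂ) * I * k2 +
      (1/2 : ℂ) * (∑ i, w i * dz S i w - ∑ i, conj (w i) * dzb S i w - S w) * I_mul_I
  · linear_combination (1/2 : ℂ) * k1 + (1/2 : ℂ) * I * k2 -
      (1/2 : ℂ) * (∑ i, w i * dz S i w - ∑ i, conj (w i) * dzb S i w - S w) * I_mul_I

section relations

variable (hS : Sm (cone k) S) (hH : Hom1 k S)

include hS hH

theorem R0 (hw : w ∈ cone k) : ∑ i, w i * dz S i w = S w :=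
  (euler' (hS.differentiableAt (isOpen_cone' k) hw) fun c hc => hH c hc w hw).1

theorem R1 (hw : w ∈ cone k) : ∑ i, conj (w i) * dzb S i w = 0 :=
  (euler' (hS.differentiableAt (isOpen_cone' k) hw) fun c hc => hH c hc w hw).2

theorem R2 (hw : w ∈ cone k) (l : Fin (n + 1)) : ∑ i, conj (w i) * dz (dzb S i) l w = 0 := by
  have ho := isOpen_cone' k
  have h1 : dz (fun x => ∑ i, conj (x i) * dzb S i x) l w = 0 := by
    rw [dz_congr ho hw (g := fun _ => (0 : ℂ)) (fun x hx => R1 hS hH hx), dz_const]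
  have hd : ∀ i, DifferentiableAt ℝ (dzb S i) w := fun i => (hS.dzb ho i).differentiableAt ho hw
  rw [dz_sum _ (fun i _ => DifferentiableAt.fun_mul (by fun_prop) (hd i))] at h1
  rw [← h1]
  refine Finset.sum_congr rfl fun i _ => ?_
  rw [dz_mul (by fun_prop) (hd i), dz_conj_coord, zero_mul, zero_add]

theorem R3 (hw : w ∈ cone k) (j : Fin (n + 1)) :
    ∑ l, w l * dz (dzb S j) l w = dzb S j w := by
  have ho := isOpen_cone' k
  have h1 : dzb (fun x => ∑ l, x l * dz S l x) j w = dzb S j w :=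
    dzb_congr ho hw (fun x hx => R0 hS hH hx) j
  have hd : ∀ i, DifferentiableAt ℝ (dz S i) w := fun i => (hS.dz ho i).differentiableAt ho hw
  rw [dzb_sum _ (fun i _ => DifferentiableAt.fun_mul (by fun_prop) (hd i))] at h1
  rw [← h1]
  refine Finset.sum_congr rfl fun l _ => ?_
  rw [dzb_mul (by fun_prop) (hd l), dzb_coord, zero_mul, zero_add, dz_dzb_comm hS ho hw]

theorem R4 (hw : w ∈ cone k) (j : Fin (n + 1)) :
    ∑ l, conj (w l) * dzb (dzb S j) l w = -dzb S j w := by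
  have ho := isOpen_cone' k
  have h1 : dzb (fun x => ∑ i, conj (x i) * dzb S i x) j w = 0 := by
    rw [dzb_congr ho hw (g := fun _ => (0 : ℂ)) (fun x hx => R1 hS hH hx), dzb_const]
  have hd : ∀ i, DifferentiableAt ℝ (dzb S i) w := fun i => (hS.dzb ho i).differentiableAt ho hw
  rw [dzb_sum _ (fun i _ => DifferentiableAt.fun_mul (by fun_prop) (hd i))] at h1
  have h2 : ∀ i, dzb (fun x => conj (x i) * dzb S i x) j w =
      (if i = j then dzb S i w else 0) + conj (w i) * dzb (dzb S j) i w := by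
    intro i
    rw [dzb_mul (by fun_prop) (hd i), dzb_conj_coord, dzb_dzb_comm hS ho hw i j]
    split_ifs <;> simp
  rw [Finset.sum_congr rfl fun i _ => h2 i, Finset.sum_add_distrib] at h1
  simp only [Finset.sum_ite_eq', Finset.mem_univ, if_true] at h1
  linear_combination h1

omit hH in
theorem R5 (hB : ∀ x ∈ cone k, Box k S x = 0) (hw : w ∈ cone k) (j : Fin (n + 1)) :
    ∑ l, ((k l)⁻¹ : ℂ) * dzb (dz (dzb S j) l) l w = 0 := by
  have ho := isOpen_cone' k
  have h1 : dzb (fun x => ∑ l, ((k l)⁻¹ : ℂ) * dz (dzb S l) l x) j w = 0 :=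
    (dzb_congr (g := fun _ => (0 : ℂ)) ho hw (fun x hx => hB x hx) j).trans (dzb_const _ _)
  have hd : ∀ i, DifferentiableAt ℝ (dz (dzb S i) i) w := fun i =>
    ((hS.dzb ho i).dz ho i).differentiableAt ho hw
  rw [dzb_sum _ (fun i _ => (hd i).const_mul _)] at h1
  rw [← h1]
  refine Finset.sum_congr rfl fun l _ => ?_
  rw [dzb_const_mul _ (hd l), ← dz_dzb_comm (hS.dzb ho j) ho hw l l,
    ← dz_dzb_comm (hS.dzb ho l) ho hw j l]
  congr 1
  exact dz_congr ho hw (fun x hx => dzb_dzb_comm hS ho hx j l) l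

end relations

/-! ### the vector field -/

/-- `N` -/
def NN (k : Fin (n + 1) → ℝ) (S : (Fin (n + 1) → ℂ) → ℂ) (x : Fin (n + 1) → ℂ) : ℂ :=
  ∑ j, ((k j)⁻¹ : ℂ) * (dzb S j x * conj (dzb S j x))

/-- `A` -/
def AA (k : Fin (n + 1) → ℝ) (S : (Fin (n + 1) → ℂ) → ℂ) (x : Fin (n + 1) → ℂ) : ℂ :=
  ∑ l, ((k l)⁻¹ : ℂ) * ∑ j, ((k j)⁻¹ : ℂ) * (dz (dzb S j) l x * conj (dz (dzb S j) l x))

/-- `V` -/
def VV (k : Fin (n + 1) → ℝ) (S : (Fin (n + 1) → ℂ) → ℂ) (l : Fin (n + 1))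
    (x : Fin (n + 1) → ℂ) : ℂ :=
  ((k l)⁻¹ : ℂ) * ∑ j, ((k j)⁻¹ : ℂ) * (dzb S j x * conj (dz (dzb S j) l x))

/-- `Y` -/
def YY (k : Fin (n + 1) → ℝ) (S : (Fin (n + 1) → ℂ) → ℂ) (l : Fin (n + 1))
    (x : Fin (n + 1) → ℂ) : ℂ :=
  ri k x ^ n * VV k S l x + ri k x ^ (n + 1) * (NN k S x * x l)

theorem sm_NN (hS : Sm (cone k) S) : Sm (cone k) (NN k S) :=
  Sm.sum _ fun j _ => (Sm.const _).mul
    ((hS.dzb (isOpen_cone' k) j).mul (hS.dzb (isOpen_cone' k) j).conj)

theorem sm_VV (hS : Sm (cone k) S) (l : Fin (n + 1)) : Sm (cone k) (VV k S l) :=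
  (Sm.const _).mul (Sm.sum _ fun j _ => (Sm.const _).mul
    ((hS.dzb (isOpen_cone' k) j).mul ((hS.dzb (isOpen_cone' k) j).dz (isOpen_cone' k) l).conj))

theorem sm_YY (hS : Sm (cone k) S) (l : Fin (n + 1)) : Sm (cone k) (YY k S l) :=
  (((sm_ri k).pow n).mul (sm_VV hS l)).add
    (((sm_ri k).pow (n + 1)).mul ((sm_NN hS).mul (Sm.coord l)))

theorem sum_kw (w : Fin (n + 1) → ℂ) : ∑ l, (k l : ℂ) * conj (w l) * w l = -(rho k w : ℂ) := by
  rw [rho_coe, neg_neg]
  exact Finset.sum_congr rfl fun l _ => by ring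

theorem sum_V (hk : ∀ j, k j ≠ 0) (hS : Sm (cone k) S) (hH : Hom1 k S) (hw : w ∈ cone k) :
    ∑ l, (k l : ℂ) * conj (w l) * VV k S l w = NN k S w := by
  have h1 : ∀ l, (k l : ℂ) * conj (w l) * VV k S l w =
      ∑ j, ((k j)⁻¹ : ℂ) * (dzb S j w * conj (w l * dz (dzb S j) l w)) := by
    intro l
    have hl : (k l : ℂ) ≠ 0 := by exact_mod_cast hk l
    rw [VV, Finset.mul_sum, Finset.mul_sum]
    refine Finset.sum_congr rfl fun j _ => ?_
    rw [map_mul]
    field_simp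
  rw [Finset.sum_congr rfl fun l _ => h1 l, Finset.sum_comm, NN]
  refine Finset.sum_congr rfl fun j _ => ?_
  rw [← Finset.mul_sum, ← Finset.mul_sum, ← map_sum, R3 hS hH hw]

theorem tangent (hk : ∀ j, k j ≠ 0) (hS : Sm (cone k) S) (hH : Hom1 k S) (hw : w ∈ cone k) :
    ∑ l, (k l : ℂ) * conj (w l) * YY k S l w = 0 := by
  have h1 : ∀ l, (k l : ℂ) * conj (w l) * YY k S l w =
      ri k w ^ n * ((k l : ℂ) * conj (w l) * VV k S l w) +
      ri k w ^ (n + 1) * NN k S w * ((k l : ℂ) * conj (w l) * w l) := by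
    intro l
    rw [YY]; ring
  rw [Finset.sum_congr rfl fun l _ => h1 l, Finset.sum_add_distrib, ← Finset.mul_sum,
    ← Finset.mul_sum, sum_V hk hS hH hw, sum_kw]
  have h2 : (rho k w : ℂ) * ri k w = 1 := mul_inv_cancel₀ (rho_ne hw)
  linear_combination (-(ri k w ^ n * NN k S w)) * h2

theorem dz_NN (hS : Sm (cone k) S) (hw : w ∈ cone k) (l : Fin (n + 1)) :
    dz (NN k S) l w = ∑ j, ((k j)⁻¹ : ℂ) * (dz (dzb S j) l w * conj (dzb S j w) +
      dzb S j w * conj (dzb (dzb S j) l w)) := by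
  have ho := isOpen_cone' k
  have hd : ∀ j, DifferentiableAt ℝ (dzb S j) w := fun j => (hS.dzb ho j).differentiableAt ho hw
  have hdc : ∀ j, DifferentiableAt ℝ (fun x => conj (dzb S j x)) w := fun j =>
    (hS.dzb ho j).conj.differentiableAt ho hw
  have h0 : NN k S = fun x => ∑ j, ((k j)⁻¹ : ℂ) * (dzb S j x * conj (dzb S j x)) := rfl
  rw [h0, dz_sum _ (fun j _ => ((hd j).fun_mul (hdc j)).const_mul _)]
  refine Finset.sum_congr rfl fun j _ => ?_
  rw [dz_const_mul _ ((hd j).fun_mul (hdc j)), dz_mul (hd j) (hdc j), dz_conj]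

theorem eu_NN (hS : Sm (cone k) S) (hH : Hom1 k S) (hw : w ∈ cone k) :
    ∑ l, w l * dz (NN k S) l w = 0 := by
  have h1 : ∀ l, w l * dz (NN k S) l w =
      ∑ j, ((k j)⁻¹ : ℂ) * (w l * dz (dzb S j) l w * conj (dzb S j w) +
      dzb S j w * conj (conj (w l) * dzb (dzb S j) l w)) := by
    intro l
    rw [dz_NN hS hw, Finset.mul_sum]
    refine Finset.sum_congr rfl fun j _ => ?_
    rw [map_mul, conj_conj]
    ring
  rw [Finset.sum_congr rfl fun l _ => h1 l, Finset.sum_comm]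
  refine Finset.sum_eq_zero fun j _ => ?_
  rw [← Finset.mul_sum, Finset.sum_add_distrib, ← Finset.sum_mul, ← Finset.mul_sum, ← map_sum,
    R3 hS hH hw, R4 hS hH hw, map_neg]
  ring

theorem div_VV (hS : Sm (cone k) S) (hB : ∀ x ∈ cone k, Box k S x = 0) (hw : w ∈ cone k) :
    ∑ l, dz (VV k S l) l w = AA k S w := by
  have ho := isOpen_cone' k
  have hd : ∀ j, DifferentiableAt ℝ (dzb S j) w := fun j => (hS.dzb ho j).differentiableAt ho hw
  have hdc : ∀ j l, DifferentiableAt ℝ (fun x => conj (dz (dzb S j) l x)) w := fun j l =>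
    ((hS.dzb ho j).dz ho l).conj.differentiableAt ho hw
  have h1 : ∀ l, dz (VV k S l) l w = ((k l)⁻¹ : ℂ) * ∑ j, ((k j)⁻¹ : ℂ) *
      (dz (dzb S j) l w * conj (dz (dzb S j) l w) +
        dzb S j w * conj (dzb (dz (dzb S j) l) l w)) := by
    intro l
    have h0 : VV k S l = fun x => ((k l)⁻¹ : ℂ) *
      ∑ j, ((k j)⁻¹ : ℂ) * (dzb S j x * conj (dz (dzb S j) l x)) := rfl
    have h2 : DifferentiableAt ℝ (fun x => ∑ j, ((k j)⁻¹ : ℂ) *
        (dzb S j x * conj (dz (dzb S j) l x))) w :=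
      DifferentiableAt.fun_sum fun j _ => ((hd j).fun_mul (hdc j l)).const_mul _
    rw [h0, dz_const_mul _ h2, dz_sum _ (fun j _ => ((hd j).fun_mul (hdc j l)).const_mul _)]
    congr 1
    refine Finset.sum_congr rfl fun j _ => ?_
    rw [dz_const_mul _ ((hd j).fun_mul (hdc j l)), dz_mul (hd j) (hdc j l), dz_conj]
  rw [Finset.sum_congr rfl fun l _ => h1 l]
  have h2 : ∀ l, ((k l)⁻¹ : ℂ) * ∑ j, ((k j)⁻¹ : ℂ) *
      (dz (dzb S j) l w * conj (dz (dzb S j) l w) +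
        dzb S j w * conj (dzb (dz (dzb S j) l) l w)) =
      ((k l)⁻¹ : ℂ) * ∑ j, ((k j)⁻¹ : ℂ) * (dz (dzb S j) l w * conj (dz (dzb S j) l w)) +
      ∑ j, ((k j)⁻¹ : ℂ) * dzb S j w *
        conj (((k l)⁻¹ : ℂ) * dzb (dz (dzb S j) l) l w) := by
    intro l
    rw [Finset.mul_sum, Finset.mul_sum, ← Finset.sum_add_distrib]
    refine Finset.sum_congr rfl fun j _ => ?_
    rw [map_mul, map_inv₀, conj_ofReal]
    ring
  rw [Finset.sum_congr rfl fun l _ => h2 l, Finset.sum_add_distrib, AA]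
  have h3 : ∑ l, ∑ j, ((k j)⁻¹ : ℂ) * dzb S j w *
        conj (((k l)⁻¹ : ℂ) * dzb (dz (dzb S j) l) l w) = 0 := by
    rw [Finset.sum_comm]
    refine Finset.sum_eq_zero fun j _ => ?_
    rw [← Finset.mul_sum, ← map_sum, R5 hS hB hw, map_zero, mul_zero]
  rw [h3, add_zero]

theorem div_YY (hk : ∀ j, k j ≠ 0) (hS : Sm (cone k) S) (hH : Hom1 k S)
    (hB : ∀ x ∈ cone k, Box k S x = 0) (hw : w ∈ cone k) :
    ∑ l, dz (YY k S l) l w = ri k w ^ (n + 1) * ((rho k w : ℂ) * AA k S w + n * NN k S w) := by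
  have ho := isOpen_cone' k
  have hri : ∀ m, DifferentiableAt ℝ (fun x => ri k x ^ m) w := fun m =>
    ((sm_ri k).pow m).differentiableAt ho hw
  have hV : ∀ l, DifferentiableAt ℝ (VV k S l) w := fun l => (sm_VV hS l).differentiableAt ho hw
  have hN : DifferentiableAt ℝ (NN k S) w := (sm_NN hS).differentiableAt ho hw
  have hc : ∀ l, DifferentiableAt ℝ (fun x : Fin (n + 1) → ℂ => x l) w := fun l => by fun_prop
  have h1 : ∀ l, dz (YY k S l) l w =
      n * ri k w ^ (n + 1) * ((k l : ℂ) * conj (w l) * VV k S l w) +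
      ri k w ^ n * dz (VV k S l) l w +
      (n + 1) * ri k w ^ (n + 2) * NN k S w * ((k l : ℂ) * conj (w l) * w l) +
      ri k w ^ (n + 1) * (w l * dz (NN k S) l w) + ri k w ^ (n + 1) * NN k S w := by
    intro l
    have h0 : YY k S l = fun x => ri k x ^ n * VV k S l x + ri k x ^ (n + 1) * (NN k S x * x l) :=
      rfl
    rw [h0, dz_add ((hri n).fun_mul (hV l)) ((hri (n + 1)).fun_mul (hN.fun_mul (hc l))),
      dz_mul (hri n) (hV l), dz_mul (hri (n + 1)) (hN.fun_mul (hc l)), dz_mul hN (hc l),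
      dz_ri_pow hw, dz_ri_pow hw, dz_coord, if_pos rfl]
    push_cast
    ring
  rw [Finset.sum_congr rfl fun l _ => h1 l]
  simp only [Finset.sum_add_distrib, ← Finset.mul_sum, sum_V hk hS hH hw, sum_kw,
    div_VV hS hB hw, eu_NN hS hH hw, Finset.sum_const, Finset.card_univ, Fintype.card_fin,
    nsmul_eq_mul]
  have h2 : (rho k w : ℂ) * ri k w = 1 := mul_inv_cancel₀ (rho_ne hw)
  push_cast
  linear_combination (-(ri k w ^ n * AA k S w) - (n + 1) * ri k w ^ (n + 1) * NN k S w) * h2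

/-! ### positivity -/

/-- `N`, as a real number -/
def Nr (k : Fin (n + 1) → ℝ) (S : (Fin (n + 1) → ℂ) → ℂ) (x : Fin (n + 1) → ℂ) : ℝ :=
  ∑ j, (k j)⁻¹ * ‖dzb S j x‖ ^ 2

/-- `A`, as a real number -/
def Ar (k : Fin (n + 1) → ℝ) (S : (Fin (n + 1) → ℂ) → ℂ) (x : Fin (n + 1) → ℂ) : ℝ :=
  ∑ l, (k l)⁻¹ * ∑ j, (k j)⁻¹ * ‖dz (dzb S j) l x‖ ^ 2

/-- `Div Y` -/
def Dv (k : Fin (n + 1) → ℝ) (S : (Fin (n + 1) → ℂ) → ℂ) (x : Fin (n + 1) → ℂ) : ℝ :=
  (rho k x)⁻¹ ^ (n + 1) * (rho k x * Ar k S x + n * Nr k S x)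

theorem NN_coe (x : Fin (n + 1) → ℂ) : NN k S x = (Nr k S x : ℂ) := by
  rw [NN, Nr]
  push_cast
  refine Finset.sum_congr rfl fun j _ => ?_
  rw [mul_conj']

theorem AA_coe (x : Fin (n + 1) → ℂ) : AA k S x = (Ar k S x : ℂ) := by
  rw [AA, Ar]
  push_cast
  refine Finset.sum_congr rfl fun l _ => ?_
  congr 1
  refine Finset.sum_congr rfl fun j _ => ?_
  rw [mul_conj']

theorem Dv_coe (x : Fin (n + 1) → ℂ) :
    (Dv k S x : ℂ) = ri k x ^ (n + 1) * ((rho k x : ℂ) * AA k S x + n * NN k S x) := by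
  rw [Dv, AA_coe, NN_coe, ri]
  push_cast
  rfl

/-- `A + N / ρ` is a sum of squares -/
theorem Ar_nonneg (hk : Pool.CMN.Jac.Sg k) (hS : Sm (cone k) S) (hH : Hom1 k S)
    (hw : w ∈ cone k) : 0 ≤ Ar k S w + (rho k w)⁻¹ * Nr k S w := by
  have hr : (rho k w : ℂ) ≠ 0 := rho_ne hw
  have hr' : rho k w ≠ 0 := ne_of_gt hw
  have hkc : ∀ j, (k j : ℂ) ≠ 0 := fun j => by exact_mod_cast hk.ne j
  set M : Matrix (Fin (n + 1)) (Fin (n + 1)) ℂ := Matrix.of fun j l =>
    dz (dzb S j) l w + (k l : ℂ) * conj (w l) * (rho k w : ℂ)⁻¹ * dzb S j w with hM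
  have h1 : ∀ l, ∑ j, conj (w j) * M j l = 0 := by
    intro l
    have h2 : ∀ j, conj (w j) * M j l = conj (w j) * dz (dzb S j) l w +
        (k l : ℂ) * conj (w l) * (rho k w : ℂ)⁻¹ * (conj (w j) * dzb S j w) := by
      intro j
      rw [hM, Matrix.of_apply]; ring
    rw [Finset.sum_congr rfl fun j _ => h2 j, Finset.sum_add_distrib, R2 hS hH hw,
      ← Finset.mul_sum, R1 hS hH hw]
    ring
  have h2 : ∀ j, ∑ l, w l * M j l = 0 := by
    intro j
    have h3 : ∀ l, w l * M j l = w l * dz (dzb S j) l w +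
        (rho k w : ℂ)⁻¹ * dzb S j w * ((k l : ℂ) * conj (w l) * w l) := by
      intro l
      rw [hM, Matrix.of_apply]; ring
    rw [Finset.sum_congr rfl fun l _ => h3 l, Finset.sum_add_distrib, R3 hS hH hw,
      ← Finset.mul_sum, sum_kw]
    field_simp
    ring
  have h3 := two_slot hk hw h1 h2
  convert h3 using 1
  have h4 : ((Ar k S w + (rho k w)⁻¹ * Nr k S w : ℝ) : ℂ) =
      ((∑ l, (k l)⁻¹ * ∑ j, (k j)⁻¹ * ‖M j l‖ ^ 2 : ℝ) : ℂ) := by
    push_cast
    rw [← AA_coe, ← NN_coe]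
    have h5 : ∀ l, ((k l : ℂ))⁻¹ * ∑ j, ((k j : ℂ))⁻¹ * (‖M j l‖ : ℂ) ^ 2 =
        ((k l)⁻¹ : ℂ) * ∑ j, ((k j)⁻¹ : ℂ) * (dz (dzb S j) l w * conj (dz (dzb S j) l w)) +
        (rho k w : ℂ)⁻¹ * ∑ j, ((k j)⁻¹ : ℂ) * (w l * dz (dzb S j) l w * conj (dzb S j w)) +
        (rho k w : ℂ)⁻¹ * ∑ j, ((k j)⁻¹ : ℂ) *
          (conj (w l * dz (dzb S j) l w) * dzb S j w) +
        (rho k w : ℂ)⁻¹ ^ 2 * ((k l : ℂ) * conj (w l) * w l) * NN k S w := by
      intro l
      rw [NN, Finset.mul_sum, Finset.mul_sum, Finset.mul_sum, Finset.mul_sum, Finset.mul_sum,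
        ← Finset.sum_add_distrib, ← Finset.sum_add_distrib, ← Finset.sum_add_distrib]
      refine Finset.sum_congr rfl fun j _ => ?_
      rw [← mul_conj', hM, Matrix.of_apply]
      simp only [map_add, map_mul, map_inv₀, conj_ofReal, conj_conj]
      have := hkc l
      field_simp
      ring
    rw [Finset.sum_congr rfl fun l _ => h5 l, Finset.sum_add_distrib, Finset.sum_add_distrib,
      Finset.sum_add_distrib, ← Finset.mul_sum, ← Finset.mul_sum, ← Finset.sum_mul,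
      ← Finset.mul_sum, sum_kw]
    have h6 : ∑ l, ∑ j, ((k j)⁻¹ : ℂ) * (w l * dz (dzb S j) l w * conj (dzb S j w)) =
        NN k S w := by
      rw [Finset.sum_comm, NN]
      refine Finset.sum_congr rfl fun j _ => ?_
      rw [← Finset.mul_sum, ← Finset.sum_mul, R3 hS hH hw]
    have h7 : ∑ l, ∑ j, ((k j)⁻¹ : ℂ) * (conj (w l * dz (dzb S j) l w) * dzb S j w) =
        NN k S w := by
      rw [Finset.sum_comm, NN]
      refine Finset.sum_congr rfl fun j _ => ?_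
      rw [← Finset.mul_sum, ← Finset.sum_mul, ← map_sum, R3 hS hH hw, mul_comm (conj _)]
    rw [h6, h7, AA]
    field_simp
    ring
  exact_mod_cast h4

theorem Nr_nonneg (hk : Pool.CMN.Jac.Sg k) (hS : Sm (cone k) S) (hH : Hom1 k S)
    (hw : w ∈ cone k) : 0 ≤ Nr k S w := (one_slot hk hw (R1 hS hH hw)).1

theorem Dv_ge (hk : Pool.CMN.Jac.Sg k) (hS : Sm (cone k) S) (hH : Hom1 k S)
    (hw : w ∈ cone k) : (rho k w)⁻¹ ^ (n + 1) * (((n : ℝ) - 1) * Nr k S w) ≤ Dv k S w := by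
  have hr : 0 < rho k w := hw
  rw [Dv]
  refine mul_le_mul_of_nonneg_left ?_ (by positivity)
  have h1 := mul_nonneg hr.le (Ar_nonneg hk hS hH hw)
  rw [mul_add, ← mul_assoc (rho k w), mul_inv_cancel₀ hr.ne', one_mul] at h1
  linarith

/-- **Row K10P**, in the form used by helper41 -/
theorem k10p (hn : 2 ≤ n) (hk : Pool.CMN.Jac.Sg k) (hS : ∀ m : ℕ, ContDiffOn ℝ m S (cone k))
    (hH : Hom1 k S) (hB : ∀ w ∈ cone k, Box k S w = 0) :
    ∃ (Y : Fin (n + 1) → (Fin (n + 1) → ℂ) → ℂ) (D : (Fin (n + 1) → ℂ) → ℝ),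
      (∀ j, ContDiffOn ℝ 1 (Y j) (cone k)) ∧
      (∀ w ∈ cone k, ∑ j, Y j w * dz (fun z => (rho k z : ℂ)) j w = 0) ∧
      (∀ w ∈ cone k, ∑ j, dz (Y j) j w = (D w : ℂ) ∧ 0 ≤ D w) ∧
      (∀ w ∈ cone k, D w = 0 → ∀ j, dzb S j w = 0) ∧
      (∀ g : Matrix (Fin (n + 1)) (Fin (n + 1)) ℂ, Pool.CMN.Jac.IsU k g →
        ∀ l : Fin (n + 1) → ℂ, (∀ w ∈ cone k, S (g *ᵥ w) = S w + ∑ j, l j * w j) →
        ∀ w ∈ cone k, ∀ i, Y i (g *ᵥ w) = ∑ j, g i j * Y j w) := by
  have ho := isOpen_cone' k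
  have hS' : Sm (cone k) S := hS
  have hn1 : (1 : ℝ) ≤ (n : ℝ) - 1 := by
    have : (2 : ℝ) ≤ n := by exact_mod_cast hn
    linarith
  refine ⟨YY k S, Dv k S, fun j => sm_YY hS' j 1, fun w hw => ?_, fun w hw => ⟨?_, ?_⟩,
    fun w hw h0 => ?_, fun g hg l hl w hw i => ?_⟩
  · have h1 := tangent hk.ne hS' hH hw
    rw [← neg_eq_zero, ← Finset.sum_neg_distrib] at h1
    rw [← h1]
    refine Finset.sum_congr rfl fun j _ => ?_
    rw [dz_rho]
    ring
  · rw [Dv_coe, div_YY hk.ne hS' hH hB hw]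
  · refine le_trans ?_ (Dv_ge hk hS' hH hw)
    have hr : 0 < rho k w := hw
    exact mul_nonneg (by positivity) (mul_nonneg (by linarith) (Nr_nonneg hk hS' hH hw))
  · have h1 := Dv_ge hk hS' hH hw
    rw [h0] at h1
    have hr : 0 < rho k w := hw
    have h2 := Nr_nonneg hk hS' hH hw
    have h3 : 0 < (rho k w)⁻¹ ^ (n + 1) := by positivity
    have h4 : Nr k S w = 0 := by
      refine le_antisymm ?_ h2
      by_contra hcon
      rw [not_le] at hcon
      have : 0 < (rho k w)⁻¹ ^ (n + 1) * (((n : ℝ) - 1) * Nr k S w) :=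
        mul_pos h3 (mul_pos (by linarith) hcon)
      linarith
    exact (one_slot hk hw (R1 hS' hH hw)).2 h4
  · -- equivariance
    have hgm : ∀ x ∈ cone k, g *ᵥ x ∈ cone k := by
      intro x hx
      have h1 : rho k (g *ᵥ x) = rho k x := by
        have := Pool.CMN.Jac.Hn_mulVec hg x
        change -Pool.CMN.Jac.Hn k (g *ᵥ x) = -Pool.CMN.Jac.Hn k x
        rw [this]
      change 0 < rho k (g *ᵥ x)
      rw [h1]
      exact hx
    have hrho : ∀ x, rho k (g *ᵥ x) = rho k x := by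
      intro x
      have := Pool.CMN.Jac.Hn_mulVec hg x
      change -Pool.CMN.Jac.Hn k (g *ᵥ x) = -Pool.CMN.Jac.Hn k x
      rw [this]
    -- the law for `dzb S`
    have e1 : ∀ x ∈ cone k, ∀ j, dzb S j x = ∑ i, conj (g i j) * dzb S i (g *ᵥ x) := by
      intro x hx j
      rw [← dzb_comp_mulVec (hS'.differentiableAt ho (hgm x hx)),
        dzb_congr (g := fun x => S x + ∑ j, l j * x j) ho hx hl j,
        dzb_add (hS'.differentiableAt ho hx) (by fun_prop), dzb_sum _ (fun i _ => by fun_prop)]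
      rw [Finset.sum_eq_zero, add_zero]
      intro i _
      rw [dzb_const_mul _ (by fun_prop), dzb_coord, mul_zero]
    have e2 : ∀ j m, dz (dzb S j) m w =
        ∑ i, conj (g i j) * ∑ p, g p m * dz (dzb S i) p (g *ᵥ w) := by
      intro j m
      rw [dz_congr (g := fun x => ∑ i, conj (g i j) * dzb S i (g *ᵥ x)) ho hw
        (fun x hx => e1 x hx j) m]
      have hd : ∀ i, DifferentiableAt ℝ (dzb S i) (g *ᵥ w) := fun i =>
        (hS'.dzb ho i).differentiableAt ho (hgm w hw)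
      have hd' : ∀ i, DifferentiableAt ℝ (fun x => dzb S i (g *ᵥ x)) w := fun i => by
        have h1 : DifferentiableAt ℝ (fun x : Fin (n + 1) → ℂ => g *ᵥ x) w :=
          (LinearMap.toContinuousLinearMap
            ((Matrix.mulVecLin g).restrictScalars ℝ)).differentiableAt
        exact DifferentiableAt.comp (g := dzb S i) (f := fun x : Fin (n + 1) → ℂ => g *ᵥ x) w (hd i) h1
      rw [dz_sum _ (fun i _ => (hd' i).const_mul _)]
      refine Finset.sum_congr rfl fun i _ => ?_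
      rw [dz_const_mul _ (hd' i), dz_comp_mulVec (hd i)]
    -- `U D⁻¹ Uᴴ = D⁻¹`
    have e3 : ∀ i i', ∑ j, ((k j)⁻¹ : ℂ) * (g i j * conj (g i' j)) =
        if i = i' then ((k i)⁻¹ : ℂ) else 0 := by
      intro i i'
      have h1 := congrFun (congrFun (U_Di hk.ne hg) i) i'
      rw [Matrix.mul_apply] at h1
      have h2 : ∀ j, (g * Di k) i j * gᴴ j i' = ((k j)⁻¹ : ℂ) * (g i j * conj (g i' j)) := by
        intro j
        rw [Di, Matrix.mul_diagonal, Matrix.conjTranspose_apply, RCLike.star_def]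
        ring
      rw [Finset.sum_congr rfl fun j _ => h2 j, Di, Matrix.diagonal_apply] at h1
      exact h1
    -- sums over the first slot
    have e4 : ∀ a b : Fin (n + 1) → ℂ, ∑ j, ((k j)⁻¹ : ℂ) *
        ((∑ i, conj (g i j) * a i) * conj (∑ i, conj (g i j) * b i)) =
        ∑ i, ((k i)⁻¹ : ℂ) * (a i * conj (b i)) := by
      intro a b
      have h1 : ∀ j, ((k j)⁻¹ : ℂ) *
          ((∑ i, conj (g i j) * a i) * conj (∑ i, conj (g i j) * b i)) =
          ∑ i, ∑ i', (a i * conj (b i')) * (((k j)⁻¹ : ℂ) * (g i' j * conj (g i j))) := by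
        intro j
        rw [map_sum, Finset.sum_mul_sum, Finset.mul_sum]
        refine Finset.sum_congr rfl fun i _ => ?_
        rw [Finset.mul_sum]
        refine Finset.sum_congr rfl fun i' _ => ?_
        rw [map_mul, conj_conj]
        ring
      rw [Finset.sum_congr rfl fun j _ => h1 j, Finset.sum_comm]
      refine Finset.sum_congr rfl fun i _ => ?_
      rw [Finset.sum_comm]
      have h2 : ∀ i', ∑ j, (a i * conj (b i')) * (((k j)⁻¹ : ℂ) * (g i' j * conj (g i j))) =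
          if i' = i then (a i * conj (b i')) * ((k i')⁻¹ : ℂ) else 0 := by
        intro i'
        rw [← Finset.mul_sum, e3]
        split_ifs <;> simp
      rw [Finset.sum_congr rfl fun i' _ => h2 i', Finset.sum_ite_eq' Finset.univ i]
      simp only [Finset.mem_univ, if_true]
      ring
    have e5 : NN k S (g *ᵥ w) = NN k S w := by
      rw [NN, NN]
      have h1 := e4 (fun i => dzb S i (g *ᵥ w)) (fun i => dzb S i (g *ᵥ w))
      rw [← h1]
      refine Finset.sum_congr rfl fun j _ => ?_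
      rw [← e1 w hw j]
    have e6 : ∀ m, VV k S m w = ((k m)⁻¹ : ℂ) * ∑ p, conj (g p m) *
        ∑ j, ((k j)⁻¹ : ℂ) * (dzb S j (g *ᵥ w) * conj (dz (dzb S j) p (g *ᵥ w))) := by
      intro m
      rw [VV]
      congr 1
      have h1 := e4 (fun i => dzb S i (g *ᵥ w)) (fun i => ∑ p, g p m * dz (dzb S i) p (g *ᵥ w))
      have h2 : ∑ j, ((k j)⁻¹ : ℂ) * (dzb S j w * conj (dz (dzb S j) m w)) =
          ∑ j, ((k j)⁻¹ : ℂ) * ((∑ i, conj (g i j) * dzb S i (g *ᵥ w)) *
            conj (∑ i, conj (g i j) * ∑ p, g p m * dz (dzb S i) p (g *ᵥ w))) := by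
        refine Finset.sum_congr rfl fun j _ => ?_
        rw [← e1 w hw j, ← e2 j m]
      rw [h2, h1]
      simp only [map_sum, map_mul, Finset.mul_sum]
      rw [Finset.sum_comm]
      refine Finset.sum_congr rfl fun p _ => Finset.sum_congr rfl fun j _ => ?_
      ring
    have e7 : ∑ m, g i m * VV k S m w = VV k S i (g *ᵥ w) := by
      have h1 : ∀ m, g i m * VV k S m w = ∑ p, (((k m)⁻¹ : ℂ) * (g i m * conj (g p m))) *
          ∑ j, ((k j)⁻¹ : ℂ) * (dzb S j (g *ᵥ w) * conj (dz (dzb S j) p (g *ᵥ w))) := by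
        intro m
        rw [e6, Finset.mul_sum, Finset.mul_sum]
        refine Finset.sum_congr rfl fun p _ => ?_
        ring
      rw [Finset.sum_congr rfl fun m _ => h1 m, Finset.sum_comm]
      have h2 : ∀ p, ∑ m, (((k m)⁻¹ : ℂ) * (g i m * conj (g p m))) *
          (∑ j, ((k j)⁻¹ : ℂ) * (dzb S j (g *ᵥ w) * conj (dz (dzb S j) p (g *ᵥ w)))) =
          if i = p then VV k S i (g *ᵥ w) else 0 := by
        intro p
        rw [← Finset.sum_mul, e3]
        split_ifs with h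
        · subst h; rfl
        · rw [zero_mul]
      rw [Finset.sum_congr rfl fun p _ => h2 p, Finset.sum_ite_eq Finset.univ i]
      simp
    have h1 : ∀ m, g i m * YY k S m w = ri k w ^ n * (g i m * VV k S m w) +
        ri k w ^ (n + 1) * NN k S w * (g i m * w m) := by
      intro m
      rw [YY]; ring
    rw [Finset.sum_congr rfl fun m _ => h1 m, Finset.sum_add_distrib, ← Finset.mul_sum,
      ← Finset.mul_sum, e7, YY, e5, ri, ri, hrho]
    have h2 : ∑ m, g i m * w m = (g *ᵥ w) i := rfl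
    rw [h2]
    ring

end

end Pool.CMP.K10P
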