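import Pool.Agent.Lib.CMP.Refl

/-!
# CMP block K: rows K3 and K4 from K1 (helper2)
-/

set_option autoImplicit false

open scoped ComplexConjugate Matrix
open Complex MeasureTheory

namespace Pool.CMP.S2

noncomputable section

variable {n : ℕ} {k : Fin (n + 1) → ℝ}

open Pool.CMN.Jac (IsU Sg)

/-! ### the functions `kf` and `eta` -/

theorem continuous_kf : Continuous kf :=
  Real.smoothTransition.continuous.comp (continuous_const.sub continuous_id)

theorem continuous_eta : Continuous eta :=
  (Real.smoothTransition.continuous.comp (continuous_id.sub continuous_const)).mul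
    (Real.smoothTransition.continuous.comp (continuous_const.sub continuous_id))

theorem kf_nonneg (t : ℝ) : 0 ≤ kf t := Real.smoothTransition.nonneg _

theorem eta_nonneg (r : ℝ) : 0 ≤ eta r :=
  mul_nonneg (Real.smoothTransition.nonneg _) (Real.smoothTransition.nonneg _)

theorem kf_zero {t : ℝ} (h : 2 ≤ t) : kf t = 0 :=
  Real.smoothTransition.zero_of_nonpos (by linarith)

theorem kf_pos {t : ℝ} (h : t < 2) : 0 < kf t :=
  Real.smoothTransition.pos_of_pos (by linarith)

theorem eta_zero_left {r : ℝ} (h : r ≤ 1 / 2) : eta r = 0 := by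
  rw [eta, Real.smoothTransition.zero_of_nonpos (by linarith), zero_mul]

theorem eta_zero_right {r : ℝ} (h : 2 ≤ r) : eta r = 0 := by
  rw [eta, Real.smoothTransition.zero_of_nonpos (x := 2 - r) (by linarith), mul_zero]

theorem eta_pos {r : ℝ} (h : 1 / 2 < r) (h' : r < 2) : 0 < eta r :=
  mul_pos (Real.smoothTransition.pos_of_pos (by linarith))
    (Real.smoothTransition.pos_of_pos (by linarith))

/-! ### continuity and integrability -/

theorem continuous_rho : Continuous (rho k) := by
  unfold rho
  fun_prop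

theorem continuous_H_left (w : Fin (n + 1) → ℂ) : Continuous fun z => H k z w := by
  unfold H
  fun_prop

theorem continuous_H_right (w : Fin (n + 1) → ℂ) : Continuous fun z => H k w z := by
  unfold H
  fun_prop

theorem isOpen_cone : IsOpen (cone k) := isOpen_lt continuous_const continuous_rho

theorem continuousOn_tt {w : Fin (n + 1) → ℂ} (hw : w ∈ cone k) :
    ContinuousOn (tt k w) (cone k) := by
  unfold tt
  refine ContinuousOn.div ((continuous_H_left w).norm.pow 2).continuousOn
    (continuous_rho.mul continuous_const).continuousOn fun z hz => ?_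
  have h1 : 0 < rho k z := hz
  have h2 : 0 < rho k w := hw
  exact (mul_pos h1 h2).ne'

theorem continuousOn_ker {w : Fin (n + 1) → ℂ} (hw : w ∈ cone k) :
    ContinuousOn (ker k w) (cone k) := by
  unfold ker
  refine ContinuousOn.mul ?_ ?_
  · refine Complex.continuous_ofReal.comp_continuousOn ?_
    exact (continuous_kf.comp_continuousOn (continuousOn_tt hw)).mul
      (continuous_eta.comp continuous_rho).continuousOn
  · simp_rw [H_self]
    refine ContinuousOn.div (continuous_H_left w).continuousOn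
      (Complex.continuous_ofReal.comp continuous_rho).neg.continuousOn fun z hz => ?_
    have h1 : 0 < rho k z := hz
    have h2 : (rho k z : ℂ) ≠ 0 := by exact_mod_cast h1.ne'
    exact neg_ne_zero.2 h2

/-- The functions on the cone which are supported where the kernel is are integrable. -/
theorem integrable_cone (h1 : K1) (hk : Sg k) {w : Fin (n + 1) → ℂ} (hw : w ∈ cone k)
    {E : Type*} [NormedAddCommGroup E] {F : (Fin (n + 1) → ℂ) → E}
    (hF : ContinuousOn F (cone k))
    (h0 : ∀ z, kf (tt k w z) * eta (rho k z) = 0 → F z = 0) : Integrable F := by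
  obtain ⟨Q', hQ, hQc, hQ'⟩ := (h1 n k hk).2 {w} isCompact_singleton
    (Set.singleton_subset_iff.2 hw)
  have h2 : Function.support F ⊆ Q' := by
    intro z hz
    by_contra hcon
    refine hz (h0 z ?_)
    by_contra hne
    rw [mul_eq_zero, not_or] at hne
    refine hcon (hQ' w rfl z ?_ ?_ ?_)
    · by_contra h3
      exact hne.2 (eta_zero_left (not_le.1 h3).le)
    · by_contra h3
      exact hne.2 (eta_zero_right (not_le.1 h3).le)
    · by_contra h3
      exact hne.1 (kf_zero (not_le.1 h3).le)
  rw [← integrableOn_iff_integrable_of_support_subset h2]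
  exact (hF.mono hQc).integrableOn_compact hQ

theorem integrable_ker_mul (h1 : K1) (hk : Sg k) {w : Fin (n + 1) → ℂ} (hw : w ∈ cone k)
    {S : (Fin (n + 1) → ℂ) → ℂ} (hS : ContinuousOn S (cone k)) :
    Integrable fun z => ker k w z * S z := by
  refine integrable_cone h1 hk hw ((continuousOn_ker hw).mul hS) fun z hz => ?_
  rw [ker, hz, Complex.ofReal_zero, zero_mul, zero_mul]

/-! ### K3 -/

/-- **Linear functions are eigenfunctions.** -/
theorem Av_linear (h1 : K1) (hk : Sg k) (l : Fin (n + 1) → ℂ) {w : Fin (n + 1) → ℂ}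
    (hw : w ∈ cone k) :
    Av k (fun z => ∑ j, l j * z j) w = (alpha0 k : ℂ) * ∑ j, l j * w j := by
  have hρ : 0 < rho k w := hw
  have hww : H k w w ≠ 0 := by
    rw [H_self]
    have h2 : (rho k w : ℂ) ≠ 0 := by exact_mod_cast hρ.ne'
    exact neg_ne_zero.2 h2
  let L : (Fin (n + 1) → ℂ) → ℂ := fun z => ∑ j, l j * z j
  have hL : Continuous L := by
    change Continuous fun z : Fin (n + 1) → ℂ => ∑ j, l j * z j
    fun_prop
  let g : Matrix (Fin (n + 1)) (Fin (n + 1)) ℂ := -refl k w
  have hg : IsU k g := isU_neg (refl_isU hww)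
  have hgz : ∀ z, g *ᵥ z = (2 * H k w z / H k w w) • w - z := by
    intro z
    change -refl k w *ᵥ z = _
    rw [Matrix.neg_mulVec, refl_mulVec, neg_sub]
  have hgw : g *ᵥ w = w := by
    rw [hgz, mul_div_assoc, div_self hww, mul_one, two_smul, add_sub_cancel_right]
  have hLg : ∀ z, L (g *ᵥ z) = 2 * H k w z / H k w w * L w - L z := by
    intro z
    rw [hgz]
    change ∑ j, l j * ((2 * H k w z / H k w w) * w j - z j) = _
    change _ = 2 * H k w z / H k w w * (∑ j, l j * w j) - ∑ j, l j * z j
    rw [Finset.mul_sum, ← Finset.sum_sub_distrib]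
    exact Finset.sum_congr rfl fun j _ => by ring
  have hi1 : Integrable fun z => ker k w z * L z := integrable_ker_mul h1 hk hw hL.continuousOn
  have hi2 : Integrable fun z => ker k w z * H k w z :=
    integrable_ker_mul h1 hk hw (continuous_H_right w).continuousOn
  have e1 : Av k L w = ∫ z, ker k w z * (2 * H k w z / H k w w * L w - L z) := by
    conv_lhs => rw [← hgw]
    rw [Av_mulVec hk hg, Av]
    simp_rw [hLg]
  have e2 : Av k L w = 2 * L w / H k w w * (∫ z, ker k w z * H k w z) - Av k L w := by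
    refine e1.trans ?_
    have h3 : (fun z => ker k w z * (2 * H k w z / H k w w * L w - L z)) =
        fun z => 2 * L w / H k w w * (ker k w z * H k w z) - ker k w z * L z := by
      funext z
      ring
    rw [h3, integral_sub (hi2.const_mul _) hi1, integral_const_mul]
    rfl
  have e3 : ∫ z, ker k w z * H k w z = H k w w * (alpha0 k : ℂ) := by
    have h3 : (fun z => ker k w z * H k w z) =
        fun z => H k w w * ((kf (tt k w z) * eta (rho k z) * tt k w z : ℝ) : ℂ) := by
      funext z
      by_cases hz : rho k z = 0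
      · rw [ker, hz, eta_zero_left (by norm_num)]
        simp
      · have hz' : (rho k z : ℂ) ≠ 0 := by exact_mod_cast hz
        have hw' : (rho k w : ℂ) ≠ 0 := by exact_mod_cast hρ.ne'
        have h4 : ((‖H k z w‖ ^ 2 : ℝ) : ℂ) = H k z w * H k w z := by
          rw [← H_conj z w, Complex.mul_conj, Complex.normSq_eq_norm_sq]
        have h5 : (tt k w z : ℂ) = H k z w * H k w z / (rho k z * rho k w) := by
          rw [tt, Complex.ofReal_div, h4]
          push_cast
          ring
        rw [ker, H_self, H_self]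
        rw [Complex.ofReal_mul (kf (tt k w z) * eta (rho k z)) (tt k w z), h5]
        field_simp
    rw [h3, integral_const_mul, integral_complex_ofReal]
    have h4 := integral_tt hk (fun t r => kf t * eta r * t) hw
    rw [h4]
    rfl
  change Av k L w = (alpha0 k : ℂ) * L w
  have e4 : 2 * Av k L w = 2 * ((alpha0 k : ℂ) * L w) := by
    rw [e3] at e2
    have h3 : 2 * L w / H k w w * (H k w w * (alpha0 k : ℂ)) = 2 * ((alpha0 k : ℂ) * L w) := by
      field_simp
    rw [h3] at e2
    linear_combination e2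
  exact mul_left_cancel₀ two_ne_zero e4

theorem _root_.Pool.CMP.k3_of (h1 : K1) : K3 := fun _ _ hk l _ hw => Av_linear h1 hk l hw

/-! ### K4 -/

theorem alpha1_nonneg : 0 ≤ alpha1 k :=
  integral_nonneg fun _ => mul_nonneg (mul_nonneg (kf_nonneg _) (eta_nonneg _)) (Real.sqrt_nonneg _)

theorem integrable_alpha1 (h1 : K1) (hk : Sg k) {w : Fin (n + 1) → ℂ} (hw : w ∈ cone k) :
    Integrable fun z => kf (tt k w z) * eta (rho k z) * √(tt k w z) := by
  refine integrable_cone h1 hk hw ?_ fun z hz => by rw [hz, zero_mul]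
  exact ((continuous_kf.comp_continuousOn (continuousOn_tt hw)).mul
    (continuous_eta.comp continuous_rho).continuousOn).mul
      (Real.continuous_sqrt.comp_continuousOn (continuousOn_tt hw))

theorem integrable_alpha0 (h1 : K1) (hk : Sg k) {w : Fin (n + 1) → ℂ} (hw : w ∈ cone k) :
    Integrable fun z => kf (tt k w z) * eta (rho k z) * tt k w z := by
  refine integrable_cone h1 hk hw ?_ fun z hz => by rw [hz, zero_mul]
  exact ((continuous_kf.comp_continuousOn (continuousOn_tt hw)).mul
    (continuous_eta.comp continuous_rho).continuousOn).mul (continuousOn_tt hw)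

/-- A point where the kernel is positive and `t > 1`. -/
theorem exists_pt (hn : 1 ≤ n) (hk : Sg k) : ∃ z ∈ cone k, tt k (en n) z = 3 / 2 ∧
    rho k z = 1 := by
  obtain ⟨m, rfl⟩ : ∃ m, n = m + 1 := ⟨n - 1, by omega⟩
  set κ : ℝ := -k (Fin.last (m + 1)) with hκ
  have hκ0 : 0 < κ := by rw [hκ]; linarith [hk.neg]
  have hk0 : 0 < k (Fin.castSucc 0) := hk.pos 0
  let z : Fin (m + 1 + 1) → ℂ := Fin.snoc (fun j : Fin (m + 1) =>
    if j = 0 then (√(1 / (2 * k (Fin.castSucc 0))) : ℂ) else 0) (√(3 / (2 * κ)) : ℂ)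
  have hzl : z (Fin.last (m + 1)) = (√(3 / (2 * κ)) : ℂ) := by simp [z]
  have hzc : ∀ j : Fin (m + 1), z j.castSucc =
      if j = 0 then (√(1 / (2 * k (Fin.castSucc 0))) : ℂ) else 0 := fun j => by simp [z]
  have hn1 : ‖z (Fin.last (m + 1))‖ ^ 2 = 3 / (2 * κ) := by
    rw [hzl, Complex.norm_real, Real.norm_of_nonneg (Real.sqrt_nonneg _),
      Real.sq_sqrt (by positivity)]
  have hsum : ∑ j : Fin (m + 1), k j.castSucc * ‖z j.castSucc‖ ^ 2 = 1 / 2 := by
    rw [Finset.sum_eq_single 0]
    · rw [hzc, if_pos rfl, Complex.norm_real, Real.norm_of_nonneg (Real.sqrt_nonneg _),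
        Real.sq_sqrt (by positivity)]
      field_simp
    · intro j _ hj
      rw [hzc, if_neg hj, norm_zero]
      ring
    · intro h
      exact absurd (Finset.mem_univ _) h
  have hρ : rho k z = 1 := by
    rw [rho_split, hsum, hn1]
    have h2 : k (Fin.last (m + 1)) = -κ := by rw [hκ, neg_neg]
    rw [h2]
    field_simp
    norm_num
  refine ⟨z, ?_, ?_, hρ⟩
  · change 0 < rho k z
    rw [hρ]
    exact one_pos
  · rw [tt, H_en_right, hρ, rho_en, norm_mul, Complex.norm_conj, mul_pow, hn1, Complex.norm_real,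
      Real.norm_eq_abs, sq_abs]
    have h2 : k (Fin.last (m + 1)) = -κ := by rw [hκ, neg_neg]
    rw [h2]
    field_simp

/-- **The contraction constant.** -/
theorem alpha1_lt (h1 : K1) (hn : 1 ≤ n) (hk : Sg k) : alpha1 k < alpha0 k := by
  have hen : en n ∈ cone k := en_mem hk
  have hi1 := integrable_alpha1 h1 hk hen
  have hi0 := integrable_alpha0 h1 hk hen
  let F : (Fin (n + 1) → ℂ) → ℝ := fun z =>
    kf (tt k (en n) z) * eta (rho k z) * tt k (en n) z -
      kf (tt k (en n) z) * eta (rho k z) * √(tt k (en n) z)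
  have hFi : Integrable F := hi0.sub hi1
  have hF : ∫ z, F z = alpha0 k - alpha1 k := integral_sub hi0 hi1
  have hFc : ContinuousOn F (cone k) := by
    have h2 := (continuous_kf.comp_continuousOn (continuousOn_tt hen)).mul
      (continuous_eta.comp (continuous_rho (k := k))).continuousOn
    exact (h2.mul (continuousOn_tt hen)).sub
      (h2.mul (Real.continuous_sqrt.comp_continuousOn (continuousOn_tt hen)))
  have hsq : ∀ t : ℝ, 1 ≤ t → √t ≤ t := by
    intro t ht
    rw [Real.sqrt_le_left (by linarith)]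
    nlinarith
  have hF0 : 0 ≤ F := by
    intro z
    change 0 ≤ kf (tt k (en n) z) * eta (rho k z) * tt k (en n) z -
      kf (tt k (en n) z) * eta (rho k z) * √(tt k (en n) z)
    rw [← mul_sub]
    by_cases hz : z ∈ cone k
    · exact mul_nonneg (mul_nonneg (kf_nonneg _) (eta_nonneg _))
        (sub_nonneg.2 (hsq _ ((h1 n k hk).1 z hz _ hen)))
    · have h2 : rho k z ≤ 0 := not_lt.1 hz
      rw [eta_zero_left (by linarith), mul_zero, zero_mul]
  have hpos : 0 < ∫ z, F z := by
    rw [integral_pos_iff_support_of_nonneg hF0 hFi]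
    obtain ⟨z, hz, hzt, hzρ⟩ := exists_pt hn hk
    have hU : IsOpen (cone k ∩ F ⁻¹' Set.Ioi 0) := hFc.isOpen_inter_preimage isOpen_cone isOpen_Ioi
    have hne : (cone k ∩ F ⁻¹' Set.Ioi 0).Nonempty := by
      refine ⟨z, hz, ?_⟩
      change 0 < kf (tt k (en n) z) * eta (rho k z) * tt k (en n) z -
        kf (tt k (en n) z) * eta (rho k z) * √(tt k (en n) z)
      rw [← mul_sub, hzt, hzρ]
      refine mul_pos (mul_pos (kf_pos (by norm_num)) (eta_pos (by norm_num) (by norm_num))) ?_
      rw [sub_pos, Real.sqrt_lt' (by norm_num)]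
      norm_num
    refine lt_of_lt_of_le (hU.measure_pos volume hne) (measure_mono ?_)
    rintro x ⟨-, hx⟩
    exact ne_of_gt hx
  rw [hF] at hpos
  linarith

/-- The norm of the kernel. -/
theorem norm_ker {w : Fin (n + 1) → ℂ} (hw : w ∈ cone k) {z : Fin (n + 1) → ℂ}
    (hz : z ∈ cone k) :
    ‖ker k w z‖ * √(rho k z) = kf (tt k w z) * eta (rho k z) * √(tt k w z) * √(rho k w) := by
  have h1 : 0 < rho k w := hw
  have h2 : 0 < rho k z := hz
  have h3 : √(tt k w z) = ‖H k z w‖ / (√(rho k z) * √(rho k w)) := by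
    rw [tt, Real.sqrt_div' _ (mul_pos h2 h1).le, Real.sqrt_sq (norm_nonneg _),
      Real.sqrt_mul h2.le]
  have h4 : √(rho k z) ≠ 0 := (Real.sqrt_pos.2 h2).ne'
  have h5 : √(rho k w) ≠ 0 := (Real.sqrt_pos.2 h1).ne'
  have h6 : √(rho k z) * √(rho k z) = rho k z := Real.mul_self_sqrt h2.le
  rw [ker, norm_mul, norm_div, Complex.norm_real, Real.norm_of_nonneg
    (mul_nonneg (kf_nonneg _) (eta_nonneg _)), H_self, norm_neg, Complex.norm_real,
    Real.norm_of_nonneg h2.le, h3]
  field_simp
  rw [sq, h6]

/-- **The contraction estimate.** -/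
theorem norm_Av_le (h1 : K1) (hk : Sg k) {u : (Fin (n + 1) → ℂ) → ℂ} {C : ℝ}
    (hu : ∀ z ∈ cone k, ‖u z‖ ≤ C * √(rho k z)) {w : Fin (n + 1) → ℂ} (hw : w ∈ cone k) :
    ‖Av k u w‖ ≤ alpha1 k * C * √(rho k w) := by
  have hi := (integrable_alpha1 h1 hk hw).mul_const (C * √(rho k w))
  have h2 : ‖Av k u w‖ ≤
      ∫ z, kf (tt k w z) * eta (rho k z) * √(tt k w z) * (C * √(rho k w)) := by
    refine norm_integral_le_of_norm_le hi (Filter.Eventually.of_forall fun z => ?_)
    by_cases hz : z ∈ cone k
    · have h3 := norm_ker hw hz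
      calc ‖ker k w z * u z‖ = ‖ker k w z‖ * ‖u z‖ := norm_mul _ _
        _ ≤ ‖ker k w z‖ * (C * √(rho k z)) :=
          mul_le_mul_of_nonneg_left (hu z hz) (norm_nonneg _)
        _ = C * (‖ker k w z‖ * √(rho k z)) := by ring
        _ = _ := by rw [h3]; ring
    · have h3 : rho k z ≤ 0 := not_lt.1 hz
      rw [ker, eta_zero_left (by linarith)]
      simp
  refine h2.trans (le_of_eq ?_)
  rw [integral_mul_const]
  have h3 := integral_tt hk (fun t r => kf t * eta r * √t) hw
  have h4 : ∫ z, kf (tt k w z) * eta (rho k z) * √(tt k w z) = alpha1 k := h3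
  rw [h4]
  ring

theorem _root_.Pool.CMP.k4_of (h1 : K1) : K4 := fun _ _ hn hk =>
  ⟨alpha1_nonneg, alpha1_lt h1 hn hk, fun _ _ _ hu _ hw => norm_Av_le h1 hk hu hw⟩

end

end Pool.CMP.S2
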