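import Pool.Agent.Lib.CMP.KDefs

/-!
# Tank CMP, row K6: a continuous primitive (helper18)
-/

set_option autoImplicit false

open scoped ComplexConjugate Matrix Topology
open Complex MeasureTheory

namespace Pool.CMP

noncomputable section

variable {n : ℕ} {k : Fin (n + 1) → ℝ}

namespace S6

theorem rho_eq (w : Fin (n + 1) → ℂ) : rho k w = -Pool.CMN.Jac.Hn k w := rfl

theorem rho_smul (c : ℂ) (w : Fin (n + 1) → ℂ) : rho k (c • w) = ‖c‖ ^ 2 * rho k w := by
  rw [rho_eq, rho_eq, Pool.CMN.Jac.Hn_smul]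
  ring

theorem rho_mulVec {g : Matrix (Fin (n + 1)) (Fin (n + 1)) ℂ} (hg : Pool.CMN.Jac.IsU k g)
    (w : Fin (n + 1) → ℂ) : rho k (g *ᵥ w) = rho k w := by
  rw [rho_eq, rho_eq, Pool.CMN.Jac.Hn_mulVec hg]

theorem continuous_rho : Continuous (rho k) := by
  unfold rho
  fun_prop

theorem isOpen_cone : IsOpen (cone k) := isOpen_lt continuous_const continuous_rho

theorem mem_cone {w : Fin (n + 1) → ℂ} : w ∈ cone k ↔ 0 < rho k w := Iff.rfl

theorem smul_mem_cone {c : ℂ} (hc : c ≠ 0) {w : Fin (n + 1) → ℂ} (hw : w ∈ cone k) :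
    c • w ∈ cone k := by
  rw [mem_cone, rho_smul]
  have := norm_pos_iff.2 hc
  have := mem_cone.1 hw
  positivity

theorem mulVec_mem_cone {g : Matrix (Fin (n + 1)) (Fin (n + 1)) ℂ} (hg : Pool.CMN.Jac.IsU k g)
    {w : Fin (n + 1) → ℂ} (hw : w ∈ cone k) : g *ᵥ w ∈ cone k := by
  rw [mem_cone, rho_mulVec hg]
  exact hw

/-- The invariance of the bilinear form `∑ k_j x_j y_j` under `(conj g, g)`. -/
theorem bil_mulVec {g : Matrix (Fin (n + 1)) (Fin (n + 1)) ℂ} (hg : Pool.CMN.Jac.IsU k g)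
    (x y : Fin (n + 1) → ℂ) :
    ∑ j, (k j : ℂ) * (∑ l, conj (g j l) * x l) * (g *ᵥ y) j = ∑ j, (k j : ℂ) * x j * y j := by
  have h1 : ∀ l m, ∑ j, conj (g j l) * (k j : ℂ) * g j m = if l = m then (k l : ℂ) else 0 := by
    intro l m
    have h2 := congrFun (congrFun hg l) m
    rw [Matrix.mul_apply] at h2
    simp only [Matrix.mul_diagonal, Matrix.conjTranspose_apply, RCLike.star_def] at h2
    rw [Matrix.diagonal_apply] at h2
    exact h2
  calc ∑ j, (k j : ℂ) * (∑ l, conj (g j l) * x l) * (g *ᵥ y) j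
      = ∑ j, ∑ l, ∑ m, (conj (g j l) * (k j : ℂ) * g j m) * (x l * y m) := by
        refine Finset.sum_congr rfl fun j _ => ?_
        have h2 : (g *ᵥ y) j = ∑ m, g j m * y m := rfl
        rw [h2, mul_assoc, Finset.sum_mul_sum, Finset.mul_sum]
        refine Finset.sum_congr rfl fun l _ => ?_
        rw [Finset.mul_sum]
        refine Finset.sum_congr rfl fun m _ => ?_
        ring
    _ = ∑ l, ∑ m, (∑ j, conj (g j l) * (k j : ℂ) * g j m) * (x l * y m) := by
        rw [Finset.sum_comm]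
        refine Finset.sum_congr rfl fun l _ => ?_
        rw [Finset.sum_comm]
        refine Finset.sum_congr rfl fun m _ => ?_
        rw [Finset.sum_mul]
    _ = ∑ l, ∑ m, (if l = m then (k l : ℂ) else 0) * (x l * y m) := by
        simp only [h1]
    _ = ∑ j, (k j : ℂ) * x j * y j := by
        refine Finset.sum_congr rfl fun l _ => ?_
        rw [Finset.sum_eq_single l]
        · rw [if_pos rfl]
          ring
        · intro m _ hm
          rw [if_neg (Ne.symm hm), zero_mul]
        · exact fun h => absurd (Finset.mem_univ _) h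

/-- The euclidean square norm. -/
def nn (w : Fin (n + 1) → ℂ) : ℝ := ∑ j, ‖w j‖ ^ 2

theorem continuous_nn : Continuous (nn (n := n)) := by
  unfold nn; fun_prop

theorem nn_smul (c : ℂ) (w : Fin (n + 1) → ℂ) : nn (c • w) = ‖c‖ ^ 2 * nn w := by
  unfold nn
  rw [Finset.mul_sum]
  refine Finset.sum_congr rfl fun j _ => ?_
  rw [Pi.smul_apply, smul_eq_mul, norm_mul]
  ring

/-- The weight. -/
def wt (k : Fin (n + 1) → ℝ) (R : ℝ) (w : Fin (n + 1) → ℂ) : ℝ := max 0 (R - nn w / rho k w)

theorem wt_nonneg (R : ℝ) (w : Fin (n + 1) → ℂ) : 0 ≤ wt k R w := le_max_left _ _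

theorem wt_smul (R : ℝ) {c : ℂ} (hc : c ≠ 0) (w : Fin (n + 1) → ℂ) :
    wt k R (c • w) = wt k R w := by
  unfold wt
  have : ‖c‖ ^ 2 ≠ 0 := by positivity
  rw [nn_smul, rho_smul, mul_div_mul_left _ _ this]

theorem continuousOn_wt (R : ℝ) : ContinuousOn (wt k R) (cone k) := by
  unfold wt
  refine (continuous_const.max continuous_id).comp_continuousOn (continuousOn_const.sub ?_)
  exact continuous_nn.continuousOn.div continuous_rho.continuousOn
    fun w hw => (mem_cone.1 hw).ne'

theorem lt_of_wt_ne {R : ℝ} {w : Fin (n + 1) → ℂ} (hw : w ∈ cone k) (h : wt k R w ≠ 0) :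
    nn w ≤ R * rho k w := by
  unfold wt at h
  by_contra h1
  push Not at h1
  refine h (max_eq_left ?_)
  have h2 := mem_cone.1 hw
  rw [sub_nonpos, le_div_iff₀ h2]
  exact h1.le

/-- The compact sets of the cone. -/
theorem isCompact_box (a b R : ℝ) (ha : 0 < a) :
    IsCompact {w : Fin (n + 1) → ℂ | a ≤ rho k w ∧ rho k w ≤ b ∧ nn w ≤ R * rho k w} ∧
      {w : Fin (n + 1) → ℂ | a ≤ rho k w ∧ rho k w ≤ b ∧ nn w ≤ R * rho k w} ⊆ cone k := by
  constructor
  · refine Metric.isCompact_of_isClosed_isBounded ?_ ?_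
    · refine (isClosed_le continuous_const continuous_rho).inter
        ((isClosed_le continuous_rho continuous_const).inter
          (isClosed_le continuous_nn (continuous_const.mul continuous_rho)))
    · rw [Metric.isBounded_iff_subset_closedBall 0]
      refine ⟨√(|R| * b), fun w hw => ?_⟩
      obtain ⟨h1, h2, h3⟩ := hw
      rw [mem_closedBall_zero_iff, pi_norm_le_iff_of_nonneg (Real.sqrt_nonneg _)]
      intro j
      refine Real.le_sqrt_of_sq_le ?_
      have h4 : ‖w j‖ ^ 2 ≤ nn w :=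
        Finset.single_le_sum (f := fun j => ‖w j‖ ^ 2) (fun i _ => by positivity)
          (Finset.mem_univ j)
      have h5 : R * rho k w ≤ |R| * b :=
        mul_le_mul (le_abs_self R) h2 (by linarith) (abs_nonneg R)
      linarith
  · intro w hw
    exact lt_of_lt_of_le ha hw.1

/-- Local finiteness. -/
theorem wt_finite {Γ : Subgroup (Matrix.SpecialLinearGroup (Fin (n + 1)) ℂ)} (hD : Disc k Γ)
    (R : ℝ) {w₀ : Fin (n + 1) → ℂ} (hw₀ : w₀ ∈ cone k) :
    ∃ U ∈ 𝓝 w₀, U ⊆ cone k ∧ {g : Γ | ∃ w ∈ U, wt k R (g.1.1 *ᵥ w) ≠ 0}.Finite := by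
  have hr := mem_cone.1 hw₀
  set a := rho k w₀ / 2 with ha
  set b := 2 * rho k w₀ with hb
  set R' := max R (nn w₀ / rho k w₀ + 1) with hR'
  set Q := {w : Fin (n + 1) → ℂ | a ≤ rho k w ∧ rho k w ≤ b ∧ nn w ≤ R' * rho k w} with hQ
  obtain ⟨hQc, hQs⟩ := isCompact_box (k := k) a b R' (by positivity)
  refine ⟨{w | a < rho k w ∧ rho k w < b ∧ nn w < R' * rho k w}, ?_, ?_, ?_⟩
  · refine IsOpen.mem_nhds ?_ ?_
    · exact (isOpen_lt continuous_const continuous_rho).inter
        ((isOpen_lt continuous_rho continuous_const).inter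
          (isOpen_lt continuous_nn (continuous_const.mul continuous_rho)))
    · refine ⟨by rw [ha]; linarith, by rw [hb]; linarith, ?_⟩
      have h1 : nn w₀ / rho k w₀ < R' := lt_of_lt_of_le (lt_add_one _) (le_max_right _ _)
      rwa [div_lt_iff₀ hr] at h1
  · intro w hw
    exact lt_trans (by rw [ha]; positivity) hw.1
  · refine (hD.pd Q hQc hQs).subset ?_
    rintro g ⟨w, ⟨h1, h2, h3⟩, h4⟩
    refine ⟨w, ⟨h1.le, h2.le, h3.le⟩, ?_⟩
    have hwc : w ∈ cone k := lt_trans (show 0 < a by rw [ha]; positivity) h1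
    have hg := hD.isU g.1 g.2
    have h5 := lt_of_wt_ne (mulVec_mem_cone hg hwc) h4
    rw [hQ, Set.mem_ofPred_eq, rho_mulVec hg] at *
    refine ⟨h1.le, h2.le, h5.trans ?_⟩
    exact mul_le_mul_of_nonneg_right (le_max_left _ _) (by
      have := mem_cone.1 hwc; exact this.le)

/-- The cocycle as a function. -/
def lf (k : Fin (n + 1) → ℝ)
    (L : Matrix.SpecialLinearGroup (Fin (n + 1)) ℂ → Fin (n + 1) → ℂ)
    (g : Matrix.SpecialLinearGroup (Fin (n + 1)) ℂ) (w : Fin (n + 1) → ℂ) : ℂ :=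
  ∑ j, (k j : ℂ) * L g j * (g.1 *ᵥ w) j

theorem lf_mul {Γ : Subgroup (Matrix.SpecialLinearGroup (Fin (n + 1)) ℂ)}
    {L : Matrix.SpecialLinearGroup (Fin (n + 1)) ℂ → Fin (n + 1) → ℂ} (hD : Disc k Γ)
    (hL : Coc Γ L) {g g' : Matrix.SpecialLinearGroup (Fin (n + 1)) ℂ} (hg : g ∈ Γ) (hg' : g' ∈ Γ)
    (w : Fin (n + 1) → ℂ) : lf k L (g * g') w = lf k L g' w + lf k L g (g'.1 *ᵥ w) := by
  unfold lf
  have h1 : (g * g').1 *ᵥ w = g.1 *ᵥ (g'.1 *ᵥ w) := by
    rw [Matrix.mulVec_mulVec]; rfl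
  rw [h1, ← bil_mulVec (hD.isU g hg) (L g') (g'.1 *ᵥ w), ← Finset.sum_add_distrib]
  refine Finset.sum_congr rfl fun j _ => ?_
  rw [hL g hg g' hg' j]
  ring

theorem lf_smul (L : Matrix.SpecialLinearGroup (Fin (n + 1)) ℂ → Fin (n + 1) → ℂ)
    (g : Matrix.SpecialLinearGroup (Fin (n + 1)) ℂ) (c : ℂ) (w : Fin (n + 1) → ℂ) :
    lf k L g (c • w) = c * lf k L g w := by
  unfold lf
  rw [Matrix.mulVec_smul, Finset.mul_sum]
  refine Finset.sum_congr rfl fun j _ => ?_
  rw [Pi.smul_apply, smul_eq_mul]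
  ring

theorem continuous_mv (g : Matrix (Fin (n + 1)) (Fin (n + 1)) ℂ) :
    Continuous fun w : Fin (n + 1) → ℂ => g *ᵥ w :=
  Continuous.matrix_mulVec continuous_const continuous_id

theorem continuous_lf (L : Matrix.SpecialLinearGroup (Fin (n + 1)) ℂ → Fin (n + 1) → ℂ)
    (g : Matrix.SpecialLinearGroup (Fin (n + 1)) ℂ) : Continuous (lf k L g) := by
  unfold lf
  refine continuous_finsetSum _ fun j _ => continuous_const.mul ?_
  exact (continuous_apply j).comp (continuous_mv g.1)

end S6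

open S6 in
/-- K6. -/
theorem k6 : K6 := by
  intro n k Γ L hs hD hL
  obtain ⟨Q, hQc, hQs, hQ⟩ := hD.cc
  have hcont : ContinuousOn (fun w => nn w / rho k w) Q :=
    continuous_nn.continuousOn.div continuous_rho.continuousOn
      fun w hw => (mem_cone.1 (hQs hw)).ne'
  obtain ⟨R₀, hR₀⟩ := hQc.exists_bound_of_continuousOn hcont
  set R := R₀ + 1 with hR
  have hpos : ∀ w ∈ cone k, ∃ g : Γ, 0 < wt k R (g.1.1 *ᵥ w) := by
    intro w hw
    obtain ⟨g, hg, c, hc, h1⟩ := hQ w hw
    refine ⟨⟨g, hg⟩, ?_⟩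
    rw [← wt_smul R hc]
    have h2 := (le_abs_self _).trans (hR₀ _ h1)
    exact lt_max_of_lt_right (by simp only [hR]; linarith)
  -- finite supports
  have hfin : ∀ w ∈ cone k, (Function.support fun g : Γ => wt k R (g.1.1 *ᵥ w)).Finite := by
    intro w hw
    obtain ⟨U, hU, -, hf⟩ := wt_finite hD R hw
    exact hf.subset fun g hg => ⟨w, mem_of_mem_nhds hU, hg⟩
  set den : (Fin (n + 1) → ℂ) → ℝ := fun w => ∑ᶠ g : Γ, wt k R (g.1.1 *ᵥ w) with hden
  set num : (Fin (n + 1) → ℂ) → ℂ := fun w =>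
    ∑ᶠ g : Γ, (wt k R (g.1.1 *ᵥ w) : ℂ) * lf k L g.1 w with hnum
  have hdpos : ∀ w ∈ cone k, 0 < den w := by
    intro w hw
    obtain ⟨g, hg⟩ := hpos w hw
    simp only [hden]
    rw [finsum_eq_sum_of_support_subset (s := (hfin w hw).toFinset) _ (by simp)]
    refine Finset.sum_pos' (fun g _ => wt_nonneg R _) ⟨g, ?_, hg⟩
    rw [Set.Finite.mem_toFinset]
    exact hg.ne'
  refine ⟨fun w => -num w / (den w : ℂ), ?_, ?_, ?_⟩
  · -- continuity
    intro w₀ hw₀
    refine ContinuousAt.continuousWithinAt ?_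
    obtain ⟨U, hU, hUs, hf⟩ := wt_finite hD R hw₀
    have hdc : ContinuousAt den w₀ := by
      have h1 : ContinuousAt (fun w => ∑ g ∈ hf.toFinset, wt k R (g.1.1 *ᵥ w)) w₀ := by
        refine tendsto_finsetSum _ fun g _ => ?_
        have h2 : ContinuousAt (wt k R) (g.1.1 *ᵥ w₀) :=
          (continuousOn_wt R).continuousAt
            (isOpen_cone.mem_nhds (mulVec_mem_cone (hD.isU g.1 g.2) hw₀))
        exact ContinuousAt.comp (f := fun w => g.1.1 *ᵥ w) (g := wt k R) h2
          (continuous_mv g.1.1).continuousAt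
      refine h1.congr ?_
      filter_upwards [hU] with w hw
      simp only [hden]
      rw [finsum_eq_sum_of_support_subset]
      intro g hg
      rw [Set.Finite.coe_toFinset]
      exact ⟨w, hw, hg⟩
    have hnc : ContinuousAt num w₀ := by
      have h1 : ContinuousAt (fun w => ∑ g ∈ hf.toFinset,
          (wt k R (g.1.1 *ᵥ w) : ℂ) * lf k L g.1 w) w₀ := by
        refine tendsto_finsetSum _ fun g _ => ?_
        have h2 : ContinuousAt (wt k R) (g.1.1 *ᵥ w₀) :=
          (continuousOn_wt R).continuousAt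
            (isOpen_cone.mem_nhds (mulVec_mem_cone (hD.isU g.1 g.2) hw₀))
        have h3 : ContinuousAt (fun w => wt k R (g.1.1 *ᵥ w)) w₀ :=
          ContinuousAt.comp (f := fun w => g.1.1 *ᵥ w) (g := wt k R) h2
            (continuous_mv g.1.1).continuousAt
        exact (Complex.continuous_ofReal.continuousAt.comp h3).mul
          (continuous_lf L g.1).continuousAt
      refine h1.congr ?_
      filter_upwards [hU] with w hw
      simp only [hnum]
      rw [finsum_eq_sum_of_support_subset]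
      intro g hg
      rw [Set.Finite.coe_toFinset]
      refine ⟨w, hw, fun h => hg ?_⟩
      simp only [h, Complex.ofReal_zero, zero_mul]
    refine hnc.neg.div (Complex.continuous_ofReal.continuousAt.comp hdc) ?_
    exact_mod_cast (hdpos w₀ hw₀).ne'
  · -- homogeneity
    intro c hc w hw
    have h1 : den (c • w) = den w := by
      simp only [hden]
      refine finsum_congr fun g => ?_
      rw [Matrix.mulVec_smul, wt_smul R hc]
    have h2 : num (c • w) = c * num w := by
      simp only [hnum]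
      rw [mul_finsum]
      refine finsum_congr fun g => ?_
      rw [Matrix.mulVec_smul, wt_smul R hc, lf_smul]
      ring
    simp only [h1, h2]
    ring
  · -- the cocycle
    intro g hg w hw
    have hgw : g.1 *ᵥ w ∈ cone k := mulVec_mem_cone (hD.isU g hg) hw
    have hmv : ∀ a : Γ, (a.1 * g).1 *ᵥ w = a.1.1 *ᵥ (g.1 *ᵥ w) := by
      intro a
      rw [Matrix.mulVec_mulVec]; rfl
    have h1 : den (g.1 *ᵥ w) = den w := by
      simp only [hden]
      rw [← finsum_comp_equiv (Equiv.mulRight (⟨g, hg⟩ : Γ))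
        (f := fun a : Γ => wt k R (a.1.1 *ᵥ w))]
      refine finsum_congr fun a => ?_
      rw [← hmv]; rfl
    have h2 : num (g.1 *ᵥ w) = num w - lf k L g w * (den w : ℂ) := by
      have e1 : num w = ∑ᶠ a : Γ,
          (wt k R ((a.1 * g).1 *ᵥ w) : ℂ) * lf k L (a.1 * g) w := by
        simp only [hnum]
        rw [← finsum_comp_equiv (Equiv.mulRight (⟨g, hg⟩ : Γ))]
        rfl
      have e2 : (lf k L g w * (den w : ℂ)) = ∑ᶠ a : Γ,
          (wt k R ((a.1 * g).1 *ᵥ w) : ℂ) * lf k L g w := by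
        rw [← h1]
        simp only [hden]
        have hf := hfin _ hgw
        rw [finsum_eq_sum_of_support_subset (s := hf.toFinset) _ (by simp),
          finsum_eq_sum_of_support_subset (s := hf.toFinset) _ (by
            intro a ha
            rw [Set.Finite.coe_toFinset]
            intro h
            refine ha ?_
            simp only [hmv, h, Complex.ofReal_zero, zero_mul])]
        rw [Complex.ofReal_sum, Finset.mul_sum]
        refine Finset.sum_congr rfl fun a _ => ?_
        rw [hmv, mul_comm]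
      rw [e1, e2, ← finsum_sub_distrib]
      · simp only [hnum]
        refine finsum_congr fun a => ?_
        rw [hmv, lf_mul hD hL a.2 hg]
        ring
      · refine (hfin _ hgw).subset fun a ha h => ha ?_
        simp only [hmv, h, Complex.ofReal_zero, zero_mul]
      · refine (hfin _ hgw).subset fun a ha h => ha ?_
        simp only [hmv, h, Complex.ofReal_zero, zero_mul]
    have h3 : (den w : ℂ) ≠ 0 := by exact_mod_cast (hdpos w hw).ne'
    simp only [h1, h2]
    change _ = -num w / (den w : ℂ) + lf k L g w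
    field_simp
    ring

end

end Pool.CMP
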