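import Pool.Agent.Lib.CMP.KDefs

/-!
# Tank CMP, row K8: the fixed point of the averaging operator (helper31)

Starting with a continuous primitive `S₀` of the cocycle, the difference `D₀ = Av S₀ / α₀ - S₀` is
an invariant section, so bounded, and the sum of the iterates of `Av / α₀` on it converges.
-/

set_option autoImplicit false

open scoped ComplexConjugate Matrix
open Complex MeasureTheory

namespace Pool.CMP

noncomputable section

variable {n : ℕ}

namespace K8

theorem rho_cont (k : Fin (n + 1) → ℝ) : Continuous (rho k) := by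
  unfold rho; fun_prop

theorem H_cont (k : Fin (n + 1) → ℝ) (w : Fin (n + 1) → ℂ) : Continuous fun z => H k z w := by
  unfold H
  exact continuous_finsetSum _ fun j _ =>
    (continuous_const.mul (Complex.continuous_conj.comp (continuous_apply j))).mul continuous_const

theorem H_cont2 (k : Fin (n + 1) → ℝ) : Continuous fun z => H k z z := by
  unfold H
  exact continuous_finsetSum _ fun j _ =>
    (continuous_const.mul (Complex.continuous_conj.comp (continuous_apply j))).mul
      (continuous_apply j)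

theorem H_self (k : Fin (n + 1) → ℝ) (z : Fin (n + 1) → ℂ) : H k z z = -(rho k z : ℂ) := by
  unfold H rho
  push_cast
  rw [neg_neg]
  refine Finset.sum_congr rfl fun j _ => ?_
  rw [mul_assoc, Complex.conj_mul']

theorem kf_cont : Continuous kf := by
  unfold kf
  exact Real.smoothTransition.continuous.comp (by fun_prop)

theorem eta_cont : Continuous eta := by
  unfold eta
  exact (Real.smoothTransition.continuous.comp (by fun_prop)).mul
    (Real.smoothTransition.continuous.comp (by fun_prop))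

theorem ker_zero {k : Fin (n + 1) → ℝ} {w z : Fin (n + 1) → ℂ}
    (h : ¬ (1 / 2 ≤ rho k z ∧ rho k z ≤ 2 ∧ tt k w z ≤ 2)) : ker k w z = 0 := by
  unfold ker
  by_cases h1 : 1 / 2 ≤ rho k z
  · by_cases h2 : rho k z ≤ 2
    · have h3 : ¬ tt k w z ≤ 2 := fun h3 => h ⟨h1, h2, h3⟩
      have : kf (tt k w z) = 0 := by
        unfold kf; exact Real.smoothTransition.zero_of_nonpos (by linarith)
      rw [this]; simp
    · have : eta (rho k z) = 0 := by
        unfold eta
        rw [Real.smoothTransition.zero_of_nonpos (x := 2 - rho k z) (by linarith), mul_zero]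
      rw [this]; simp
  · have : eta (rho k z) = 0 := by
      unfold eta
      rw [Real.smoothTransition.zero_of_nonpos (x := rho k z - 1 / 2) (by linarith), zero_mul]
    rw [this]; simp

theorem ker_zero_of_notMem {k : Fin (n + 1) → ℝ} {w z : Fin (n + 1) → ℂ} (h : z ∉ cone k) :
    ker k w z = 0 := by
  apply ker_zero
  rintro ⟨h1, -, -⟩
  exact h (show 0 < rho k z by linarith)

theorem ker_cont {k : Fin (n + 1) → ℝ} {w : Fin (n + 1) → ℂ} (hw : w ∈ cone k) :
    ContinuousOn (fun z => ker k w z) (cone k) := by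
  have hw' : 0 < rho k w := hw
  unfold ker
  refine ContinuousOn.mul ?_ ?_
  · refine Complex.continuous_ofReal.comp_continuousOn ?_
    refine ContinuousOn.mul ?_ ?_
    · refine kf_cont.comp_continuousOn ?_
      unfold tt
      refine ContinuousOn.div ?_ ?_ ?_
      · exact ((H_cont k w).norm.pow 2).continuousOn
      · exact ((rho_cont k).mul continuous_const).continuousOn
      · intro z hz
        have hz' : 0 < rho k z := hz
        positivity
    · exact (eta_cont.comp (rho_cont k)).continuousOn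
  · refine ContinuousOn.div (H_cont k w).continuousOn (H_cont2 k).continuousOn ?_
    intro z hz
    have hz' : 0 < rho k z := hz
    rw [H_self, neg_ne_zero]
    exact_mod_cast hz'.ne'

theorem integrable_ker (h1 : K1) {k : Fin (n + 1) → ℝ} (hk : Pool.CMN.Jac.Sg k)
    {S : (Fin (n + 1) → ℂ) → ℂ} (hS : ContinuousOn S (cone k)) {w : Fin (n + 1) → ℂ}
    (hw : w ∈ cone k) : Integrable fun z => ker k w z * S z := by
  obtain ⟨Q, hQc, hQs, hQ⟩ := (h1 n k hk).2 {w} isCompact_singleton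
    (Set.singleton_subset_iff.2 hw)
  have hcont : ContinuousOn (fun z => ker k w z * S z) Q :=
    ((ker_cont hw).mul hS).mono hQs
  refine IntegrableOn.integrable_of_forall_notMem_eq_zero (hcont.integrableOn_compact hQc)
    fun z hz => ?_
  rw [ker_zero, zero_mul]
  rintro ⟨h2, h3, h4⟩
  exact hz (hQ w rfl z h2 h3 h4)

theorem Av_congr {k : Fin (n + 1) → ℝ} {S S' : (Fin (n + 1) → ℂ) → ℂ}
    (h : ∀ z ∈ cone k, S z = S' z) (w : Fin (n + 1) → ℂ) : Av k S w = Av k S' w := by
  unfold Av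
  refine integral_congr_ae (Filter.Eventually.of_forall fun z => ?_)
  by_cases hz : z ∈ cone k
  · simp only [h z hz]
  · simp only [ker_zero_of_notMem hz, zero_mul]

theorem Av_add (h1 : K1) {k : Fin (n + 1) → ℝ} (hk : Pool.CMN.Jac.Sg k)
    {S S' : (Fin (n + 1) → ℂ) → ℂ} (hS : ContinuousOn S (cone k)) (hS' : ContinuousOn S' (cone k))
    {w : Fin (n + 1) → ℂ} (hw : w ∈ cone k) :
    Av k (fun z => S z + S' z) w = Av k S w + Av k S' w := by
  unfold Av
  rw [← integral_add (integrable_ker h1 hk hS hw) (integrable_ker h1 hk hS' hw)]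
  refine integral_congr_ae (Filter.Eventually.of_forall fun z => ?_)
  simp only [mul_add]

theorem sum_mulVec {k : Fin (n + 1) → ℝ} (L : Fin (n + 1) → ℂ)
    (g : Matrix (Fin (n + 1)) (Fin (n + 1)) ℂ) (z : Fin (n + 1) → ℂ) :
    ∑ j, (k j : ℂ) * L j * (g *ᵥ z) j = ∑ m, (∑ j, (k j : ℂ) * L j * g j m) * z m := by
  simp only [Matrix.mulVec, dotProduct, Finset.mul_sum, Finset.sum_mul]
  rw [Finset.sum_comm]
  refine Finset.sum_congr rfl fun m _ => Finset.sum_congr rfl fun j _ => by ring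

/-- the iterates -/
def It (k : Fin (n + 1) → ℝ) (S₀ : (Fin (n + 1) → ℂ) → ℂ) : ℕ → (Fin (n + 1) → ℂ) → ℂ
  | 0 => fun w => Av k S₀ w / (alpha0 k : ℂ) - S₀ w
  | m + 1 => fun w => Av k (It k S₀ m) w / (alpha0 k : ℂ)

/-- the tails of the sum of the iterates -/
def Tl (k : Fin (n + 1) → ℝ) (S₀ : (Fin (n + 1) → ℂ) → ℂ) (M : ℕ) (w : Fin (n + 1) → ℂ) : ℂ :=
  ∑' m, It k S₀ (M + m) w

end K8

open K8

theorem k8_of (h1 : K1) (h2 : K2) (h3 : K3) (h4 : K4) (h5 : K5) (h6 : K6) (h7 : K7) : K8 := by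
  intro n k Γ L hn hk hΓ hL
  obtain ⟨S₀, hc₀, hh₀, hp₀⟩ := h6 n k Γ L hk hΓ hL
  obtain ⟨ha1, ha2, hcontr⟩ := h4 n k hn hk
  have ha0 : 0 < alpha0 k := lt_of_le_of_lt ha1 ha2
  have ha0c : (alpha0 k : ℂ) ≠ 0 := by exact_mod_cast ha0.ne'
  have hcAv : ∀ S : (Fin (n + 1) → ℂ) → ℂ, ContinuousOn S (cone k) →
      ContinuousOn (Av k S) (cone k) := fun S hS => (h5 n k hk S hS 0).continuousOn
  have hU : ∀ g ∈ Γ, Pool.CMN.Jac.IsU k g.1 := hΓ.isU
  -- the first difference is invariant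
  have hinv0 : ∀ g ∈ Γ, ∀ w ∈ cone k, It k S₀ 0 (g.1 *ᵥ w) = It k S₀ 0 w := by
    intro g hg w hw
    have e1 : Av k S₀ (g.1 *ᵥ w) = Av k S₀ w +
        (alpha0 k : ℂ) * ∑ j, (k j : ℂ) * L g j * (g.1 *ᵥ w) j := by
      rw [(h2 n k hk).1 g (hU g hg) S₀ w,
        Av_congr (S' := fun z => S₀ z + ∑ m, (∑ j, (k j : ℂ) * L g j * g.1 j m) * z m)
          (fun z hz => by rw [hp₀ g hg z hz, sum_mulVec]) w,
        Av_add h1 hk hc₀ (by fun_prop) hw, h3 n k hk _ w hw, sum_mulVec]
    change Av k S₀ (g.1 *ᵥ w) / (alpha0 k : ℂ) - S₀ (g.1 *ᵥ w) =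
      Av k S₀ w / (alpha0 k : ℂ) - S₀ w
    rw [e1, hp₀ g hg w hw]
    field_simp
    ring
  have hc0 : ContinuousOn (It k S₀ 0) (cone k) := ((hcAv S₀ hc₀).div_const _).sub hc₀
  have hh0 : Hom1 k (It k S₀ 0) := by
    intro c hc w hw
    change Av k S₀ (c • w) / (alpha0 k : ℂ) - S₀ (c • w) = c * (Av k S₀ w / (alpha0 k : ℂ) - S₀ w)
    rw [(h2 n k hk).2 S₀ c hc w, hh₀ c hc w hw]
    ring
  obtain ⟨C, hC, hbd⟩ := h7 n k Γ _ hk hΓ hc0 hh0 hinv0
  set r : ℝ := alpha1 k / alpha0 k with hr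
  have hr0 : 0 ≤ r := div_nonneg ha1 ha0.le
  have hr1 : r < 1 := (div_lt_one ha0).2 ha2
  -- all the iterates
  have hall : ∀ m : ℕ, ContinuousOn (It k S₀ m) (cone k) ∧ Hom1 k (It k S₀ m) ∧
      (∀ g ∈ Γ, ∀ w ∈ cone k, It k S₀ m (g.1 *ᵥ w) = It k S₀ m w) ∧
      ∀ w ∈ cone k, ‖It k S₀ m w‖ ≤ C * r ^ m * √(rho k w) := by
    intro m
    induction m with
    | zero => exact ⟨hc0, hh0, hinv0, fun w hw => by simpa using hbd w hw⟩
    | succ m ih =>
      obtain ⟨i1, i2, i3, i4⟩ := ih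
      refine ⟨(hcAv _ i1).div_const _, ?_, ?_, ?_⟩
      · intro c hc w hw
        change Av k (It k S₀ m) (c • w) / (alpha0 k : ℂ) =
          c * (Av k (It k S₀ m) w / (alpha0 k : ℂ))
        rw [(h2 n k hk).2 _ c hc w]
        ring
      · intro g hg w hw
        change Av k (It k S₀ m) (g.1 *ᵥ w) / (alpha0 k : ℂ) =
          Av k (It k S₀ m) w / (alpha0 k : ℂ)
        rw [(h2 n k hk).1 g (hU g hg) _ w, Av_congr (fun z hz => i3 g hg z hz) w]
      · intro w hw
        change ‖Av k (It k S₀ m) w / (alpha0 k : ℂ)‖ ≤ _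
        rw [norm_div, Complex.norm_real, Real.norm_of_nonneg ha0.le, div_le_iff₀ ha0]
        refine (hcontr _ (C * r ^ m) i1 i4 w hw).trans (le_of_eq ?_)
        have hra : alpha1 k = r * alpha0 k := by rw [hr]; field_simp
        rw [hra, pow_succ]
        ring
  have hsum : ∀ (M : ℕ) (w : Fin (n + 1) → ℂ), w ∈ cone k →
      Summable fun m => It k S₀ (M + m) w := by
    intro M w hw
    refine Summable.of_norm_bounded (g := fun m => C * r ^ M * √(rho k w) * r ^ m)
      ((summable_geometric_of_lt_one hr0 hr1).mul_left _) fun m => ?_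
    refine ((hall (M + m)).2.2.2 w hw).trans (le_of_eq ?_)
    rw [pow_add]; ring
  have hTbd : ∀ (M : ℕ), ∀ w ∈ cone k, ‖Tl k S₀ M w‖ ≤ C * r ^ M / (1 - r) * √(rho k w) := by
    intro M w hw
    have hg : HasSum (fun m => C * r ^ M * √(rho k w) * r ^ m)
        (C * r ^ M * √(rho k w) * (1 - r)⁻¹) := (hasSum_geometric_of_lt_one hr0 hr1).mul_left _
    refine (tsum_of_norm_bounded hg fun m => ?_).trans (le_of_eq ?_)
    · refine ((hall (M + m)).2.2.2 w hw).trans (le_of_eq ?_)
      rw [pow_add]; ring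
    · rw [div_eq_mul_inv]; ring
  have hTc : ∀ M : ℕ, ContinuousOn (Tl k S₀ M) (cone k) := by
    intro M
    have hF : ContinuousOn (fun w => ∑' m, It k S₀ (M + m) w / (√(rho k w) : ℂ)) (cone k) := by
      refine continuousOn_tsum (u := fun m => C * r ^ M * r ^ m) (fun m => ?_)
        ((summable_geometric_of_lt_one hr0 hr1).mul_left _) fun m w hw => ?_
      · refine ContinuousOn.div (hall (M + m)).1
          (Complex.continuous_ofReal.comp (rho_cont k).sqrt).continuousOn fun w hw => ?_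
        have hw' : 0 < rho k w := hw
        exact_mod_cast (Real.sqrt_pos.2 hw').ne'
      · have hw' : 0 < √(rho k w) := Real.sqrt_pos.2 hw
        rw [norm_div, Complex.norm_real, Real.norm_of_nonneg hw'.le, div_le_iff₀ hw']
        refine ((hall (M + m)).2.2.2 w hw).trans (le_of_eq ?_)
        rw [pow_add]; ring
    refine ContinuousOn.congr ((Complex.continuous_ofReal.comp (rho_cont k).sqrt).continuousOn.mul
      hF) fun w hw => ?_
    have hw' : (√(rho k w) : ℂ) ≠ 0 := by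
      have : 0 < rho k w := hw
      exact_mod_cast (Real.sqrt_pos.2 this).ne'
    change ∑' m, It k S₀ (M + m) w = (√(rho k w) : ℂ) * ∑' m, It k S₀ (M + m) w / (√(rho k w) : ℂ)
    rw [← tsum_mul_left]
    refine tsum_congr fun m => ?_
    rw [mul_div_cancel₀ _ hw']
  have hTsucc : ∀ (M : ℕ), ∀ w ∈ cone k, Tl k S₀ M w = It k S₀ M w + Tl k S₀ (M + 1) w := by
    intro M w hw
    unfold Tl
    rw [(hsum M w hw).tsum_eq_zero_add]
    simp only [add_zero]
    congr 1
    refine tsum_congr fun m => ?_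
    rw [show M + (m + 1) = M + 1 + m by ring]
  -- the average of the sum
  have hAvT : ∀ w ∈ cone k, Av k (Tl k S₀ 0) w = (alpha0 k : ℂ) * Tl k S₀ 1 w := by
    intro w hw
    have hE : ∀ M : ℕ, Av k (Tl k S₀ 0) w - (alpha0 k : ℂ) * Tl k S₀ 1 w =
        Av k (Tl k S₀ M) w - (alpha0 k : ℂ) * Tl k S₀ (M + 1) w := by
      intro M
      induction M with
      | zero => rfl
      | succ M ih =>
        rw [ih, Av_congr (fun z hz => hTsucc M z hz) w, Av_add h1 hk (hall M).1 (hTc (M + 1)) hw,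
          hTsucc (M + 1) w hw]
        have : Av k (It k S₀ M) w = (alpha0 k : ℂ) * It k S₀ (M + 1) w := by
          change _ = (alpha0 k : ℂ) * (Av k (It k S₀ M) w / (alpha0 k : ℂ))
          field_simp
        rw [this]
        ring
    have hlim : Filter.Tendsto (fun M : ℕ =>
        (alpha1 k / (1 - r) * C * √(rho k w) + alpha0 k * (C * r / (1 - r) * √(rho k w))) * r ^ M)
        Filter.atTop (nhds 0) := by
      have := (tendsto_pow_atTop_nhds_zero_of_lt_one hr0 hr1).const_mul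
        (alpha1 k / (1 - r) * C * √(rho k w) + alpha0 k * (C * r / (1 - r) * √(rho k w)))
      simpa using this
    have hle : ∀ M : ℕ, ‖Av k (Tl k S₀ 0) w - (alpha0 k : ℂ) * Tl k S₀ 1 w‖ ≤
        (alpha1 k / (1 - r) * C * √(rho k w) + alpha0 k * (C * r / (1 - r) * √(rho k w))) *
          r ^ M := by
      intro M
      rw [hE M]
      refine (norm_sub_le _ _).trans ?_
      have b1 := hcontr _ (C * r ^ M / (1 - r)) (hTc M) (hTbd M) w hw
      have b2 : ‖(alpha0 k : ℂ) * Tl k S₀ (M + 1) w‖ ≤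
          alpha0 k * (C * r ^ (M + 1) / (1 - r) * √(rho k w)) := by
        rw [norm_mul, Complex.norm_real, Real.norm_of_nonneg ha0.le]
        exact mul_le_mul_of_nonneg_left (hTbd (M + 1) w hw) ha0.le
      refine (add_le_add b1 b2).trans (le_of_eq ?_)
      rw [pow_succ]
      ring
    have h0 : ‖Av k (Tl k S₀ 0) w - (alpha0 k : ℂ) * Tl k S₀ 1 w‖ ≤ 0 :=
      ge_of_tendsto' hlim hle
    exact sub_eq_zero.1 (norm_le_zero_iff.1 h0)
  refine ⟨fun w => S₀ w + Tl k S₀ 0 w, hc₀.add (hTc 0), ?_, ?_, ?_⟩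
  · intro c hc w hw
    change S₀ (c • w) + Tl k S₀ 0 (c • w) = c * (S₀ w + Tl k S₀ 0 w)
    rw [hh₀ c hc w hw, mul_add]
    congr 1
    unfold Tl
    rw [← tsum_mul_left]
    exact tsum_congr fun m => (hall (0 + m)).2.1 c hc w hw
  · intro g hg w hw
    change S₀ (g.1 *ᵥ w) + Tl k S₀ 0 (g.1 *ᵥ w) = S₀ w + Tl k S₀ 0 w + _
    have : Tl k S₀ 0 (g.1 *ᵥ w) = Tl k S₀ 0 w := by
      unfold Tl
      exact tsum_congr fun m => (hall (0 + m)).2.2.1 g hg w hw
    rw [this, hp₀ g hg w hw]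
    ring
  · intro w hw
    change _ = (alpha0 k : ℂ) * (S₀ w + Tl k S₀ 0 w)
    rw [Av_add h1 hk hc₀ (hTc 0) hw, hAvT w hw, hTsucc 0 w hw]
    have : Av k S₀ w = (alpha0 k : ℂ) * (It k S₀ 0 w + S₀ w) := by
      change _ = (alpha0 k : ℂ) * (Av k S₀ w / (alpha0 k : ℂ) - S₀ w + S₀ w)
      rw [sub_add_cancel, mul_div_cancel₀ _ ha0c]
    rw [this]
    ring

end

end Pool.CMP
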