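import Pool.Agent.Lib.CMP.KBox

/-!
# Tank CMP, block K (helper53): the theorem of block K from its rows
-/

set_option autoImplicit false

open scoped ComplexConjugate Matrix
open Complex MeasureTheory

namespace Pool.CMP

variable {n : ℕ}

namespace SX

theorem cone_open (k : Fin (n + 1) → ℝ) : IsOpen (cone k) := by
  have h : Continuous (rho k) := by
    unfold rho
    fun_prop
  exact isOpen_lt continuous_const h

theorem rho_mulVec {k : Fin (n + 1) → ℝ} {g : Matrix (Fin (n + 1)) (Fin (n + 1)) ℂ}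
    (hg : Pool.CMN.Jac.IsU k g) (w : Fin (n + 1) → ℂ) : rho k (g *ᵥ w) = rho k w :=
  congrArg Neg.neg (Pool.CMN.Jac.Hn_mulVec hg w)

theorem rho_smul (k : Fin (n + 1) → ℝ) (c : ℂ) (w : Fin (n + 1) → ℂ) :
    rho k (c • w) = ‖c‖ ^ 2 * rho k w := by
  have h : rho k (c • w) = -(‖c‖ ^ 2 * Pool.CMN.Jac.Hn k w) :=
    congrArg Neg.neg (Pool.CMN.Jac.Hn_smul k c w)
  rw [h]
  exact (mul_neg _ _).symm

theorem contDiffAt_of {k : Fin (n + 1) → ℝ} {S : (Fin (n + 1) → ℂ) → ℂ} {m : ℕ}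
    (h : ContDiffOn ℝ m S (cone k)) {w : Fin (n + 1) → ℂ} (hw : w ∈ cone k) :
    ContDiffAt ℝ m S w := h.contDiffAt ((cone_open k).mem_nhds hw)

theorem Box_hom {k : Fin (n + 1) → ℝ} {S : (Fin (n + 1) → ℂ) → ℂ}
    (hS : ContDiffOn ℝ (2 : ℕ) S (cone k)) (h1 : Hom1 k S) {c : ℂ} (hc : c ≠ 0)
    {w : Fin (n + 1) → ℂ} (hw : w ∈ cone k) :
    (c * conj c) * Box k S (c • w) = c * Box k S w := by
  have hcw : c • w ∈ cone k := by
    show 0 < rho k (c • w)
    rw [rho_smul]
    have := norm_pos_iff.2 hc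
    exact mul_pos (by positivity) hw
  rw [← Box_smul k c (contDiffAt_of hS hcw), ← Box_const_mul k c (contDiffAt_of hS hw)]
  refine Box_congr k ?_
  filter_upwards [(cone_open k).mem_nhds hw] with z hz
  exact h1 c hc z hz

theorem Box_inv {k : Fin (n + 1) → ℝ} (hk : Pool.CMN.Jac.Sg k) {S : (Fin (n + 1) → ℂ) → ℂ}
    (hS : ContDiffOn ℝ (2 : ℕ) S (cone k)) {g : Matrix (Fin (n + 1)) (Fin (n + 1)) ℂ}
    (hg : Pool.CMN.Jac.IsU k g) {L : Fin (n + 1) → ℂ}
    (hP : ∀ w ∈ cone k, S (g *ᵥ w) = S w + ∑ j, L j * (g *ᵥ w) j)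
    {w : Fin (n + 1) → ℂ} (hw : w ∈ cone k) : Box k S (g *ᵥ w) = Box k S w := by
  have hgw : g *ᵥ w ∈ cone k := by
    show 0 < rho k (g *ᵥ w)
    rw [rho_mulVec hg]
    exact hw
  rw [← Box_isU hk.ne hg (contDiffAt_of hS hgw)]
  have h1 : (fun z => S (g *ᵥ z)) =ᶠ[nhds w]
      fun z => S z + ∑ l, (∑ j, L j * g j l) * z l := by
    filter_upwards [(cone_open k).mem_nhds hw] with z hz
    rw [hP z hz]
    congr 1
    simp only [Matrix.mulVec, dotProduct, Finset.mul_sum, Finset.sum_mul]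
    rw [Finset.sum_comm]
    exact Finset.sum_congr rfl fun l _ => Finset.sum_congr rfl fun j _ => by ring
  rw [Box_congr k h1, Box_add k (contDiffAt_of hS hw), Box_linear, add_zero]
  exact ContDiffAt.sum fun l _ => contDiffAt_const.mul (by fun_prop)

end SX

open SX in
/-- **Block K.** -/
theorem kod_of (h4 : K4) (h5 : K5) (h7 : K7) (h8 : K8) (h9 : K9) (h10 : K10) : KOD := by
  intro n k Γ L hn hk hΓ hL
  obtain ⟨S, hSc, hS1, hSP, hSA⟩ := h8 n k Γ L (by omega) hk hΓ hL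
  obtain ⟨ha1, ha0, hcontr⟩ := h4 n k (by omega) hk
  have hα : 0 < alpha0 k := ha1.trans_lt ha0
  have hα' : (alpha0 k : ℂ) ≠ 0 := by exact_mod_cast hα.ne'
  have hsm : ∀ m : ℕ, ContDiffOn ℝ m S (cone k) := by
    intro m
    refine ((contDiffOn_const (c := ((alpha0 k : ℂ)⁻¹))).mul (h5 n k hk S hSc m)).congr
      fun w hw => ?_
    rw [hSA w hw, inv_mul_cancel_left₀ hα']
  have hsm2 := hsm 2
  have hvc : ContinuousOn (fun z => (rho k z : ℂ) * Box k S z) (cone k) := by
    have h : Continuous (rho k) := by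
      unfold rho
      fun_prop
    exact (Complex.continuous_ofReal.comp h).continuousOn.mul
      (contDiffOn_Box k (cone_open k) (m := 0) (hsm 2)).continuousOn
  have hv1 : Hom1 k (fun z => (rho k z : ℂ) * Box k S z) := by
    intro c hc w hw
    have h := Box_hom hsm2 hS1 hc hw
    show (rho k (c • w) : ℂ) * Box k S (c • w) = c * ((rho k w : ℂ) * Box k S w)
    rw [rho_smul]
    push_cast
    rw [← Complex.mul_conj']
    linear_combination (rho k w : ℂ) * h
  have hvΓ : ∀ g ∈ Γ, ∀ w ∈ cone k, (fun z => (rho k z : ℂ) * Box k S z) (g.1 *ᵥ w) =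
      (fun z => (rho k z : ℂ) * Box k S z) w := by
    intro g hg w hw
    show (rho k (g.1 *ᵥ w) : ℂ) * Box k S (g.1 *ᵥ w) = (rho k w : ℂ) * Box k S w
    rw [rho_mulVec (hΓ.isU g hg), Box_inv hk hsm2 (hΓ.isU g hg)
      (L := fun j => (k j : ℂ) * L g j) (fun z hz => hSP g hg z hz) hw]
  have hvA : ∀ w ∈ cone k, Av k (fun z => (rho k z : ℂ) * Box k S z) w =
      (alpha0 k : ℂ) * ((rho k w : ℂ) * Box k S w) := by
    intro w hw
    rw [h9 n k hk S hsm hS1 w hw]
    have h1 : Av k S =ᶠ[nhds w] fun z => (alpha0 k : ℂ) * S z := by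
      filter_upwards [(cone_open k).mem_nhds hw] with z hz
      exact hSA z hz
    rw [Box_congr k h1, Box_const_mul k _ (contDiffAt_of hsm2 hw)]
    ring
  obtain ⟨C, hC0, hC⟩ := h7 n k Γ _ hk hΓ hvc hv1 hvΓ
  have key : ∀ m : ℕ, ∀ w ∈ cone k, ‖(rho k w : ℂ) * Box k S w‖ ≤
      (alpha1 k / alpha0 k) ^ m * C * √(rho k w) := by
    intro m
    induction m with
    | zero => simpa using hC
    | succ m ih =>
      intro w hw
      have h1 := hcontr _ _ hvc ih w hw
      rw [hvA w hw, norm_mul, Complex.norm_real, Real.norm_eq_abs, abs_of_pos hα] at h1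
      have h2 : (alpha1 k / alpha0 k) ^ (m + 1) * C * √(rho k w) =
          (alpha1 k * ((alpha1 k / alpha0 k) ^ m * C) * √(rho k w)) / alpha0 k := by
        rw [pow_succ]
        ring
      rw [h2, le_div_iff₀ hα, mul_comm]
      exact h1
  have hB : ∀ w ∈ cone k, Box k S w = 0 := by
    intro w hw
    have h1 : Filter.Tendsto (fun m : ℕ => (alpha1 k / alpha0 k) ^ m * C * √(rho k w))
        Filter.atTop (nhds 0) := by
      have h2 := tendsto_pow_atTop_nhds_zero_of_lt_one (div_nonneg ha1 hα.le)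
        ((div_lt_one hα).2 ha0)
      have h3 := (h2.mul_const C).mul_const (√(rho k w))
      rw [zero_mul, zero_mul] at h3
      exact h3
    have h2 : ‖(rho k w : ℂ) * Box k S w‖ ≤ 0 := ge_of_tendsto' h1 fun m => key m w hw
    have h3 : (rho k w : ℂ) * Box k S w = 0 := norm_le_zero_iff.1 h2
    have h4 : (rho k w : ℂ) ≠ 0 := by
      have : 0 < rho k w := hw
      exact_mod_cast this.ne'
    exact (mul_eq_zero.1 h3).resolve_left h4
  have hd := h10 n k Γ L S hn hk hΓ hsm hS1 hSP hB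
  exact ⟨S, fun w hw => (differentiableAt_of_dzb
    ((contDiffAt_of (hsm 1) hw).differentiableAt (by norm_num)) (hd w hw)).differentiableWithinAt,
    hS1, hSP⟩

end Pool.CMP
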