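import Pool.Agent.Lib.CMP.KCal

/-!
# Tank CMP, block K: smoothness of the kernel (helper41)
-/

set_option autoImplicit false

open scoped ComplexConjugate Matrix
open Complex MeasureTheory

namespace Pool.CMP

noncomputable section

variable {n : ℕ} {k : Fin (n + 1) → ℝ}

theorem continuous_rho (k : Fin (n + 1) → ℝ) : Continuous (rho k) := by
  unfold rho; fun_prop

theorem isOpen_cone (k : Fin (n + 1) → ℝ) : IsOpen (cone k) :=
  isOpen_lt continuous_const (continuous_rho k)

theorem H_self (k : Fin (n + 1) → ℝ) (z : Fin (n + 1) → ℂ) : H k z z = -(rho k z : ℂ) := by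
  unfold H rho
  push_cast
  rw [neg_neg]
  refine Finset.sum_congr rfl fun j _ => ?_
  rw [mul_assoc, ← Complex.normSq_eq_conj_mul_self, Complex.normSq_eq_norm_sq]
  push_cast; ring

theorem contDiff_rho (k : Fin (n + 1) → ℝ) {m : WithTop ℕ∞} : ContDiff ℝ m (rho k) := by
  unfold rho
  refine ContDiff.neg (ContDiff.sum fun j _ => contDiff_const.mul ?_)
  exact (contDiff_coord j).norm_sq ℝ

theorem contDiff_H (k : Fin (n + 1) → ℝ) {m : WithTop ℕ∞} :
    ContDiff ℝ m (fun p : (Fin (n + 1) → ℂ) × (Fin (n + 1) → ℂ) => H k p.2 p.1) := by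
  unfold H
  refine ContDiff.sum fun j _ => ContDiff.mul (contDiff_const.mul ?_) ?_
  · exact (contDiff_conj_coord j).comp contDiff_snd
  · exact (contDiff_coord j).comp contDiff_fst

theorem contDiff_kf {m : ℕ∞} : ContDiff ℝ m kf := by
  unfold kf
  exact Real.smoothTransition.contDiff.comp (contDiff_const.sub contDiff_id)

theorem contDiff_eta {m : ℕ∞} : ContDiff ℝ m eta := by
  unfold eta
  exact (Real.smoothTransition.contDiff.comp (contDiff_id.sub contDiff_const)).mul
    (Real.smoothTransition.contDiff.comp (contDiff_const.sub contDiff_id))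

theorem kf_eq_zero {t : ℝ} (h : 2 ≤ t) : kf t = 0 :=
  Real.smoothTransition.zero_of_nonpos (by linarith)

theorem kf_nonneg (t : ℝ) : 0 ≤ kf t := Real.smoothTransition.nonneg _

theorem kf_le_one (t : ℝ) : kf t ≤ 1 := Real.smoothTransition.le_one _

theorem kf_pos {t : ℝ} (h : t < 2) : 0 < kf t := Real.smoothTransition.pos_of_pos (by linarith)

theorem eta_nonneg (t : ℝ) : 0 ≤ eta t :=
  mul_nonneg (Real.smoothTransition.nonneg _) (Real.smoothTransition.nonneg _)

theorem eta_le_one (t : ℝ) : eta t ≤ 1 :=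
  mul_le_one₀ (Real.smoothTransition.le_one _) (Real.smoothTransition.nonneg _)
    (Real.smoothTransition.le_one _)

theorem eta_pos {t : ℝ} (h : 1 / 2 < t) (h' : t < 2) : 0 < eta t :=
  mul_pos (Real.smoothTransition.pos_of_pos (by linarith))
    (Real.smoothTransition.pos_of_pos (by linarith))

theorem eta_eq_zero_left {t : ℝ} (h : t ≤ 1 / 2) : eta t = 0 := by
  rw [eta, Real.smoothTransition.zero_of_nonpos (by linarith), zero_mul]

theorem eta_eq_zero_right {t : ℝ} (h : 2 ≤ t) : eta t = 0 := by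
  rw [eta, Real.smoothTransition.zero_of_nonpos (x := 2 - t) (by linarith), mul_zero]

theorem ker_eq_zero {w z : Fin (n + 1) → ℂ}
    (h : ¬ (1 / 2 ≤ rho k z ∧ rho k z ≤ 2 ∧ tt k w z ≤ 2)) : ker k w z = 0 := by
  unfold ker
  by_cases h1 : 1 / 2 ≤ rho k z
  · by_cases h2 : rho k z ≤ 2
    · have h3 : ¬ tt k w z ≤ 2 := fun h3 => h ⟨h1, h2, h3⟩
      rw [kf_eq_zero (not_le.1 h3).le]; simp
    · rw [eta_eq_zero_right (not_le.1 h2).le]; simp
  · rw [eta_eq_zero_left (not_le.1 h1).le]; simp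

theorem contDiffAt_tt (m : ℕ∞) {w z : Fin (n + 1) → ℂ} (hw : w ∈ cone k) (hz : z ∈ cone k) :
    ContDiffAt ℝ m (fun p : (Fin (n + 1) → ℂ) × (Fin (n + 1) → ℂ) => tt k p.1 p.2) (w, z) := by
  unfold tt
  refine ContDiffAt.div ((contDiff_H k).norm_sq ℝ).contDiffAt ?_ ?_
  · exact (((contDiff_rho k).comp contDiff_snd).mul ((contDiff_rho k).comp contDiff_fst)).contDiffAt
  · exact (mul_pos hz hw).ne'

theorem contDiffAt_ker (m : ℕ∞) {w z : Fin (n + 1) → ℂ} (hw : w ∈ cone k) :
    ContDiffAt ℝ m (fun p : (Fin (n + 1) → ℂ) × (Fin (n + 1) → ℂ) => ker k p.1 p.2) (w, z) := by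
  by_cases hz : rho k z < 1 / 2
  · refine (contDiffAt_const (c := (0 : ℂ))).congr_of_eventuallyEq ?_
    have h : ∀ᶠ p : (Fin (n + 1) → ℂ) × (Fin (n + 1) → ℂ) in nhds (w, z), rho k p.2 < 1 / 2 :=
      ((continuous_rho k).comp continuous_snd).continuousAt.eventually_lt continuousAt_const hz
    filter_upwards [h] with p hp
    exact ker_eq_zero fun h => absurd h.1 (not_le.2 hp)
  · have hz' : z ∈ cone k := by
      change 0 < rho k z
      linarith [not_lt.1 hz]
    unfold ker
    refine ContDiffAt.mul ?_ ?_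
    · have h1 : ContDiffAt ℝ m (fun p : (Fin (n + 1) → ℂ) × (Fin (n + 1) → ℂ) =>
          kf (tt k p.1 p.2) * eta (rho k p.2)) (w, z) := by
        refine ContDiffAt.mul ?_ ?_
        · exact (contDiff_kf.contDiffAt).comp (w, z) (contDiffAt_tt m hw hz')
        · exact (contDiff_eta.comp ((contDiff_rho k).comp contDiff_snd)).contDiffAt
      exact (Complex.ofRealCLM.contDiff.contDiffAt).comp (w, z) h1
    · simp only [div_eq_mul_inv]
      refine ContDiffAt.mul (contDiff_H k).contDiffAt (ContDiffAt.inv ?_ ?_)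
      · exact ((contDiff_H k).comp (contDiff_snd.prodMk contDiff_snd)).contDiffAt
      · change H k z z ≠ 0
        rw [H_self]
        exact neg_ne_zero.2 (by exact_mod_cast (show 0 < rho k z from hz').ne')

theorem contDiffAt_ker_left (m : ℕ∞) {w z : Fin (n + 1) → ℂ} (hw : w ∈ cone k) :
    ContDiffAt ℝ m (fun w' => ker k w' z) w :=
  (contDiffAt_ker m (k := k) (w := w) (z := z) hw).comp w
    (contDiffAt_id.prodMk contDiffAt_const)

theorem contDiffAt_ker_right (m : ℕ∞) {w z : Fin (n + 1) → ℂ} (hw : w ∈ cone k) :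
    ContDiffAt ℝ m (fun z' => ker k w z') z :=
  (contDiffAt_ker m (k := k) (w := w) (z := z) hw).comp z
    (contDiffAt_const.prodMk contDiffAt_id)

/-- Smoothing, from the compactness of the support. -/
theorem k5_of (h1 : K1) : K5 := by
  intro n k hs S hS m w₀ hw₀
  obtain ⟨Q, hQn, hQc, hQ⟩ : ∃ Q : Set (Fin (n + 1) → ℂ), Q ∈ nhds w₀ ∧ Q ⊆ cone k ∧
      IsCompact Q := by
    obtain ⟨Q, a, b, c⟩ := exists_compact_subset (isOpen_cone k) hw₀
    exact ⟨Q, mem_interior_iff_mem_nhds.1 b, c, a⟩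
  obtain ⟨Q', hQ', hQ'c, hsupp⟩ := (h1 n k hs).2 Q hQ hQc
  set f : (Fin (n + 1) → ℂ) → ℂ := Q'.indicator S with hf
  set g : (Fin (n + 1) → ℂ) → (Fin (n + 1) → ℂ) → ℂ := fun w x => ker k w (-x) with hg
  have hfi : LocallyIntegrable f volume :=
    ((integrable_indicator_iff hQ'.measurableSet).2
      ((hS.mono hQ'c).integrableOn_compact hQ')).locallyIntegrable
  have hker0 : ∀ w ∈ interior Q, ∀ z, z ∉ Q' → ker k w z = 0 := by
    intro w hw z hz
    exact ker_eq_zero fun h => hz (hsupp w (interior_subset hw) z h.1 h.2.1 h.2.2)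
  have hgs : ∀ w, ∀ x, w ∈ interior Q → x ∉ (-Q' : Set (Fin (n + 1) → ℂ)) → g w x = 0 := by
    intro w x hw hx
    exact hker0 w hw (-x) (by simpa using hx)
  have hgc : ContDiffOn ℝ m (↿g) (interior Q ×ˢ Set.univ) := by
    rintro ⟨w, x⟩ ⟨hw, -⟩
    have h2 := contDiffAt_ker (m : ℕ∞) (k := k) (w := w) (z := -x) (hQc (interior_subset hw))
    have h3 : ContDiffAt ℝ m (fun p : (Fin (n + 1) → ℂ) × (Fin (n + 1) → ℂ) => (p.1, -p.2))
        (w, x) := (contDiff_fst.prodMk contDiff_snd.neg).contDiffAt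
    exact (ContDiffAt.comp (w, x) (f := fun p : (Fin (n + 1) → ℂ) × (Fin (n + 1) → ℂ) =>
      (p.1, -p.2)) h2 h3).contDiffWithinAt
  have hconv := contDiffOn_convolution_right_with_param (μ := volume) (n := (m : ℕ∞))
    (ContinuousLinearMap.mul ℝ ℂ) (isOpen_interior (s := Q)) hQ'.neg hgs hfi hgc
  have hco : ContDiffAt ℝ m (fun w : Fin (n + 1) → ℂ =>
      (convolution f (g w) (ContinuousLinearMap.mul ℝ ℂ) volume) 0) w₀ := by
    have h4 : ContDiffAt ℝ m (fun q : (Fin (n + 1) → ℂ) × (Fin (n + 1) → ℂ) =>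
        (convolution f (g q.1) (ContinuousLinearMap.mul ℝ ℂ) volume) q.2) (w₀, 0) :=
      hconv.contDiffAt ((isOpen_interior.prod isOpen_univ).mem_nhds
        ⟨mem_interior_iff_mem_nhds.2 hQn, Set.mem_univ _⟩)
    exact ContDiffAt.comp w₀ (f := fun w : Fin (n + 1) → ℂ => (w, (0 : Fin (n + 1) → ℂ))) h4
      (contDiffAt_id.prodMk contDiffAt_const)
  refine (hco.congr_of_eventuallyEq ?_).contDiffWithinAt
  filter_upwards [isOpen_interior.mem_nhds (mem_interior_iff_mem_nhds.2 hQn)] with w hw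
  rw [convolution_def, Av]
  refine integral_congr_ae (Filter.Eventually.of_forall fun z => ?_)
  simp only [ContinuousLinearMap.mul_apply', hf, hg, zero_sub, neg_neg]
  by_cases hz : z ∈ Q'
  · rw [Set.indicator_of_mem hz, mul_comm]
  · rw [Set.indicator_of_notMem hz, hker0 w hw z hz]; ring

end

end Pool.CMP
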