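import Pool.Agent.Lib.CMP.K1
import Pool.Agent.Lib.CMP.Cov
import Pool.Agent.Lib.CMP.K34
import Pool.Agent.Lib.CMP.KSm
import Pool.Agent.Lib.CMP.K6
import Pool.Agent.Lib.CMP.KBas
import Pool.Agent.Lib.CMP.K8
import Pool.Agent.Lib.CMP.KOD

/-!
# Tank CMP, block K (helper53): KOD from K9 and K10
-/

set_option autoImplicit false

namespace Pool.CMP

/-- The rows K1 .. K8 plugged in. -/
theorem kod_of_9_10 (h9 : K9) (h10 : K10) : KOD :=
  kod_of (k4_of k1) (k5_of k1) k7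
    (k8_of k1 k2 (k3_of k1) (k4_of k1) (k5_of k1) k6 k7) h9 h10

end Pool.CMP
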