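import Pool.Agent.Lib.CMP.K9
import Pool.Agent.Lib.CMP.K10P
import Pool.Agent.Lib.CMP.K10I
import Pool.Agent.Lib.CMP.KAll

/-!
# Tank CMP, block K finished (helper53): K10 from K10P and K10I, and KOD
-/

set_option autoImplicit false

open scoped ComplexConjugate Matrix
open Complex

namespace Pool.CMP

/-- Row K10. -/
theorem k10 : K10 := by
  intro n k Γ L S hn hk hD hS hH hP hB w hw j
  obtain ⟨Y, D, hY, hρ, hdiv, h0, heq⟩ := K10P.k10p hn hk hS hH hB
  refine h0 w hw ?_ j
  have h1 := K10I.main hD hY hρ
    (fun w hw => by rw [(hdiv w hw).1, Complex.ofReal_re]; exact (hdiv w hw).2)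
    (fun g hg w hw i => heq g.1 (hD.isU g hg)
      (fun m => ∑ j, (k j : ℂ) * L g j * g.1 j m) (fun w hw => by
        rw [hP g hg w hw]
        congr 1
        have h2 : ∀ j, (k j : ℂ) * L g j * (g.1 *ᵥ w) j =
            ∑ m, (k j : ℂ) * L g j * g.1 j m * w m := by
          intro j
          rw [Matrix.mulVec, dotProduct, Finset.mul_sum]
          exact Finset.sum_congr rfl fun m _ => by ring
        rw [Finset.sum_congr rfl fun j _ => h2 j, Finset.sum_comm]
        exact Finset.sum_congr rfl fun m _ => by rw [Finset.sum_mul]) w hw i) w hw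
  rw [(hdiv w hw).1, Complex.ofReal_re] at h1
  exact h1

/-- **KOD**: the theorem of block K. -/
theorem kod : KOD := kod_of_9_10 k9 k10

end Pool.CMP
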