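import Pool.Agent.Lib.CMP.EDefs
import Pool.Agent.Lib.CMP.V7
import Pool.Agent.Lib.CMP.V3
import Pool.Agent.Lib.CMN.FxCalc

/-!
# Tank CMP, row TH (helper37): the theta part, from the rows V4, V5, V6
-/

set_option autoImplicit false

open scoped ComplexConjugate Matrix
open Complex

namespace Pool.Agent.CMP.THa

open Pool.Agent.CMN Pool.CMN Pool.Agent.CMP

noncomputable section

variable {n : ℕ} {F : Type} [Field F] [NumberField F]

theorem emb_eq (g : SLn n) : Pool.CMP.emb g = emb1 g := by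
  apply Subtype.ext
  ext i j
  refine Fin.cases ?_ (fun i' => ?_) i
  · refine Fin.cases ?_ (fun j' => ?_) j
    · rfl
    · rfl
  · refine Fin.cases ?_ (fun j' => ?_) j
    · rfl
    · rfl

theorem cons_mem_ball {k0 : ℝ} {k : Fin (n + 1) → ℝ} {y : Fin n → ℂ} (hy : y ∈ ball k) :
    (Fin.cons 0 y : Fin (n + 1) → ℂ) ∈ ball (Fin.cons k0 k : Fin (n + 2) → ℝ) := by
  rw [mem_ball_iff_hat] at hy ⊢
  rw [hat_cons, Fin.sum_univ_succ]
  simpa using hy

omit [NumberField F] in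
theorem ev_cons (v : F →+* ℝ) (x : F) (h : Fin (n + 1) → F) :
    ev v (Fin.cons x h : Fin (n + 2) → F) = (Fin.cons (v x) (ev v h) : Fin (n + 2) → ℝ) := by
  funext j
  refine Fin.cases ?_ (fun i' => ?_) j
  · simp [ev]
  · simp [ev]

theorem isU_of_emb1 {k0 : ℝ} {k : Fin (n + 1) → ℝ} {g : SLn n}
    (hg : Jac.IsU (Fin.cons k0 k : Fin (n + 2) → ℝ) (emb1 g).1) : Jac.IsU k g.1 := by
  unfold Jac.IsU at hg ⊢
  ext i j
  have h1 := congrFun (congrFun hg i.succ) j.succ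
  rw [Matrix.mul_apply, Fin.sum_univ_succ, emb1_zero_succ, mul_zero, zero_add] at h1
  rw [Matrix.mul_apply]
  simp only [Matrix.mul_diagonal, Matrix.conjTranspose_apply, emb1_succ_succ, Fin.cons_succ,
    Matrix.diagonal_apply, Fin.succ_inj] at h1 ⊢
  exact h1

/-- two holomorphic functions with the same derivative differ by a constant -/
theorem sub_const {k : Fin (n + 1) → ℝ} (hk : Sg k) {f g : (Fin n → ℂ) → ℂ}
    (hf : DifferentiableOn ℂ f (ball k)) (hg : DifferentiableOn ℂ g (ball k))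
    (hfg : ∀ y ∈ ball k, ∀ j, fderiv ℂ f y (Pi.single j 1) = fderiv ℂ g y (Pi.single j 1))
    {y z : Fin n → ℂ} (hy : y ∈ ball k) (hz : z ∈ ball k) : f y - g y = f z - g z := by
  have ho : IsOpen (ball k) := isOpen_ball k
  have hc : IsPreconnected (ball k) := (V3aux.convexBall hk.pos).isPreconnected
  have hd : DifferentiableOn ℂ (f - g) (ball k) := hf.sub hg
  refine ho.is_const_of_fderiv_eq_zero hc hd (fun x hx => ?_) hy hz
  have h1 : DifferentiableAt ℂ f x := (hf x hx).differentiableAt (ho.mem_nhds hx)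
  have h2 : DifferentiableAt ℂ g x := (hg x hx).differentiableAt (ho.mem_nhds hx)
  rw [fderiv_sub h1 h2]
  refine ContinuousLinearMap.ext fun u => ?_
  change _ = (0 : ℂ)
  rw [V3aux.apply_eq_sum]
  refine Finset.sum_eq_zero fun j _ => ?_
  rw [ContinuousLinearMap.sub_apply, hfg x hx j, sub_self, mul_zero]

/-- the pair of an element of an arithmetic group -/
theorem exists_pair {v₁ : F →+* ℝ} {D : F} {h : Fin (n + 1) → F} (hG : Good v₁ D h)
    {g : SLn n} (hg : InSU v₁ D h g) : ∃ p ∈ Gam D h 1, cmat v₁ D p = g.1 := by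
  rw [FX.inSU_iff] at hg
  exact Grp.exists_mem_Gam (hG.D0 v₁) one_pos hg.1 hg.2

omit [NumberField F] in
theorem cjs_one (v : F →+* ℝ) (a : F) : cjs v a 1 = 1 := by
  unfold cjs
  split_ifs <;> simp

omit [NumberField F] in
theorem cjs_zero (v : F →+* ℝ) (a : F) : cjs v a 0 = 0 := by
  unfold cjs
  split_ifs <;> simp

omit [NumberField F] in
theorem cjs_sum (v : F →+* ℝ) (a : F) {ι : Type} (s : Finset ι) (f : ι → ℂ) :
    cjs v a (∑ i ∈ s, f i) = ∑ i ∈ s, cjs v a (f i) := by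
  unfold cjs
  split_ifs <;> simp

omit [NumberField F] in
theorem cjs_mul (v : F →+* ℝ) (a : F) (x y : ℂ) : cjs v a (x * y) = cjs v a x * cjs v a y := by
  unfold cjs
  split_ifs <;> simp

/-- the entries at the place `v` of the pair of `emb1 γ` -/
theorem pair_emb1 {v₁ : F →+* ℝ} {D : F} (hD : 0 < v₁ D) {p : Mat (n + 1) F} {γ : SLn n}
    (hp : cmat v₁ D p = (emb1 γ).1) (v : F →+* ℝ) (j : Fin (n + 2)) :
    cmat v D p 0 j = if j = 0 then 1 else 0 := by
  have h1 : cmat v₁ D p 0 j = if j = 0 then 1 else 0 := by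
    rw [hp]
    refine Fin.cases ?_ (fun i' => ?_) j
    · rw [if_pos rfl, emb1_zero_zero]
    · rw [if_neg (Fin.succ_ne_zero i'), emb1_zero_succ]
  rw [Grp.cmat_apply] at h1 ⊢
  by_cases hj : j = 0
  · rw [if_pos hj, ← Grp.emb_one v₁ D] at h1
    obtain ⟨h2, h3⟩ := Grp.emb_inj hD h1
    rw [if_pos hj, h2, h3, Grp.emb_one]
  · rw [if_neg hj, ← Grp.emb_zero v₁ D] at h1
    obtain ⟨h2, h3⟩ := Grp.emb_inj hD h1
    rw [if_neg hj, h2, h3, Grp.emb_zero]

/-- the derivative of the restriction of a function on the larger ball -/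
theorem fderiv_cons {f : (Fin (n + 1) → ℂ) → ℂ} {y : Fin n → ℂ}
    (hf : DifferentiableAt ℂ f (Fin.cons 0 y : Fin (n + 1) → ℂ)) :
    DifferentiableAt ℂ (fun z : Fin n → ℂ => f (Fin.cons 0 z : Fin (n + 1) → ℂ)) y ∧
      ∀ j, fderiv ℂ (fun z : Fin n → ℂ => f (Fin.cons 0 z : Fin (n + 1) → ℂ)) y (Pi.single j 1) =
        fderiv ℂ f (Fin.cons 0 y : Fin (n + 1) → ℂ) (Pi.single j.succ 1) := by
  let A : (Fin n → ℂ) →L[ℂ] (Fin (n + 1) → ℂ) :=
    ContinuousLinearMap.pi fun j => Fin.cases 0 (fun i => ContinuousLinearMap.proj i) j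
  have hA : ∀ z : Fin n → ℂ, A z = (Fin.cons 0 z : Fin (n + 1) → ℂ) := by
    intro z
    funext j
    refine Fin.cases ?_ (fun i => ?_) j
    · simp [A]
    · simp [A]
  have h1 : HasFDerivAt (fun z : Fin n → ℂ => f (Fin.cons 0 z : Fin (n + 1) → ℂ))
      ((fderiv ℂ f (Fin.cons 0 y : Fin (n + 1) → ℂ)).comp A) y := by
    have h2 : HasFDerivAt f (fderiv ℂ f (Fin.cons 0 y : Fin (n + 1) → ℂ)) (A y) := by
      rw [hA]; exact hf.hasFDerivAt
    have h3 := h2.comp y A.hasFDerivAt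
    refine h3.congr_of_eventuallyEq (Filter.Eventually.of_forall fun z => ?_)
    simp only [Function.comp_apply, hA]
  refine ⟨h1.differentiableAt, fun j => ?_⟩
  rw [h1.fderiv, ContinuousLinearMap.comp_apply, hA]
  congr 1
  funext i
  refine Fin.cases ?_ (fun i' => ?_) i
  · simp
  · simp [Pi.single_apply, Fin.succ_inj]

/-- **Row TH.** -/
theorem th_of (v4 : V4) (v5 : V5) (v6 : V6) : Pool.CMP.TH := by
  intro F _ _ _ n v₁ D h a φ v hG ha hφ
  have ha0 : a ≠ 0 := by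
    rintro rfl
    rw [map_zero] at ha
    exact lt_irrefl _ ha
  have h10 : ∀ u : F →+* ℝ, 0 < u 1 := fun u => by rw [map_one]; exact one_pos
  obtain ⟨φx, hφx, hkap⟩ := v6 F v D 1 a hG.D0 h10 ha0
  obtain ⟨hSB, hGV, hres⟩ := v5 F n v₁ v D 1 h a φx φ hG h10 ha hφx hφ
  obtain ⟨Γ, hΓ, R, hR1, hR2, hR3⟩ := v4 F (n + 1) v₁ v D (Fin.cons 1 h) a (prodSB φx φ) hGV ha hSB
  have hkW := hG.sg
  have hkV := hGV.sg
  have hUV : ∀ g ∈ Γ, Jac.IsU (ev v₁ (Fin.cons 1 h : Fin (n + 2) → F)) g.1 :=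
    fun g hg => JB.isU_of_mem hΓ hg
  have hpair : ∀ g ∈ Γ, ∃ p ∈ Gam D (Fin.cons 1 h : Fin (n + 2) → F) 1, cmat v₁ D p = g.1 :=
    fun g hg => exists_pair hGV (hΓ.le g hg)
  have huniq : ∀ (g : SLn (n + 1)) (p p' : Mat (n + 1) F), cmat v₁ D p = g.1 →
      cmat v₁ D p' = g.1 → p = p' := fun g p p' h1 h2 => Grp.cmat_inj (hG.D0 v₁) (h1.trans h2.symm)
  choose! P hP1 hP2 using hpair
  have hL : ∀ g ∈ Γ, ∃ L : Fin (n + 2) → ℂ, ∀ y ∈ ball (ev v₁ (Fin.cons 1 h : Fin (n + 2) → F)),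
      ∀ m, R m (actC g y) = ∑ m', cjs v a (cmat v D (P g) m m') * R m' y + L m :=
    fun g hg => hR3 g hg (P g) (hP1 g hg) (hP2 g hg)
  choose! L hL using hL
  have h0V : (0 : Fin (n + 1) → ℂ) ∈ ball (ev v₁ (Fin.cons 1 h : Fin (n + 2) → F)) :=
    zero_mem_ball hkV
  refine ⟨kap v D 1 a φx, Γ, L, hkap, hΓ, ?_, ?_⟩
  · intro g hg g' hg' p hp j
    obtain rfl : p = P g := huniq g p (P g) hp (hP2 g hg)
    have hpm : P (g * g') = mulM D (P g) (P g') := by
      refine huniq (g * g') _ _ (hP2 _ (mul_mem hg hg')) ?_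
      rw [Grp.cmat_mulM (hG.D0 v₁), hP2 g hg, hP2 g' hg', Matrix.SpecialLinearGroup.coe_mul]
    have hg'0 : actC g' 0 ∈ ball (ev v₁ (Fin.cons 1 h : Fin (n + 2) → F)) :=
      JB.actC_mem (JB.sg_of hGV) (hUV g' hg') h0V
    have e1 := hL (g * g') (mul_mem hg hg') 0 h0V j
    rw [JB.actC_mul (JB.sg_of hGV) (hUV g' hg') h0V, hL g hg _ hg'0 j, hpm,
      Grp.cmat_mulM (hG.D0 v)] at e1
    simp only [hL g' hg' 0 h0V, Matrix.mul_apply, cjs_sum, cjs_mul, mul_add,
      Finset.sum_add_distrib, Finset.mul_sum, Finset.sum_mul] at e1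
    rw [Finset.sum_comm] at e1
    have e2 : ∑ y : Fin (n + 2), ∑ x : Fin (n + 2), cjs v a (cmat v D (P g) j x) *
        (cjs v a (cmat v D (P g') x y) * R y 0) = ∑ x : Fin (n + 2), ∑ i : Fin (n + 2),
        cjs v a (cmat v D (P g) j i) * cjs v a (cmat v D (P g') i x) * R x 0 := by
      refine Finset.sum_congr rfl fun x _ => Finset.sum_congr rfl fun i _ => by ring
    rw [e2] at e1
    have e3 : L (g * g') j = ∑ x, cjs v a (cmat v D (P g) j x) * L g' x + L g j := by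
      linear_combination -e1
    rw [e3]
    rfl
  · intro γ hγ f hf hdf y hy
    rw [emb_eq] at hγ ⊢
    have hev : ev v₁ (Fin.cons 1 h : Fin (n + 2) → F) =
        (Fin.cons (v₁ 1) (ev v₁ h) : Fin (n + 2) → ℝ) := ev_cons v₁ 1 h
    have hγU : Jac.IsU (ev v₁ h) γ.1 := by
      refine isU_of_emb1 (k0 := v₁ 1) ?_
      rw [← hev]
      exact hUV _ hγ
    have hmem : ∀ z ∈ ball (ev v₁ h), (Fin.cons 0 z : Fin (n + 1) → ℂ) ∈
        ball (ev v₁ (Fin.cons 1 h : Fin (n + 2) → F)) := by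
      intro z hz
      rw [hev]
      exact cons_mem_ball hz
    have hγy : actC γ y ∈ ball (ev v₁ h) := JB.actC_mem (JB.sg_of hG) hγU hy
    have hd : ∀ z ∈ ball (ev v₁ h), DifferentiableAt ℂ (R 0) (Fin.cons 0 z : Fin (n + 1) → ℂ) :=
      fun z hz => (hR1 0 _ (hmem z hz)).differentiableAt ((isOpen_ball _).mem_nhds (hmem z hz))
    have hc := sub_const (k := ev v₁ h) hkW
      (f := fun z => R 0 (Fin.cons 0 z : Fin (n + 1) → ℂ)) (g := fun z => kap v D 1 a φx * f z)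
      (fun z hz => (fderiv_cons (hd z hz)).1.differentiableWithinAt) (hf.const_mul _) (by
        intro z hz j
        rw [(fderiv_cons (hd z hz)).2 j, hR2 0 _ (hmem z hz), hres z hz j,
          fderiv_const_mul ((hf z hz).differentiableAt ((isOpen_ball _).mem_nhds hz))]
        simp only [ContinuousLinearMap.smul_apply, smul_eq_mul, hdf z hz j]) hγy hy
    have e1 := hL (emb1 γ) hγ _ (hmem y hy) 0
    rw [actC_emb1] at e1
    have e2 : ∑ m', cjs v a (cmat v D (P (emb1 γ)) 0 m') * R m' (Fin.cons 0 y : Fin (n + 1) → ℂ) =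
        R 0 (Fin.cons 0 y : Fin (n + 1) → ℂ) := by
      rw [Finset.sum_eq_single 0]
      · rw [pair_emb1 (hG.D0 v₁) (hP2 _ hγ), if_pos rfl, cjs_one, one_mul]
      · intro m _ hm
        rw [pair_emb1 (hG.D0 v₁) (hP2 _ hγ), if_neg hm, cjs_zero, zero_mul]
      · intro h0
        exact absurd (Finset.mem_univ _) h0
    rw [e2] at e1
    simp only [e1] at hc
    linear_combination -hc

end

end Pool.Agent.CMP.THa
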