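import Pool.Agent.Lib.CMP.V1c

/-!
# Tank CMP, row V1: invariance of the vector valued theta one-forms (helper6)
-/

set_option autoImplicit false
set_option linter.unusedSectionVars false

namespace Pool.Agent.CMP

namespace V1x

open Matrix Complex Real
open Pool.Agent.CMN Pool.Agent.CMN.TH8
open Pool.CMH (tU tD tA tC vv Bl KF om Wm Wi red tm theta1 theta2 au mv uu qq ee bA bB bC bD Sieg
  qf lf qb Bl_au Bl_mv Bl_uu Bl_qq tD_det tU_mem Wi_mul Wm_mul vv_lf)
open scoped Kronecker ComplexConjugate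

noncomputable section

/-! ### linearity of `theta2` -/

section lin

variable {ι : Type} [Fintype ι] [DecidableEq ι] {N : ℕ} [NeZero N]

theorem summable2 (φ : (ι → ZMod N) → ℂ) {Z : Matrix ι ι ℂ} (hZ : Z ∈ Sieg ι) (η ζ : ι → ℂ) :
    Summable fun x : ι → ℤ => φ (red N x) * (lf η x * lf ζ x * tm N Z 0 x) := by
  have h := Lawd.summable_prod φ hZ (J := Fin 2) Finset.univ ![η, ζ] 0
  refine h.congr fun x => ?_
  rw [Fin.prod_univ_two]
  simp only [Matrix.cons_val_zero, Matrix.cons_val_one]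
  ring

theorem lf_sum {L : Type} [Fintype L] (c : L → ℂ) (η : L → ι → ℂ) (x : ι → ℤ) :
    lf (∑ l, c l • η l) x = ∑ l, c l * lf (η l) x := by
  unfold lf
  simp only [Finset.sum_apply, Pi.smul_apply, smul_eq_mul, Finset.mul_sum]
  rw [Finset.sum_comm]
  exact Finset.sum_congr rfl fun l _ => Finset.sum_congr rfl fun k _ => by ring

theorem lf_smul (c : ℂ) (η : ι → ℂ) (x : ι → ℤ) : lf (c • η) x = c * lf η x := by
  unfold lf
  simp only [Pi.smul_apply, smul_eq_mul, Finset.mul_sum]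
  exact Finset.sum_congr rfl fun k _ => by ring

theorem theta2_comm (φ : (ι → ZMod N) → ℂ) (Z : Matrix ι ι ℂ) (η ζ : ι → ℂ) :
    theta2 N φ Z η ζ = theta2 N φ Z ζ η := by
  unfold theta2
  exact tsum_congr fun x => by ring

theorem theta2_sum (φ : (ι → ZMod N) → ℂ) {Z : Matrix ι ι ℂ} (hZ : Z ∈ Sieg ι) {L : Type}
    [Fintype L] (c : L → ℂ) (η : L → ι → ℂ) (ζ : ι → ℂ) :
    theta2 N φ Z (∑ l, c l • η l) ζ = ∑ l, c l * theta2 N φ Z (η l) ζ := by
  unfold theta2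
  simp only [← tsum_mul_left]
  rw [← Summable.tsum_finsetSum fun l _ => (summable2 φ hZ (η l) ζ).mul_left _]
  refine tsum_congr fun x => ?_
  rw [lf_sum, Finset.sum_mul, Finset.sum_mul, Finset.mul_sum]
  exact Finset.sum_congr rfl fun l _ => by ring

theorem theta2_smul (φ : (ι → ZMod N) → ℂ) (Z : Matrix ι ι ℂ) (c : ℂ) (η ζ : ι → ℂ) :
    theta2 N φ Z (c • η) ζ = c * theta2 N φ Z η ζ := by
  unfold theta2
  rw [← tsum_mul_left]
  refine tsum_congr fun x => ?_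
  rw [lf_smul]
  ring

theorem theta2_sum' (φ : (ι → ZMod N) → ℂ) {Z : Matrix ι ι ℂ} (hZ : Z ∈ Sieg ι) {L : Type}
    [Fintype L] (c : L → ℂ) (η : L → ι → ℂ) (ζ : ι → ℂ) :
    theta2 N φ Z ζ (∑ l, c l • η l) = ∑ l, c l * theta2 N φ Z ζ (η l) := by
  rw [theta2_comm, theta2_sum φ hZ]
  exact Finset.sum_congr rfl fun l _ => by rw [theta2_comm]

end lin

variable {n : ℕ} {F : Type} [Field F] [NumberField F]
variable {v₁ : F →+* ℝ} {D : F} {h : Fin (n + 1) → F}

/-- the linear factor in integral coordinates -/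
def zf (v₁ v : F →+* ℝ) (h : Fin (n + 1) → F) (N : ℕ) (m : Fin (n + 1)) (y : Fin n → ℂ) :
    (Unit × Fin (n + 1)) × KF F → ℂ :=
  vv (Wm F) v (CMN.row () ((N : ℂ)⁻¹ • fv v₁ v h m y))

/-- the point of the Siegel space -/
abbrev Zy (v₁ : F →+* ℝ) (D : F) (h : Fin (n + 1) → F) (a : F) (y : Fin n → ℂ) :
    Matrix ((Unit × Fin (n + 1)) × KF F) ((Unit × Fin (n + 1)) × KF F) ℂ :=
  ZZ v₁ D h (fun _ : Unit => a) (fun v => diagonal fun _ => |v a|) y

/-- the scalar theta function in integral coordinates -/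
theorem theta0_eq {a : F} (ha : 0 < v₁ a) {N : ℕ} {φ : (Fin (n + 1) → F) → ℂ}
    {φ' : ((Unit × Fin (n + 1)) × KF F → ZMod (2 * N ^ 2)) → ℂ}
    (hφ : SBJ N (fun ξ : Unit → Fin (n + 1) → F => φ (ξ ())))
    (hφ' : Lev N (fun ξ : Unit → Fin (n + 1) → F => φ (ξ ())) φ') (y : Fin n → ℂ) :
    theta0 v₁ D h a φ y = Pool.CMH.theta (2 * N ^ 2) φ' (Zy v₁ D h a y) 0 := by
  classical
  have hN0 : (N : ℂ) ≠ 0 := by exact_mod_cast hφ.1.ne'
  have e1 : theta0 v₁ D h a φ y =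
      ∑' ξ : Unit → Fin (n + 1) → F, φ (ξ ()) *
        gaussJ v₁ D h (fun _ : Unit => a) (R0 fun _ : Unit => a) ξ y := by
    unfold theta0
    rw [← (Equiv.funUnique Unit (Fin (n + 1) → F)).tsum_eq]
    refine tsum_congr fun ξ => ?_
    rw [Sum.gaussJ_R0 (fun _ => ha)]
    simp
  have e2 : (R0 fun _ : Unit => a) = fun v => diagonal fun _ : Unit => |v a| := rfl
  rw [e1, tsum_lat N hφ (fun ξ => gaussJ v₁ D h (fun _ : Unit => a) (R0 fun _ : Unit => a) ξ y)]
  unfold Pool.CMH.theta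
  refine tsum_congr fun x => ?_
  rw [hφ' x]
  rw [gaussJ_lat (fun _ => ha) rfl N hN0, e2]

/-- the main term in integral coordinates -/
theorem main_eq {a : F} (ha : 0 < v₁ a) {N : ℕ} {φ : (Fin (n + 1) → F) → ℂ}
    {φ' : ((Unit × Fin (n + 1)) × KF F → ZMod (2 * N ^ 2)) → ℂ}
    (hφ : SBJ N (fun ξ : Unit → Fin (n + 1) → F => φ (ξ ())))
    (hφ' : Lev N (fun ξ : Unit → Fin (n + 1) → F => φ (ξ ())) φ') (v : F →+* ℝ)
    (m : Fin (n + 1)) (j : Fin n) (y : Fin n → ℂ) :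
    (∑' ξ : Fin (n + 1) → F, φ ξ * gauss v₁ D h a ξ y * vfac v₁ v h m ξ y *
      ds (ev v₁ h) (ev v₁ ξ) j y) =
      theta2 (2 * N ^ 2) φ' (Zy v₁ D h a y) (CMN.eta v₁ h N () j y) (zf v₁ v h N m y) := by
  classical
  have hN0 : (N : ℂ) ≠ 0 := by exact_mod_cast hφ.1.ne'
  have e1 : (∑' ξ : Fin (n + 1) → F, φ ξ * gauss v₁ D h a ξ y * vfac v₁ v h m ξ y *
      ds (ev v₁ h) (ev v₁ ξ) j y) =
      ∑' ξ : Unit → Fin (n + 1) → F, φ (ξ ()) *
        (gaussJ v₁ D h (fun _ : Unit => a) (R0 fun _ : Unit => a) ξ y *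
          vfac v₁ v h m (ξ ()) y * ds (ev v₁ h) (ev v₁ (ξ ())) j y) := by
    rw [← (Equiv.funUnique Unit (Fin (n + 1) → F)).tsum_eq]
    refine tsum_congr fun ξ => ?_
    rw [Sum.gaussJ_R0 (fun _ => ha)]
    simp [mul_assoc]
  have e2 : (R0 fun _ : Unit => a) = fun v => diagonal fun _ : Unit => |v a| := rfl
  rw [e1, tsum_lat N hφ (fun ξ => gaussJ v₁ D h (fun _ : Unit => a) (R0 fun _ : Unit => a) ξ y *
          vfac v₁ v h m (ξ ()) y * ds (ev v₁ h) (ev v₁ (ξ ())) j y)]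
  unfold theta2 zf
  refine tsum_congr fun x => ?_
  rw [hφ' x, lf_row N hN0, lf_vv N hN0, ← vfac_eq]
  rw [gaussJ_lat (fun _ => ha) rfl N hN0, e2]
  ring

end

end V1x

open Matrix Complex Real
open Pool.Agent.CMN Pool.Agent.CMN.TH8
open Pool.CMH (tU tD tA tC vv Bl KF om Wm Wi red tm theta1 theta2 au mv uu qq ee bA bB bC bD Sieg
  qf lf qb Bl_au Bl_mv Bl_uu Bl_qq tD_det tU_mem Wi_mul Wm_mul vv_lf)
open scoped Kronecker ComplexConjugate
open V1x

/-- **V1** -/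
theorem v1 : V1 := by
  intro F _ _ _ n v₁ D h a N hgd ha hN
  have ha0 : a ≠ 0 := by
    intro h0
    rw [h0, map_zero] at ha
    exact lt_irrefl _ ha
  have hva : ∀ v : F →+* ℝ, v a ≠ 0 := fun v => (map_ne_zero v).2 ha0
  have hR : ∀ v : F →+* ℝ, (diagonal fun _ : Unit => |v a|).PosDef ∧
      (diagonal fun _ : Unit => |v a|) * (diagonal fun _ : Unit => (v a)⁻¹) *
        (diagonal fun _ : Unit => |v a|) = diagonal fun _ : Unit => v a := fun v => by
    refine ⟨Matrix.PosDef.diagonal fun _ => abs_pos.2 (hva v), ?_⟩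
    rw [diagonal_mul_diagonal, diagonal_mul_diagonal]
    congr 1
    funext _
    have := abs_mul_abs_self (v a)
    field_simp [hva v]
    rw [sq_abs]
  obtain ⟨c, hc, H⟩ := core (J := Unit) (T := Unit) hgd (a := fun _ => a) (fun _ => ha0)
    (fun _ => ha) (fun _ v => diagonal fun _ => |v a|) (fun v i j => continuous_const)
    (fun _ v => hR v) N hN
  refine ⟨c, hc, ?_⟩
  intro G _ e he h1 hm
  obtain ⟨Γ, hΓ, H⟩ := H e he h1 hm
  refine ⟨Γ, hΓ, fun γ hγ φ hφ y hy v m j => ?_⟩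
  obtain ⟨M, hM, hdet, H⟩ := H γ hγ
  have hn : NeZero (2 * N ^ 2) := ⟨by positivity⟩
  have hN0 : (N : ℂ) ≠ 0 := by exact_mod_cast hN.ne'
  have hg := he γ
  have hy' : act v₁ D (e γ) y ∈ ball (ev v₁ h) := TH8g_mem hgd hg hy
  have hcE := cE_ne hgd hg hy
  obtain ⟨φ', hφ'⟩ := exists_lev N hφ
  have hmem : ∀ y ∈ ball (ev v₁ h), Zy v₁ D h a y ∈ Sieg ((Unit × Fin (n + 1)) × KF F) := by
    classical
    intro y hy
    exact tU_mem (Wi_mul F) fun v => Zp_mem hgd (fun _ => ha) (fun v _ => (hR v).1) hy v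
  have hu := unit_v hgd (fun _ : Unit => ha0) (fun _ => ha) hR hg hdet hy
  -- the scalar theta function
  have ht0 : theta0 v₁ D h a φ (act v₁ D (e γ) y) =
      cE v₁ D h (e γ) y * theta0 v₁ D h a φ y := by
    rw [theta0_eq ha hφ hφ', theta0_eq ha hφ hφ']
    have h0 := H () y hy φ' 0
    have huu : uu M (Zy v₁ D h a y) 0 = 0 := by unfold uu; simp
    have h00 : ZZ v₁ D h (fun _ : Unit => a) ((fun _ v => diagonal fun _ => |v a|) ()) y =
      Zy v₁ D h a y := rfl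
    rw [h00, huu, Pool.CMH.ee_zero, Fintype.card_unit, pow_one, mul_one] at h0
    exact h0
  -- the law
  set A := atv (sC D h (fun _ : Unit => a) (e γ)) v *
    Zp v₁ D h (fun _ : Unit => a) (fun v => diagonal fun _ => |v a|) y v +
      atv (sD Unit (e γ)) v with hA
  set ζ : (Unit × Fin (n + 1)) × KF F → ℂ :=
    vv (Wm F) v (Aᵀ *ᵥ CMN.row () ((N : ℂ)⁻¹ • fv v₁ v h m (act v₁ D (e γ) y))) with hζ
  have hlaw := Pool.CMH.theta2_lawG (hmem y hy) (hmem _ hy') φ' (H () y hy φ')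
    (CMN.eta v₁ h N () j y) ζ
  have huz : uu M (Zy v₁ D h a y) ζ = zf v₁ v h N m (act v₁ D (e γ) y) := by
    classical
    rw [hζ]
    unfold Zy ZZ zf
    rw [Bl_uu (Wi_mul F) (Wm_mul F) hM hu, mulVec_mulVec, ← transpose_mul,
      Matrix.mul_nonsing_inv _ (hu v), transpose_one, one_mulVec]
  have hz : ζ = ∑ m', cjs v a (cmat v D (e γ) m m') • zf v₁ v h N m' y := by
    rw [hζ, row_smul, mulVec_smul, hA, A_fv ha0 ha hgd hg hy v m, row_sum, vv_smul, vv_sum,
      Finset.smul_sum]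
    unfold zf
    refine Finset.sum_congr rfl fun m' _ => ?_
    rw [row_smul, vv_smul, smul_comm]
  have hlaw2 : cE v₁ D h (e γ) y * ∑ l, dact v₁ D (e γ) y l j *
      theta2 (2 * N ^ 2) φ' (Zy v₁ D h a (act v₁ D (e γ) y)) (CMN.eta v₁ h N () l (act v₁ D (e γ) y))
        (zf v₁ v h N m (act v₁ D (e γ) y)) = cE v₁ D h (e γ) y *
      ((∑ m', cjs v a (cmat v D (e γ) m m') *
        theta2 (2 * N ^ 2) φ' (Zy v₁ D h a y) (CMN.eta v₁ h N () j y) (zf v₁ v h N m' y)) +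
        ((2 * N ^ 2 : ℕ) : ℂ) / (4 * π * I) * qb M (Zy v₁ D h a y) (CMN.eta v₁ h N () j y) ζ *
          theta0 v₁ D h a φ y) := by
    have e1 : theta2 (2 * N ^ 2) φ' (Zy v₁ D h a y) (CMN.eta v₁ h N () j y) ζ =
        ∑ m', cjs v a (cmat v D (e γ) m m') *
          theta2 (2 * N ^ 2) φ' (Zy v₁ D h a y) (CMN.eta v₁ h N () j y) (zf v₁ v h N m' y) := by
      rw [hz, theta2_sum' φ' (hmem _ hy)]
    rw [← e1, theta0_eq ha hφ hφ', ← theta2_sum φ' (hmem _ hy'), ← theta2_smul, ← huz,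
      ← uu_eta hgd (fun _ => ha0) (fun _ => ha) hR hg hdet hy hM]
    have e2 := hlaw
    rw [Fintype.card_unit, pow_one] at e2
    exact e2
  have hmain := mul_left_cancel₀ hcE hlaw2
  have hde : ∀ (l : Fin n) (m : Fin (n + 1)) (y : Fin n → ℂ),
      ((if m = l.castSucc then (1 : ℂ) else 0) / w (ev v₁ h) y +
        hat y m * ((v₁ (h l.castSucc) : ℂ) * y l) / w (ev v₁ h) y ^ 3) = de (ev v₁ h) l y m := by
    intro l m y
    unfold de
    simp only [Pi.add_apply, Pi.smul_apply, smul_eq_mul, Pi.single_apply]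
    unfold ev
    ring
  unfold vform
  simp only [main_eq ha hφ hφ', hde]
  by_cases hv : v = v₁
  · subst hv
    simp only [if_pos]
    have hq := qb_hyp ha0 hgd hg hy hu hM hN0 j m
    rw [← hA, ← hζ] at hq
    rw [hq] at hmain
    have hc : ∀ m', cjs v a (cmat v D (e γ) m m') = conj (cmat v D (e γ) m m') := by
      intro m'
      unfold cjs
      rw [if_pos ha]
    simp only [hc] at hmain ⊢
    simp only [sub_mul, mul_sub, Finset.sum_sub_distrib]
    rw [ht0]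
    have e3 : ∑ l, ((√(v D) / (4 * π * v a) : ℝ) : ℂ) * (cE v D h (e γ) y * theta0 v D h a φ y) *
        de (ev v h) l (act v D (e γ) y) m * dact v D (e γ) y l j =
        ((√(v D) / (4 * π * v a) : ℝ) : ℂ) * (cE v D h (e γ) y * theta0 v D h a φ y) *
          ∑ l, dact v D (e γ) y l j * de (ev v h) l (act v D (e γ) y) m := by
      rw [Finset.mul_sum]
      exact Finset.sum_congr rfl fun l _ => by ring
    have e4 : ∑ m', conj (cmat v D (e γ) m m') * (((√(v D) / (4 * π * v a) : ℝ) : ℂ) *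
        theta0 v D h a φ y * de (ev v h) j y m') =
        ((√(v D) / (4 * π * v a) : ℝ) : ℂ) * theta0 v D h a φ y *
          ∑ m', conj (cmat v D (e γ) m m') * de (ev v h) j y m' := by
      rw [Finset.mul_sum]
      exact Finset.sum_congr rfl fun l _ => by ring
    have e5 : ∑ l, theta2 (2 * N ^ 2) φ' (Zy v D h a (act v D (e γ) y))
        (CMN.eta v h N () l (act v D (e γ) y)) (zf v v h N m (act v D (e γ) y)) *
          dact v D (e γ) y l j = ∑ l, dact v D (e γ) y l j *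
        theta2 (2 * N ^ 2) φ' (Zy v D h a (act v D (e γ) y))
          (CMN.eta v h N () l (act v D (e γ) y)) (zf v v h N m (act v D (e γ) y)) :=
      Finset.sum_congr rfl fun l _ => mul_comm _ _
    rw [e3, e4, e5, hmain]
    ring
  · simp only [if_neg hv, sub_zero]
    have hq := qb_def hu hM N j hv
      (Aᵀ *ᵥ CMN.row () ((N : ℂ)⁻¹ • fv v₁ v h m (act v₁ D (e γ) y)))
    rw [← hζ] at hq
    change qb M (Zy v₁ D h a y) (CMN.eta v₁ h N () j y) ζ = 0 at hq
    rw [hq, mul_zero, zero_mul, add_zero] at hmain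
    rw [← hmain]
    exact Finset.sum_congr rfl fun l _ => mul_comm _ _

end Pool.Agent.CMP
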