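import Pool.Agent.Lib.CMN.Hol
import Pool.Agent.Lib.CMP.VDefs

/-!
# Tank CMP, row V2: the vector valued theta one-forms are holomorphic and closed (helper77)
-/

set_option autoImplicit false

open Complex Filter Topology

namespace Pool.Agent.CMP

open Pool.Agent.CMN

/-! ### closed holomorphic forms -/

section general

variable {n : ℕ} {k : Fin (n + 1) → ℝ}

theorem closedHol_congr {ω ω' : Fin n → (Fin n → ℂ) → ℂ} (hω : ClosedHol k ω)
    (h : ∀ y ∈ ball k, ∀ j, ω' j y = ω j y) : ClosedHol k ω' := by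
  have he : ∀ y ∈ ball k, ∀ j, ω' j =ᶠ[𝓝 y] ω j := fun y hy j =>
    Filter.eventually_of_mem ((isOpen_ball k).mem_nhds hy) fun z hz => h z hz j
  refine ⟨fun j => (hω.1 j).congr fun y hy => h y hy j, fun y hy i j => ?_⟩
  rw [(he y hy i).fderiv_eq, (he y hy j).fderiv_eq]
  exact hω.2 y hy i j

theorem closedHol_sub_mul {ω ω' : Fin n → (Fin n → ℂ) → ℂ} (hω : ClosedHol k ω)
    (hω' : ClosedHol k ω') (c : ℂ) : ClosedHol k (fun j y => ω j y - c * ω' j y) := by
  have hd : ∀ y ∈ ball k, ∀ j, HasFDerivAt (fun y => ω j y - c * ω' j y)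
      (fderiv ℂ (ω j) y - c • fderiv ℂ (ω' j) y) y := by
    intro y hy j
    have hn := (isOpen_ball k).mem_nhds hy
    exact ((hω.1 j).differentiableAt hn).hasFDerivAt.sub
      (((hω'.1 j).differentiableAt hn).hasFDerivAt.const_mul c)
  refine ⟨fun j y hy => (hd y hy j).differentiableAt.differentiableWithinAt, fun y hy i j => ?_⟩
  rw [(hd y hy i).fderiv, (hd y hy j).fderiv]
  simp only [sub_apply, smul_apply, hω.2 y hy i j, hω'.2 y hy i j]

/-- second derivatives of holomorphic functions are symmetric -/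
theorem symm_of_analytic {f : (Fin n → ℂ) → ℂ} {y : Fin n → ℂ} (hf : AnalyticAt ℂ f y)
    (i j : Fin n) : fderiv ℂ (fun z => fderiv ℂ f z (Pi.single i 1)) y (Pi.single j 1) =
      fderiv ℂ (fun z => fderiv ℂ f z (Pi.single j 1)) y (Pi.single i 1) := by
  have hd : DifferentiableAt ℂ (fderiv ℂ f) y := hf.fderiv.differentiableAt
  have key : ∀ v : Fin n → ℂ, fderiv ℂ (fun z => fderiv ℂ f z v) y =
      (ContinuousLinearMap.apply ℂ ℂ v).comp (fderiv ℂ (fderiv ℂ f) y) := by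
    intro v
    exact ((ContinuousLinearMap.apply ℂ ℂ v).hasFDerivAt.comp y hd.hasFDerivAt).fderiv
  rw [key, key]
  have hs : IsSymmSndFDerivAt ℂ f y := by
    have h1 : ContDiffAt ℂ 2 f y := hf.contDiffAt
    exact h1.isSymmSndFDerivAt (by simp)
  exact hs _ _

/-- the differential of a series of holomorphic functions -/
theorem closedHol_exact {ι : Type*} {f : ι → (Fin n → ℂ) → ℂ}
    (hf : ∀ i, ∀ y ∈ ball k, AnalyticAt ℂ (f i) y)
    (hd : ∀ C : Set (Fin n → ℂ), IsCompact C → C ⊆ ball k → ∃ u : ι → ℝ, Summable u ∧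
      ∀ i, ∀ y ∈ C, ‖f i y‖ ≤ u i) :
    (∀ y ∈ ball k, Summable (fun i => fderiv ℂ (f i) y)) ∧
      ClosedHol k (fun j y => ∑' i, fderiv ℂ (f i) y (Pi.single j 1)) := by
  have hfd : ∀ i, DifferentiableOn ℂ (f i) (ball k) := fun i y hy =>
    (hf i y hy).differentiableAt.differentiableWithinAt
  -- one derivative
  have h1 : ∀ y ∈ ball k, Summable (fun i => fderiv ℂ (f i) y) := by
    intro y hy
    obtain ⟨r, hr, hrU⟩ := Metric.isOpen_iff.1 (isOpen_ball k) y hy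
    have hsub : Metric.closedBall y (r / 2) ⊆ ball k :=
      (Metric.closedBall_subset_ball (by linarith)).trans hrU
    obtain ⟨u, hu, hdom⟩ := hd _ (isCompact_closedBall y (r / 2)) hsub
    exact (Pool.Agent.CMH.hasFDerivAt_tsum_holo (U := Metric.ball y (r / 2)) hu Metric.isOpen_ball
      (fun i => (hfd i).mono (Metric.ball_subset_closedBall.trans hsub))
      (fun i z hz => hdom i z (Metric.ball_subset_closedBall hz))
      (Metric.mem_ball_self (by positivity))).1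
  -- two derivatives
  have h2 : ∀ y ∈ ball k, ∀ j : Fin n,
      Summable (fun i => fderiv ℂ (fun z => fderiv ℂ (f i) z (Pi.single j 1)) y) ∧
      HasFDerivAt (fun z => ∑' i, fderiv ℂ (f i) z (Pi.single j 1))
        (∑' i, fderiv ℂ (fun z => fderiv ℂ (f i) z (Pi.single j 1)) y) y := by
    intro y hy j
    obtain ⟨r, hr, hrU⟩ := Metric.isOpen_iff.1 (isOpen_ball k) y hy
    have hsub : Metric.closedBall y (r / 2) ⊆ ball k :=
      (Metric.closedBall_subset_ball (by linarith)).trans hrU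
    obtain ⟨u, hu, hdom⟩ := hd _ (isCompact_closedBall y (r / 2)) hsub
    have hu0 : ∀ i, 0 ≤ u i := fun i =>
      (norm_nonneg _).trans (hdom i y (Metric.mem_closedBall_self (by positivity)))
    have hr4 : 0 < r / 4 := by positivity
    have hsub4 : ∀ z ∈ Metric.ball y (r / 4), Metric.closedBall z (r / 4) ⊆
        Metric.closedBall y (r / 2) := by
      intro z hz t ht
      rw [Metric.mem_closedBall] at ht ⊢
      rw [Metric.mem_ball] at hz
      have := dist_triangle t z y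
      linarith
    have hsubo : ∀ z ∈ Metric.ball y (r / 8), Metric.closedBall z (r / 8) ⊆
        Metric.ball y (r / 2) := by
      intro z hz t ht
      rw [Metric.mem_closedBall] at ht
      rw [Metric.mem_ball] at hz ⊢
      have := dist_triangle t z y
      linarith
    refine Pool.Agent.CMH.hasFDerivAt_tsum_holo (U := Metric.ball y (r / 8))
      (u := fun i => u i / (r / 8) * ‖(Pi.single j 1 : Fin n → ℂ)‖)
      ((hu.div_const _).mul_right _) Metric.isOpen_ball (fun i z hz => ?_) (fun i z hz => ?_)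
      (Metric.mem_ball_self (by positivity))
    · have hz' : z ∈ ball k := hsub (Metric.ball_subset_closedBall
        (hsubo z hz (Metric.mem_closedBall_self (by positivity))))
      exact ((hf i z hz').fderiv.differentiableAt.clm_apply
        (differentiableAt_const _)).differentiableWithinAt
    · refine (ContinuousLinearMap.le_opNorm _ _).trans
        (mul_le_mul_of_nonneg_right ?_ (norm_nonneg _))
      exact Pool.Agent.CMH.norm_fderiv_le_holo (U := Metric.ball y (r / 2)) Metric.isOpen_ball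
        ((hfd i).mono (Metric.ball_subset_closedBall.trans hsub)) (by positivity) (hu0 i)
        (hsubo z hz) (fun t ht => hdom i t (Metric.ball_subset_closedBall ht))
  refine ⟨h1, fun j y hy => (h2 y hy j).2.differentiableAt.differentiableWithinAt,
    fun y hy i j => ?_⟩
  rw [(h2 y hy i).2.fderiv, (h2 y hy j).2.fderiv]
  have h3 := ((ContinuousLinearMap.apply ℂ ℂ (Pi.single j 1 : Fin n → ℂ)).hasSum
    (h2 y hy i).1.hasSum).tsum_eq
  have h4 := ((ContinuousLinearMap.apply ℂ ℂ (Pi.single i 1 : Fin n → ℂ)).hasSum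
    (h2 y hy j).1.hasSum).tsum_eq
  rw [ContinuousLinearMap.apply_apply] at h3 h4
  rw [← h3, ← h4]
  exact tsum_congr fun ξ => symm_of_analytic (hf ξ y hy) i j

end general

/-! ### analyticity of the terms -/

section terms

variable {n : ℕ} {k : Fin (n + 1) → ℝ}

theorem analyticAt_coord (i : Fin n) (y : Fin n → ℂ) : AnalyticAt ℂ (fun y : Fin n → ℂ => y i) y :=
  (ContinuousLinearMap.proj (R := ℂ) (φ := fun _ : Fin n => ℂ) i).analyticAt y

theorem analyticAt_hat (m : Fin (n + 1)) (y : Fin n → ℂ) :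
    AnalyticAt ℂ (fun y : Fin n → ℂ => hat y m) y := by
  refine Fin.lastCases ?_ (fun i => ?_) m
  · simpa using analyticAt_const
  · simpa using analyticAt_coord i y

theorem analyticAt_pr (x : Fin (n + 1) → ℝ) (y : Fin n → ℂ) : AnalyticAt ℂ (pr k x) y := by
  have h1 : pr k x = fun y => ∑ j, (k j : ℂ) * (x j : ℂ) * hat y j := rfl
  rw [h1]
  exact Finset.analyticAt_fun_sum _ fun j _ => analyticAt_const.mul (analyticAt_hat j y)

theorem analyticAt_w {y : Fin n → ℂ} (hq : 0 < (-∑ j, (k j : ℂ) * hat y j ^ 2).re) :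
    AnalyticAt ℂ (w k) y := by
  have h1 : AnalyticAt ℂ (fun y : Fin n → ℂ => -∑ j, (k j : ℂ) * hat y j ^ 2) y :=
    (Finset.analyticAt_fun_sum _ fun j _ => analyticAt_const.mul ((analyticAt_hat j y).pow 2)).neg
  exact h1.cpow analyticAt_const (Or.inl hq)

theorem analyticAt_s (x : Fin (n + 1) → ℝ) {y : Fin n → ℂ}
    (hq : 0 < (-∑ j, (k j : ℂ) * hat y j ^ 2).re) (hw : w k y ≠ 0) :
    AnalyticAt ℂ (s k x) y := (analyticAt_pr x y).div (analyticAt_w hq) hw

variable {F : Type} [Field F] [NumberField F] {v₁ : F →+* ℝ} {D : F} {h : Fin (n + 1) → F} {a : F}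

theorem analyticAt_gauss (ξ : Fin (n + 1) → F) {y : Fin n → ℂ}
    (hq : 0 < (-∑ j, (ev v₁ h j : ℂ) * hat y j ^ 2).re) (hw : w (ev v₁ h) y ≠ 0) :
    AnalyticAt ℂ (gauss v₁ D h a ξ) y := by
  have h1 : gauss v₁ D h a ξ = fun y => exp (-(Real.pi : ℂ) * ∑ v : F →+* ℝ,
      ((|v a| / √(v D) : ℝ) : ℂ) * (form h v ξ ξ : ℂ) +
      (-(Real.pi : ℂ) * ((|v₁ a| / √(v₁ D) : ℝ) : ℂ) * 2) *
        s (ev v₁ h) (ev v₁ ξ) y ^ 2) := by
    funext y
    exact gauss_eq ξ y
  rw [h1]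
  exact (analyticAt_const.add (analyticAt_const.mul ((analyticAt_s _ hq hw).pow 2))).cexp

/-- the terms of the function whose differential is the correction -/
noncomputable def cterm (v₁ : F →+* ℝ) (D : F) (h : Fin (n + 1) → F) (a : F)
    (φ : (Fin (n + 1) → F) → ℂ) (m : Fin (n + 1)) (ξ : Fin (n + 1) → F) (y : Fin n → ℂ) : ℂ :=
  φ ξ * gauss v₁ D h a ξ y * (hat y m * (w (ev v₁ h) y)⁻¹)

theorem analyticAt_cterm (φ : (Fin (n + 1) → F) → ℂ) (m : Fin (n + 1)) (ξ : Fin (n + 1) → F)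
    {y : Fin n → ℂ} (hq : 0 < (-∑ j, (ev v₁ h j : ℂ) * hat y j ^ 2).re)
    (hw : w (ev v₁ h) y ≠ 0) : AnalyticAt ℂ (cterm v₁ D h a φ m ξ) y :=
  (analyticAt_const.mul (analyticAt_gauss ξ hq hw)).mul
    ((analyticAt_hat m y).mul ((analyticAt_w hq).inv hw))

open Classical in
theorem hasFDerivAt_hat (m : Fin (n + 1)) (y : Fin n → ℂ) : ∃ L : (Fin n → ℂ) →L[ℂ] ℂ,
    HasFDerivAt (fun y : Fin n → ℂ => hat y m) L y ∧
      ∀ j : Fin n, L (Pi.single j 1) = if m = j.castSucc then 1 else 0 := by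
  refine Fin.lastCases ?_ (fun i => ?_) m
  · refine ⟨0, ?_, fun j => ?_⟩
    · simpa using hasFDerivAt_const (1 : ℂ) y
    · rw [if_neg (Fin.castSucc_lt_last j).ne', zero_apply]
  · refine ⟨ContinuousLinearMap.proj (R := ℂ) (φ := fun _ : Fin n => ℂ) i, ?_, fun j => ?_⟩
    · simpa using hasFDerivAt_coord i y
    · rw [proj_single]
      simp [Fin.castSucc_inj]

open Classical in
theorem fderiv_cterm (φ : (Fin (n + 1) → F) → ℂ) (m : Fin (n + 1)) (ξ : Fin (n + 1) → F)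
    {y : Fin n → ℂ} (hq : 0 < (-∑ j, (ev v₁ h j : ℂ) * hat y j ^ 2).re)
    (hw : w (ev v₁ h) y ≠ 0) (hw2 : w (ev v₁ h) y ^ 2 = -∑ j, (ev v₁ h j : ℂ) * hat y j ^ 2)
    (j : Fin n) : fderiv ℂ (cterm v₁ D h a φ m ξ) y (Pi.single j 1) =
      (-(4 * Real.pi) * ((|v₁ a| / √(v₁ D) : ℝ) : ℂ)) * (φ ξ * gauss v₁ D h a ξ y *
        (hat y m * s (ev v₁ h) (ev v₁ ξ) y / w (ev v₁ h) y) * ds (ev v₁ h) (ev v₁ ξ) j y) +
      φ ξ * gauss v₁ D h a ξ y * ((if m = j.castSucc then 1 else 0) / w (ev v₁ h) y +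
        hat y m * ((v₁ (h j.castSucc) : ℂ) * y j) / w (ev v₁ h) y ^ 3) := by
  obtain ⟨L, hL, hLj⟩ := hasFDerivAt_hat m y
  have h1 := ((hasFDerivAt_gauss (D := D) (a := a) ξ hq hw hw2).const_mul (φ ξ)).mul
    (hL.mul (hasFDerivAt_inv hq hw hw2))
  have h2 : HasFDerivAt (cterm v₁ D h a φ m ξ) _ y := h1
  rw [h2.fderiv]
  simp only [add_apply, smul_apply, dS_single, dq_single, hLj, smul_eq_mul, Pi.mul_apply]
  generalize ((|v₁ a| / √(v₁ D) : ℝ) : ℂ) = α
  have hev : (ev v₁ h j.castSucc : ℂ) = (v₁ (h j.castSucc) : ℂ) := rfl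
  rw [hev]
  generalize (w (ev v₁ h) y) = W at *
  field_simp
  ring

end terms

/-! ### domination -/

section dom

variable {n : ℕ} {F : Type} [Field F] [NumberField F] {v₁ : F →+* ℝ} {D : F}
  {h : Fin (n + 1) → F} {a : F}

/-- bounds for the Gaussian and `ds` on compact sets -/
theorem bounds [NumberField.IsTotallyReal F] (hG : Good v₁ D h) (ha : 0 < v₁ a)
    {C : Set (Fin n → ℂ)} (hC : IsCompact C) (hCb : C ⊆ ball (ev v₁ h)) :
    ∃ c₀ : ℝ, 0 < c₀ ∧ ∃ c' : ℝ, 0 < c' ∧ ∀ (ξ : Fin (n + 1) → F), ∀ y ∈ C,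
      ‖gauss v₁ D h a ξ y‖ ≤ Real.exp (-(c₀ * Pool.CMH.nrm2 ξ)) ∧
      ∀ j, ‖ds (ev v₁ h) (ev v₁ ξ) j y‖ ≤ c' * (1 + Pool.CMH.nrm2 ξ) := by
  classical
  have ha0 : a ≠ 0 := by
    rintro rfl
    rw [map_zero] at ha
    exact lt_irrefl _ ha
  obtain ⟨-, -, -, -, hest⟩ := est n (ev v₁ h) hG.sg
  obtain ⟨c, hc, c', hc', h1, h2⟩ := hest C hC hCb
  -- one constant for every place
  have hv : ∀ v : F →+* ℝ, ∃ m : ℝ, 0 < m ∧ ∀ (ξ : Fin (n + 1) → F), ∀ y ∈ C,
      m * ∑ j, v (ξ j) ^ 2 ≤ (((form h v ξ ξ : ℝ) : ℂ) +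
        if v = v₁ then 2 * s (ev v h) (ev v ξ) y ^ 2 else 0).re := by
    intro v
    by_cases hvv : v = v₁
    · subst hvv
      refine ⟨c, hc, fun ξ y hy => ?_⟩
      rw [if_pos rfl]
      exact h1 y hy (ev v ξ)
    · obtain ⟨i₀, hi₀⟩ := Finite.exists_min (fun j : Fin (n + 1) => v (h j))
      refine ⟨v (h i₀), hG.pos hvv i₀, fun ξ y _ => ?_⟩
      rw [if_neg hvv, add_zero, Complex.ofReal_re, form, Finset.mul_sum]
      refine Finset.sum_le_sum fun j _ => ?_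
      rw [mul_assoc, ← pow_two]
      exact mul_le_mul_of_nonneg_right (hi₀ j) (sq_nonneg _)
  choose m hm hm' using hv
  have hα : ∀ v : F →+* ℝ, 0 < |v a| / √(v D) := fun v =>
    div_pos (abs_pos.2 ((map_ne_zero v).2 ha0)) (Real.sqrt_pos.2 (hG.D0 v))
  have : Nonempty (F →+* ℝ) := ⟨v₁⟩
  obtain ⟨v₀, hv₀⟩ := Finite.exists_min (fun v : F →+* ℝ => |v a| / √(v D) * m v)
  set c₀ : ℝ := Real.pi * (|v₀ a| / √(v₀ D) * m v₀) with hc₀
  have hc₀pos : 0 < c₀ := mul_pos Real.pi_pos (mul_pos (hα v₀) (hm v₀))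
  refine ⟨c₀, hc₀pos, c', hc', fun ξ y hy => ⟨?_, fun j => ?_⟩⟩
  · rw [gauss, Complex.norm_exp, Real.exp_le_exp]
    have h3 : (-(Real.pi : ℂ) * ∑ v : F →+* ℝ, ((|v a| / √(v D) : ℝ) : ℂ) *
        ((form h v ξ ξ : ℂ) + if v = v₁ then 2 * s (ev v h) (ev v ξ) y ^ 2 else 0)).re =
        -(Real.pi * ∑ v : F →+* ℝ, (|v a| / √(v D)) * ((form h v ξ ξ : ℂ) +
          if v = v₁ then 2 * s (ev v h) (ev v ξ) y ^ 2 else 0).re) := by
      rw [neg_mul, Complex.neg_re, Complex.re_ofReal_mul, Complex.re_sum]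
      congr 2
      exact Finset.sum_congr rfl fun v _ => Complex.re_ofReal_mul _ _
    rw [h3, neg_le_neg_iff, hc₀, mul_assoc]
    refine mul_le_mul_of_nonneg_left ?_ Real.pi_pos.le
    rw [Pool.CMH.nrm2, Finset.sum_comm, Finset.mul_sum]
    refine Finset.sum_le_sum fun v _ => ?_
    calc |v₀ a| / √(v₀ D) * m v₀ * ∑ i, v (ξ i) ^ 2
        ≤ |v a| / √(v D) * m v * ∑ i, v (ξ i) ^ 2 :=
          mul_le_mul_of_nonneg_right (hv₀ v) (Finset.sum_nonneg fun _ _ => sq_nonneg _)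
      _ = |v a| / √(v D) * (m v * ∑ i, v (ξ i) ^ 2) := mul_assoc _ _ _
      _ ≤ _ := mul_le_mul_of_nonneg_left (hm' v ξ y hy) (hα v).le
  · refine (h2 y hy (ev v₁ ξ) j).trans (mul_le_mul_of_nonneg_left ?_ hc'.le)
    have h3 : ∑ j, ev v₁ ξ j ^ 2 ≤ Pool.CMH.nrm2 ξ := by
      rw [Pool.CMH.nrm2]
      refine Finset.sum_le_sum fun i _ => ?_
      exact Finset.single_le_sum (f := fun v : F →+* ℝ => v (ξ i) ^ 2)
        (fun _ _ => sq_nonneg _) (Finset.mem_univ v₁)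
    have h4 : 0 ≤ Pool.CMH.nrm2 ξ := Pool.CMH.nrm2_nonneg ξ
    rw [Real.sqrt_le_left (by positivity)]
    nlinarith

theorem abs_place_le (v : F →+* ℝ) (ξ : Fin (n + 1) → F) (m : Fin (n + 1)) :
    |v (ξ m)| ≤ 1 + Pool.CMH.nrm2 ξ := by
  have h1 : v (ξ m) ^ 2 ≤ Pool.CMH.nrm2 ξ := by
    rw [Pool.CMH.nrm2]
    exact (Finset.single_le_sum (f := fun v : F →+* ℝ => v (ξ m) ^ 2)
      (fun _ _ => sq_nonneg _) (Finset.mem_univ v)).trans
      (Finset.single_le_sum (f := fun i => ∑ v : F →+* ℝ, v (ξ i) ^ 2)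
        (fun i _ => Finset.sum_nonneg fun _ _ => sq_nonneg _) (Finset.mem_univ m))
  have h2 := sq_abs (v (ξ m))
  nlinarith [abs_nonneg (v (ξ m)), sq_nonneg (|v (ξ m)| - 1)]

/-- Schwartz-Bruhat functions against polynomially weighted Gaussians -/
theorem sb_dom [NumberField.IsTotallyReal F] {φ : (Fin (n + 1) → F) → ℂ} (hφ : IsSB φ) {c₀ : ℝ} (hc₀ : 0 < c₀) (B : ℝ)
    (r : ℕ) : ∃ u : (Fin (n + 1) → F) → ℝ, Summable u ∧ ∀ ξ, ∀ z : ℂ,
      ‖z‖ ≤ B * ((1 + Pool.CMH.nrm2 ξ) ^ r * Real.exp (-(c₀ * Pool.CMH.nrm2 ξ))) →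
      ‖φ ξ * z‖ ≤ u ξ := by
  classical
  obtain ⟨B', hB0, hB'⟩ := hφ.bdd
  obtain ⟨N, hN, hsupp, -⟩ := hφ
  refine ⟨fun ξ => B' * B * (Pool.CMH.Lat F (Fin (n + 1)) N).indicator
    (fun ξ => (1 + Pool.CMH.nrm2 ξ) ^ r * Real.exp (-(c₀ * Pool.CMH.nrm2 ξ))) ξ,
    (Pool.CMH.summable_gs N hN c₀ hc₀ r).mul_left _, fun ξ z hz => ?_⟩
  beta_reduce
  by_cases hξ : ξ ∈ Pool.CMH.Lat F (Fin (n + 1)) N
  · rw [Set.indicator_of_mem hξ, norm_mul, mul_assoc]
    exact mul_le_mul (hB' ξ) hz (norm_nonneg _) hB0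
  · have h5 : φ ξ = 0 := by
      by_contra hne
      exact hξ (hsupp ξ hne)
    rw [h5, zero_mul, norm_zero, Set.indicator_of_notMem hξ, mul_zero]

/-- series of terms `c ξ * gauss * ds` -/
theorem closedHol_terms (hG : Good v₁ D h) {c : (Fin (n + 1) → F) → ℂ}
    (hd : ∀ C : Set (Fin n → ℂ), IsCompact C → C ⊆ ball (ev v₁ h) →
      ∃ u : (Fin (n + 1) → F) → ℝ, Summable u ∧
        ∀ ξ, ∀ y ∈ C, ∀ j, ‖c ξ * gauss v₁ D h a ξ y * ds (ev v₁ h) (ev v₁ ξ) j y‖ ≤ u ξ) :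
    ClosedHol (ev v₁ h) (fun j y => ∑' ξ, c ξ * gauss v₁ D h a ξ y *
      ds (ev v₁ h) (ev v₁ ξ) j y) := by
  obtain ⟨hq, hw, -⟩ := est n (ev v₁ h) hG.sg
  have key : ∀ y ∈ ball (ev v₁ h), ∀ j, Summable (fun ξ => fderiv ℂ
      (fun y => c ξ * gauss v₁ D h a ξ y * ds (ev v₁ h) (ev v₁ ξ) j y) y) ∧
      HasFDerivAt (fun y => ∑' ξ, c ξ * gauss v₁ D h a ξ y * ds (ev v₁ h) (ev v₁ ξ) j y)
        (∑' ξ, fderiv ℂ
        (fun y => c ξ * gauss v₁ D h a ξ y * ds (ev v₁ h) (ev v₁ ξ) j y) y) y := by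
    intro y hy j
    obtain ⟨r, hr, hrU⟩ := Metric.isOpen_iff.1 (isOpen_ball (ev v₁ h)) y hy
    have hsub : Metric.closedBall y (r / 2) ⊆ ball (ev v₁ h) :=
      (Metric.closedBall_subset_ball (by linarith)).trans hrU
    obtain ⟨u, hu, hdom⟩ := hd _ (isCompact_closedBall y (r / 2)) hsub
    exact Pool.Agent.CMH.hasFDerivAt_tsum_holo (U := Metric.ball y (r / 2)) hu Metric.isOpen_ball
      (fun ξ z hz => by
        have hz' := hsub (Metric.ball_subset_closedBall hz)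
        exact (hasFDerivAt_term ξ (c ξ) j (hq z hz') (hw z hz').1
          (hw z hz').2).differentiableAt.differentiableWithinAt)
      (fun ξ z hz => hdom ξ z (Metric.ball_subset_closedBall hz) j)
      (Metric.mem_ball_self (by positivity))
  refine ⟨fun j y hy => (key y hy j).2.differentiableAt.differentiableWithinAt,
    fun y hy i j => ?_⟩
  rw [(key y hy i).2.fderiv, (key y hy j).2.fderiv]
  have h0 := ((ContinuousLinearMap.apply ℂ ℂ (Pi.single j 1 : Fin n → ℂ)).hasSum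
    (key y hy i).1.hasSum).tsum_eq
  have h1 := ((ContinuousLinearMap.apply ℂ ℂ (Pi.single i 1 : Fin n → ℂ)).hasSum
    (key y hy j).1.hasSum).tsum_eq
  rw [ContinuousLinearMap.apply_apply] at h0 h1
  rw [← h0, ← h1]
  exact tsum_congr fun ξ => term_closed ξ (c ξ) i j (hq y hy) (hw y hy).1 (hw y hy).2

end dom

/-! ### the row -/

/-- Row V2. -/
theorem v2_of : V2 := by
  classical
  intro F _ _ _ n v₁ v D h a φ m hG ha hφ
  obtain ⟨hq, hw, -⟩ := est n (ev v₁ h) hG.sg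
  -- the weighted series
  have hd1 : ∀ C : Set (Fin n → ℂ), IsCompact C → C ⊆ ball (ev v₁ h) →
      ∃ u : (Fin (n + 1) → F) → ℝ, Summable u ∧ ∀ ξ, ∀ y ∈ C, ∀ j,
        ‖(φ ξ * (v (ξ m) : ℂ)) * gauss v₁ D h a ξ y * ds (ev v₁ h) (ev v₁ ξ) j y‖ ≤ u ξ := by
    intro C hC hCb
    obtain ⟨c₀, hc₀, c', hc', hb⟩ := bounds (a := a) hG ha hC hCb
    obtain ⟨u, hu, hu'⟩ := sb_dom hφ hc₀ c' 2
    refine ⟨u, hu, fun ξ y hy j => ?_⟩
    rw [mul_assoc, mul_assoc]
    refine hu' ξ _ ?_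
    rw [norm_mul, norm_mul, Complex.norm_real, Real.norm_eq_abs]
    have h1 := abs_place_le v ξ m
    have h2 := (hb ξ y hy).1
    have h3 := (hb ξ y hy).2 j
    have h5 := Pool.CMH.nrm2_nonneg ξ
    calc |v (ξ m)| * (‖gauss v₁ D h a ξ y‖ * ‖ds (ev v₁ h) (ev v₁ ξ) j y‖)
        ≤ (1 + Pool.CMH.nrm2 ξ) * (Real.exp (-(c₀ * Pool.CMH.nrm2 ξ)) *
            (c' * (1 + Pool.CMH.nrm2 ξ))) :=
          mul_le_mul h1 (mul_le_mul h2 h3 (norm_nonneg _) (Real.exp_pos _).le)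
            (mul_nonneg (norm_nonneg _) (norm_nonneg _)) (by linarith)
      _ = _ := by ring
  have hA := closedHol_terms (D := D) (a := a) hG hd1
  have hAs : ∀ y ∈ ball (ev v₁ h), ∀ j, Summable (fun ξ => (φ ξ * (v (ξ m) : ℂ)) *
      gauss v₁ D h a ξ y * ds (ev v₁ h) (ev v₁ ξ) j y) := by
    intro y hy j
    obtain ⟨u, hu, hdom⟩ := hd1 {y} isCompact_singleton (Set.singleton_subset_iff.2 hy)
    exact Summable.of_norm_bounded hu fun ξ => hdom ξ y rfl j
  by_cases hv : v = v₁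
  · subst hv
    -- the scalar theta series
    have hd2 : ∀ C : Set (Fin n → ℂ), IsCompact C → C ⊆ ball (ev v h) →
        ∃ u : (Fin (n + 1) → F) → ℝ, Summable u ∧ ∀ ξ, ∀ y ∈ C,
          ‖φ ξ * gauss v D h a ξ y‖ ≤ u ξ := by
      intro C hC hCb
      obtain ⟨c₀, hc₀, c', hc', hb⟩ := bounds (a := a) hG ha hC hCb
      obtain ⟨u, hu, hu'⟩ := sb_dom hφ hc₀ 1 0
      refine ⟨u, hu, fun ξ y hy => hu' ξ _ ?_⟩
      rw [one_mul, pow_zero, one_mul]
      exact (hb ξ y hy).1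
    have hTs : ∀ y ∈ ball (ev v h), Summable (fun ξ => φ ξ * gauss v D h a ξ y) := by
      intro y hy
      obtain ⟨u, hu, hdom⟩ := hd2 {y} isCompact_singleton (Set.singleton_subset_iff.2 hy)
      exact Summable.of_norm_bounded hu fun ξ => hdom ξ y rfl
    -- the exact form
    have hE := closedHol_exact (k := ev v h) (f := cterm v D h a φ m)
      (fun ξ y hy => analyticAt_cterm φ m ξ (hq y hy) (hw y hy).1) (by
        intro C hC hCb
        obtain ⟨u, hu, hu'⟩ := hd2 C hC hCb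
        have hcont : ContinuousOn (fun y : Fin n → ℂ => hat y m * (w (ev v h) y)⁻¹) C :=
          fun y hy => ((analyticAt_hat m y).mul
            ((analyticAt_w (hq y (hCb hy))).inv (hw y (hCb hy)).1)).continuousAt.continuousWithinAt
        obtain ⟨B, hB⟩ := hC.exists_bound_of_continuousOn hcont
        refine ⟨fun ξ => u ξ * |B|, hu.mul_right _, fun ξ y hy => ?_⟩
        rw [cterm, norm_mul]
        exact mul_le_mul (hu' ξ y hy) ((hB y hy).trans (le_abs_self B)) (norm_nonneg _)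
          ((norm_nonneg _).trans (hu' ξ y hy)))
    refine closedHol_congr (closedHol_sub_mul hA hE.2
      ((√(v D) / (4 * Real.pi * v a) : ℝ) : ℂ)) fun y hy j => ?_
    have hEs : Summable (fun ξ => fderiv ℂ (cterm v D h a φ m ξ) y (Pi.single j 1)) :=
      ((ContinuousLinearMap.apply ℂ ℂ (Pi.single j 1 : Fin n → ℂ)).hasSum
        (hE.1 y hy).hasSum).summable
    set κ : ℂ := ((√(v D) / (4 * Real.pi * v a) : ℝ) : ℂ) with hκ
    set M : ℂ := (if m = j.castSucc then 1 else 0) / w (ev v h) y +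
        hat y m * ((v (h j.castSucc) : ℂ) * y j) / w (ev v h) y ^ 3 with hM
    have hκα : κ * (-(4 * Real.pi) * ((|v a| / √(v D) : ℝ) : ℂ)) = -1 := by
      rw [hκ, abs_of_pos ha]
      have h1 : (0 : ℝ) < √(v D) := Real.sqrt_pos.2 (hG.D0 v)
      have h2 : (√(v D) / (4 * Real.pi * v a)) * (-(4 * Real.pi) * (v a / √(v D))) = -1 := by
        field_simp
      have h3 := congrArg (fun x : ℝ => (x : ℂ)) h2
      push_cast at h3 ⊢
      linear_combination h3
    have hterm : ∀ ξ : Fin (n + 1) → F, φ ξ * gauss v D h a ξ y * vfac v v h m ξ y *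
        ds (ev v h) (ev v ξ) j y - κ * M * (φ ξ * gauss v D h a ξ y) =
        (φ ξ * (v (ξ m) : ℂ)) * gauss v D h a ξ y * ds (ev v h) (ev v ξ) j y -
          κ * fderiv ℂ (cterm v D h a φ m ξ) y (Pi.single j 1) := by
      intro ξ
      rw [fderiv_cterm φ m ξ (hq y hy) (hw y hy).1 (hw y hy).2 j, ← hM, vfac, if_pos rfl]
      linear_combination (φ ξ * gauss v D h a ξ y *
        (hat y m * s (ev v h) (ev v ξ) y / w (ev v h) y) * ds (ev v h) (ev v ξ) j y) * hκα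
    have hsum1 : Summable (fun ξ => κ * M * (φ ξ * gauss v D h a ξ y)) := (hTs y hy).mul_left _
    have hsum2 : Summable (fun ξ : Fin (n + 1) → F => φ ξ * gauss v D h a ξ y *
        vfac v v h m ξ y * ds (ev v h) (ev v ξ) j y) := by
      have h1 := ((hAs y hy j).sub (hEs.mul_left κ)).add hsum1
      refine h1.congr fun ξ => ?_
      rw [← hterm ξ]
      ring
    unfold vform
    have h5 : κ * ∑' ξ, fderiv ℂ (cterm v D h a φ m ξ) y (Pi.single j 1) =
        ∑' ξ, κ * fderiv ℂ (cterm v D h a φ m ξ) y (Pi.single j 1) := tsum_mul_left.symm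
    rw [if_pos rfl, theta0, ← hM, ← hκ, h5, ← (hAs y hy j).tsum_sub (hEs.mul_left κ)]
    have h4 : κ * (∑' ξ, φ ξ * gauss v D h a ξ y) * M =
        ∑' ξ, κ * M * (φ ξ * gauss v D h a ξ y) := by
      rw [tsum_mul_left]
      ring
    rw [h4, ← hsum2.tsum_sub hsum1]
    exact tsum_congr hterm
  · refine closedHol_congr hA fun y hy j => ?_
    unfold vform
    rw [if_neg hv, sub_zero]
    refine tsum_congr fun ξ => ?_
    rw [vfac, if_neg hv, add_zero]
    ring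

end Pool.Agent.CMP
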