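import Pool.Agent.Lib.CMP.V3
import Pool.Agent.Lib.CMN.FxCalc
import Pool.Agent.Lib.CMN.AdpG

/-!
# Tank CMP, row V4: the cocycle of the place `v` (helper31)
-/

set_option autoImplicit false

open scoped ComplexConjugate Matrix
open Complex

namespace Pool.Agent.CMP

open Pool.Agent.CMN Pool.CMN

noncomputable section

variable {n : ℕ}

namespace V4aux

theorem const_of_partials {k : Fin (n + 1) → ℝ} (hk : Sg k) {f : (Fin n → ℂ) → ℂ}
    (hd : ∀ y ∈ ball k, DifferentiableAt ℂ f y)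
    (h0 : ∀ y ∈ ball k, ∀ j, fderiv ℂ f y (Pi.single j 1) = 0) :
    ∀ y ∈ ball k, f y = f 0 := by
  intro y hy
  refine IsOpen.is_const_of_fderiv_eq_zero (V3aux.isOpenBall k)
    (V3aux.convexBall hk.pos).isPreconnected
    (fun z hz => (hd z hz).differentiableWithinAt) (fun z hz => ?_) hy (zero_mem_ball hk)
  ext v
  rw [V3aux.apply_eq_sum]
  simp [h0 z hz]

end V4aux

theorem v4_of (h1 : V1) (h2 : V2) (h3 : V3) (hfi : GAMFIN) : V4 := by
  intro F _ _ _ n v₁ v D h a φ hG ha hφ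
  have hφ' := hφ
  obtain ⟨N, hN, hφ1, hφ2⟩ := hφ
  obtain ⟨c, hc, H⟩ := h1 F n v₁ D h a N hG ha hN
  obtain ⟨Γ, hΓ1, hΓ2⟩ := hfi F n v₁ D h c hG hc
  obtain ⟨e, he1, he2, he3, he4⟩ := FX.exists_e hG hΓ2
  obtain ⟨Γ', hfin, hinv⟩ := H Γ e he1 he3 he4
  have hsb : SBJ N (fun ξ : Unit → Fin (n + 1) → F => φ (ξ ())) :=
    ⟨hN, fun ξ hξ i j => by cases i; exact hφ1 _ hξ j,
      fun ξ η hη => hφ2 (ξ ()) (η ()) fun j => hη () j⟩
  choose R hR1 hR2 using fun m =>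
    h3 n (ev v₁ h) (vform v₁ v D h a φ m) hG.sg (h2 F n v₁ v D h a φ m hG ha hφ')
  refine ⟨Γ'.map Γ.subtype, FX.isArith_map hG hΓ1 Γ' hfin, R, hR1, hR2, ?_⟩
  rintro _ ⟨γ, hγ, rfl⟩ p hp hpe
  have hpe' : p = e γ := Grp.cmat_inj (hG.D0 v₁) (hpe.trans (he2 γ).symm)
  subst hpe'
  have hs := JB.sg_of hG
  have hU : Jac.IsU (ev v₁ h) (Γ.subtype γ).1 := JB.isU_of_mem hΓ1 γ.2
  have hRd : ∀ m, ∀ y ∈ ball (ev v₁ h), DifferentiableAt ℂ (R m) y := fun m y hy =>
    (hR1 m).differentiableAt ((V3aux.isOpenBall _).mem_nhds hy)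
  have hact : ∀ y ∈ ball (ev v₁ h), HasFDerivAt (actC (Γ.subtype γ))
      (Jac.dact (Γ.subtype γ).1 y) y := fun y hy =>
    Jac.hasFDerivAt_act (Γ.subtype γ).1 (Jac.jf_ne hs hU hy)
  have hl : ∀ y ∈ ball (ev v₁ h), ∀ j l : Fin n,
      (Jac.dact (Γ.subtype γ).1 y (Pi.single j 1)) l = dact v₁ D (e γ) y l j := by
    intro y hy j l
    rw [FX.dact_eq_of (g := Γ.subtype γ) (he2 γ), ← JB.fderiv_actC' hs hU hy,
      ((hasFDerivAt_pi'.1 (hact y hy)) l).fderiv]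
    rfl
  have hder : ∀ m, ∀ y ∈ ball (ev v₁ h), HasFDerivAt
      (fun y => R m (actC (Γ.subtype γ) y) -
        ∑ m', cjs v a (cmat v D (e γ) m m') * R m' y)
      ((fderiv ℂ (R m) (actC (Γ.subtype γ) y)).comp (Jac.dact (Γ.subtype γ).1 y) -
        ∑ m', cjs v a (cmat v D (e γ) m m') • fderiv ℂ (R m') y) y := by
    intro m y hy
    refine HasFDerivAt.sub ?_ ?_
    · exact (hRd m _ (JB.actC_mem hs hU hy)).hasFDerivAt.comp y (hact y hy)
    · exact HasFDerivAt.fun_sum fun m' _ => (hRd m' y hy).hasFDerivAt.const_mul _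
  have hconst : ∀ m, ∀ y ∈ ball (ev v₁ h),
      R m (actC (Γ.subtype γ) y) - ∑ m', cjs v a (cmat v D (e γ) m m') * R m' y =
      R m (actC (Γ.subtype γ) 0) - ∑ m', cjs v a (cmat v D (e γ) m m') * R m' 0 := by
    intro m
    refine V4aux.const_of_partials hG.sg
      (f := fun y => R m (actC (Γ.subtype γ) y) -
        ∑ m', cjs v a (cmat v D (e γ) m m') * R m' y)
      (fun y hy => (hder m y hy).differentiableAt) fun y hy j => ?_
    rw [(hder m y hy).fderiv]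
    have e1 : (fderiv ℂ (R m) (actC (Γ.subtype γ) y)).comp (Jac.dact (Γ.subtype γ).1 y)
        (Pi.single j 1) = ∑ l, vform v₁ v D h a φ m l (act v₁ D (e γ) y) *
          dact v₁ D (e γ) y l j := by
      rw [ContinuousLinearMap.comp_apply, V3aux.apply_eq_sum]
      refine Finset.sum_congr rfl fun l _ => ?_
      rw [hl y hy j l, hR2 m _ (JB.actC_mem hs hU hy) l,
        FX.act_eq_actC (g := Γ.subtype γ) (he2 γ)]
      ring
    have e2 : (∑ m', cjs v a (cmat v D (e γ) m m') • fderiv ℂ (R m') y) (Pi.single j 1) =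
        ∑ m', cjs v a (cmat v D (e γ) m m') * vform v₁ v D h a φ m' j y := by
      rw [sum_apply]
      refine Finset.sum_congr rfl fun m' _ => ?_
      rw [smul_apply, smul_eq_mul, hR2 m' y hy j]
    rw [sub_apply, e1, e2, hinv γ hγ φ hsb y hy v m j, sub_self]
  refine ⟨fun m => R m (actC (Γ.subtype γ) 0) -
    ∑ m', cjs v a (cmat v D (e γ) m m') * R m' 0, fun y hy m => ?_⟩
  have hk := hconst m y hy
  linear_combination hk

end

end Pool.Agent.CMP
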