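import Pool.Agent.Lib.CMP.VDefs
import Pool.Agent.Lib.CMN.Sum3

/-!
# Tank CMP, row V5 (helper85): restriction to the ball of the orthogonal complement
-/

set_option autoImplicit false

open scoped ComplexConjugate Matrix
open Complex

namespace Pool.Agent.CMP

open Pool.Agent.CMN NumberField
open Pool.CMH (nrm2 Lat nrm2_nonneg summable_gs)
open Pool.Agent.CMH.Sum (bdd mj summable_mj)

noncomputable section

variable {n : ℕ} {F : Type} [Field F] [NumberField F]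

namespace V5aux

/-- The sum `kap` converges absolutely. -/
theorem summable_kap [IsTotallyReal F] (v : F →+* ℝ) {D hx a : F} (hD : ∀ u : F →+* ℝ, 0 < u D)
    (hh : ∀ u : F →+* ℝ, 0 < u hx) (ha : a ≠ 0) {φx : F → ℂ} (hφ : IsSB1 φx) :
    Summable fun ξ : F => ‖φx ξ * cexp (-(Real.pi : ℂ) * ∑ u : F →+* ℝ,
      ((|u a| / √(u D) * (u hx * u ξ * u ξ) : ℝ) : ℂ)) * (v ξ : ℂ)‖ := by
  classical
  obtain ⟨N, hN, hs, hp⟩ := hφ
  obtain ⟨P, hP, hP1⟩ := bdd (ι := Unit) hN (fun ξ => φx (ξ ())) (fun ξ h _ => hs _ h)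
    (fun ξ η h => hp _ _ (h ()))
  have hpos : ∀ u : F →+* ℝ, 0 < Real.pi * (|u a| / √(u D) * u hx) := fun u => by
    have h1 := Real.sqrt_pos.2 (hD u)
    have h2 := hh u
    have h3 : 0 < |u a| := abs_pos.2 ((map_ne_zero u).2 ha)
    have h4 := Real.pi_pos
    positivity
  have : Nonempty (F →+* ℝ) := ⟨v⟩
  obtain ⟨u₀, hu₀⟩ := Finite.exists_min fun u : F →+* ℝ => Real.pi * (|u a| / √(u D) * u hx)
  obtain ⟨c, hc⟩ : ∃ c, c = Real.pi * (|u₀ a| / √(u₀ D) * u₀ hx) := ⟨_, rfl⟩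
  have hc0 : 0 < c := hc ▸ hpos u₀
  have hsum : Summable fun ξ : F => P * mj N c (fun _ : Unit => ξ) := by
    refine Summable.mul_left P ?_
    exact (summable_mj (F := F) (ι := Unit) hN hc0).comp_injective
      (i := fun (ξ : F) (_ : Unit) => ξ) fun ξ η h => congrFun h ()
  refine Summable.of_nonneg_of_le (fun _ => norm_nonneg _) (fun ξ => ?_) hsum
  have hnr : nrm2 (fun _ : Unit => ξ) = ∑ u : F →+* ℝ, u ξ ^ 2 := by
    rw [nrm2]
    simp
  have hn : 0 ≤ nrm2 (fun _ : Unit => ξ) := nrm2_nonneg _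
  by_cases h0 : φx ξ = 0
  · rw [h0, zero_mul, zero_mul, norm_zero]
    refine mul_nonneg hP ?_
    exact Set.indicator_nonneg (fun η _ => mul_nonneg (pow_nonneg (by
      linarith [nrm2_nonneg η]) _) (Real.exp_pos _).le) _
  · have hmem : (fun _ : Unit => ξ) ∈ Lat F Unit N := fun p => hs ξ h0
    have hm : mj N c (fun _ : Unit => ξ) = (1 + nrm2 (fun _ : Unit => ξ)) ^ 1 *
        Real.exp (-(c * nrm2 (fun _ : Unit => ξ))) := Set.indicator_of_mem hmem _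
    rw [hm, norm_mul, norm_mul, pow_one, Complex.norm_exp]
    have h1 : ‖φx ξ‖ ≤ P := hP1 fun _ => ξ
    have h2 : (-(Real.pi : ℂ) * ∑ u : F →+* ℝ,
        ((|u a| / √(u D) * (u hx * u ξ * u ξ) : ℝ) : ℂ)).re ≤
        -(c * nrm2 (fun _ : Unit => ξ)) := by
      rw [← Complex.ofReal_sum, ← Complex.ofReal_neg, ← Complex.ofReal_mul, Complex.ofReal_re,
        hnr, neg_mul, neg_le_neg_iff, Finset.mul_sum, Finset.mul_sum]
      refine Finset.sum_le_sum fun u _ => ?_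
      have h3 := mul_le_mul_of_nonneg_right (hu₀ u) (sq_nonneg (u ξ))
      rw [hc]
      calc _ ≤ _ := h3
        _ = _ := by ring
    have h3 : ‖(v ξ : ℂ)‖ ≤ 1 + nrm2 (fun _ : Unit => ξ) := by
      rw [Complex.norm_real, Real.norm_eq_abs, hnr]
      have h4 : v ξ ^ 2 ≤ ∑ u : F →+* ℝ, u ξ ^ 2 :=
        Finset.single_le_sum (f := fun u : F →+* ℝ => u ξ ^ 2) (fun u _ => sq_nonneg _)
          (Finset.mem_univ v)
      have h5 : |v ξ| ≤ 1 + v ξ ^ 2 := by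
        rw [← sq_abs]
        nlinarith [sq_nonneg (|v ξ| - 1), abs_nonneg (v ξ)]
      linarith
    calc _ ≤ P * Real.exp (-(c * nrm2 (fun _ : Unit => ξ))) *
          (1 + nrm2 (fun _ : Unit => ξ)) := by
          refine mul_le_mul (mul_le_mul h1 (Real.exp_le_exp.2 h2) (Real.exp_pos _).le hP) h3
            (norm_nonneg _) ?_
          exact mul_nonneg hP (Real.exp_pos _).le
      _ = _ := by ring

theorem isSB_prod {φx : F → ℂ} {φ : (Fin (n + 1) → F) → ℂ} (hx : IsSB1 φx) (hφ : IsSB φ) :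
    IsSB (prodSB φx φ) := by
  obtain ⟨N₁, hN₁, s₁, p₁⟩ := hx
  obtain ⟨N₂, hN₂, s₂, p₂⟩ := hφ
  have hi : ∀ N : ℕ, IsIntegral ℤ (N : F) := fun N => by
    have : IsIntegral ℤ ((N : ℤ) : F) := isIntegral_algebraMap
    simpa using this
  refine ⟨N₁ * N₂, Nat.mul_pos hN₁ hN₂, fun ξ h j => ?_, fun ξ η hη => ?_⟩
  · have h1 : φx (ξ 0) ≠ 0 := fun e => h (by rw [prodSB, e, zero_mul])
    have h2 : φ (Fin.tail ξ) ≠ 0 := fun e => h (by rw [prodSB, e, mul_zero])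
    refine Fin.cases ?_ (fun i => ?_) j
    · have h3 : ((N₁ * N₂ : ℕ) : F) * ξ 0 = N₂ * (N₁ * ξ 0) := by
        push_cast
        ring
      rw [h3]
      exact (hi N₂).mul (s₁ _ h1)
    · have h3 : ((N₁ * N₂ : ℕ) : F) * ξ i.succ = N₁ * (N₂ * Fin.tail ξ i) := by
        push_cast
        rw [Fin.tail]
        ring
      rw [h3]
      exact (hi N₁).mul (s₂ _ h2 i)
  · rw [prodSB, prodSB]
    have h1 : ξ 0 + ((N₁ * N₂ : ℕ) : F) * η 0 = ξ 0 + (N₁ : F) * (N₂ * η 0) := by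
      push_cast
      ring
    have h2 : Fin.tail (fun j => ξ j + ((N₁ * N₂ : ℕ) : F) * η j) =
        fun i => Fin.tail ξ i + (N₂ : F) * (N₁ * η i.succ) := by
      funext i
      rw [Fin.tail, Fin.tail]
      push_cast
      ring
    rw [h1, p₁ _ _ ((hi N₂).mul (hη 0)), h2,
      p₂ _ (fun i => (N₁ : F) * η i.succ) fun i => (hi N₁).mul (hη i.succ)]

theorem good_cons {v₁ : F →+* ℝ} {D hx : F} {h : Fin (n + 1) → F} (hG : Good v₁ D h)
    (hh : ∀ u : F →+* ℝ, 0 < u hx) : Good v₁ D (Fin.cons hx h : Fin (n + 2) → F) := by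
  have hl : (Fin.cons hx h : Fin (n + 2) → F) (Fin.last (n + 1)) = h (Fin.last n) := by
    rw [← Fin.succ_last, Fin.cons_succ]
  refine ⟨hG.Di, hG.D0, fun v j => ?_, fun v hv => by rw [hl]; exact hG.hl v hv,
    by rw [hl]; exact hG.hn⟩
  refine Fin.cases ?_ (fun i => ?_) j
  · rw [Fin.castSucc_zero, Fin.cons_zero]
    exact hh v
  · rw [← Fin.succ_castSucc, Fin.cons_succ]
    exact hG.hp v i

theorem ev_cons (v : F →+* ℝ) (a : F) (x : Fin (n + 1) → F) :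
    ev v (Fin.cons a x : Fin (n + 2) → F) = (Fin.cons (v a) (ev v x) : Fin (n + 2) → ℝ) := by
  funext j
  refine Fin.cases ?_ (fun i => ?_) j
  · simp [ev]
  · simp [ev]

theorem hat_cons (y : Fin n → ℂ) (z : ℂ) :
    hat (Fin.cons z y : Fin (n + 1) → ℂ) = (Fin.cons z (hat y) : Fin (n + 2) → ℂ) := by
  unfold hat
  exact (Fin.cons_snoc_eq_snoc_cons z y 1).symm

theorem pr_cons (k x : Fin (n + 1) → ℝ) (k0 x0 : ℝ) (y : Fin n → ℂ) :
    pr (Fin.cons k0 k : Fin (n + 2) → ℝ) (Fin.cons x0 x : Fin (n + 2) → ℝ)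
      (Fin.cons 0 y : Fin (n + 1) → ℂ) = pr k x y := by
  rw [pr, hat_cons, Fin.sum_univ_succ]
  simp [pr]

theorem w_cons (k : Fin (n + 1) → ℝ) (k0 : ℝ) (y : Fin n → ℂ) :
    w (Fin.cons k0 k : Fin (n + 2) → ℝ) (Fin.cons 0 y : Fin (n + 1) → ℂ) = w k y := by
  rw [w, hat_cons, Fin.sum_univ_succ]
  simp [w]

theorem s_cons (k x : Fin (n + 1) → ℝ) (k0 x0 : ℝ) (y : Fin n → ℂ) :
    s (Fin.cons k0 k : Fin (n + 2) → ℝ) (Fin.cons x0 x : Fin (n + 2) → ℝ)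
      (Fin.cons 0 y : Fin (n + 1) → ℂ) = s k x y := by
  rw [s, pr_cons, w_cons, s]

theorem ds_cons (k x : Fin (n + 1) → ℝ) (k0 x0 : ℝ) (j : Fin n) (y : Fin n → ℂ) :
    ds (Fin.cons k0 k : Fin (n + 2) → ℝ) (Fin.cons x0 x : Fin (n + 2) → ℝ) j.succ
      (Fin.cons 0 y : Fin (n + 1) → ℂ) = ds k x j y := by
  rw [ds, pr_cons, w_cons, ← Fin.succ_castSucc, Fin.cons_succ, Fin.cons_succ, Fin.cons_succ, ds]

theorem gauss_cons (v₁ : F →+* ℝ) (D hx a : F) (h : Fin (n + 1) → F) (ξ0 : F)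
    (ξ : Fin (n + 1) → F) (y : Fin n → ℂ) :
    gauss v₁ D (Fin.cons hx h : Fin (n + 2) → F) a (Fin.cons ξ0 ξ : Fin (n + 2) → F)
      (Fin.cons 0 y : Fin (n + 1) → ℂ) =
    cexp (-(Real.pi : ℂ) * ∑ u : F →+* ℝ, ((|u a| / √(u D) * (u hx * u ξ0 * u ξ0) : ℝ) : ℂ)) *
      gauss v₁ D h a ξ y := by
  classical
  unfold gauss
  rw [← Complex.exp_add, ← mul_add, ← Finset.sum_add_distrib]
  congr 2
  refine Finset.sum_congr rfl fun u _ => ?_
  have h1 : form (Fin.cons hx h : Fin (n + 2) → F) u (Fin.cons ξ0 ξ : Fin (n + 2) → F)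
      (Fin.cons ξ0 ξ : Fin (n + 2) → F) = u hx * u ξ0 * u ξ0 + form h u ξ ξ := by
    rw [form, Fin.sum_univ_succ]
    simp [form]
  rw [h1, ev_cons, ev_cons, s_cons]
  push_cast
  ring

end V5aux

open V5aux

/-- V5. -/
theorem v5 : V5 := by
  classical
  intro F _ _ _ n v₁ v D hx h a φx φ hG hh ha hsx hsφ
  refine ⟨isSB_prod hsx hsφ, good_cons hG hh, fun y hy j => ?_⟩
  have ha0 : a ≠ 0 := by
    rintro rfl
    simp at ha
  have hA := summable_kap v hG.D0 hh ha0 hsx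
  have hB : Summable fun ξ : Fin (n + 1) → F =>
      ‖φ ξ * gauss v₁ D h a ξ y * ds (ev v₁ h) (ev v₁ ξ) j y‖ := by
    obtain ⟨N, hN, c, hc, B, hB⟩ := CMN.Sum.term1_bound est hG ha hsφ (C := {y})
      isCompact_singleton (Set.singleton_subset_iff.mpr hy)
    exact Summable.of_nonneg_of_le (fun _ => norm_nonneg _)
      (fun ξ => hB y (Set.mem_singleton y) ξ j) ((summable_mj hN hc).mul_left B)
  have hcor : (if v = v₁ then (√(v₁ D) / (4 * Real.pi * v₁ a) : ℝ) *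
      theta0 v₁ D (Fin.cons hx h : Fin (n + 2) → F) a (prodSB φx φ)
        (Fin.cons 0 y : Fin (n + 1) → ℂ) *
      ((if (0 : Fin (n + 2)) = j.succ.castSucc then 1 else 0) /
        w (ev v₁ (Fin.cons hx h : Fin (n + 2) → F)) (Fin.cons 0 y : Fin (n + 1) → ℂ) +
        hat (Fin.cons 0 y : Fin (n + 1) → ℂ) 0 *
          ((v₁ ((Fin.cons hx h : Fin (n + 2) → F) j.succ.castSucc) : ℂ) *
            (Fin.cons 0 y : Fin (n + 1) → ℂ) j.succ) /
          w (ev v₁ (Fin.cons hx h : Fin (n + 2) → F)) (Fin.cons 0 y : Fin (n + 1) → ℂ) ^ 3)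
      else 0) = 0 := by
    split_ifs with h1 h2
    · exact absurd h2 (by rw [← Fin.succ_castSucc]; exact (Fin.succ_ne_zero _).symm)
    · rw [hat_cons, Fin.cons_zero]
      simp
    · rfl
  rw [vform, hcor, sub_zero, ← (Fin.consEquiv fun _ : Fin (n + 2) => F).tsum_eq, kap, theta,
    tsum_mul_tsum_of_summable_norm hA hB]
  refine tsum_congr fun p => ?_
  obtain ⟨ξ0, ξ⟩ := p
  have h1 : (Fin.consEquiv fun _ : Fin (n + 2) => F) (ξ0, ξ) =
      (Fin.cons ξ0 ξ : Fin (n + 2) → F) := rfl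
  have h2 : vfac v₁ v (Fin.cons hx h : Fin (n + 2) → F) 0 (Fin.cons ξ0 ξ : Fin (n + 2) → F)
      (Fin.cons 0 y : Fin (n + 1) → ℂ) = (v ξ0 : ℂ) := by
    rw [vfac, hat_cons, Fin.cons_zero, Fin.cons_zero]
    simp
  have h3 : prodSB φx φ (Fin.cons ξ0 ξ : Fin (n + 2) → F) = φx ξ0 * φ ξ := by
    rw [prodSB, Fin.cons_zero, Fin.tail_cons]
  rw [h1, h2, h3, gauss_cons, ev_cons, ev_cons, ds_cons]
  ring

end

end Pool.Agent.CMP
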