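import Pool.Agent.Lib.CMP.VDefs
import Pool.Agent.Lib.CMH.Gs2

/-!
# Tank CMP, row V6 (helper62): the constant of the restriction is not zero for some function

For `φ_M` the indicator of `1 + M 𝓞` the sum tends to its term at `1` as `M → ∞`.
-/

set_option autoImplicit false

set_option linter.unusedSectionVars false

open scoped ComplexConjugate Matrix
open Complex Filter Topology

namespace Pool.Agent.CMP

open Pool.Agent.CMN

noncomputable section

variable {F : Type} [Field F] [NumberField F]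

namespace V6

open Classical in
/-- the indicator of `1 + M 𝓞` -/
def ph (M : ℕ) (ξ : F) : ℂ := if ∃ η : F, IsIntegral ℤ η ∧ ξ = 1 + (M : F) * η then 1 else 0

theorem ph_sb {M : ℕ} (hM : 0 < M) : IsSB1 (ph M : F → ℂ) := by
  refine ⟨M, hM, fun ξ h => ?_, fun ξ η hη => ?_⟩
  · unfold ph at h
    split_ifs at h with h1
    · obtain ⟨η, hη, rfl⟩ := h1
      exact (isIntegral_natCast _).mul (isIntegral_one.add ((isIntegral_natCast _).mul hη))
    · exact absurd rfl h
  · unfold ph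
    congr 1
    apply propext
    constructor
    · rintro ⟨ζ, hζ, h⟩
      refine ⟨ζ - η, hζ.sub hη, ?_⟩
      linear_combination h
    · rintro ⟨ζ, hζ, h⟩
      refine ⟨ζ + η, hζ.add hη, ?_⟩
      linear_combination h

theorem ph_norm (M : ℕ) (ξ : F) : ‖ph M ξ‖ ≤ 1 := by
  unfold ph
  split_ifs <;> simp

theorem ph_one (M : ℕ) : ph M (1 : F) = 1 := by
  unfold ph
  rw [if_pos]
  exact ⟨0, isIntegral_zero, by ring⟩

theorem ph_int {M : ℕ} {ξ : F} (h : ph M ξ ≠ 0) : IsIntegral ℤ ξ := by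
  unfold ph at h
  split_ifs at h with h1
  · obtain ⟨η, hη, rfl⟩ := h1
    exact isIntegral_one.add ((isIntegral_natCast _).mul hη)
  · exact absurd rfl h

/-- a number `≠ 1` is in `1 + M 𝓞` for boundedly many `M` only -/
theorem ph_eventually {ξ : F} (hξ : ξ ≠ 1) : ∀ᶠ M : ℕ in atTop, ph M ξ = 0 := by
  obtain ⟨B, hB⟩ := exists_nat_gt |Algebra.norm ℚ (ξ - 1)|
  filter_upwards [eventually_ge_atTop (B + 1)] with M hM
  unfold ph
  rw [if_neg]
  rintro ⟨η, hη, h⟩
  have hη0 : η ≠ 0 := by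
    rintro rfl
    apply hξ
    rw [h]
    ring
  have h1 : ξ - 1 = algebraMap ℚ F (M : ℚ) * η := by
    rw [h, map_natCast]
    ring
  have h2 : Algebra.norm ℚ (ξ - 1) = (M : ℚ) ^ (Module.finrank ℚ F) * Algebra.norm ℚ η := by
    rw [h1, map_mul, Algebra.norm_algebraMap]
  obtain ⟨z, hz⟩ := IsIntegrallyClosed.isIntegral_iff.1 (Algebra.isIntegral_norm ℚ hη)
  have hn0 : Algebra.norm ℚ η ≠ 0 := Algebra.norm_ne_zero_iff.2 hη0
  have hz0 : z ≠ 0 := by
    rintro rfl
    apply hn0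
    rw [← hz, map_zero]
  have h3 : (1 : ℚ) ≤ |Algebra.norm ℚ η| := by
    rw [← hz]
    have : (1 : ℤ) ≤ |z| := Int.one_le_abs hz0
    simp only [eq_intCast]
    exact_mod_cast this
  have hM1 : (1 : ℚ) ≤ M := by
    have : 1 ≤ M := by omega
    exact_mod_cast this
  have h4 : (M : ℚ) ≤ (M : ℚ) ^ (Module.finrank ℚ F) :=
    le_self_pow₀ hM1 (Module.finrank_pos).ne'
  have h5 : (M : ℚ) ≤ |Algebra.norm ℚ (ξ - 1)| := by
    rw [h2, abs_mul, abs_of_nonneg (pow_nonneg (by linarith) _)]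
    nlinarith
  have h6 : (B : ℚ) + 1 ≤ M := by exact_mod_cast hM
  linarith

end V6

open V6

/-- Row V6. -/
theorem v6_of : V6 := by
  classical
  intro F _ _ _ v D hx a hD hh ha
  set G : F → ℂ := fun ξ => cexp (-(Real.pi : ℂ) * ∑ u : F →+* ℝ,
    ((|u a| / √(u D) * (u hx * u ξ * u ξ) : ℝ) : ℂ)) * (v ξ : ℂ) with hG
  have hcoef : ∀ u : F →+* ℝ, 0 < |u a| / √(u D) * u hx := by
    intro u
    have h1 : u a ≠ 0 := (map_ne_zero u).2 ha
    have := hD u
    have := hh u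
    positivity
  obtain ⟨c, hc, hcu⟩ : ∃ c : ℝ, 0 < c ∧ ∀ u : F →+* ℝ, c ≤ |u a| / √(u D) * u hx := by
    have : Nonempty (F →+* ℝ) := ⟨v⟩
    obtain ⟨u0, hu0⟩ := Finite.exists_min fun u : F →+* ℝ => |u a| / √(u D) * u hx
    exact ⟨_, hcoef u0, hu0⟩
  have hGn : ∀ ξ : F, ‖G ξ‖ ≤ (1 + Pool.CMH.nrm2 (fun _ : Unit => ξ)) ^ 1 *
      Real.exp (-(Real.pi * c * Pool.CMH.nrm2 (fun _ : Unit => ξ))) := by
    intro ξ
    have e1 : Pool.CMH.nrm2 (fun _ : Unit => ξ) = ∑ u : F →+* ℝ, (u ξ) ^ 2 := by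
      simp [Pool.CMH.nrm2]
    rw [hG]
    simp only []
    rw [norm_mul, Complex.norm_exp, ← Complex.ofReal_sum, ← Complex.ofReal_neg,
      ← Complex.ofReal_mul, Complex.ofReal_re, Complex.norm_real, Real.norm_eq_abs, e1, pow_one,
      mul_comm]
    refine mul_le_mul ?_ ?_ (Real.exp_pos _).le ?_
    · have h1 : (v ξ) ^ 2 ≤ ∑ u : F →+* ℝ, (u ξ) ^ 2 :=
        Finset.single_le_sum (f := fun u : F →+* ℝ => (u ξ) ^ 2) (fun u _ => sq_nonneg _)
          (Finset.mem_univ v)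
      have h2 : |v ξ| ≤ 1 + (v ξ) ^ 2 := by
        rw [← sq_abs]
        nlinarith [sq_nonneg (|v ξ| - 1), abs_nonneg (v ξ)]
      linarith
    · rw [Real.exp_le_exp, neg_mul, neg_le_neg_iff, mul_assoc]
      refine mul_le_mul_of_nonneg_left ?_ Real.pi_pos.le
      rw [Finset.mul_sum]
      refine Finset.sum_le_sum fun u _ => ?_
      have h1 := hcu u
      have h2 : 0 ≤ (u ξ) ^ 2 := sq_nonneg _
      calc c * (u ξ) ^ 2 ≤ |u a| / √(u D) * u hx * (u ξ) ^ 2 := mul_le_mul_of_nonneg_right h1 h2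
        _ = |u a| / √(u D) * (u hx * u ξ * u ξ) := by ring
    · have : 0 ≤ ∑ u : F →+* ℝ, (u ξ) ^ 2 := Finset.sum_nonneg fun u _ => sq_nonneg _
      linarith
  set bd : F → ℝ := fun ξ => (Pool.CMH.Lat F Unit 1).indicator (fun ξ =>
    (1 + Pool.CMH.nrm2 ξ) ^ 1 * Real.exp (-(Real.pi * c * Pool.CMH.nrm2 ξ))) (fun _ : Unit => ξ)
    with hbd
  have hsum : Summable bd := by
    have h := Pool.CMH.summable_gs (F := F) (ι := Unit) 1 one_pos (Real.pi * c) (by positivity) 1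
    exact ((Equiv.funUnique Unit F).symm.summable_iff (f := fun ξ : Unit → F =>
      (Pool.CMH.Lat F Unit 1).indicator (fun ξ => (1 + Pool.CMH.nrm2 ξ) ^ 1 *
        Real.exp (-(Real.pi * c * Pool.CMH.nrm2 ξ))) ξ)).2 h
  have hlim := tendsto_tsum_of_dominated_convergence (𝓕 := (atTop : Filter ℕ))
    (f := fun M ξ => ph M ξ * G ξ) (g := fun ξ => if ξ = 1 then G 1 else 0) hsum
    (fun ξ => by
      by_cases h : ξ = 1
      · rw [if_pos h, h]
        refine tendsto_const_nhds.congr fun M => ?_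
        rw [ph_one, one_mul]
      · rw [if_neg h]
        refine tendsto_const_nhds.congr' ?_
        filter_upwards [ph_eventually h] with M hM
        rw [hM, zero_mul])
    (Eventually.of_forall fun M ξ => by
      rw [norm_mul]
      by_cases h : ph M ξ = 0
      · rw [h, norm_zero, zero_mul, hbd]
        refine Set.indicator_nonneg (fun ζ _ => ?_) _
        have := Pool.CMH.nrm2_nonneg ζ
        positivity
      · have hm : (fun _ : Unit => ξ) ∈ Pool.CMH.Lat F Unit 1 := by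
          intro i
          simpa using ph_int h
        rw [hbd]
        simp only []
        rw [Set.indicator_of_mem hm]
        calc ‖ph M ξ‖ * ‖G ξ‖ ≤ 1 * ‖G ξ‖ :=
              mul_le_mul_of_nonneg_right (ph_norm M ξ) (norm_nonneg _)
          _ = ‖G ξ‖ := one_mul _
          _ ≤ _ := hGn ξ)
  rw [tsum_ite_eq] at hlim
  have hG1 : G 1 ≠ 0 := by
    rw [hG]
    simp only []
    refine mul_ne_zero (Complex.exp_ne_zero _) ?_
    rw [map_one]
    simp
  have hev := (hlim.eventually_ne hG1).and (eventually_gt_atTop 0)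
  obtain ⟨M, hM1, hM2⟩ := hev.exists
  refine ⟨ph M, ph_sb hM2, ?_⟩
  unfold kap
  have e : ∀ ξ : F, ph M ξ * cexp (-(Real.pi : ℂ) * ∑ u : F →+* ℝ,
      ((|u a| / √(u D) * (u hx * u ξ * u ξ) : ℝ) : ℂ)) * (v ξ : ℂ) = ph M ξ * G ξ := by
    intro ξ
    rw [hG]
    ring
  simp only [e]
  exact hM1

end

end Pool.Agent.CMP
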