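import Pool.Agent.Lib.CMP.E1
import Pool.Agent.Lib.CMP.E2
import Pool.Agent.Lib.CMP.E3
import Pool.Agent.Lib.CMP.E5
import Pool.Agent.Lib.CMP.E6
import Pool.Agent.Lib.CMP.E7bc
import Pool.Agent.Lib.CMP.KDisc
import Pool.Agent.Lib.CMP.KFin
import Pool.Agent.Lib.CMP.TH
import Pool.Agent.Lib.CMP.V1
import Pool.Agent.Lib.CMP.V2
import Pool.Agent.Lib.CMP.V4
import Pool.Agent.Lib.CMP.V5
import Pool.Agent.Lib.CMP.V6
import Pool.Agent.Lib.CMP.EP
import Pool.Agent.Lib.CMN.FinThm
import Pool.Agent.Lib.HCM.Fin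

/-!
# Tank CMP: the final assembly (helper51)

The theorem P2 on the CM type of theta one-forms (elementary proof of helper37), and the Hodge
conjecture for abelian varieties of CM type, without hypothesis.
-/

set_option autoImplicit false

namespace Pool.CMP

open Pool.CMN Pool.Agent.CMN

/-- The periods of theta one-forms. -/
theorem th : TH :=
  Pool.Agent.CMP.THa.th_of
    (Pool.Agent.CMP.v4_of Pool.Agent.CMP.v1 Pool.Agent.CMP.v2_of Pool.Agent.CMP.v3
      Pool.Agent.CMN.gamfin)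
    Pool.Agent.CMP.v5 Pool.Agent.CMP.v6_of

/-- The theorem on the CM type of theta one-forms. -/
theorem p2 : Pool.Agent.HCM.P2 :=
  ep_of Pool.Agent.CMN.cocx_coc Pool.Agent.CMN.hol e1 e2 e3 e4 e4p E5x.e5 e6
    (kdisc Pool.Agent.CMN.pdx Pool.Agent.CMN.cocx_coc) e7b e7c (et th) kod

/-- The Hodge conjecture for abelian varieties of CM type. -/
theorem hodge_full : Pool.Agent.HCM.HODGE :=
  Pool.Agent.HCM.hodge Pool.Agent.CMN.quot p2

end Pool.CMP
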