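import Pool.Agent.Lib.CMP.KDefs

/-!
# Tank CMP, row K1 (helper53): reversed Cauchy-Schwarz, compactness of the support of the kernel
-/

set_option autoImplicit false

open scoped ComplexConjugate Matrix
open Complex MeasureTheory

namespace Pool.CMP

namespace S1

variable {n : ℕ}

/-- The positive part of the form. -/
noncomputable def Apos (k : Fin (n + 1) → ℝ) (z : Fin (n + 1) → ℂ) : ℝ :=
  ∑ j : Fin n, k j.castSucc * ‖z j.castSucc‖ ^ 2

theorem Apos_nonneg {k : Fin (n + 1) → ℝ} (hk : Pool.CMN.Jac.Sg k) (z : Fin (n + 1) → ℂ) :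
    0 ≤ Apos k z :=
  Finset.sum_nonneg fun j _ => mul_nonneg (hk.pos j).le (by positivity)

theorem rho_eq (k : Fin (n + 1) → ℝ) (z : Fin (n + 1) → ℂ) :
    rho k z = -k (Fin.last n) * ‖z (Fin.last n)‖ ^ 2 - Apos k z := by
  rw [rho, Fin.sum_univ_castSucc, Apos]
  ring

theorem H_low {k : Fin (n + 1) → ℝ} (hk : Pool.CMN.Jac.Sg k) (z w : Fin (n + 1) → ℂ) :
    -k (Fin.last n) * (‖z (Fin.last n)‖ * ‖w (Fin.last n)‖) - √(Apos k z) * √(Apos k w) ≤
      ‖H k z w‖ := by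
  have h1 : ‖∑ j : Fin n, (k j.castSucc : ℂ) * conj (z j.castSucc) * w j.castSucc‖ ≤
      √(Apos k z) * √(Apos k w) := by
    have h2 : ‖∑ j : Fin n, (k j.castSucc : ℂ) * conj (z j.castSucc) * w j.castSucc‖ ≤
        ∑ j : Fin n, (√(k j.castSucc) * ‖z j.castSucc‖) * (√(k j.castSucc) * ‖w j.castSucc‖) := by
      refine (norm_sum_le _ _).trans (le_of_eq ?_)
      refine Finset.sum_congr rfl fun j _ => ?_
      rw [norm_mul, norm_mul, RCLike.norm_conj, Complex.norm_real, Real.norm_eq_abs,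
        abs_of_pos (hk.pos j)]
      have h3 := Real.mul_self_sqrt (hk.pos j).le
      linear_combination (-(‖z j.castSucc‖ * ‖w j.castSucc‖)) * h3
    refine h2.trans ?_
    have h4 := Finset.sum_mul_sq_le_sq_mul_sq Finset.univ
      (fun j : Fin n => √(k j.castSucc) * ‖z j.castSucc‖)
      (fun j : Fin n => √(k j.castSucc) * ‖w j.castSucc‖)
    have h5 : ∀ u : Fin (n + 1) → ℂ,
        ∑ j : Fin n, (√(k j.castSucc) * ‖u j.castSucc‖) ^ 2 = Apos k u := by
      intro u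
      refine Finset.sum_congr rfl fun j _ => ?_
      rw [mul_pow, Real.sq_sqrt (hk.pos j).le]
    rw [h5, h5] at h4
    rw [← Real.sqrt_mul (Apos_nonneg hk z)]
    exact Real.le_sqrt_of_sq_le h4
  have h2 : H k z w = (∑ j : Fin n, (k j.castSucc : ℂ) * conj (z j.castSucc) * w j.castSucc) +
      (k (Fin.last n) : ℂ) * conj (z (Fin.last n)) * w (Fin.last n) := by
    rw [H, Fin.sum_univ_castSucc]
  have h3 : ‖(k (Fin.last n) : ℂ) * conj (z (Fin.last n)) * w (Fin.last n)‖ =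
      -k (Fin.last n) * (‖z (Fin.last n)‖ * ‖w (Fin.last n)‖) := by
    rw [norm_mul, norm_mul, RCLike.norm_conj, Complex.norm_real, Real.norm_eq_abs,
      abs_of_neg hk.neg]
    ring
  have h4 := norm_sub_norm_le ((k (Fin.last n) : ℂ) * conj (z (Fin.last n)) * w (Fin.last n))
    (-(∑ j : Fin n, (k j.castSucc : ℂ) * conj (z j.castSucc) * w j.castSucc))
  rw [norm_neg, sub_neg_eq_add, add_comm ((k (Fin.last n) : ℂ) * _ * _), ← h2, h3] at h4
  linarith

/-- `√a |z_n|`. -/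
noncomputable def Xl (k : Fin (n + 1) → ℝ) (z : Fin (n + 1) → ℂ) : ℝ :=
  √(-k (Fin.last n)) * ‖z (Fin.last n)‖

theorem Xl_nonneg (k : Fin (n + 1) → ℝ) (z : Fin (n + 1) → ℂ) : 0 ≤ Xl k z := by
  unfold Xl; positivity

theorem Xl_sq {k : Fin (n + 1) → ℝ} (hk : Pool.CMN.Jac.Sg k) (z : Fin (n + 1) → ℂ) :
    Xl k z ^ 2 = rho k z + Apos k z := by
  rw [Xl, mul_pow, Real.sq_sqrt (by linarith [hk.neg]), rho_eq]
  ring

theorem H_low' {k : Fin (n + 1) → ℝ} (hk : Pool.CMN.Jac.Sg k) (z w : Fin (n + 1) → ℂ) :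
    Xl k z * Xl k w - √(Apos k z) * √(Apos k w) ≤ ‖H k z w‖ := by
  refine le_trans (le_of_eq ?_) (H_low hk z w)
  have h1 := Real.mul_self_sqrt (show 0 ≤ -k (Fin.last n) by linarith [hk.neg])
  rw [Xl, Xl]
  linear_combination (‖z (Fin.last n)‖ * ‖w (Fin.last n)‖) * h1

theorem sqrt_lt_Xl {k : Fin (n + 1) → ℝ} (hk : Pool.CMN.Jac.Sg k) {z : Fin (n + 1) → ℂ}
    (hz : 0 < rho k z) : √(Apos k z) < Xl k z := by
  rw [Real.sqrt_lt' ?_]
  · rw [Xl_sq hk]; linarith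
  · by_contra h
    have h1 : Xl k z = 0 := le_antisymm (not_lt.1 h) (Xl_nonneg k z)
    have h2 := Xl_sq hk z
    rw [h1] at h2
    have h3 := Apos_nonneg hk z
    nlinarith

/-- Reversed Cauchy-Schwarz. -/
theorem rho_mul_le {k : Fin (n + 1) → ℝ} (hk : Pool.CMN.Jac.Sg k) {z w : Fin (n + 1) → ℂ}
    (hz : 0 < rho k z) (hw : 0 < rho k w) : rho k z * rho k w ≤ ‖H k z w‖ ^ 2 := by
  have h1 := H_low' hk z w
  have hz1 := sqrt_lt_Xl hk hz
  have hw1 := sqrt_lt_Xl hk hw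
  have hz2 := Xl_sq hk z
  have hw2 := Xl_sq hk w
  have hz3 := Real.sq_sqrt (Apos_nonneg hk z)
  have hw3 := Real.sq_sqrt (Apos_nonneg hk w)
  have hz4 := Real.sqrt_nonneg (Apos k z)
  have hw4 := Real.sqrt_nonneg (Apos k w)
  set X := Xl k z
  set Y := Xl k w
  set p := √(Apos k z)
  set q := √(Apos k w)
  have h2 : 0 ≤ X * Y - p * q := by nlinarith
  have h3 : (X * Y - p * q) ^ 2 ≤ ‖H k z w‖ ^ 2 := pow_le_pow_left₀ h2 h1 2
  have e1 : rho k z = X ^ 2 - p ^ 2 := by linarith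
  have e2 : rho k w = Y ^ 2 - q ^ 2 := by linarith
  rw [e1, e2]
  nlinarith [sq_nonneg (X * q - Y * p)]

theorem one_le_tt {k : Fin (n + 1) → ℝ} (hk : Pool.CMN.Jac.Sg k) {z w : Fin (n + 1) → ℂ}
    (hz : 0 < rho k z) (hw : 0 < rho k w) : 1 ≤ tt k w z := by
  rw [tt, one_le_div (mul_pos hz hw)]
  exact rho_mul_le hk hz hw

theorem continuous_rho (k : Fin (n + 1) → ℝ) : Continuous (rho k) := by
  unfold rho
  fun_prop

theorem isOpen_cone (k : Fin (n + 1) → ℝ) : IsOpen (cone k) :=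
  isOpen_lt continuous_const (continuous_rho k)

/-- The standard compact subsets of the cone. -/
theorem isCompact_std {k : Fin (n + 1) → ℝ} (hk : Pool.CMN.Jac.Sg k) (m X : ℝ) (hX : 0 ≤ X)
    (hm : 0 ≤ m) : IsCompact {z : Fin (n + 1) → ℂ | m ≤ rho k z ∧ Xl k z ≤ X} := by
  have hXc : Continuous (Xl k) := by
    unfold Xl
    fun_prop
  refine IsCompact.of_isClosed_subset
    (isCompact_univ_pi fun j : Fin (n + 1) =>
      isCompact_closedBall (0 : ℂ) (X / √|k j|)) ?_ ?_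
  · exact (isClosed_le continuous_const (continuous_rho k)).inter
      (isClosed_le hXc continuous_const)
  · rintro z ⟨h1, h2⟩ j -
    rw [mem_closedBall_zero_iff, le_div_iff₀ (Real.sqrt_pos.2 (abs_pos.2 (hk.ne j)))]
    have h3 : Xl k z ^ 2 ≤ X ^ 2 := pow_le_pow_left₀ (Xl_nonneg k z) h2 2
    have h4 : Apos k z ≤ X ^ 2 := by
      rw [Xl_sq hk] at h3
      linarith
    refine abs_le_of_sq_le_sq' ?_ hX |>.2
    rw [mul_pow, Real.sq_sqrt (abs_nonneg _)]
    revert j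
    refine Fin.lastCases ?_ fun j => ?_
    · refine le_trans (le_of_eq ?_) h3
      rw [Xl, mul_pow, Real.sq_sqrt (by linarith [hk.neg]), abs_of_neg hk.neg]
      ring
    · refine le_trans ?_ h4
      rw [abs_of_pos (hk.pos j), Apos]
      refine le_trans (le_of_eq (by ring)) (Finset.single_le_sum
        (f := fun j : Fin n => k j.castSucc * ‖z j.castSucc‖ ^ 2)
        (fun i _ => mul_nonneg (hk.pos i).le (by positivity)) (Finset.mem_univ j))

end S1

open S1 in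
theorem k1 : K1 := by
  intro n k hk
  refine ⟨fun z hz w hw => one_le_tt hk hz hw, fun Q hQ hQc => ?_⟩
  rcases Q.eq_empty_or_nonempty with rfl | hne
  · exact ⟨∅, isCompact_empty, Set.empty_subset _, fun w hw => (Set.notMem_empty w hw).elim⟩
  obtain ⟨w₀, hw₀, hmin⟩ := hQ.exists_isMinOn hne (continuous_rho k).continuousOn
  have hXc : Continuous (Xl k) := by
    unfold Xl
    fun_prop
  obtain ⟨w₁, hw₁, hmax⟩ := hQ.exists_isMaxOn hne hXc.continuousOn
  set m := rho k w₀ with hm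
  set B := Xl k w₁ with hB
  have hm0 : 0 < m := hQc hw₀
  have hB0 : 0 < B := lt_of_le_of_lt (Real.sqrt_nonneg _) (sqrt_lt_Xl hk (hQc hw₁))
  refine ⟨{z | 1 / 2 ≤ rho k z ∧ Xl k z ≤ 4 * B ^ 2 / m},
    isCompact_std hk _ _ (by positivity) (by norm_num),
    fun z hz => lt_of_lt_of_le (by norm_num : (0 : ℝ) < 1 / 2) hz.1, ?_⟩
  intro w hw z hz1 hz2 hz3
  refine ⟨hz1, ?_⟩
  have hz0 : 0 < rho k z := by linarith
  have hw0 : 0 < rho k w := hQc hw
  have hwm : m ≤ rho k w := hmin hw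
  have hwB : Xl k w ≤ B := hmax hw
  have h1 := H_low' hk z w
  have hz4 := sqrt_lt_Xl hk hz0
  have hw4 := sqrt_lt_Xl hk hw0
  have hz5 := Xl_sq hk z
  have hw5 := Xl_sq hk w
  have hz6 := Real.sq_sqrt (Apos_nonneg hk z)
  have hw6 := Real.sq_sqrt (Apos_nonneg hk w)
  have hz7 := Real.sqrt_nonneg (Apos k z)
  have hw7 := Real.sqrt_nonneg (Apos k w)
  have h2 : ‖H k z w‖ ^ 2 ≤ 2 * (rho k z * rho k w) := by
    rw [tt, div_le_iff₀ (mul_pos hz0 hw0)] at hz3
    exact hz3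
  set X := Xl k z
  set Y := Xl k w
  set p := √(Apos k z)
  set q := √(Apos k w)
  have e2 : rho k w = Y ^ 2 - q ^ 2 := by linarith
  have h3 : ‖H k z w‖ ^ 2 ≤ (2 * B) ^ 2 := by
    refine h2.trans ?_
    have h4 : rho k w ≤ B ^ 2 := by
      rw [e2]
      nlinarith
    nlinarith
  have h4 : ‖H k z w‖ ≤ 2 * B := abs_le_of_sq_le_sq' h3 (by positivity) |>.2
  have h5 : X * (Y - q) ≤ 2 * B := by nlinarith
  have h6 : m ≤ 2 * B * (Y - q) := by nlinarith
  rw [le_div_iff₀ hm0]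
  have h7 : 0 ≤ X := by linarith
  have h8 : X * m ≤ X * (2 * B * (Y - q)) := mul_le_mul_of_nonneg_left h6 h7
  nlinarith

end Pool.CMP
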