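import Pool.Agent.Lib.CMP.K10Defs

/-!
# Tank CMP, row K10a: positivity of the form `k⁻¹` on `w^⊥` and on `w^⊥ ⊗ w^⊥` (helper87)
-/

set_option autoImplicit false

open scoped ComplexConjugate Matrix
open Complex

namespace Pool.CMP.KT

open Pool.CMP

variable {n : ℕ} {k : Fin (n + 1) → ℝ}

/-- Lagrange's identity. -/
theorem lagr (hk : Pool.CMN.Jac.Sg k) (c α : Fin (n + 1) → ℂ) (h : ∑ j, α j * c j = 0) :
    (-k (Fin.last n)) * ‖c (Fin.last n)‖ ^ 2 * ∑ j, (k j)⁻¹ * ‖α j‖ ^ 2 =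
      rho k c * ∑ i : Fin n, (k i.castSucc)⁻¹ * ‖α i.castSucc‖ ^ 2 +
      1 / 2 * ∑ i : Fin n, ∑ j : Fin n, (k i.castSucc)⁻¹ * (k j.castSucc)⁻¹ *
        ‖(k j.castSucc : ℂ) * conj (c j.castSucc) * α i.castSucc -
          (k i.castSucc : ℂ) * conj (c i.castSucc) * α j.castSucc‖ ^ 2 := by
  have hp : ∀ i : Fin n, k i.castSucc ≠ 0 := fun i => (hk.pos i).ne'
  have hl : k (Fin.last n) ≠ 0 := hk.neg.ne
  have h1 : ∀ i j : Fin n, (k i.castSucc)⁻¹ * (k j.castSucc)⁻¹ *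
        ‖(k j.castSucc : ℂ) * conj (c j.castSucc) * α i.castSucc -
          (k i.castSucc : ℂ) * conj (c i.castSucc) * α j.castSucc‖ ^ 2 =
      (k j.castSucc * ‖c j.castSucc‖ ^ 2) * ((k i.castSucc)⁻¹ * ‖α i.castSucc‖ ^ 2) +
      (k i.castSucc * ‖c i.castSucc‖ ^ 2) * ((k j.castSucc)⁻¹ * ‖α j.castSucc‖ ^ 2) -
      2 * ((α i.castSucc * c i.castSucc) * conj (α j.castSucc * c j.castSucc)).re := by
    intro i j
    have hi := hp i
    have hj := hp j
    rw [← Complex.normSq_eq_norm_sq, ← Complex.normSq_eq_norm_sq, ← Complex.normSq_eq_norm_sq,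
      ← Complex.normSq_eq_norm_sq, ← Complex.normSq_eq_norm_sq]
    simp only [Complex.normSq_apply, Complex.mul_re, Complex.mul_im, Complex.sub_re,
      Complex.sub_im, Complex.conj_re, Complex.conj_im, Complex.ofReal_re, Complex.ofReal_im]
    field_simp
    ring
  have h2 : ‖α (Fin.last n)‖ ^ 2 * ‖c (Fin.last n)‖ ^ 2 =
      ∑ i : Fin n, ∑ j : Fin n,
        ((α i.castSucc * c i.castSucc) * conj (α j.castSucc * c j.castSucc)).re := by
    rw [Fin.sum_univ_castSucc] at h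
    have h3 : α (Fin.last n) * c (Fin.last n) = -∑ i : Fin n, α i.castSucc * c i.castSucc := by
      linear_combination h
    rw [← mul_pow, ← norm_mul, h3, norm_neg, ← Complex.normSq_eq_norm_sq]
    have h4 : ((Complex.normSq (∑ i : Fin n, α i.castSucc * c i.castSucc) : ℝ) : ℂ) =
        ∑ i : Fin n, ∑ j : Fin n,
        ((α i.castSucc * c i.castSucc) * conj (α j.castSucc * c j.castSucc)) := by
      rw [← Complex.mul_conj, map_sum, Finset.sum_mul_sum]
    have h5 := congrArg Complex.re h4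
    rw [Complex.ofReal_re, Complex.re_sum] at h5
    rw [h5]
    refine Finset.sum_congr rfl fun i _ => ?_
    rw [Complex.re_sum]
  simp only [h1, Finset.sum_sub_distrib, Finset.sum_add_distrib, ← Finset.mul_sum,
    ← Finset.sum_mul]
  rw [← h2, rho, Fin.sum_univ_castSucc, Fin.sum_univ_castSucc]
  field_simp
  ring

theorem last_pos (hk : Pool.CMN.Jac.Sg k) {c : Fin (n + 1) → ℂ} (hc : c ∈ cone k) :
    0 < (-k (Fin.last n)) * ‖c (Fin.last n)‖ ^ 2 := by
  have h1 : 0 < rho k c := hc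
  rw [rho, Fin.sum_univ_castSucc] at h1
  have h2 : 0 ≤ ∑ i : Fin n, k i.castSucc * ‖c i.castSucc‖ ^ 2 :=
    Finset.sum_nonneg fun i _ => mul_nonneg (hk.pos i).le (by positivity)
  linarith

theorem pos1 (hk : Pool.CMN.Jac.Sg k) {c : Fin (n + 1) → ℂ} (hc : c ∈ cone k)
    (α : Fin (n + 1) → ℂ) (h : ∑ j, α j * c j = 0) :
    0 ≤ ∑ j, (k j)⁻¹ * ‖α j‖ ^ 2 ∧ (∑ j, (k j)⁻¹ * ‖α j‖ ^ 2 = 0 → ∀ j, α j = 0) := by
  have h1 := lagr hk c α h
  have h2 := last_pos hk hc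
  have h3 : 0 ≤ ∑ i : Fin n, (k i.castSucc)⁻¹ * ‖α i.castSucc‖ ^ 2 :=
    Finset.sum_nonneg fun i _ => mul_nonneg (inv_pos.2 (hk.pos i)).le (by positivity)
  have h4 : 0 ≤ 1 / 2 * ∑ i : Fin n, ∑ j : Fin n, (k i.castSucc)⁻¹ * (k j.castSucc)⁻¹ *
        ‖(k j.castSucc : ℂ) * conj (c j.castSucc) * α i.castSucc -
          (k i.castSucc : ℂ) * conj (c i.castSucc) * α j.castSucc‖ ^ 2 := by
    refine mul_nonneg (by norm_num) (Finset.sum_nonneg fun i _ => Finset.sum_nonneg fun j _ => ?_)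
    exact mul_nonneg (mul_nonneg (inv_pos.2 (hk.pos i)).le (inv_pos.2 (hk.pos j)).le)
      (by positivity)
  have h5 : 0 < rho k c := hc
  constructor
  · by_contra hcon
    push Not at hcon
    have := mul_neg_of_pos_of_neg h2 hcon
    have := mul_nonneg h5.le h3
    linarith
  · intro h6
    rw [h6, mul_zero] at h1
    have h7 : ∑ i : Fin n, (k i.castSucc)⁻¹ * ‖α i.castSucc‖ ^ 2 = 0 := by
      by_contra hcon
      have := mul_pos h5 (lt_of_le_of_ne h3 (Ne.symm hcon))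
      linarith
    have h8 : ∀ i : Fin n, α i.castSucc = 0 := by
      intro i
      have h9 := (Finset.sum_eq_zero_iff_of_nonneg (fun i _ =>
        mul_nonneg (inv_pos.2 (hk.pos i)).le (by positivity))).1 h7 i (Finset.mem_univ _)
      have h10 := (mul_eq_zero.1 h9).resolve_left (inv_pos.2 (hk.pos i)).ne'
      exact norm_eq_zero.1 (pow_eq_zero_iff (two_ne_zero)|>.1 h10)
    have h9 : c (Fin.last n) ≠ 0 := by
      intro h10
      rw [h10, norm_zero] at h2
      simp at h2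
    rw [Fin.sum_univ_castSucc, Finset.sum_eq_zero (fun i _ => by rw [h8 i, zero_mul]),
      zero_add] at h
    intro j
    refine Fin.lastCases ?_ (fun i => h8 i) j
    exact (mul_eq_zero.1 h).resolve_right h9

theorem conj_mem_cone {c : Fin (n + 1) → ℂ} (hc : c ∈ cone k) : (fun j => conj (c j)) ∈ cone k := by
  have h1 : 0 < rho k c := hc
  show 0 < rho k _
  rw [rho] at *
  simpa using h1

theorem pos2 (hk : Pool.CMN.Jac.Sg k) {w : Fin (n + 1) → ℂ} (hw : w ∈ cone k)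
    (M : Fin (n + 1) → Fin (n + 1) → ℂ) (h : ∀ l, ∑ j, conj (w j) * M j l = 0)
    (h' : ∀ j, ∑ l, w l * M j l = 0) :
    0 ≤ ∑ j, ∑ l, (k j)⁻¹ * (k l)⁻¹ * ‖M j l‖ ^ 2 := by
  have h1 := last_pos hk (conj_mem_cone hw)
  refine nonneg_of_mul_nonneg_right (b := ∑ j, ∑ l, (k j)⁻¹ * (k l)⁻¹ * ‖M j l‖ ^ 2) ?_ h1
  have h2 : ∀ l, ((-k (Fin.last n)) * ‖conj (w (Fin.last n))‖ ^ 2) *
      ∑ j, (k j)⁻¹ * ‖M j l‖ ^ 2 = _ :=
    fun l => lagr hk (fun j => conj (w j)) (fun j => M j l)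
      (by rw [← h l]; exact Finset.sum_congr rfl fun j _ => mul_comm _ _)
  have h3 : ((-k (Fin.last n)) * ‖conj (w (Fin.last n))‖ ^ 2) *
      ∑ j, ∑ l, (k j)⁻¹ * (k l)⁻¹ * ‖M j l‖ ^ 2 =
      ∑ l, (k l)⁻¹ * (((-k (Fin.last n)) * ‖conj (w (Fin.last n))‖ ^ 2) *
      ∑ j, (k j)⁻¹ * ‖M j l‖ ^ 2) := by
    rw [Finset.sum_comm, Finset.mul_sum]
    refine Finset.sum_congr rfl fun l _ => ?_
    rw [Finset.mul_sum, Finset.mul_sum, Finset.mul_sum]
    exact Finset.sum_congr rfl fun j _ => by ring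
  rw [h3]
  simp only [h2]
  have h4 : ∀ l, (k l)⁻¹ * (rho k (fun j => conj (w j)) *
      ∑ i : Fin n, (k i.castSucc)⁻¹ * ‖M i.castSucc l‖ ^ 2 +
      1 / 2 * ∑ i : Fin n, ∑ j : Fin n, (k i.castSucc)⁻¹ * (k j.castSucc)⁻¹ *
        ‖(k j.castSucc : ℂ) * conj (conj (w j.castSucc)) * M i.castSucc l -
          (k i.castSucc : ℂ) * conj (conj (w i.castSucc)) * M j.castSucc l‖ ^ 2) =
      (∑ i : Fin n, rho k (fun j => conj (w j)) * (k i.castSucc)⁻¹ *
        ((k l)⁻¹ * ‖M i.castSucc l‖ ^ 2)) +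
      ∑ i : Fin n, ∑ j : Fin n, (1 / 2 * ((k i.castSucc)⁻¹ * (k j.castSucc)⁻¹)) *
        ((k l)⁻¹ * ‖(k j.castSucc : ℂ) * conj (conj (w j.castSucc)) * M i.castSucc l -
          (k i.castSucc : ℂ) * conj (conj (w i.castSucc)) * M j.castSucc l‖ ^ 2) := by
    intro l
    rw [mul_add, Finset.mul_sum, Finset.mul_sum, Finset.mul_sum, Finset.mul_sum]
    congr 1
    · exact Finset.sum_congr rfl fun i _ => by ring
    · refine Finset.sum_congr rfl fun i _ => ?_
      rw [Finset.mul_sum, Finset.mul_sum]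
      exact Finset.sum_congr rfl fun j _ => by ring
  simp only [h4]
  rw [Finset.sum_add_distrib, Finset.sum_comm]
  have h5 : 0 < rho k (fun j => conj (w j)) := conj_mem_cone hw
  refine add_nonneg (Finset.sum_nonneg fun i _ => ?_) ?_
  · rw [← Finset.mul_sum]
    refine mul_nonneg (mul_nonneg h5.le (inv_pos.2 (hk.pos i)).le) ?_
    have e0 : ∑ j, M i.castSucc j * w j = 0 := by
      rw [← h' i.castSucc]
      exact Finset.sum_congr rfl fun j _ => mul_comm _ _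
    exact (pos1 hk hw _ e0).1
  · rw [Finset.sum_comm]
    refine Finset.sum_nonneg fun i _ => ?_
    rw [Finset.sum_comm]
    refine Finset.sum_nonneg fun j _ => ?_
    rw [← Finset.mul_sum]
    refine mul_nonneg (mul_nonneg (by norm_num) (mul_nonneg (inv_pos.2 (hk.pos i)).le
      (inv_pos.2 (hk.pos j)).le)) ?_
    refine (pos1 hk hw _ ?_).1
    have e1 := h' i.castSucc
    have e2 := h' j.castSucc
    have : ∀ l, ((k j.castSucc : ℂ) * conj (conj (w j.castSucc)) * M i.castSucc l -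
          (k i.castSucc : ℂ) * conj (conj (w i.castSucc)) * M j.castSucc l) * w l =
        (k j.castSucc : ℂ) * conj (conj (w j.castSucc)) * (w l * M i.castSucc l) -
          (k i.castSucc : ℂ) * conj (conj (w i.castSucc)) * (w l * M j.castSucc l) := by
      intro l; ring
    simp only [this]
    rw [Finset.sum_sub_distrib, ← Finset.mul_sum, ← Finset.mul_sum, e1, e2]
    ring

end Pool.CMP.KT
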