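import Pool.Agent.Lib.CMP.K9b
import Pool.Agent.Lib.CMP.K1
import Pool.Agent.Lib.CMP.Cov

/-!
# CMP, row K9 (helper72): `ρ □` commutes with the averaging operator

`P(w,z) = kf(t) H(z,w)`.  Three facts.
* `ρ(w) □_w P(w,z) = H(z,w) G(t)` with a real function `G` (`box_pp`), hence by the symmetry
  `P(w,z) = conj P(z,w)` the same value for `z` (`star`);
* differentiation under the integral sign (K9b);
* `η (P □S - S □P) = ∑ k_j⁻¹ (∂_j (η P ∂bar_j S) - ∂bar_j (η S ∂_j P))`, by Euler's relations.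
-/

set_option autoImplicit false
set_option linter.unusedSimpArgs false

open scoped ComplexConjugate Matrix ContDiff Topology
open Complex MeasureTheory

namespace Pool.CMP
namespace K9

noncomputable section

variable {n : ℕ}

/-! ### the cut off functions -/

theorem contDiff_kf : ContDiff ℝ ∞ kf :=
  Real.smoothTransition.contDiff.comp (contDiff_const.sub contDiff_id)

theorem contDiff_eta : ContDiff ℝ ∞ eta :=
  (Real.smoothTransition.contDiff.comp (contDiff_id.sub contDiff_const)).mul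
    (Real.smoothTransition.contDiff.comp (contDiff_const.sub contDiff_id))

theorem kf_zero {t : ℝ} (ht : 2 ≤ t) : kf t = 0 :=
  Real.smoothTransition.zero_of_nonpos (by linarith)

theorem eta_zero_left {r : ℝ} (hr : r ≤ 1 / 2) : eta r = 0 := by
  unfold eta
  rw [Real.smoothTransition.zero_of_nonpos (by linarith), zero_mul]

theorem eta_zero_right {r : ℝ} (hr : 2 ≤ r) : eta r = 0 := by
  unfold eta
  rw [Real.smoothTransition.zero_of_nonpos (x := 2 - r) (by linarith), mul_zero]

/-- `kf'` -/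
def kf1 : ℝ → ℝ := deriv kf

/-- `kf''` -/
def kf2 : ℝ → ℝ := deriv kf1

theorem hasDerivAt_kf (t : ℝ) : HasDerivAt kf (kf1 t) t :=
  ((contDiff_kf.differentiable (by simp)) t).hasDerivAt

theorem contDiff_kf1 : ContDiff ℝ ∞ kf1 := by
  exact (contDiff_infty_iff_deriv.1 contDiff_kf).2

theorem hasDerivAt_kf1 (t : ℝ) : HasDerivAt kf1 (kf2 t) t :=
  ((contDiff_kf1.differentiable (by simp)) t).hasDerivAt

/-! ### the kernel `P` -/

/-- `P(w,z)`, `z` is the parameter. -/
def pp (k : Fin (n + 1) → ℝ) (z w : Fin (n + 1) → ℂ) : ℂ := (kf (tt k w z) : ℂ) * H k z w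

theorem tt_symm (k : Fin (n + 1) → ℝ) (z w : Fin (n + 1) → ℂ) : tt k w z = tt k z w := by
  unfold tt
  rw [← K9.H_conj k w z, Complex.norm_conj, mul_comm]

theorem pp_conj (k : Fin (n + 1) → ℝ) (z w : Fin (n + 1) → ℂ) :
    pp k z w = conj (pp k w z) := by
  unfold pp
  rw [map_mul, Complex.conj_ofReal, K9.H_conj, tt_symm]

theorem ker_eq (k : Fin (n + 1) → ℝ) (w z : Fin (n + 1) → ℂ) :
    ker k w z = -((eta (rho k z) : ℂ) / rho k z) * pp k z w := by
  unfold ker pp
  rw [K9.H_self]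
  push_cast
  by_cases h : (rho k z : ℂ) = 0
  · simp [h]
  · field_simp

theorem hd_pp (k : Fin (n + 1) → ℝ) {w z : Fin (n + 1) → ℂ} (hw : rho k w ≠ 0) :
    HD (pp k z)
      (fun j => ((kf1 (tt k w z) : ℂ) * ((k j : ℂ) * ((starRingEnd ℂ) (z j) * H k w z / rho k z +
        (tt k w z : ℂ) * (starRingEnd ℂ) (w j)) / rho k w)) * H k z w +
        (kf (tt k w z) : ℂ) * ((k j : ℂ) * (starRingEnd ℂ) (z j)))
      (fun j => ((kf1 (tt k w z) : ℂ) * ((k j : ℂ) * (z j * H k z w / rho k z +
        (tt k w z : ℂ) * w j) / rho k w)) * H k z w) w := by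
  have h1 := (hd_tt k (z := z) hw).re_comp (hasDerivAt_kf (tt k w z))
  refine (h1.mul (hd_H k z w)).congr Filter.EventuallyEq.rfl ?_ ?_
  · ext j; rfl
  · ext j; simp

/-- The second derivatives of `P`. -/
theorem box_pp {k : Fin (n + 1) → ℝ} (hk : ∀ j, k j ≠ 0) {w z : Fin (n + 1) → ℂ}
    (hw : w ∈ cone k) (hz : z ∈ cone k) :
    (rho k w : ℂ) * Box k (pp k z) w = H k z w * (((kf2 (tt k w z)) * (tt k w z ^ 2 - tt k w z) +
      kf1 (tt k w z) * ((n + 2) * tt k w z - 2) : ℝ) : ℂ) := by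
  have hw0 : rho k w ≠ 0 := (show 0 < rho k w from hw).ne'
  have hw' : (rho k w : ℂ) ≠ 0 := by exact_mod_cast hw0
  have hz0 : rho k z ≠ 0 := (show 0 < rho k z from hz).ne'
  have hz' : (rho k z : ℂ) ≠ 0 := by exact_mod_cast hz0
  have hcone : ∀ᶠ x in 𝓝 w, rho k x ≠ 0 := by
    filter_upwards [(S1.isOpen_cone k).mem_nhds hw] with x hx
    exact (show 0 < rho k x from hx).ne'
  -- first derivatives near `w`
  have h1 : ∀ j, dzb (pp k z) j =ᶠ[𝓝 w] fun x => (k j : ℂ) *
      ((((kf1 (tt k x z) : ℂ) * H k z x) * ((rho k x)⁻¹ : ℂ)) *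
        (z j * (rho k z : ℂ)⁻¹ * H k z x + (tt k x z : ℂ) * x j)) := by
    intro j
    filter_upwards [hcone] with x hx
    rw [(hd_pp k (z := z) hx).dzb j]
    rw [div_eq_mul_inv, div_eq_mul_inv]
    ring
  -- second derivatives
  have hq := (((hd_tt k (z := z) hw0).re_comp (hasDerivAt_kf1 (tt k w z))).mul
    (hd_H k z w)).mul ((hd_rho k w).inv_real hw0)
  have h2 : ∀ j, dz (dzb (pp k z) j) j w = (k j : ℂ) *
      (((((kf2 (tt k w z) : ℂ) * ((k j : ℂ) * ((starRingEnd ℂ) (z j) * H k w z / rho k z +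
        (tt k w z : ℂ) * (starRingEnd ℂ) (w j)) / rho k w)) * H k z w +
        (kf1 (tt k w z) : ℂ) * ((k j : ℂ) * (starRingEnd ℂ) (z j))) * ((rho k w)⁻¹ : ℂ) +
        ((kf1 (tt k w z) : ℂ) * H k z w) * (-((rho k w : ℂ) ^ 2)⁻¹ *
          (-(k j : ℂ) * (starRingEnd ℂ) (w j)))) *
        (z j * (rho k z : ℂ)⁻¹ * H k z w + (tt k w z : ℂ) * w j) +
      (((kf1 (tt k w z) : ℂ) * H k z w) * ((rho k w)⁻¹ : ℂ)) *
        (z j * (rho k z : ℂ)⁻¹ * ((k j : ℂ) * (starRingEnd ℂ) (z j)) +
        ((k j : ℂ) * ((starRingEnd ℂ) (z j) * H k w z / rho k z +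
        (tt k w z : ℂ) * (starRingEnd ℂ) (w j)) / rho k w * w j + (tt k w z : ℂ)))) := by
    intro j
    rw [dz_congr (h1 j) j]
    have h3 := ((hq.mul (((hd_H k z w).cmul (z j * (rho k z : ℂ)⁻¹)).add
      ((hd_tt k (z := z) hw0).mul (HD.coord j w)))).cmul (k j : ℂ))
    rw [h3.dz j]
    simp only [Pi.add_apply, Pi.single_eq_same, mul_one]
  -- the sums
  have s1 : ∑ j, (k j : ℂ) * (starRingEnd ℂ) (z j) * z j = -(rho k z : ℂ) := by
    rw [← K9.H_self]; rfl
  have s2 : ∑ j, (k j : ℂ) * (starRingEnd ℂ) (z j) * w j = H k z w := rfl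
  have s3 : ∑ j, (k j : ℂ) * (starRingEnd ℂ) (w j) * z j = H k w z := rfl
  have s4 : ∑ j, (k j : ℂ) * (starRingEnd ℂ) (w j) * w j = -(rho k w : ℂ) := by
    rw [← K9.H_self]; rfl
  have ht : (tt k w z : ℂ) * rho k w * rho k z = H k z w * H k w z := by
    rw [tt_eq, K9.H_conj]
    field_simp
  unfold Box
  set T : ℂ := (tt k w z : ℂ) with hT
  set A : ℂ := H k z w with hA
  set B : ℂ := H k w z with hB
  set R : ℂ := (rho k w : ℂ) with hR
  set R0 : ℂ := (rho k z : ℂ) with hR0
  set F1 : ℂ := (kf1 (tt k w z) : ℂ) with hF1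
  set F2 : ℂ := (kf2 (tt k w z) : ℂ) with hF2
  -- rewrite each term as a combination of the four sums
  have h4 : ∀ j, (((k j)⁻¹ : ℝ) : ℂ) * dz (dzb (pp k z) j) j w =
      ((k j : ℂ) * (starRingEnd ℂ) (z j) * z j) *
        (A / R0 * (F2 * B * A / (R0 * R * R) + F1 / R) + F1 * A / R / R0) +
      ((k j : ℂ) * (starRingEnd ℂ) (z j) * w j) *
        (T * (F2 * B * A / (R0 * R * R) + F1 / R) + F1 * A * B / (R0 * R * R)) +
      ((k j : ℂ) * (starRingEnd ℂ) (w j) * z j) *
        (A / R0 * (F2 * T * A / (R * R) + F1 * A / (R * R))) +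
      ((k j : ℂ) * (starRingEnd ℂ) (w j) * w j) *
        (T * (F2 * T * A / (R * R) + F1 * A / (R * R)) + F1 * A * T / (R * R)) +
      F1 * A * T / R := by
    intro j
    have hkj : (k j : ℂ) ≠ 0 := by exact_mod_cast hk j
    rw [h2 j]
    push_cast
    field_simp
    ring
  have h5 : ∑ j, (((k j)⁻¹ : ℝ) : ℂ) * dz (dzb (pp k z) j) j w =
      (-R0) * (A / R0 * (F2 * B * A / (R0 * R * R) + F1 / R) + F1 * A / R / R0) +
      A * (T * (F2 * B * A / (R0 * R * R) + F1 / R) + F1 * A * B / (R0 * R * R)) +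
      B * (A / R0 * (F2 * T * A / (R * R) + F1 * A / (R * R))) +
      (-R) * (T * (F2 * T * A / (R * R) + F1 * A / (R * R)) + F1 * A * T / (R * R)) +
      ((n : ℂ) + 1) * (F1 * A * T / R) := by
    rw [Finset.sum_congr rfl fun j _ => h4 j, Finset.sum_add_distrib, Finset.sum_add_distrib,
      Finset.sum_add_distrib, Finset.sum_add_distrib, ← Finset.sum_mul, ← Finset.sum_mul,
      ← Finset.sum_mul, ← Finset.sum_mul, s1, s2, s3, s4, Finset.sum_const, Finset.card_univ,
      Fintype.card_fin, nsmul_eq_mul]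
    push_cast
    rfl
  have h6 : ∑ j, ((k j : ℂ))⁻¹ * dz (dzb (pp k z) j) j w =
      ∑ j, (((k j)⁻¹ : ℝ) : ℂ) * dz (dzb (pp k z) j) j w := by
    refine Finset.sum_congr rfl fun j _ => ?_
    push_cast; rfl
  have h7 : A * B = T * R * R0 := ht.symm
  have e1 : F2 * B * A / (R0 * R * R) = F2 * T / R := by
    rw [mul_assoc F2 B A, mul_comm B A, h7]
    field_simp
  have e2 : F1 * A * B / (R0 * R * R) = F1 * T / R := by
    rw [mul_assoc F1 A B, h7]
    field_simp
  have e3 : B * (A / R0 * (F2 * T * A / (R * R) + F1 * A / (R * R))) =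
      T * (F2 * T * A / R + F1 * A / R) := by
    have : B * (A / R0 * (F2 * T * A / (R * R) + F1 * A / (R * R))) =
      (A * B) / R0 * (F2 * T * A / (R * R) + F1 * A / (R * R)) := by ring
    rw [this, h7]
    field_simp
  rw [h6, h5, e1, e2, e3]
  push_cast
  field_simp
  ring

/-- The symmetry of `ρ □ P`. -/
theorem star {k : Fin (n + 1) → ℝ} (hk : ∀ j, k j ≠ 0) {w z : Fin (n + 1) → ℂ}
    (hw : w ∈ cone k) (hz : z ∈ cone k) :
    (rho k w : ℂ) * Box k (pp k z) w = (rho k z : ℂ) * conj (Box k (pp k w) z) := by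
  rw [box_pp hk hw hz]
  have h := congrArg (starRingEnd ℂ) (box_pp hk hz hw)
  rw [map_mul, Complex.conj_ofReal, map_mul, Complex.conj_ofReal, K9.H_conj] at h
  rw [h, tt_symm k w z]

/-! ### smoothness -/

theorem contDiff_rho (k : Fin (n + 1) → ℝ) : ContDiff ℝ ∞ (rho k) := by
  unfold rho
  refine ContDiff.neg (ContDiff.sum fun j _ => contDiff_const.mul ?_)
  exact (contDiff_coord j).norm_sq ℝ

theorem contDiff_H (k : Fin (n + 1) → ℝ) : ContDiff ℝ ∞
    (fun p : (Fin (n + 1) → ℂ) × (Fin (n + 1) → ℂ) => H k p.2 p.1) := by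
  unfold H
  refine ContDiff.sum fun j _ => (contDiff_const.mul ?_).mul ?_
  · exact (contDiff_conj_coord j).comp contDiff_snd
  · exact (contDiff_coord j).comp contDiff_fst

theorem contDiffOn_ofReal {E : Type*} [NormedAddCommGroup E] [NormedSpace ℝ E] {f : E → ℝ}
    {s : Set E} (h : ContDiffOn ℝ ∞ f s) : ContDiffOn ℝ ∞ (fun x => (f x : ℂ)) s :=
  Complex.ofRealCLM.contDiff.comp_contDiffOn h

theorem contDiffOn_pp (k : Fin (n + 1) → ℝ) : ContDiffOn ℝ ∞
    (fun p : (Fin (n + 1) → ℂ) × (Fin (n + 1) → ℂ) => pp k p.2 p.1) (cone k ×ˢ cone k) := by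
  have h1 : ContDiffOn ℝ ∞ (fun p : (Fin (n + 1) → ℂ) × (Fin (n + 1) → ℂ) => tt k p.1 p.2)
      (cone k ×ˢ cone k) := by
    unfold tt
    refine ContDiffOn.div ((contDiff_H k).norm_sq ℝ).contDiffOn
      (((contDiff_rho k).comp contDiff_snd).mul ((contDiff_rho k).comp contDiff_fst)).contDiffOn ?_
    rintro ⟨w, z⟩ ⟨hw, hz⟩
    exact mul_ne_zero (show 0 < rho k z from hz).ne' (show 0 < rho k w from hw).ne'
  unfold pp
  exact (contDiffOn_ofReal (contDiff_kf.comp_contDiffOn h1)).mul (contDiff_H k).contDiffOn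

theorem contDiffOn_ker (k : Fin (n + 1) → ℝ) : ContDiffOn ℝ ∞
    (fun p : (Fin (n + 1) → ℂ) × (Fin (n + 1) → ℂ) => ker k p.1 p.2) (cone k ×ˢ cone k) := by
  have h1 : ContDiffOn ℝ ∞ (fun p : (Fin (n + 1) → ℂ) × (Fin (n + 1) → ℂ) =>
      -((eta (rho k p.2) : ℂ) / rho k p.2) * pp k p.2 p.1) (cone k ×ˢ cone k) := by
    have h2 : ContDiffOn ℝ ∞ (fun p : (Fin (n + 1) → ℂ) × (Fin (n + 1) → ℂ) =>
        (eta (rho k p.2) : ℂ)) (cone k ×ˢ cone k) := contDiffOn_ofReal
        ((contDiff_eta.comp ((contDiff_rho k).comp contDiff_snd)).contDiffOn)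
    have h3 : ContDiffOn ℝ ∞ (fun p : (Fin (n + 1) → ℂ) × (Fin (n + 1) → ℂ) =>
        (rho k p.2 : ℂ)) (cone k ×ˢ cone k) :=
      contDiffOn_ofReal (((contDiff_rho k).comp contDiff_snd).contDiffOn)
    have h4 : ContDiffOn ℝ ∞ (fun p : (Fin (n + 1) → ℂ) × (Fin (n + 1) → ℂ) =>
        (rho k p.2 : ℂ)⁻¹) (cone k ×ˢ cone k) := by
      refine h3.inv ?_
      rintro ⟨w, z⟩ ⟨hw, hz⟩
      have : rho k z ≠ 0 := (show 0 < rho k z from hz).ne'
      simpa using this
    have h5 := ((h2.mul h4).neg).mul (contDiffOn_pp k)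
    refine h5.congr fun p _ => ?_
    rw [div_eq_mul_inv]
  exact h1.congr fun p _ => ker_eq k p.1 p.2

theorem contDiffOn_pp1 (k : Fin (n + 1) → ℝ) {w : Fin (n + 1) → ℂ} (hw : w ∈ cone k) :
    ContDiffOn ℝ ∞ (pp k w) (cone k) := by
  have h1 : ContDiffOn ℝ ∞ (fun z => pp k z w) (cone k) := by
    have := (contDiffOn_pp k).comp (s := cone k) (g := fun p : (Fin (n + 1) → ℂ) ×
      (Fin (n + 1) → ℂ) => pp k p.2 p.1) (f := fun z => (w, z))
      (contDiff_prodMk_right w).contDiffOn (fun z hz => ⟨hw, hz⟩)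
    exact this
  have h2 : ContDiffOn ℝ ∞ (fun z => conj (pp k z w)) (cone k) :=
    (Complex.conjCLE : ℂ ≃L[ℝ] ℂ).contDiff.comp_contDiffOn h1
  exact h2.congr fun z _ => by rw [← pp_conj]

theorem contDiffOn_dz' {f : (Fin (n + 1) → ℂ) → ℂ} {U : Set (Fin (n + 1) → ℂ)} (hU : IsOpen U)
    (hf : ContDiffOn ℝ ∞ f U) (j : Fin (n + 1)) : ContDiffOn ℝ ∞ (dz f j) U := by
  have h := hf.fderiv_of_isOpen hU (m := ∞) (by simp)
  exact contDiffOn_const.mul ((h.clm_apply contDiffOn_const).sub
    (contDiffOn_const.mul (h.clm_apply contDiffOn_const)))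

theorem contDiffOn_dzb' {f : (Fin (n + 1) → ℂ) → ℂ} {U : Set (Fin (n + 1) → ℂ)} (hU : IsOpen U)
    (hf : ContDiffOn ℝ ∞ f U) (j : Fin (n + 1)) : ContDiffOn ℝ ∞ (dzb f j) U := by
  have h := hf.fderiv_of_isOpen hU (m := ∞) (by simp)
  exact contDiffOn_const.mul ((h.clm_apply contDiffOn_const).add
    (contDiffOn_const.mul (h.clm_apply contDiffOn_const)))

/-! ### the divergence -/

theorem pp_smul (k : Fin (n + 1) → ℝ) (z w : Fin (n + 1) → ℂ) {c : ℂ} (hc : c ≠ 0) :
    pp k z (c • w) = c * pp k z w := by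
  unfold pp
  have h1 : H k z (c • w) = c * H k z w := by
    unfold H
    rw [Finset.mul_sum]
    refine Finset.sum_congr rfl fun j _ => ?_
    simp only [Pi.smul_apply, smul_eq_mul]
    ring
  have h2 : rho k (c • w) = ‖c‖ ^ 2 * rho k w := by
    unfold rho
    rw [mul_neg, Finset.mul_sum]
    congr 1
    refine Finset.sum_congr rfl fun j _ => ?_
    simp only [Pi.smul_apply, smul_eq_mul, norm_mul]
    ring
  have h3 : tt k (c • w) z = tt k w z := by
    unfold tt
    rw [h1, h2, norm_mul, mul_pow]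
    have : ‖c‖ ^ 2 ≠ 0 := by simpa using hc
    rw [show rho k z * (‖c‖ ^ 2 * rho k w) = ‖c‖ ^ 2 * (rho k z * rho k w) by ring,
      mul_div_mul_left _ _ this]
  rw [h1, h3]
  ring

/-- The pointwise divergence identity on the cone. -/
theorem div_id {k : Fin (n + 1) → ℝ} (hk : ∀ j, k j ≠ 0) {S : (Fin (n + 1) → ℂ) → ℂ}
    (hS : ContDiffOn ℝ ∞ S (cone k)) (hom : Hom1 k S) {w z : Fin (n + 1) → ℂ}
    (hw : w ∈ cone k) (hz : z ∈ cone k) :
    ∑ j, ((k j : ℂ))⁻¹ * (dz (fun z => ((eta (rho k z) : ℂ) * conj (pp k w z)) * dzb S j z) j z -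
      dzb (fun z => ((eta (rho k z) : ℂ) * S z) * conj (dzb (pp k w) j z)) j z) =
    (eta (rho k z) : ℂ) * (conj (pp k w z) * Box k S z - S z * conj (Box k (pp k w) z)) := by
  have hO := S1.isOpen_cone k
  have hd : ∀ {f : (Fin (n + 1) → ℂ) → ℂ}, ContDiffOn ℝ ∞ f (cone k) →
      HD f (fun j => dz f j z) (fun j => dzb f j z) z := fun hf =>
    hd_of_diff ((hf.contDiffAt (hO.mem_nhds hz)).differentiableAt (by simp))
  have hp := contDiffOn_pp1 k hw
  have he : HD (fun z => (eta (rho k z) : ℂ)) (fun j => ((deriv eta (rho k z) : ℝ) : ℂ) *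
      (-(k j : ℂ) * (starRingEnd ℂ) (z j))) (fun j => ((deriv eta (rho k z) : ℝ) : ℂ) *
      (-(k j : ℂ) * z j)) z :=
    (hd_rho k z).re_comp (contDiff_eta.differentiable (by simp) _).hasDerivAt
  have e1 : ∑ j, conj (z j) * dzb S j z = 0 :=
    (euler ((hS.contDiffAt (hO.mem_nhds hz)).differentiableAt (by simp))
      (fun c hc => hom c hc z hz)).2
  have e2 : ∑ j, conj (z j) * dzb (pp k w) j z = 0 :=
    (euler ((hp.contDiffAt (hO.mem_nhds hz)).differentiableAt (by simp))
      (fun c hc => pp_smul k w z hc)).2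
  have e2' : ∑ j, z j * conj (dzb (pp k w) j z) = 0 := by
    have := congrArg (starRingEnd ℂ) e2
    rw [map_sum, map_zero] at this
    rw [← this]
    refine Finset.sum_congr rfl fun j _ => ?_
    rw [map_mul, Complex.conj_conj]
  have key : ∀ j, ((k j : ℂ))⁻¹ * (dz (fun z => ((eta (rho k z) : ℂ) * conj (pp k w z)) *
      dzb S j z) j z - dzb (fun z => ((eta (rho k z) : ℂ) * S z) *
      conj (dzb (pp k w) j z)) j z) =
      (-((deriv eta (rho k z) : ℝ) : ℂ) * conj (pp k w z)) * (conj (z j) * dzb S j z) +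
      (((deriv eta (rho k z) : ℝ) : ℂ) * S z) * (z j * conj (dzb (pp k w) j z)) +
      (eta (rho k z) : ℂ) * (conj (pp k w z) * (((k j : ℂ))⁻¹ * dz (dzb S j) j z)) -
      (eta (rho k z) : ℂ) * (S z * (((k j : ℂ))⁻¹ * conj (dz (dzb (pp k w) j) j z))) := by
    intro j
    have hkj : (k j : ℂ) ≠ 0 := by exact_mod_cast hk j
    have h1 := (he.mul (hd hp).conj).mul (hd (contDiffOn_dzb' hO hS j))
    have h2 := (he.mul (hd hS)).mul (hd (contDiffOn_dzb' hO hp j)).conj
    rw [h1.dz j, h2.dzb j]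
    field_simp
    ring
  rw [Finset.sum_congr rfl fun j _ => key j, Finset.sum_sub_distrib, Finset.sum_add_distrib,
    Finset.sum_add_distrib, ← Finset.mul_sum, ← Finset.mul_sum, ← Finset.mul_sum,
    ← Finset.mul_sum, ← Finset.mul_sum, ← Finset.mul_sum, e1, e2']
  unfold Box
  rw [map_sum]
  have h8 : ∑ i, ((k i : ℂ))⁻¹ * conj (dz (dzb (pp k w) i) i z) =
      ∑ i, (starRingEnd ℂ) (((k i : ℂ))⁻¹ * dz (dzb (pp k w) i) i z) := by
    refine Finset.sum_congr rfl fun j _ => ?_
    rw [map_mul, map_inv₀, Complex.conj_ofReal]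
  rw [h8]
  ring

end

end K9

open K9 in
theorem k9 : K9 := by
  intro n k hsg S hS0 hom w hw
  have hk : ∀ j, k j ≠ 0 := hsg.ne
  have hO := S1.isOpen_cone k
  have hS : ContDiffOn ℝ ∞ S (cone k) := contDiffOn_infty.2 hS0
  -- a neighbourhood of `w` and a compact support
  obtain ⟨r, hr, hrU⟩ : ∃ r > 0, Metric.closedBall w r ⊆ cone k :=
    Metric.nhds_basis_closedBall.mem_iff.1 (hO.mem_nhds hw)
  obtain ⟨Q, hQ, hQc, hQs⟩ := (k1 n k hsg).2 (Metric.closedBall w r)
    (isCompact_closedBall w r) hrU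
  have hww : w ∈ Metric.ball w r := Metric.mem_ball_self hr
  have hwc : w ∈ Metric.closedBall w r := Metric.mem_closedBall_self hr.le
  have hUo : IsOpen (Metric.ball w r) := Metric.isOpen_ball
  have hz0 : ∀ w' ∈ Metric.closedBall w r, ∀ z, z ∉ Q →
      eta (rho k z) = 0 ∨ 2 < tt k w' z := by
    intro w' hw' z hz
    by_contra hcon
    push Not at hcon
    obtain ⟨h1, h2⟩ := hcon
    refine hz (hQs w' hw' z ?_ ?_ h2)
    · by_contra h3
      exact h1 (eta_zero_left (by linarith))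
    · by_contra h3
      exact h1 (eta_zero_right (by linarith))
  have hpar : Par (Metric.ball w r) (cone k) Q (fun w z => ker k w z * S z) := by
    refine ⟨?_, ?_⟩
    · refine ContDiffOn.mul ((contDiffOn_ker k).mono
        (Set.prod_mono (Metric.ball_subset_closedBall.trans hrU) le_rfl)) ?_
      exact hS.comp contDiff_snd.contDiffOn (fun p hp => hp.2)
    · intro w' hw' z hz
      rw [ker_eq]
      unfold pp
      rcases hz0 w' (Metric.ball_subset_closedBall hw') z hz with h | h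
      · simp [h]
      · simp [kf_zero h.le]
  -- the two sides
  have hR : (rho k w : ℂ) * Box k (Av k S) w =
      ∫ z, (rho k w : ℂ) * Box k (fun w' => ker k w' z * S z) w := by
    rw [integral_const_mul, ← hpar.Box_integral hUo hO hQ hQc hww k]
    rfl
  have hRi : Integrable (fun z => (rho k w : ℂ) * Box k (fun w' => ker k w' z * S z) w) := by
    refine Integrable.const_mul ?_ _
    unfold Box
    refine integrable_finsetSum _ fun j _ => Integrable.const_mul ?_ _
    exact (((hpar.dzb hUo hO j).dz hUo hO j).integrable hO hQ hQc hww)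
  have hRz : ∀ z, (rho k w : ℂ) * Box k (fun w' => ker k w' z * S z) w =
      -((eta (rho k z) : ℂ) * (S z * conj (Box k (pp k w) z))) := by
    intro z
    have hker : (fun w' => ker k w' z * S z) =
        fun w' => (-((eta (rho k z) : ℂ) / rho k z) * S z) * pp k z w' := by
      funext w'
      rw [ker_eq]
      ring
    by_cases hz : z ∈ cone k
    · have hzr : (rho k z : ℂ) ≠ 0 := by exact_mod_cast (show 0 < rho k z from hz).ne'
      have hp : ContDiffOn ℝ ∞ (pp k z) (cone k) := contDiffOn_pp1 k hz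
      have hB : Box k (fun w' => ker k w' z * S z) w =
          (-((eta (rho k z) : ℂ) / rho k z) * S z) * Box k (pp k z) w := by
        rw [hker]
        unfold Box
        rw [Finset.mul_sum]
        refine Finset.sum_congr rfl fun j _ => ?_
        have h1 : dzb (fun w' => (-((eta (rho k z) : ℂ) / rho k z) * S z) * pp k z w') j
            =ᶠ[nhds w] fun w' => (-((eta (rho k z) : ℂ) / rho k z) * S z) *
              dzb (pp k z) j w' := by
          filter_upwards [hO.mem_nhds hw] with x hx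
          exact ((hd_of_diff ((hp.contDiffAt (hO.mem_nhds hx)).differentiableAt
            (by simp))).cmul _).dzb j
        rw [dz_congr h1 j, ((hd_of_diff (((contDiffOn_dzb' hO hp j).contDiffAt
          (hO.mem_nhds hw)).differentiableAt (by simp))).cmul _).dz j]
        ring
      rw [hB]
      have hst := star hk hw hz
      calc (rho k w : ℂ) * ((-((eta (rho k z) : ℂ) / rho k z) * S z) * Box k (pp k z) w)
          = (-((eta (rho k z) : ℂ) / rho k z) * S z) * ((rho k w : ℂ) * Box k (pp k z) w) := by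
            ring
        _ = _ := by
            rw [hst]
            field_simp
    · have h0 : eta (rho k z) = 0 := eta_zero_left (by
        have : ¬ 0 < rho k z := hz
        linarith)
      rw [hker]
      simp only [h0, Complex.ofReal_zero, zero_div, neg_zero, zero_mul]
      unfold Box
      have hb : ∀ j, dzb (fun _ : Fin (n + 1) → ℂ => (0 : ℂ)) j = fun _ => 0 := fun j => by
        funext x
        exact dzb_const 0 j x
      simp only [hb, dz_const, mul_zero, Finset.sum_const_zero]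
  have hLz : ∀ z, ker k w z * ((rho k z : ℂ) * Box k S z) =
      -((eta (rho k z) : ℂ) * (conj (pp k w z) * Box k S z)) := by
    intro z
    rw [ker_eq, pp_conj k z w]
    by_cases hz : rho k z = 0
    · have h0 : eta (rho k z) = 0 := eta_zero_left (by rw [hz]; norm_num)
      simp [h0]
    · have hzr : (rho k z : ℂ) ≠ 0 := by exact_mod_cast hz
      field_simp
  -- the divergence terms
  let X : Fin (n + 1) → (Fin (n + 1) → ℂ) → ℂ := fun j z =>
    ((eta (rho k z) : ℂ) * conj (pp k w z)) * dzb S j z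
  let Y : Fin (n + 1) → (Fin (n + 1) → ℂ) → ℂ := fun j z =>
    ((eta (rho k z) : ℂ) * S z) * conj (dzb (pp k w) j z)
  have hp := contDiffOn_pp1 k hw
  have hpc : ContDiffOn ℝ ∞ (fun z => conj (pp k w z)) (cone k) :=
    (Complex.conjCLE : ℂ ≃L[ℝ] ℂ).contDiff.comp_contDiffOn hp
  have heta : ContDiffOn ℝ ∞ (fun z => (eta (rho k z) : ℂ)) (cone k) :=
    contDiffOn_ofReal (contDiff_eta.comp (contDiff_rho k)).contDiffOn
  have hX1 : ∀ j, ContDiffOn ℝ 1 (X j) (cone k) := fun j =>
    ((heta.mul hpc).mul (contDiffOn_dzb' hO hS j)).of_le (by simp)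
  have hY1 : ∀ j, ContDiffOn ℝ 1 (Y j) (cone k) := fun j =>
    ((heta.mul hS).mul ((Complex.conjCLE : ℂ ≃L[ℝ] ℂ).contDiff.comp_contDiffOn
      (contDiffOn_dzb' hO hp j))).of_le (by simp)
  have hX0 : ∀ j z, z ∉ Q → X j z = 0 := by
    intro j z hz
    simp only [X]
    rw [← pp_conj k z w]
    unfold pp
    rcases hz0 w hwc z hz with h | h
    · simp [h]
    · simp [kf_zero h.le]
  have hY0 : ∀ j z, z ∉ Q → Y j z = 0 := by
    intro j z hz
    simp only [Y]
    rcases hz0 w hwc z hz with h | h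
    · simp [h]
    · by_cases hzc : z ∈ cone k
      · have h1 : dzb (pp k w) j z = 0 := by
          have hc : ContinuousAt (fun x => tt k x w) z := by
            unfold tt
            refine ContinuousAt.div ?_ ?_ ?_
            · refine ContinuousAt.pow (ContinuousAt.norm ?_) 2
              have : Continuous (fun x => H k w x) := by
                unfold H
                fun_prop
              exact this.continuousAt
            · exact continuousAt_const.mul (S1.continuous_rho k).continuousAt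
            · exact mul_ne_zero (show 0 < rho k w from hw).ne' (show 0 < rho k z from hzc).ne'
          have h2 : pp k w =ᶠ[nhds z] fun _ => 0 := by
            have h3 : ∀ᶠ x in nhds z, 2 < tt k x w :=
              hc.eventually_const_lt (by rw [tt_symm k z w] at h; exact h)
            filter_upwards [h3] with x hx
            unfold pp
            rw [kf_zero hx.le]
            simp
          rw [dzb_congr h2 j, dzb_const]
        rw [h1]
        simp
      · have h0 : eta (rho k z) = 0 := eta_zero_left (by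
          have : ¬ 0 < rho k z := hzc
          linarith)
        simp [h0]
  have hD0 : ∀ z, ∑ j, ((k j : ℂ))⁻¹ * (dz (X j) j z - dzb (Y j) j z) =
      (eta (rho k z) : ℂ) * (conj (pp k w z) * Box k S z - S z * conj (Box k (pp k w) z)) := by
    intro z
    by_cases hz : z ∈ cone k
    · exact div_id hk hS hom hw hz
    · have hlt : rho k z < 1 / 2 := by
        have : ¬ 0 < rho k z := hz
        linarith
      have h0 : eta (rho k z) = 0 := eta_zero_left hlt.le
      have hev : ∀ᶠ x in nhds z, eta (rho k x) = 0 := by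
        filter_upwards [(S1.continuous_rho k).continuousAt.eventually_lt_const hlt] with x hx
        exact eta_zero_left hx.le
      have hXe : ∀ j, dz (X j) j z = 0 := by
        intro j
        have : X j =ᶠ[nhds z] fun _ => 0 := by
          filter_upwards [hev] with x hx
          simp [X, hx]
        rw [dz_congr this j, dz_const]
      have hYe : ∀ j, dzb (Y j) j z = 0 := by
        intro j
        have : Y j =ᶠ[nhds z] fun _ => 0 := by
          filter_upwards [hev] with x hx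
          simp [Y, hx]
        rw [dzb_congr this j, dzb_const]
      rw [h0]
      simp [hXe, hYe]
  have hDi : Integrable (fun z => ∑ j, ((k j : ℂ))⁻¹ * (dz (X j) j z - dzb (Y j) j z)) ∧
      ∫ z, ∑ j, ((k j : ℂ))⁻¹ * (dz (X j) j z - dzb (Y j) j z) = 0 := by
    have hx := fun j => integral_dz_zero hO (hX1 j) hQ hQc (hX0 j) j
    have hy := fun j => integral_dzb_zero hO (hY1 j) hQ hQc (hY0 j) j
    have hxy : ∀ j ∈ (Finset.univ : Finset (Fin (n + 1))),
        Integrable (fun z => ((k j : ℂ))⁻¹ * (dz (X j) j z - dzb (Y j) j z)) :=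
      fun j _ => ((hx j).1.sub (hy j).1).const_mul _
    refine ⟨integrable_finsetSum _ hxy, ?_⟩
    rw [integral_finsetSum _ hxy]
    refine Finset.sum_eq_zero fun j _ => ?_
    rw [integral_const_mul, integral_sub (hx j).1 (hy j).1, (hx j).2, (hy j).2]
    simp
  rw [hR]
  have hpt : ∀ z, ker k w z * ((rho k z : ℂ) * Box k S z) =
      (rho k w : ℂ) * Box k (fun w' => ker k w' z * S z) w -
        ∑ j, ((k j : ℂ))⁻¹ * (dz (X j) j z - dzb (Y j) j z) := by
    intro z
    rw [hLz z, hRz z, hD0 z]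
    ring
  calc Av k (fun z => (rho k z : ℂ) * Box k S z) w
      = ∫ z, ker k w z * ((rho k z : ℂ) * Box k S z) := rfl
    _ = ∫ z, ((rho k w : ℂ) * Box k (fun w' => ker k w' z * S z) w -
        ∑ j, ((k j : ℂ))⁻¹ * (dz (X j) j z - dzb (Y j) j z)) := by
        congr 1
        funext z
        exact hpt z
    _ = _ := by
        rw [integral_sub hRi hDi.1, hDi.2, sub_zero]

end Pool.CMP
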