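import Pool.Agent.Lib.CMP.KDefs

/-!
# CMP, row K9, part a (helper72): the calculus of `∂/∂w_j`, `∂/∂(conj w_j)`

`LD a b v = ∑ a_j v_j + b_j conj v_j`; a function with derivative `LD a b` at `w` has
`dz f j w = a j`, `dzb f j w = b j`.
-/

set_option autoImplicit false
set_option linter.unusedSimpArgs false

open scoped ComplexConjugate Matrix ContDiff Topology
open Complex MeasureTheory

namespace Pool.CMP
namespace K9

noncomputable section

variable {n : ℕ}

/-- The real linear form with holomorphic part `a` and antiholomorphic part `b`. -/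
def LD (a b : Fin (n + 1) → ℂ) : (Fin (n + 1) → ℂ) →L[ℝ] ℂ :=
  ∑ j, ((a j) • (ContinuousLinearMap.proj (R := ℝ) (φ := fun _ : Fin (n + 1) => ℂ) j) +
    (b j) • ((Complex.conjCLE : ℂ →L[ℝ] ℂ).comp
      (ContinuousLinearMap.proj (R := ℝ) (φ := fun _ : Fin (n + 1) => ℂ) j)))

theorem LD_apply (a b v : Fin (n + 1) → ℂ) :
    LD a b v = ∑ j, (a j * v j + b j * conj (v j)) := by
  simp [LD, sum_apply]

theorem LD_single (a b : Fin (n + 1) → ℂ) (j : Fin (n + 1)) (c : ℂ) :
    LD a b (Pi.single j c) = a j * c + b j * conj c := by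
  rw [LD_apply, Finset.sum_eq_single j]
  · simp
  · intro i _ hi
    simp [Pi.single_eq_of_ne hi]
  · simp

theorem LD_eq (L : (Fin (n + 1) → ℂ) →L[ℝ] ℂ) :
    LD (fun j => (1 / 2 : ℂ) * (L (Pi.single j 1) - I * L (Pi.single j I)))
      (fun j => (1 / 2 : ℂ) * (L (Pi.single j 1) + I * L (Pi.single j I))) = L := by
  ext v
  have hv : v = ∑ j, ((v j).re • (Pi.single j (1 : ℂ) : Fin (n + 1) → ℂ) +
      (v j).im • (Pi.single j I : Fin (n + 1) → ℂ)) := by
    ext i
    rw [Finset.sum_apply, Finset.sum_eq_single i]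
    · simp only [Pi.add_apply, Pi.smul_apply, Pi.single_eq_same, Complex.real_smul, mul_one]
      exact (Complex.re_add_im (v i)).symm
    · intro j _ hj
      simp [Pi.single_eq_of_ne (Ne.symm hj)]
    · simp
  conv_rhs => rw [hv, map_sum]
  rw [LD_apply]
  refine Finset.sum_congr rfl fun j _ => ?_
  rw [map_add, map_smul, map_smul]
  have h1 : conj (v j) = (v j).re - (v j).im * I := by
    apply Complex.ext <;> simp
  have h2 : v j = (v j).re + (v j).im * I := (Complex.re_add_im (v j)).symm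
  rw [h1]
  conv_lhs => rw [h2]
  simp only [Complex.real_smul, Complex.add_re, Complex.ofReal_re, Complex.mul_re, Complex.I_re,
    Complex.add_im, Complex.ofReal_im, Complex.mul_im, Complex.I_im]
  ring_nf
  simp only [Complex.I_sq]
  ring

/-- `f` has the derivatives `a j = ∂f/∂w_j`, `b j = ∂f/∂(conj w_j)` at `w`. -/
def HD (f : (Fin (n + 1) → ℂ) → ℂ) (a b w : Fin (n + 1) → ℂ) : Prop :=
  HasFDerivAt f (LD a b) w

theorem HD.dz {f : (Fin (n + 1) → ℂ) → ℂ} {a b w : Fin (n + 1) → ℂ} (h : HD f a b w)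
    (j : Fin (n + 1)) : dz f j w = a j := by
  unfold CMP.dz
  rw [HasFDerivAt.fderiv h, LD_single, LD_single]
  simp only [map_one, Complex.conj_I]
  ring_nf
  simp only [Complex.I_sq]
  ring

theorem HD.dzb {f : (Fin (n + 1) → ℂ) → ℂ} {a b w : Fin (n + 1) → ℂ} (h : HD f a b w)
    (j : Fin (n + 1)) : dzb f j w = b j := by
  unfold CMP.dzb
  rw [HasFDerivAt.fderiv h, LD_single, LD_single]
  simp only [map_one, Complex.conj_I]
  ring_nf
  simp only [Complex.I_sq]
  ring

theorem hd_of_diff {f : (Fin (n + 1) → ℂ) → ℂ} {w : Fin (n + 1) → ℂ}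
    (h : DifferentiableAt ℝ f w) : HD f (fun j => CMP.dz f j w) (fun j => CMP.dzb f j w) w := by
  unfold HD
  have := LD_eq (fderiv ℝ f w)
  unfold CMP.dz CMP.dzb
  rw [this]
  exact h.hasFDerivAt

theorem HD.congr {f g : (Fin (n + 1) → ℂ) → ℂ} {a b a' b' w : Fin (n + 1) → ℂ} (h : HD f a b w)
    (hfg : g =ᶠ[𝓝 w] f) (ha : a = a') (hb : b = b') : HD g a' b' w := by
  subst ha hb
  exact HasFDerivAt.congr_of_eventuallyEq h hfg

theorem HD.const (c : ℂ) (w : Fin (n + 1) → ℂ) : HD (fun _ => c) 0 0 w := by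
  unfold HD
  have : LD (0 : Fin (n + 1) → ℂ) 0 = 0 := by
    ext v; simp [LD_apply]
  rw [this]
  exact hasFDerivAt_const c w

theorem HD.coord (i : Fin (n + 1)) (w : Fin (n + 1) → ℂ) :
    HD (fun w => w i) (Pi.single i 1) 0 w := by
  unfold HD
  have : LD (Pi.single i 1 : Fin (n + 1) → ℂ) 0 =
      ContinuousLinearMap.proj (R := ℝ) (φ := fun _ : Fin (n + 1) => ℂ) i := by
    ext v
    rw [LD_apply, Finset.sum_eq_single i]
    · simp
    · intro j _ hj
      simp [Pi.single_eq_of_ne hj]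
    · simp
  rw [this]
  exact (ContinuousLinearMap.proj (R := ℝ) (φ := fun _ : Fin (n + 1) => ℂ) i).hasFDerivAt

theorem HD.add {f g : (Fin (n + 1) → ℂ) → ℂ} {a b a' b' w : Fin (n + 1) → ℂ} (h : HD f a b w)
    (h' : HD g a' b' w) : HD (fun w => f w + g w) (a + a') (b + b') w := by
  unfold HD at *
  have : LD (a + a') (b + b') = LD a b + LD a' b' := by
    ext v
    simp only [LD_apply, add_apply, Pi.add_apply]
    rw [← Finset.sum_add_distrib]
    refine Finset.sum_congr rfl fun j _ => by ring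
  rw [this]
  exact h.add h'

theorem HD.sum {ι : Type*} (s : Finset ι) {f : ι → (Fin (n + 1) → ℂ) → ℂ}
    {a b : ι → Fin (n + 1) → ℂ} {w : Fin (n + 1) → ℂ} (h : ∀ i ∈ s, HD (f i) (a i) (b i) w) :
    HD (fun w => ∑ i ∈ s, f i w) (∑ i ∈ s, a i) (∑ i ∈ s, b i) w := by
  classical
  induction s using Finset.induction_on with
  | empty => simpa using HD.const 0 w
  | insert i s hi ih =>
    simp only [Finset.sum_insert hi]
    exact (h i (by simp)).add (ih fun j hj => h j (by simp [hj]))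

theorem HD.mul {f g : (Fin (n + 1) → ℂ) → ℂ} {a b a' b' w : Fin (n + 1) → ℂ} (h : HD f a b w)
    (h' : HD g a' b' w) : HD (fun w => f w * g w) (fun j => a j * g w + f w * a' j)
      (fun j => b j * g w + f w * b' j) w := by
  unfold HD at *
  have : LD (fun j => a j * g w + f w * a' j) (fun j => b j * g w + f w * b' j) =
      f w • LD a' b' + g w • LD a b := by
    ext v
    simp only [LD_apply, add_apply, smul_apply,
      smul_eq_mul, Finset.mul_sum]
    rw [← Finset.sum_add_distrib]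
    refine Finset.sum_congr rfl fun j _ => by ring
  rw [this]
  exact HasFDerivAt.mul h h'

theorem HD.cmul (c : ℂ) {f : (Fin (n + 1) → ℂ) → ℂ} {a b w : Fin (n + 1) → ℂ} (h : HD f a b w) :
    HD (fun w => c * f w) (fun j => c * a j) (fun j => c * b j) w := by
  refine ((HD.const c w).mul h).congr Filter.EventuallyEq.rfl ?_ ?_ <;> ext j <;> simp

theorem HD.conj {f : (Fin (n + 1) → ℂ) → ℂ} {a b w : Fin (n + 1) → ℂ} (h : HD f a b w) :
    HD (fun w => conj (f w)) (fun j => conj (b j)) (fun j => conj (a j)) w := by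
  unfold HD at *
  have : LD (fun j => (starRingEnd ℂ) (b j)) (fun j => (starRingEnd ℂ) (a j)) =
      (Complex.conjCLE : ℂ →L[ℝ] ℂ).comp (LD a b) := by
    ext v
    simp only [LD_apply, ContinuousLinearMap.comp_apply]
    simp only [ContinuousLinearEquiv.coe_coe, Complex.conjCLE_apply, map_sum, map_add, map_mul,
      Complex.conj_conj]
    refine Finset.sum_congr rfl fun j _ => by ring
  rw [this]
  exact (Complex.conjCLE : ℂ →L[ℝ] ℂ).hasFDerivAt.comp w h

theorem HD.re_comp {r : (Fin (n + 1) → ℂ) → ℝ} {a b w : Fin (n + 1) → ℂ}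
    (h : HD (fun w => (r w : ℂ)) a b w) {g : ℝ → ℝ} {g' : ℝ} (hg : HasDerivAt g g' (r w)) :
    HD (fun w => (g (r w) : ℂ)) (fun j => (g' : ℂ) * a j) (fun j => (g' : ℂ) * b j) w := by
  unfold HD at *
  have h1 : HasFDerivAt r ((Complex.reCLM).comp (LD a b)) w := by
    have := Complex.reCLM.hasFDerivAt.comp w h
    refine this.congr_of_eventuallyEq (Filter.Eventually.of_forall fun x => ?_)
    simp
  have h2 : HasFDerivAt (fun w => g (r w)) (g' • ((Complex.reCLM).comp (LD a b))) w :=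
    hg.comp_hasFDerivAt w h1
  have h3 : HasFDerivAt (fun w => (g (r w) : ℂ))
      (Complex.ofRealCLM.comp (g' • ((Complex.reCLM).comp (LD a b)))) w :=
    Complex.ofRealCLM.hasFDerivAt.comp w h2
  have h4 : LD a b = Complex.ofRealCLM.comp ((Complex.reCLM).comp (LD a b)) :=
    h.unique (Complex.ofRealCLM.hasFDerivAt.comp w h1)
  have : LD (fun j => (g' : ℂ) * a j) (fun j => (g' : ℂ) * b j) =
      Complex.ofRealCLM.comp (g' • ((Complex.reCLM).comp (LD a b))) := by
    ext v
    have h5 : LD a b v = (((LD a b v).re : ℝ) : ℂ) := by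
      conv_lhs => rw [h4]
      simp
    simp only [ContinuousLinearMap.comp_apply, smul_apply,
      Complex.ofRealCLM_apply, Complex.reCLM_apply, smul_eq_mul, Complex.ofReal_mul]
    rw [← h5, LD_apply, LD_apply, Finset.mul_sum]
    refine Finset.sum_congr rfl fun j _ => by ring
  rw [this]
  exact h3

/-! ## the basic functions -/

theorem hd_H (k : Fin (n + 1) → ℝ) (z w : Fin (n + 1) → ℂ) :
    HD (fun w => H k z w) (fun j => (k j : ℂ) * (starRingEnd ℂ) (z j)) 0 w := by
  have := HD.sum Finset.univ (w := w) (f := fun j w => (k j : ℂ) * (starRingEnd ℂ) (z j) * w j)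
    (a := fun j => fun i => (k j : ℂ) * (starRingEnd ℂ) (z j) * (Pi.single j 1 : Fin (n + 1) → ℂ) i)
    (b := fun j => fun i => (k j : ℂ) * (starRingEnd ℂ) (z j) * (0 : Fin (n + 1) → ℂ) i)
    (fun j _ => (HD.coord j w).cmul _)
  refine this.congr Filter.EventuallyEq.rfl ?_ ?_
  · ext i
    rw [Finset.sum_apply, Finset.sum_eq_single i]
    · simp
    · intro j _ hj
      simp [Pi.single_eq_of_ne (Ne.symm hj)]
    · simp
  · ext i
    simp

theorem rho_eq (k : Fin (n + 1) → ℝ) (w : Fin (n + 1) → ℂ) :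
    (rho k w : ℂ) = ∑ j, (-(k j : ℂ)) * (w j * (starRingEnd ℂ) (w j)) := by
  unfold rho
  push_cast
  rw [← Finset.sum_neg_distrib]
  refine Finset.sum_congr rfl fun j _ => ?_
  rw [Complex.mul_conj, Complex.normSq_eq_norm_sq]
  push_cast
  ring

theorem H_self (k : Fin (n + 1) → ℝ) (w : Fin (n + 1) → ℂ) : H k w w = -(rho k w : ℂ) := by
  rw [rho_eq, H, ← Finset.sum_neg_distrib]
  refine Finset.sum_congr rfl fun j _ => ?_
  ring

theorem H_conj (k : Fin (n + 1) → ℝ) (z w : Fin (n + 1) → ℂ) :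
    (starRingEnd ℂ) (H k z w) = H k w z := by
  unfold H
  rw [map_sum]
  refine Finset.sum_congr rfl fun j _ => ?_
  simp only [map_mul, Complex.conj_conj, Complex.conj_ofReal]
  ring

theorem hd_rho (k : Fin (n + 1) → ℝ) (w : Fin (n + 1) → ℂ) :
    HD (fun w => (rho k w : ℂ)) (fun j => -(k j : ℂ) * (starRingEnd ℂ) (w j))
      (fun j => -(k j : ℂ) * w j) w := by
  have := HD.sum Finset.univ (w := w)
    (f := fun j w => (-(k j : ℂ)) * (w j * (starRingEnd ℂ) (w j)))
    (fun j _ => ((HD.coord j w).mul (HD.coord j w).conj).cmul _)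
  refine this.congr (Filter.Eventually.of_forall fun x => rho_eq k x) ?_ ?_
  · ext i
    rw [Finset.sum_apply, Finset.sum_eq_single i]
    · simp
    · intro j _ hj
      simp [Pi.single_eq_of_ne (Ne.symm hj)]
    · simp
  · ext i
    rw [Finset.sum_apply, Finset.sum_eq_single i]
    · simp
    · intro j _ hj
      simp [Pi.single_eq_of_ne (Ne.symm hj)]
    · simp

theorem HD.inv_real {r : (Fin (n + 1) → ℂ) → ℝ} {a b w : Fin (n + 1) → ℂ}
    (h : HD (fun w => (r w : ℂ)) a b w) (hr : r w ≠ 0) :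
    HD (fun w => ((r w)⁻¹ : ℂ)) (fun j => -((r w : ℂ) ^ 2)⁻¹ * a j)
      (fun j => -((r w : ℂ) ^ 2)⁻¹ * b j) w := by
  have := h.re_comp (hasDerivAt_inv hr)
  refine this.congr (Filter.Eventually.of_forall fun x => ?_) ?_ ?_
  · push_cast; rfl
  · ext j; push_cast; rfl
  · ext j; push_cast; rfl

theorem tt_eq (k : Fin (n + 1) → ℝ) (w z : Fin (n + 1) → ℂ) :
    (tt k w z : ℂ) = ((rho k z : ℂ))⁻¹ * (H k z w * (starRingEnd ℂ) (H k z w) *
      (rho k w : ℂ)⁻¹) := by
  unfold tt
  push_cast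
  rw [Complex.mul_conj, Complex.normSq_eq_norm_sq]
  push_cast
  rw [div_eq_mul_inv, mul_inv]
  ring

theorem hd_tt (k : Fin (n + 1) → ℝ) {w z : Fin (n + 1) → ℂ} (hw : rho k w ≠ 0) :
    HD (fun w => (tt k w z : ℂ))
      (fun j => (k j : ℂ) * ((starRingEnd ℂ) (z j) * H k w z / rho k z +
        (tt k w z : ℂ) * (starRingEnd ℂ) (w j)) / rho k w)
      (fun j => (k j : ℂ) * (z j * H k z w / rho k z + (tt k w z : ℂ) * w j) / rho k w) w := by
  have h1 := hd_H k z w
  have h2 := (((h1.mul h1.conj).mul ((hd_rho k w).inv_real hw)).cmul ((rho k z : ℂ))⁻¹)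
  have hw' : (rho k w : ℂ) ≠ 0 := by exact_mod_cast hw
  refine h2.congr (Filter.Eventually.of_forall fun x => tt_eq k x z) ?_ ?_
  · ext j
    simp only [Pi.zero_apply, map_zero, mul_zero, add_zero, zero_mul, map_mul, Complex.conj_conj,
      Complex.conj_ofReal, zero_add]
    rw [tt_eq, H_conj]
    by_cases hz : (rho k z : ℂ) = 0
    · simp [hz]
    · field_simp
  · ext j
    simp only [Pi.zero_apply, map_zero, mul_zero, add_zero, zero_mul, map_mul, Complex.conj_conj,
      Complex.conj_ofReal, zero_add]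
    rw [tt_eq, H_conj]
    by_cases hz : (rho k z : ℂ) = 0
    · simp [hz]
    · field_simp

end

end K9

end Pool.CMP
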