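import Pool.Agent.Lib.CMP.KDefs

/-!
# Tank CMP, block K: calculus with `∂/∂w_j` and `∂/∂(conj w_j)` (helper41)
-/

set_option autoImplicit false

open scoped ComplexConjugate Matrix
open Complex MeasureTheory

namespace Pool.CMP

noncomputable section

variable {n : ℕ} {k : Fin (n + 1) → ℝ}

/-! ### congruence, linearity, Leibniz, conjugation -/

theorem dz_congr {f g : (Fin (n + 1) → ℂ) → ℂ} {w : Fin (n + 1) → ℂ} (h : f =ᶠ[nhds w] g)
    (j : Fin (n + 1)) : dz f j w = dz g j w := by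
  unfold dz; rw [h.fderiv_eq]

theorem dzb_congr {f g : (Fin (n + 1) → ℂ) → ℂ} {w : Fin (n + 1) → ℂ} (h : f =ᶠ[nhds w] g)
    (j : Fin (n + 1)) : dzb f j w = dzb g j w := by
  unfold dzb; rw [h.fderiv_eq]

theorem dz_const (c : ℂ) (j : Fin (n + 1)) (w : Fin (n + 1) → ℂ) : dz (fun _ => c) j w = 0 := by
  simp [dz]

theorem dzb_const (c : ℂ) (j : Fin (n + 1)) (w : Fin (n + 1) → ℂ) : dzb (fun _ => c) j w = 0 := by
  simp [dzb]

theorem dz_add {f g : (Fin (n + 1) → ℂ) → ℂ} {w : Fin (n + 1) → ℂ} (hf : DifferentiableAt ℝ f w)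
    (hg : DifferentiableAt ℝ g w) (j : Fin (n + 1)) :
    dz (fun z => f z + g z) j w = dz f j w + dz g j w := by
  unfold dz; rw [fderiv_fun_add hf hg]; simp only [ContinuousLinearMap.add_apply]; ring

theorem dzb_add {f g : (Fin (n + 1) → ℂ) → ℂ} {w : Fin (n + 1) → ℂ} (hf : DifferentiableAt ℝ f w)
    (hg : DifferentiableAt ℝ g w) (j : Fin (n + 1)) :
    dzb (fun z => f z + g z) j w = dzb f j w + dzb g j w := by
  unfold dzb; rw [fderiv_fun_add hf hg]; simp only [ContinuousLinearMap.add_apply]; ring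

theorem dz_mul {f g : (Fin (n + 1) → ℂ) → ℂ} {w : Fin (n + 1) → ℂ} (hf : DifferentiableAt ℝ f w)
    (hg : DifferentiableAt ℝ g w) (j : Fin (n + 1)) :
    dz (fun z => f z * g z) j w = dz f j w * g w + f w * dz g j w := by
  unfold dz; rw [fderiv_fun_mul hf hg]
  simp only [ContinuousLinearMap.add_apply, ContinuousLinearMap.smul_apply, smul_eq_mul]; ring

theorem dzb_mul {f g : (Fin (n + 1) → ℂ) → ℂ} {w : Fin (n + 1) → ℂ} (hf : DifferentiableAt ℝ f w)
    (hg : DifferentiableAt ℝ g w) (j : Fin (n + 1)) :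
    dzb (fun z => f z * g z) j w = dzb f j w * g w + f w * dzb g j w := by
  unfold dzb; rw [fderiv_fun_mul hf hg]
  simp only [ContinuousLinearMap.add_apply, ContinuousLinearMap.smul_apply, smul_eq_mul]; ring

theorem dz_const_mul {f : (Fin (n + 1) → ℂ) → ℂ} {w : Fin (n + 1) → ℂ} (c : ℂ)
    (hf : DifferentiableAt ℝ f w) (j : Fin (n + 1)) :
    dz (fun z => c * f z) j w = c * dz f j w := by
  rw [dz_mul (differentiableAt_const c) hf, dz_const]; ring

theorem dzb_const_mul {f : (Fin (n + 1) → ℂ) → ℂ} {w : Fin (n + 1) → ℂ} (c : ℂ)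
    (hf : DifferentiableAt ℝ f w) (j : Fin (n + 1)) :
    dzb (fun z => c * f z) j w = c * dzb f j w := by
  rw [dzb_mul (differentiableAt_const c) hf, dzb_const]; ring

theorem dz_sum {ι : Type*} {s : Finset ι} {f : ι → (Fin (n + 1) → ℂ) → ℂ} {w : Fin (n + 1) → ℂ}
    (hf : ∀ i ∈ s, DifferentiableAt ℝ (f i) w) (j : Fin (n + 1)) :
    dz (fun z => ∑ i ∈ s, f i z) j w = ∑ i ∈ s, dz (f i) j w := by
  unfold dz
  rw [fderiv_fun_sum hf]
  simp only [ContinuousLinearMap.coe_sum', Finset.sum_apply, Finset.mul_sum]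
  rw [← Finset.sum_sub_distrib, Finset.mul_sum]

theorem dzb_sum {ι : Type*} {s : Finset ι} {f : ι → (Fin (n + 1) → ℂ) → ℂ} {w : Fin (n + 1) → ℂ}
    (hf : ∀ i ∈ s, DifferentiableAt ℝ (f i) w) (j : Fin (n + 1)) :
    dzb (fun z => ∑ i ∈ s, f i z) j w = ∑ i ∈ s, dzb (f i) j w := by
  unfold dzb
  rw [fderiv_fun_sum hf]
  simp only [ContinuousLinearMap.coe_sum', Finset.sum_apply, Finset.mul_sum]
  rw [← Finset.sum_add_distrib, Finset.mul_sum]

theorem fderiv_conj (f : (Fin (n + 1) → ℂ) → ℂ) (w v : Fin (n + 1) → ℂ) :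
    fderiv ℝ (fun z => conj (f z)) w v = conj (fderiv ℝ f w v) := by
  have h : (fun z => conj (f z)) = (Complex.conjCLE : ℂ ≃L[ℝ] ℂ) ∘ f := by
    funext z; simp
  rw [h, ContinuousLinearEquiv.comp_fderiv]
  simp

theorem conj_half : conj (1 / 2 : ℂ) = 1 / 2 := by
  rw [show (1 / 2 : ℂ) = ((1 / 2 : ℝ) : ℂ) by push_cast; ring, conj_ofReal]

theorem dz_conj (f : (Fin (n + 1) → ℂ) → ℂ) (j : Fin (n + 1)) (w : Fin (n + 1) → ℂ) :
    dz (fun z => conj (f z)) j w = conj (dzb f j w) := by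
  unfold dz dzb
  rw [fderiv_conj, fderiv_conj, map_mul, map_add, map_mul, conj_I, conj_half]
  ring

theorem dzb_conj (f : (Fin (n + 1) → ℂ) → ℂ) (j : Fin (n + 1)) (w : Fin (n + 1) → ℂ) :
    dzb (fun z => conj (f z)) j w = conj (dz f j w) := by
  unfold dz dzb
  rw [fderiv_conj, fderiv_conj, map_mul, map_sub, map_mul, conj_I, conj_half]
  ring

/-! ### coordinates -/

theorem fderiv_coord (i : Fin (n + 1)) (w v : Fin (n + 1) → ℂ) :
    fderiv ℝ (fun z : Fin (n + 1) → ℂ => z i) w v = v i := by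
  have h : HasFDerivAt (fun z : Fin (n + 1) → ℂ => z i)
      (ContinuousLinearMap.proj (R := ℝ) (φ := fun _ : Fin (n + 1) => ℂ) i) w :=
    (ContinuousLinearMap.proj (R := ℝ) (φ := fun _ : Fin (n + 1) => ℂ) i).hasFDerivAt
  rw [h.fderiv]; rfl

theorem differentiable_coord (i : Fin (n + 1)) :
    Differentiable ℝ (fun z : Fin (n + 1) → ℂ => z i) :=
  (ContinuousLinearMap.proj (R := ℝ) (φ := fun _ : Fin (n + 1) => ℂ) i).differentiable

theorem contDiff_coord (i : Fin (n + 1)) {m : WithTop ℕ∞} :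
    ContDiff ℝ m (fun z : Fin (n + 1) → ℂ => z i) :=
  (ContinuousLinearMap.proj (R := ℝ) (φ := fun _ : Fin (n + 1) => ℂ) i).contDiff

theorem contDiff_conj_coord (i : Fin (n + 1)) {m : WithTop ℕ∞} :
    ContDiff ℝ m (fun z : Fin (n + 1) → ℂ => conj (z i)) :=
  (Complex.conjCLE : ℂ ≃L[ℝ] ℂ).contDiff.comp (contDiff_coord i)

theorem differentiable_conj_coord (i : Fin (n + 1)) :
    Differentiable ℝ (fun z : Fin (n + 1) → ℂ => conj (z i)) :=
  (Complex.conjCLE : ℂ ≃L[ℝ] ℂ).differentiable.comp (differentiable_coord i)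

theorem dz_coord (i j : Fin (n + 1)) (w : Fin (n + 1) → ℂ) :
    dz (fun z => z i) j w = if i = j then 1 else 0 := by
  unfold dz
  rw [fderiv_coord, fderiv_coord]
  by_cases h : i = j
  · subst h; simp only [Pi.single_eq_same, if_true]; linear_combination (-1/2 : ℂ) * I_mul_I
  · simp [h]

theorem dzb_coord (i j : Fin (n + 1)) (w : Fin (n + 1) → ℂ) :
    dzb (fun z => z i) j w = 0 := by
  unfold dzb
  rw [fderiv_coord, fderiv_coord]
  by_cases h : i = j
  · subst h; simp only [Pi.single_eq_same]; linear_combination (1/2 : ℂ) * I_mul_I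
  · simp [h]

theorem dz_conj_coord (i j : Fin (n + 1)) (w : Fin (n + 1) → ℂ) :
    dz (fun z => conj (z i)) j w = 0 := by
  rw [dz_conj (fun z => z i), dzb_coord, map_zero]

theorem dzb_conj_coord (i j : Fin (n + 1)) (w : Fin (n + 1) → ℂ) :
    dzb (fun z => conj (z i)) j w = if i = j then 1 else 0 := by
  rw [dzb_conj (fun z => z i), dz_coord]
  by_cases h : i = j <;> simp [h]

/-! ### the real derivative in terms of `dz`, `dzb`; chain rule -/

theorem fderiv_eq (f : (Fin (n + 1) → ℂ) → ℂ) (w v : Fin (n + 1) → ℂ) :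
    fderiv ℝ f w v = ∑ i, (v i * dz f i w + conj (v i) * dzb f i w) := by
  have h0 : v = ∑ i, ((v i).re • (Pi.single i (1 : ℂ) : Fin (n + 1) → ℂ) +
      (v i).im • (Pi.single i I : Fin (n + 1) → ℂ)) := by
    funext l
    simp only [Finset.sum_apply, Pi.add_apply, Pi.smul_apply, real_smul]
    rw [Finset.sum_eq_single l]
    · simp
    · intro b _ hb
      simp [Pi.single_eq_of_ne (Ne.symm hb)]
    · simp
  conv_lhs => rw [h0]
  rw [map_sum]
  refine Finset.sum_congr rfl fun i _ => ?_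
  rw [map_add, map_smul, map_smul, real_smul, real_smul]
  unfold dz dzb
  set A := fderiv ℝ f w (Pi.single i 1)
  set B := fderiv ℝ f w (Pi.single i I)
  have h1 : v i = ((v i).re : ℂ) + ((v i).im : ℂ) * I := (re_add_im (v i)).symm
  have h2 : conj (v i) = ((v i).re : ℂ) - ((v i).im : ℂ) * I := by
    conv_lhs => rw [h1]
    rw [map_add, map_mul, conj_ofReal, conj_ofReal, conj_I]; ring
  rw [h2]
  conv_rhs => rw [h1]
  simp only [add_re, ofReal_re, mul_re, I_re, mul_zero, ofReal_im, I_im, mul_one, sub_self,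
    add_zero, add_im, mul_im, zero_add]
  linear_combination (((v i).im : ℂ) * B) * I_mul_I

theorem dz_comp_mulVec {f : (Fin (n + 1) → ℂ) → ℂ}
    (g : Matrix (Fin (n + 1)) (Fin (n + 1)) ℂ) {w : Fin (n + 1) → ℂ}
    (hf : DifferentiableAt ℝ f (g *ᵥ w)) (j : Fin (n + 1)) :
    dz (fun z => f (g *ᵥ z)) j w = ∑ i, g i j * dz f i (g *ᵥ w) ∧
    dzb (fun z => f (g *ᵥ z)) j w = ∑ i, conj (g i j) * dzb f i (g *ᵥ w) := by
  set G : (Fin (n + 1) → ℂ) →L[ℝ] (Fin (n + 1) → ℂ) :=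
    LinearMap.toContinuousLinearMap ((Matrix.mulVecLin g).restrictScalars ℝ) with hG
  have hGv : ∀ v, G v = g *ᵥ v := fun v => rfl
  have h1 : fderiv ℝ (fun z => f (g *ᵥ z)) w = (fderiv ℝ f (g *ᵥ w)).comp G := by
    have : HasFDerivAt (fun z => f (g *ᵥ z)) ((fderiv ℝ f (g *ᵥ w)).comp G) w :=
      HasFDerivAt.comp w (f := fun z => g *ᵥ z) hf.hasFDerivAt G.hasFDerivAt
    exact this.fderiv
  have h2 : ∀ c : ℂ, fderiv ℝ (fun z => f (g *ᵥ z)) w (Pi.single j c) =
      ∑ i, (g i j * c * dz f i (g *ᵥ w) + conj (g i j * c) * dzb f i (g *ᵥ w)) := by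
    intro c
    rw [h1, ContinuousLinearMap.comp_apply, hGv, fderiv_eq]
    refine Finset.sum_congr rfl fun i _ => ?_
    have : (g *ᵥ Pi.single j c) i = g i j * c := by
      rw [Matrix.mulVec_single]; simp
    rw [this]
  constructor
  · rw [dz, h2, h2, Finset.mul_sum, ← Finset.sum_sub_distrib, Finset.mul_sum]
    refine Finset.sum_congr rfl fun i _ => ?_
    simp only [map_mul, map_one, conj_I]
    linear_combination (-1/2 * (g i j * dz f i (g *ᵥ w)) +
      1/2 * (conj (g i j) * dzb f i (g *ᵥ w))) * I_mul_I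
  · rw [dzb, h2, h2, Finset.mul_sum, ← Finset.sum_add_distrib, Finset.mul_sum]
    refine Finset.sum_congr rfl fun i _ => ?_
    simp only [map_mul, map_one, conj_I]
    linear_combination (1/2 * (g i j * dz f i (g *ᵥ w)) -
      1/2 * (conj (g i j) * dzb f i (g *ᵥ w))) * I_mul_I

/-! ### smoothness -/

theorem contDiffOn_dz {f : (Fin (n + 1) → ℂ) → ℂ} {U : Set (Fin (n + 1) → ℂ)} (hU : IsOpen U)
    {m : ℕ} (hf : ContDiffOn ℝ ((m + 1 : ℕ) : WithTop ℕ∞) f U) (j : Fin (n + 1)) :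
    ContDiffOn ℝ (m : WithTop ℕ∞) (dz f j) U := by
  have h := hf.fderiv_of_isOpen hU (m := (m : WithTop ℕ∞)) (by push_cast; exact le_rfl)
  exact contDiffOn_const.mul ((h.clm_apply contDiffOn_const).sub
    (contDiffOn_const.mul (h.clm_apply contDiffOn_const)))

theorem contDiffOn_dzb {f : (Fin (n + 1) → ℂ) → ℂ} {U : Set (Fin (n + 1) → ℂ)} (hU : IsOpen U)
    {m : ℕ} (hf : ContDiffOn ℝ ((m + 1 : ℕ) : WithTop ℕ∞) f U) (j : Fin (n + 1)) :
    ContDiffOn ℝ (m : WithTop ℕ∞) (dzb f j) U := by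
  have h := hf.fderiv_of_isOpen hU (m := (m : WithTop ℕ∞)) (by push_cast; exact le_rfl)
  exact contDiffOn_const.mul ((h.clm_apply contDiffOn_const).add
    (contDiffOn_const.mul (h.clm_apply contDiffOn_const)))

theorem fderiv_fderiv_symm {f : (Fin (n + 1) → ℂ) → ℂ} {U : Set (Fin (n + 1) → ℂ)}
    (hU : IsOpen U) (hf : ContDiffOn ℝ 2 f U) {w : Fin (n + 1) → ℂ} (hw : w ∈ U)
    (a b : Fin (n + 1) → ℂ) :
    fderiv ℝ (fun z => fderiv ℝ f z a) w b = fderiv ℝ (fun z => fderiv ℝ f z b) w a := by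
  have hs := (hf.contDiffAt (hU.mem_nhds hw)).isSymmSndFDerivAt (by simp)
  have hd : DifferentiableAt ℝ (fderiv ℝ f) w :=
    ((hf.fderiv_of_isOpen hU (m := 1) (by norm_num)).contDiffAt
      (hU.mem_nhds hw)).differentiableAt (by norm_num)
  have e : ∀ a b : Fin (n + 1) → ℂ,
      fderiv ℝ (fun z => fderiv ℝ f z a) w b = fderiv ℝ (fderiv ℝ f) w b a := by
    intro a b
    rw [fderiv_clm_apply hd (differentiableAt_const a)]
    simp
  rw [e, e]
  exact hs b a

theorem fderiv_aux {g₁ g₂ : (Fin (n + 1) → ℂ) → ℂ} {w : Fin (n + 1) → ℂ}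
    (h₁ : DifferentiableAt ℝ g₁ w) (h₂ : DifferentiableAt ℝ g₂ w) (a b : ℂ)
    (v : Fin (n + 1) → ℂ) :
    fderiv ℝ (fun z => a * (g₁ z + b * g₂ z)) w v =
      a * (fderiv ℝ g₁ w v + b * fderiv ℝ g₂ w v) := by
  have h : HasFDerivAt (fun z => a * (g₁ z + b * g₂ z))
      (a • (fderiv ℝ g₁ w + b • fderiv ℝ g₂ w)) w :=
    (h₁.hasFDerivAt.add (h₂.hasFDerivAt.const_mul b)).const_mul a
  rw [h.fderiv]
  simp only [ContinuousLinearMap.add_apply, ContinuousLinearMap.smul_apply, smul_eq_mul]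

/-- The four second order operators commute. -/
theorem dz_dzb_comm {f : (Fin (n + 1) → ℂ) → ℂ} {U : Set (Fin (n + 1) → ℂ)} (hU : IsOpen U)
    (hf : ContDiffOn ℝ 2 f U) {w : Fin (n + 1) → ℂ} (hw : w ∈ U) (i j : Fin (n + 1)) :
    dz (dzb f i) j w = dzb (dz f j) i w := by
  have hd : ∀ a, DifferentiableAt ℝ (fun z => fderiv ℝ f z a) w := fun a =>
    (((hf.fderiv_of_isOpen hU (m := 1) (by norm_num)).clm_apply
      contDiffOn_const).contDiffAt (hU.mem_nhds hw)).differentiableAt (by norm_num)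
  have hs := fderiv_fderiv_symm hU hf hw
  have e1 : ∀ v, fderiv ℝ (dzb f i) w v = (1 / 2 : ℂ) *
      (fderiv ℝ (fun z => fderiv ℝ f z (Pi.single i 1)) w v +
        I * fderiv ℝ (fun z => fderiv ℝ f z (Pi.single i I)) w v) := by
    intro v
    have : dzb f i = fun z => (1 / 2 : ℂ) * (fderiv ℝ f z (Pi.single i 1) +
      I * fderiv ℝ f z (Pi.single i I)) := rfl
    rw [this, fderiv_aux (hd _) (hd _)]
  have e2 : ∀ v, fderiv ℝ (dz f j) w v = (1 / 2 : ℂ) *
      (fderiv ℝ (fun z => fderiv ℝ f z (Pi.single j 1)) w v -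
        I * fderiv ℝ (fun z => fderiv ℝ f z (Pi.single j I)) w v) := by
    intro v
    have : dz f j = fun z => (1 / 2 : ℂ) * (fderiv ℝ f z (Pi.single j 1) +
      (-I) * fderiv ℝ f z (Pi.single j I)) := by funext z; unfold dz; ring
    rw [this, fderiv_aux (hd _) (hd _)]
    ring
  have h1 : dz (dzb f i) j w = (1 / 2 : ℂ) * (fderiv ℝ (dzb f i) w (Pi.single j 1) -
    I * fderiv ℝ (dzb f i) w (Pi.single j I)) := rfl
  have h2 : dzb (dz f j) i w = (1 / 2 : ℂ) * (fderiv ℝ (dz f j) w (Pi.single i 1) +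
    I * fderiv ℝ (dz f j) w (Pi.single i I)) := rfl
  rw [h1, h2, e1, e1, e2, e2, hs (Pi.single i 1) (Pi.single j 1),
    hs (Pi.single i I) (Pi.single j 1), hs (Pi.single i 1) (Pi.single j I),
    hs (Pi.single i I) (Pi.single j I)]
  ring

theorem dzb_dzb_comm {f : (Fin (n + 1) → ℂ) → ℂ} {U : Set (Fin (n + 1) → ℂ)} (hU : IsOpen U)
    (hf : ContDiffOn ℝ 2 f U) {w : Fin (n + 1) → ℂ} (hw : w ∈ U) (i j : Fin (n + 1)) :
    dzb (dzb f i) j w = dzb (dzb f j) i w := by
  have hd : ∀ a, DifferentiableAt ℝ (fun z => fderiv ℝ f z a) w := fun a =>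
    (((hf.fderiv_of_isOpen hU (m := 1) (by norm_num)).clm_apply
      contDiffOn_const).contDiffAt (hU.mem_nhds hw)).differentiableAt (by norm_num)
  have hs := fderiv_fderiv_symm hU hf hw
  have e1 : ∀ i v, fderiv ℝ (dzb f i) w v = (1 / 2 : ℂ) *
      (fderiv ℝ (fun z => fderiv ℝ f z (Pi.single i 1)) w v +
        I * fderiv ℝ (fun z => fderiv ℝ f z (Pi.single i I)) w v) := by
    intro i v
    have : dzb f i = fun z => (1 / 2 : ℂ) * (fderiv ℝ f z (Pi.single i 1) +
      I * fderiv ℝ f z (Pi.single i I)) := rfl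
    rw [this, fderiv_aux (hd _) (hd _)]
  have h1 : ∀ i j, dzb (dzb f i) j w = (1 / 2 : ℂ) * (fderiv ℝ (dzb f i) w (Pi.single j 1) +
    I * fderiv ℝ (dzb f i) w (Pi.single j I)) := fun _ _ => rfl
  rw [h1, h1, e1, e1, e1, e1, hs (Pi.single i 1) (Pi.single j 1),
    hs (Pi.single i I) (Pi.single j 1), hs (Pi.single i 1) (Pi.single j I),
    hs (Pi.single i I) (Pi.single j I)]
  ring

/-! ### Euler's relations -/

theorem euler {S : (Fin (n + 1) → ℂ) → ℂ} {w : Fin (n + 1) → ℂ}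
    (hS : DifferentiableAt ℝ S w) (h : ∀ c : ℂ, c ≠ 0 → S (c • w) = c * S w) :
    ∑ i, w i * dz S i w = S w ∧ ∑ i, conj (w i) * dzb S i w = 0 := by
  have key : ∀ a : ℂ, fderiv ℝ S w (a • w) = a * S w := by
    intro a
    have h1 : HasDerivAt (fun t : ℝ => S ((1 + (t : ℂ) * a) • w))
        (fderiv ℝ S w (a • w)) 0 := by
      have h2 : HasDerivAt (fun t : ℝ => (1 + (t : ℂ) * a) • w) (a • w) 0 := by
        have h3 : HasDerivAt (fun t : ℝ => (1 + (t : ℂ) * a)) a 0 := by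
          have := ((hasDerivAt_id (0 : ℝ)).ofReal_comp.mul_const a).const_add (1 : ℂ)
          simpa using this
        simpa using h3.smul_const w
      have h4 : HasFDerivAt S (fderiv ℝ S w) ((1 + ((0 : ℝ) : ℂ) * a) • w) := by
        simpa using hS.hasFDerivAt
      exact h4.comp_hasDerivAt (0 : ℝ) h2
    have h5 : HasDerivAt (fun t : ℝ => (1 + (t : ℂ) * a) * S w) (a * S w) 0 := by
      have := (((hasDerivAt_id (0 : ℝ)).ofReal_comp.mul_const a).const_add (1 : ℂ)).mul_const (S w)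
      simpa using this
    have h6 : (fun t : ℝ => S ((1 + (t : ℂ) * a) • w)) =ᶠ[nhds 0]
        fun t : ℝ => (1 + (t : ℂ) * a) * S w := by
      have hc : ContinuousAt (fun t : ℝ => (1 + (t : ℂ) * a)) 0 := by fun_prop
      have : ∀ᶠ t : ℝ in nhds 0, (1 + (t : ℂ) * a) ≠ 0 :=
        hc.eventually_ne (by simp)
      filter_upwards [this] with t ht
      exact h _ ht
    exact h1.unique (h5.congr_of_eventuallyEq h6)
  have k1 := key 1
  have k2 := key I
  rw [fderiv_eq, Finset.sum_add_distrib] at k1 k2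
  simp only [one_smul, Pi.smul_apply, smul_eq_mul, one_mul, map_mul, conj_I, mul_assoc,
    ← Finset.mul_sum] at k1 k2
  constructor
  · linear_combination (1/2 : ℂ) * k1 - (1/2 : ℂ) * I * k2 +
      (1/2 : ℂ) * (∑ i, w i * dz S i w - ∑ i, conj (w i) * dzb S i w - S w) * I_mul_I
  · linear_combination (1/2 : ℂ) * k1 + (1/2 : ℂ) * I * k2 -
      (1/2 : ℂ) * (∑ i, w i * dz S i w - ∑ i, conj (w i) * dzb S i w - S w) * I_mul_I

/-! ### integration -/

theorem integral_fderiv_zero {F : (Fin (n + 1) → ℂ) → ℂ} {U : Set (Fin (n + 1) → ℂ)}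
    (hU : IsOpen U) (hF : ContDiffOn ℝ 1 F U) {K : Set (Fin (n + 1) → ℂ)} (hK : IsCompact K)
    (hKU : K ⊆ U) (h0 : ∀ w, w ∉ K → F w = 0) (v : Fin (n + 1) → ℂ) :
    Integrable (fun w => fderiv ℝ F w v) ∧ ∫ w, fderiv ℝ F w v = 0 := by
  have hc : ContDiff ℝ 1 F := by
    rw [contDiff_iff_contDiffAt]
    intro w
    by_cases hw : w ∈ U
    · exact hF.contDiffAt (hU.mem_nhds hw)
    · have hw' : w ∈ Kᶜ := fun h => hw (hKU h)
      refine (contDiffAt_const (c := (0 : ℂ))).congr_of_eventuallyEq ?_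
      filter_upwards [hK.isClosed.isOpen_compl.mem_nhds hw'] with z hz
      exact h0 z hz
  have hs : HasCompactSupport F := HasCompactSupport.intro hK h0
  have hi : Integrable (fun w => fderiv ℝ F w v) := by
    refine Continuous.integrable_of_hasCompactSupport
      ((hc.continuous_fderiv (by norm_num)).clm_apply continuous_const) ?_
    exact hs.fderiv_apply (𝕜 := ℝ) v
  refine ⟨hi, ?_⟩
  have h := integral_smul_fderiv_eq_neg_fderiv_smul_of_integrable (μ := volume)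
    (f := fun _ : Fin (n + 1) → ℂ => (1 : ℝ)) (g := F) (v := v) (by simp) (by simpa using hi)
    (by simpa using hc.continuous.integrable_of_hasCompactSupport hs)
    (fun x _ => differentiableAt_const _) (fun x _ => hc.differentiable (by norm_num) x)
  simpa using h

theorem integral_dz_zero {F : (Fin (n + 1) → ℂ) → ℂ} {U : Set (Fin (n + 1) → ℂ)}
    (hU : IsOpen U) (hF : ContDiffOn ℝ 1 F U) {K : Set (Fin (n + 1) → ℂ)} (hK : IsCompact K)
    (hKU : K ⊆ U) (h0 : ∀ w, w ∉ K → F w = 0) (j : Fin (n + 1)) :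
    Integrable (fun w => dz F j w) ∧ ∫ w, dz F j w = 0 := by
  obtain ⟨i1, e1⟩ := integral_fderiv_zero hU hF hK hKU h0 (Pi.single j 1)
  obtain ⟨i2, e2⟩ := integral_fderiv_zero hU hF hK hKU h0 (Pi.single j I)
  refine ⟨(i1.sub (i2.const_mul I)).const_mul _, ?_⟩
  unfold dz
  rw [integral_const_mul, integral_sub i1 (i2.const_mul I), integral_const_mul, e1, e2]
  simp

theorem integral_dzb_zero {F : (Fin (n + 1) → ℂ) → ℂ} {U : Set (Fin (n + 1) → ℂ)}
    (hU : IsOpen U) (hF : ContDiffOn ℝ 1 F U) {K : Set (Fin (n + 1) → ℂ)} (hK : IsCompact K)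
    (hKU : K ⊆ U) (h0 : ∀ w, w ∉ K → F w = 0) (j : Fin (n + 1)) :
    Integrable (fun w => dzb F j w) ∧ ∫ w, dzb F j w = 0 := by
  obtain ⟨i1, e1⟩ := integral_fderiv_zero hU hF hK hKU h0 (Pi.single j 1)
  obtain ⟨i2, e2⟩ := integral_fderiv_zero hU hF hK hKU h0 (Pi.single j I)
  refine ⟨(i1.add (i2.const_mul I)).const_mul _, ?_⟩
  unfold dzb
  rw [integral_const_mul, integral_add i1 (i2.const_mul I), integral_const_mul, e1, e2]
  simp

/-- Lebesgue measure is invariant under complex matrices with `|det| = 1`. -/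
theorem integral_comp_mulVec (g : Matrix (Fin (n + 1)) (Fin (n + 1)) ℂ) (hg : ‖g.det‖ = 1)
    {E : Type*} [NormedAddCommGroup E] [NormedSpace ℝ E] (F : (Fin (n + 1) → ℂ) → E) :
    ∫ w, F (g *ᵥ w) = ∫ w, F w := by
  set G : (Fin (n + 1) → ℂ) →ₗ[ℝ] (Fin (n + 1) → ℂ) :=
    (Matrix.mulVecLin g).restrictScalars ℝ with hG
  have hdet : LinearMap.det G = 1 := by
    rw [hG, LinearMap.det_restrictScalars, ← Matrix.toLin'_apply', LinearMap.det_toLin',
      Algebra.norm_complex_apply, Complex.normSq_eq_norm_sq, hg, one_pow]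
  have hne : LinearMap.det G ≠ 0 := by rw [hdet]; norm_num
  have hmap := MeasureTheory.Measure.map_linearMap_addHaar_eq_smul_addHaar
    (μ := (volume : Measure (Fin (n + 1) → ℂ))) hne
  rw [hdet] at hmap
  simp only [inv_one, abs_one, ENNReal.ofReal_one, one_smul] at hmap
  have hemb : MeasurableEmbedding (G : (Fin (n + 1) → ℂ) → (Fin (n + 1) → ℂ)) := by
    have := (LinearEquiv.ofIsUnitDet (f := G) (v := Module.finBasis ℝ _)
      (v' := Module.finBasis ℝ _) (by
        rw [LinearMap.det_toMatrix]; exact isUnit_iff_ne_zero.2 hne)).toContinuousLinearEquiv.toHomeomorph.measurableEmbedding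
    exact this
  have h2 := hemb.integral_map (μ := volume) F
  rw [hmap] at h2
  rw [h2]
  rfl

end

end Pool.CMP
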