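import Pool.Agent.Lib.CMP.K9a
import Pool.Agent.Lib.CMP.KCal

/-!
# CMP, row K9, part b (helper72): `∂`, `∂bar` and `□` under the integral sign

`Par U V Q Φ`: `Φ : E → E → ℂ` is jointly smooth on `U × V`, and `Φ w z = 0` for `w ∈ U`,
`z ∉ Q`, where `Q ⊆ V` is compact.
-/

set_option autoImplicit false
set_option linter.unusedSimpArgs false

open scoped ComplexConjugate Matrix ContDiff Topology
open Complex MeasureTheory

namespace Pool.CMP
namespace K9

noncomputable section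

variable {n : ℕ}

/-- Jointly smooth kernels with compact support in the second variable. -/
structure Par (U V Q : Set (Fin (n + 1) → ℂ)) (Φ : (Fin (n + 1) → ℂ) → (Fin (n + 1) → ℂ) → ℂ) :
    Prop where
  sm : ContDiffOn ℝ ∞ (fun p : (Fin (n + 1) → ℂ) × (Fin (n + 1) → ℂ) => Φ p.1 p.2) (U ×ˢ V)
  z0 : ∀ w ∈ U, ∀ z, z ∉ Q → Φ w z = 0

section gen

variable {F : Type*} [NormedAddCommGroup F] [NormedSpace ℝ F]

theorem cont_of {V Q : Set (Fin (n + 1) → ℂ)} (hV : IsOpen V) (hQ : IsCompact Q) (hQV : Q ⊆ V)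
    {f : (Fin (n + 1) → ℂ) → F} (hf : ContinuousOn f V) (h0 : ∀ z, z ∉ Q → f z = 0) :
    Continuous f ∧ HasCompactSupport f ∧ Integrable f := by
  have hc : Continuous f := by
    rw [continuous_iff_continuousAt]
    intro z
    by_cases hz : z ∈ V
    · exact hf.continuousAt (hV.mem_nhds hz)
    · have hz' : z ∈ Qᶜ := fun h => hz (hQV h)
      refine (continuousAt_const (y := (0 : F))).congr ?_
      filter_upwards [hQ.isClosed.isOpen_compl.mem_nhds hz'] with x hx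
      exact (h0 x hx).symm
  have hs : HasCompactSupport f := HasCompactSupport.intro hQ h0
  exact ⟨hc, hs, hc.integrable_of_hasCompactSupport hs⟩

end gen

variable {U V Q : Set (Fin (n + 1) → ℂ)} {Φ : (Fin (n + 1) → ℂ) → (Fin (n + 1) → ℂ) → ℂ}

theorem Par.hasFDerivAt (h : Par U V Q Φ) (hU : IsOpen U) (hV : IsOpen V) {w z : Fin (n + 1) → ℂ}
    (hw : w ∈ U) (hz : z ∈ V) :
    HasFDerivAt (fun w' => Φ w' z) ((fderiv ℝ (fun p : (Fin (n + 1) → ℂ) × (Fin (n + 1) → ℂ) =>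
      Φ p.1 p.2) (w, z)).comp (ContinuousLinearMap.inl ℝ _ _)) w := by
  have h1 : DifferentiableAt ℝ (fun p : (Fin (n + 1) → ℂ) × (Fin (n + 1) → ℂ) => Φ p.1 p.2)
      (w, z) :=
    (h.sm.contDiffAt ((hU.prod hV).mem_nhds ⟨hw, hz⟩)).differentiableAt (by simp)
  have h2 : HasFDerivAt (fun w' : Fin (n + 1) → ℂ => (w', z))
      (ContinuousLinearMap.inl ℝ (Fin (n + 1) → ℂ) (Fin (n + 1) → ℂ)) w :=
    hasFDerivAt_prodMk_left w z
  exact h1.hasFDerivAt.comp w h2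

theorem Par.zero (h : Par U V Q Φ) (hU : IsOpen U) {w z : Fin (n + 1) → ℂ}
    (hw : w ∈ U) (hz : z ∉ Q) : HasFDerivAt (fun w' => Φ w' z)
      (0 : (Fin (n + 1) → ℂ) →L[ℝ] ℂ) w := by
  refine (hasFDerivAt_const (0 : ℂ) w).congr_of_eventuallyEq ?_
  filter_upwards [hU.mem_nhds hw] with x hx
  exact h.z0 x hx z hz

theorem Par.cont_slice (h : Par U V Q Φ) {w : Fin (n + 1) → ℂ} (hw : w ∈ U) :
    ContinuousOn (fun z => Φ w z) V := by
  have h1 := h.sm.continuousOn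
  exact h1.comp (by fun_prop : ContinuousOn (fun z : Fin (n + 1) → ℂ => (w, z)) V)
    (fun z hz => ⟨hw, hz⟩)

/-- The derivative in the first variable, as a kernel with values in linear forms. -/
theorem Par.cont_fd (h : Par U V Q Φ) (hU : IsOpen U) (hV : IsOpen V) :
    ContinuousOn (fun p : (Fin (n + 1) → ℂ) × (Fin (n + 1) → ℂ) =>
      fderiv ℝ (fun w' => Φ w' p.2) p.1) (U ×ˢ V) := by
  have h1 : ContinuousOn (fderiv ℝ (fun p : (Fin (n + 1) → ℂ) × (Fin (n + 1) → ℂ) => Φ p.1 p.2))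
      (U ×ˢ V) := h.sm.continuousOn_fderiv_of_isOpen (hU.prod hV) (by simp)
  have h2 : ContinuousOn (fun p : (Fin (n + 1) → ℂ) × (Fin (n + 1) → ℂ) =>
      (fderiv ℝ (fun p : (Fin (n + 1) → ℂ) × (Fin (n + 1) → ℂ) => Φ p.1 p.2) p).comp
        (ContinuousLinearMap.inl ℝ (Fin (n + 1) → ℂ) (Fin (n + 1) → ℂ))) (U ×ˢ V) :=
    h1.clm_comp continuousOn_const
  refine h2.congr ?_
  rintro ⟨w, z⟩ ⟨hw, hz⟩
  exact (h.hasFDerivAt hU hV hw hz).fderiv

/-- Differentiation under the integral sign. -/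
theorem Par.hasFDerivAt_integral (h : Par U V Q Φ) (hU : IsOpen U) (hV : IsOpen V)
    (hQ : IsCompact Q) (hQV : Q ⊆ V) {w : Fin (n + 1) → ℂ} (hw : w ∈ U) :
    HasFDerivAt (fun w => ∫ z, Φ w z) (∫ z, fderiv ℝ (fun w' => Φ w' z) w) w ∧
      Integrable (fun z => fderiv ℝ (fun w' => Φ w' z) w) := by
  obtain ⟨r, hr, hrU⟩ : ∃ r > 0, Metric.closedBall w r ⊆ U :=
    Metric.nhds_basis_closedBall.mem_iff.1 (hU.mem_nhds hw)
  have hcd := h.cont_fd hU hV
  have hK : IsCompact (Metric.closedBall w r ×ˢ Q) := (isCompact_closedBall w r).prod hQ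
  have hKU : Metric.closedBall w r ×ˢ Q ⊆ U ×ˢ V := Set.prod_mono hrU hQV
  obtain ⟨C, hC⟩ := (hK.image_of_continuousOn (hcd.mono hKU)).isBounded.exists_norm_le
  have hC' : ∀ w' ∈ Metric.closedBall w r, ∀ z ∈ Q, ‖fderiv ℝ (fun w' => Φ w' z) w'‖ ≤ C := by
    intro w' hw' z hz
    exact hC _ ⟨(w', z), ⟨hw', hz⟩, rfl⟩
  have hz0 : ∀ w' ∈ U, ∀ z, z ∉ Q → fderiv ℝ (fun w' => Φ w' z) w' = 0 := by
    intro w' hw' z hz
    exact (h.zero hU hw' hz).fderiv
  have hfc : ContinuousOn (fun z => fderiv ℝ (fun w' => Φ w' z) w) V :=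
    hcd.comp (by fun_prop : ContinuousOn (fun z : Fin (n + 1) → ℂ => (w, z)) V)
      (fun z hz => ⟨hw, hz⟩)
  have hfi := cont_of hV hQ hQV hfc (hz0 w hw)
  refine ⟨?_, hfi.2.2⟩
  refine hasFDerivAt_integral_of_dominated_of_fderiv_le
    (F' := fun w' z => fderiv ℝ (fun w' => Φ w' z) w') (s := Metric.ball w r)
    (bound := Q.indicator fun _ => C) (Metric.ball_mem_nhds w hr) ?_ ?_ ?_ ?_ ?_ ?_
  · filter_upwards [hU.mem_nhds hw] with x hx
    exact (cont_of hV hQ hQV (h.cont_slice hx) (h.z0 x hx)).1.aestronglyMeasurable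
  · exact (cont_of hV hQ hQV (h.cont_slice hw) (h.z0 w hw)).2.2
  · exact hfi.1.aestronglyMeasurable
  · refine Filter.Eventually.of_forall fun z w' hw' => ?_
    have hw2 : w' ∈ Metric.closedBall w r := Metric.ball_subset_closedBall hw'
    by_cases hz : z ∈ Q
    · rw [Set.indicator_of_mem hz]
      exact hC' w' hw2 z hz
    · rw [Set.indicator_of_notMem hz, hz0 w' (hrU hw2) z hz]
      simp
  · rw [integrable_indicator_iff hQ.isClosed.measurableSet]
    exact integrableOn_const hQ.measure_lt_top.ne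
  · refine Filter.Eventually.of_forall fun z w' hw' => ?_
    have hw2 : w' ∈ U := hrU (Metric.ball_subset_closedBall hw')
    by_cases hz : z ∈ Q
    · have := h.hasFDerivAt hU hV hw2 (hQV hz)
      rw [this.fderiv]
      exact this
    · rw [hz0 w' hw2 z hz]
      exact h.zero hU hw2 hz

theorem Par.fderiv_apply (h : Par U V Q Φ) (hU : IsOpen U) (hV : IsOpen V)
    (v : Fin (n + 1) → ℂ) : Par U V Q (fun w z => fderiv ℝ (fun w' => Φ w' z) w v) := by
  refine ⟨?_, ?_⟩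
  · have h1 : ContDiffOn ℝ ∞ (fderiv ℝ (fun p : (Fin (n + 1) → ℂ) × (Fin (n + 1) → ℂ) =>
        Φ p.1 p.2)) (U ×ˢ V) := h.sm.fderiv_of_isOpen (hU.prod hV) (by simp)
    have h2 : ContDiffOn ℝ ∞ (fun p : (Fin (n + 1) → ℂ) × (Fin (n + 1) → ℂ) =>
        (fderiv ℝ (fun p : (Fin (n + 1) → ℂ) × (Fin (n + 1) → ℂ) => Φ p.1 p.2) p) (v, 0))
        (U ×ˢ V) := h1.clm_apply contDiffOn_const
    refine h2.congr ?_
    rintro ⟨w, z⟩ ⟨hw, hz⟩
    show fderiv ℝ (fun w' => Φ w' z) w v = _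
    rw [(h.hasFDerivAt hU hV hw hz).fderiv]
    simp
  · intro w hw z hz
    show fderiv ℝ (fun w' => Φ w' z) w v = 0
    rw [(h.zero hU hw hz).fderiv]
    simp

theorem Par.const_mul (h : Par U V Q Φ) (c : ℂ) : Par U V Q (fun w z => c * Φ w z) :=
  ⟨contDiffOn_const.mul h.sm, fun w hw z hz => by simp [h.z0 w hw z hz]⟩

theorem Par.add {Ψ : (Fin (n + 1) → ℂ) → (Fin (n + 1) → ℂ) → ℂ} (h : Par U V Q Φ)
    (h' : Par U V Q Ψ) : Par U V Q (fun w z => Φ w z + Ψ w z) :=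
  ⟨h.sm.add h'.sm, fun w hw z hz => by simp [h.z0 w hw z hz, h'.z0 w hw z hz]⟩

theorem Par.sub {Ψ : (Fin (n + 1) → ℂ) → (Fin (n + 1) → ℂ) → ℂ} (h : Par U V Q Φ)
    (h' : Par U V Q Ψ) : Par U V Q (fun w z => Φ w z - Ψ w z) :=
  ⟨h.sm.sub h'.sm, fun w hw z hz => by simp [h.z0 w hw z hz, h'.z0 w hw z hz]⟩

theorem Par.dz (h : Par U V Q Φ) (hU : IsOpen U) (hV : IsOpen V) (j : Fin (n + 1)) :
    Par U V Q (fun w z => dz (fun w' => Φ w' z) j w) :=
  ((h.fderiv_apply hU hV _).sub ((h.fderiv_apply hU hV _).const_mul I)).const_mul _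

theorem Par.dzb (h : Par U V Q Φ) (hU : IsOpen U) (hV : IsOpen V) (j : Fin (n + 1)) :
    Par U V Q (fun w z => dzb (fun w' => Φ w' z) j w) :=
  ((h.fderiv_apply hU hV _).add ((h.fderiv_apply hU hV _).const_mul I)).const_mul _

theorem Par.integrable (h : Par U V Q Φ) (hV : IsOpen V)
    (hQ : IsCompact Q) (hQV : Q ⊆ V) {w : Fin (n + 1) → ℂ} (hw : w ∈ U) :
    Integrable (fun z => Φ w z) :=
  (cont_of hV hQ hQV (h.cont_slice hw) (h.z0 w hw)).2.2

theorem Par.fderiv_integral (h : Par U V Q Φ) (hU : IsOpen U) (hV : IsOpen V)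
    (hQ : IsCompact Q) (hQV : Q ⊆ V) {w : Fin (n + 1) → ℂ} (hw : w ∈ U) (v : Fin (n + 1) → ℂ) :
    fderiv ℝ (fun w => ∫ z, Φ w z) w v = ∫ z, fderiv ℝ (fun w' => Φ w' z) w v := by
  obtain ⟨h1, h2⟩ := h.hasFDerivAt_integral hU hV hQ hQV hw
  rw [h1.fderiv, ContinuousLinearMap.integral_apply h2]

theorem Par.dz_integral (h : Par U V Q Φ) (hU : IsOpen U) (hV : IsOpen V)
    (hQ : IsCompact Q) (hQV : Q ⊆ V) {w : Fin (n + 1) → ℂ} (hw : w ∈ U) (j : Fin (n + 1)) :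
    CMP.dz (fun w => ∫ z, Φ w z) j w = ∫ z, CMP.dz (fun w' => Φ w' z) j w := by
  unfold CMP.dz
  rw [h.fderiv_integral hU hV hQ hQV hw, h.fderiv_integral hU hV hQ hQV hw,
    integral_const_mul, integral_sub ((h.fderiv_apply hU hV _).integrable hV hQ hQV hw)
      (((h.fderiv_apply hU hV _).integrable hV hQ hQV hw).const_mul I), integral_const_mul]

theorem Par.dzb_integral (h : Par U V Q Φ) (hU : IsOpen U) (hV : IsOpen V)
    (hQ : IsCompact Q) (hQV : Q ⊆ V) {w : Fin (n + 1) → ℂ} (hw : w ∈ U) (j : Fin (n + 1)) :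
    CMP.dzb (fun w => ∫ z, Φ w z) j w = ∫ z, CMP.dzb (fun w' => Φ w' z) j w := by
  unfold CMP.dzb
  rw [h.fderiv_integral hU hV hQ hQV hw, h.fderiv_integral hU hV hQ hQV hw,
    integral_const_mul, integral_add ((h.fderiv_apply hU hV _).integrable hV hQ hQV hw)
      (((h.fderiv_apply hU hV _).integrable hV hQ hQV hw).const_mul I), integral_const_mul]

/-- `□` under the integral sign. -/
theorem Par.Box_integral (h : Par U V Q Φ) (hU : IsOpen U) (hV : IsOpen V)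
    (hQ : IsCompact Q) (hQV : Q ⊆ V) {w : Fin (n + 1) → ℂ} (hw : w ∈ U)
    (k : Fin (n + 1) → ℝ) :
    Box k (fun w => ∫ z, Φ w z) w = ∫ z, Box k (fun w' => Φ w' z) w := by
  unfold Box
  rw [integral_finsetSum]
  · refine Finset.sum_congr rfl fun j _ => ?_
    rw [integral_const_mul]
    congr 1
    have h1 : CMP.dzb (fun w => ∫ z, Φ w z) j =ᶠ[𝓝 w]
        fun w => ∫ z, CMP.dzb (fun w' => Φ w' z) j w := by
      filter_upwards [hU.mem_nhds hw] with x hx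
      exact h.dzb_integral hU hV hQ hQV hx j
    rw [dz_congr h1 j]
    exact (h.dzb hU hV j).dz_integral hU hV hQ hQV hw j
  · intro j _
    exact (((h.dzb hU hV j).dz hU hV j).integrable hV hQ hQV hw).const_mul _

end

end K9

end Pool.CMP
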