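import Pool.Agent.Lib.CMP.KDefs

/-!
# Tank CMP, block K (helper53): the operators `∂`, `∂bar`, `□` and linear changes of coordinates
-/

set_option autoImplicit false

open scoped ComplexConjugate Matrix
open Complex MeasureTheory

namespace Pool.CMP

namespace SX

noncomputable section

variable {n : ℕ}

/-- The `j`-th holomorphic component of a real linear form. -/
def dl (D : (Fin (n + 1) → ℂ) →L[ℝ] ℂ) (j : Fin (n + 1)) : ℂ :=
  (1 / 2 : ℂ) * (D (Pi.single j 1) - I * D (Pi.single j I))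

/-- The `j`-th antiholomorphic component of a real linear form. -/
def dlb (D : (Fin (n + 1) → ℂ) →L[ℝ] ℂ) (j : Fin (n + 1)) : ℂ :=
  (1 / 2 : ℂ) * (D (Pi.single j 1) + I * D (Pi.single j I))

theorem dz_eq (f : (Fin (n + 1) → ℂ) → ℂ) (j : Fin (n + 1)) (w : Fin (n + 1) → ℂ) :
    dz f j w = dl (fderiv ℝ f w) j := rfl

theorem dzb_eq (f : (Fin (n + 1) → ℂ) → ℂ) (j : Fin (n + 1)) (w : Fin (n + 1) → ℂ) :
    dzb f j w = dlb (fderiv ℝ f w) j := rfl

theorem single_apply (D : (Fin (n + 1) → ℂ) →L[ℝ] ℂ) (j : Fin (n + 1)) (a : ℂ) :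
    D (Pi.single j a) = a * dl D j + conj a * dlb D j := by
  have h1 : (Pi.single j a : Fin (n + 1) → ℂ) =
      a.re • (Pi.single j 1 : Fin (n + 1) → ℂ) + a.im • (Pi.single j I : Fin (n + 1) → ℂ) := by
    funext i
    by_cases hi : i = j
    · subst hi
      simp only [Pi.add_apply, Pi.smul_apply, Pi.single_eq_same, Complex.real_smul, mul_one]
      exact (Complex.re_add_im a).symm
    · simp [Pi.single_eq_of_ne hi]
  rw [h1, map_add, map_smul, map_smul, dl, dlb, Complex.real_smul, Complex.real_smul]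
  have h2 : a = a.re + a.im * I := (Complex.re_add_im a).symm
  have h3 : conj a = a.re - a.im * I := by
    apply Complex.ext <;> simp
  rw [h3]
  nth_rewrite 3 [h2]
  have h4 : I * I = -1 := Complex.I_mul_I
  linear_combination ((a.im : ℂ) * D (Pi.single j I)) * h4

theorem apply_eq (D : (Fin (n + 1) → ℂ) →L[ℝ] ℂ) (v : Fin (n + 1) → ℂ) :
    D v = ∑ l, (v l * dl D l + conj (v l) * dlb D l) := by
  have h1 : v = ∑ l, (Pi.single l (v l) : Fin (n + 1) → ℂ) := (Finset.univ_sum_single v).symm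
  conv_lhs => rw [h1]
  rw [map_sum]
  exact Finset.sum_congr rfl fun l _ => single_apply D l (v l)

theorem dl_add (D D' : (Fin (n + 1) → ℂ) →L[ℝ] ℂ) (j : Fin (n + 1)) :
    dl (D + D') j = dl D j + dl D' j := by
  simp only [dl, _root_.add_apply]; ring

theorem dlb_add (D D' : (Fin (n + 1) → ℂ) →L[ℝ] ℂ) (j : Fin (n + 1)) :
    dlb (D + D') j = dlb D j + dlb D' j := by
  simp only [dlb, _root_.add_apply]; ring

theorem dl_sum {ι : Type*} (s : Finset ι) (D : ι → (Fin (n + 1) → ℂ) →L[ℝ] ℂ)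
    (j : Fin (n + 1)) : dl (∑ i ∈ s, D i) j = ∑ i ∈ s, dl (D i) j := by
  classical
  induction s using Finset.induction_on with
  | empty => simp [dl]
  | insert a s ha ih => rw [Finset.sum_insert ha, Finset.sum_insert ha, dl_add, ih]

theorem dlb_sum {ι : Type*} (s : Finset ι) (D : ι → (Fin (n + 1) → ℂ) →L[ℝ] ℂ)
    (j : Fin (n + 1)) : dlb (∑ i ∈ s, D i) j = ∑ i ∈ s, dlb (D i) j := by
  classical
  induction s using Finset.induction_on with
  | empty => simp [dlb]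
  | insert a s ha ih => rw [Finset.sum_insert ha, Finset.sum_insert ha, dlb_add, ih]

theorem dl_smul (c : ℂ) (D : (Fin (n + 1) → ℂ) →L[ℝ] ℂ) (j : Fin (n + 1)) :
    dl (c • D) j = c * dl D j := by
  simp only [dl, _root_.smul_apply, smul_eq_mul]; ring

theorem dlb_smul (c : ℂ) (D : (Fin (n + 1) → ℂ) →L[ℝ] ℂ) (j : Fin (n + 1)) :
    dlb (c • D) j = c * dlb D j := by
  simp only [dlb, _root_.smul_apply, smul_eq_mul]; ring

/-- The linear map of a matrix, as a real continuous linear map. -/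
def ml (M : Matrix (Fin (n + 1)) (Fin (n + 1)) ℂ) :
    (Fin (n + 1) → ℂ) →L[ℝ] (Fin (n + 1) → ℂ) :=
  (LinearMap.toContinuousLinearMap (Matrix.mulVecLin M)).restrictScalars ℝ

theorem ml_apply (M : Matrix (Fin (n + 1)) (Fin (n + 1)) ℂ) (w : Fin (n + 1) → ℂ) :
    ml M w = M *ᵥ w := rfl

theorem ml_single (M : Matrix (Fin (n + 1)) (Fin (n + 1)) ℂ) (j : Fin (n + 1)) (a : ℂ)
    (l : Fin (n + 1)) : ml M (Pi.single j a) l = M l j * a := by
  rw [ml_apply, Matrix.mulVec_single]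
  simp [mul_comm]

theorem dl_comp (D : (Fin (n + 1) → ℂ) →L[ℝ] ℂ) (M : Matrix (Fin (n + 1)) (Fin (n + 1)) ℂ)
    (j : Fin (n + 1)) : dl (D.comp (ml M)) j = ∑ l, M l j * dl D l := by
  rw [dl, ContinuousLinearMap.comp_apply, ContinuousLinearMap.comp_apply, apply_eq D, apply_eq D,
    Finset.mul_sum, ← Finset.sum_sub_distrib, Finset.mul_sum]
  refine Finset.sum_congr rfl fun l _ => ?_
  rw [ml_single, ml_single, mul_one, map_mul, Complex.conj_I]
  have h4 : I * I = -1 := Complex.I_mul_I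
  linear_combination (-(1 / 2 : ℂ) * M l j * dl D l + (1 / 2 : ℂ) * conj (M l j) * dlb D l) * h4

theorem dlb_comp (D : (Fin (n + 1) → ℂ) →L[ℝ] ℂ) (M : Matrix (Fin (n + 1)) (Fin (n + 1)) ℂ)
    (j : Fin (n + 1)) : dlb (D.comp (ml M)) j = ∑ l, conj (M l j) * dlb D l := by
  rw [dlb, ContinuousLinearMap.comp_apply, ContinuousLinearMap.comp_apply, apply_eq D, apply_eq D,
    Finset.mul_sum, ← Finset.sum_add_distrib, Finset.mul_sum]
  refine Finset.sum_congr rfl fun l _ => ?_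
  rw [ml_single, ml_single, mul_one, map_mul, Complex.conj_I]
  have h4 : I * I = -1 := Complex.I_mul_I
  linear_combination ((1 / 2 : ℂ) * M l j * dl D l - (1 / 2 : ℂ) * conj (M l j) * dlb D l) * h4

theorem dz_comp {f : (Fin (n + 1) → ℂ) → ℂ} {M : Matrix (Fin (n + 1)) (Fin (n + 1)) ℂ}
    {w : Fin (n + 1) → ℂ} (hf : DifferentiableAt ℝ f (M *ᵥ w)) (j : Fin (n + 1)) :
    dz (fun z => f (M *ᵥ z)) j w = ∑ l, M l j * dz f l (M *ᵥ w) := by
  have h1 : fderiv ℝ (fun z => f (M *ᵥ z)) w = (fderiv ℝ f (M *ᵥ w)).comp (ml M) := by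
    have h2 : HasFDerivAt (fun z => M *ᵥ z) (ml M) w := (ml M).hasFDerivAt
    exact (hf.hasFDerivAt.comp w h2).fderiv
  rw [dz_eq, h1, dl_comp]
  rfl

theorem dzb_comp {f : (Fin (n + 1) → ℂ) → ℂ} {M : Matrix (Fin (n + 1)) (Fin (n + 1)) ℂ}
    {w : Fin (n + 1) → ℂ} (hf : DifferentiableAt ℝ f (M *ᵥ w)) (j : Fin (n + 1)) :
    dzb (fun z => f (M *ᵥ z)) j w = ∑ l, conj (M l j) * dzb f l (M *ᵥ w) := by
  have h1 : fderiv ℝ (fun z => f (M *ᵥ z)) w = (fderiv ℝ f (M *ᵥ w)).comp (ml M) := by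
    have h2 : HasFDerivAt (fun z => M *ᵥ z) (ml M) w := (ml M).hasFDerivAt
    exact (hf.hasFDerivAt.comp w h2).fderiv
  rw [dzb_eq, h1, dlb_comp]
  rfl

theorem dz_congr {f g : (Fin (n + 1) → ℂ) → ℂ} {w : Fin (n + 1) → ℂ}
    (h : f =ᶠ[nhds w] g) (j : Fin (n + 1)) : dz f j w = dz g j w := by
  rw [dz_eq, dz_eq, h.fderiv_eq]

theorem dzb_congr {f g : (Fin (n + 1) → ℂ) → ℂ} {w : Fin (n + 1) → ℂ}
    (h : f =ᶠ[nhds w] g) (j : Fin (n + 1)) : dzb f j w = dzb g j w := by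
  rw [dzb_eq, dzb_eq, h.fderiv_eq]

theorem dzb_eventually {f g : (Fin (n + 1) → ℂ) → ℂ} {w : Fin (n + 1) → ℂ}
    (h : f =ᶠ[nhds w] g) (j : Fin (n + 1)) : dzb f j =ᶠ[nhds w] dzb g j := by
  filter_upwards [h.eventuallyEq_nhds] with z hz
  exact dzb_congr hz j

theorem Box_congr (k : Fin (n + 1) → ℝ) {f g : (Fin (n + 1) → ℂ) → ℂ} {w : Fin (n + 1) → ℂ}
    (h : f =ᶠ[nhds w] g) : Box k f w = Box k g w := by
  rw [Box, Box]
  exact Finset.sum_congr rfl fun j _ => by rw [dz_congr (dzb_eventually h j) j]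

theorem dz_sum {ι : Type*} (s : Finset ι) {f : ι → (Fin (n + 1) → ℂ) → ℂ}
    {w : Fin (n + 1) → ℂ} (hf : ∀ i ∈ s, DifferentiableAt ℝ (f i) w) (c : ι → ℂ)
    (j : Fin (n + 1)) :
    dz (fun z => ∑ i ∈ s, c i * f i z) j w = ∑ i ∈ s, c i * dz (f i) j w := by
  have h1 : fderiv ℝ (fun z => ∑ i ∈ s, c i * f i z) w = ∑ i ∈ s, c i • fderiv ℝ (f i) w :=
    (HasFDerivAt.fun_sum fun i hi => ((hf i hi).hasFDerivAt.const_mul (c i))).fderiv
  rw [dz_eq, h1, dl_sum]
  exact Finset.sum_congr rfl fun i _ => dl_smul _ _ _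

theorem dzb_sum {ι : Type*} (s : Finset ι) {f : ι → (Fin (n + 1) → ℂ) → ℂ}
    {w : Fin (n + 1) → ℂ} (hf : ∀ i ∈ s, DifferentiableAt ℝ (f i) w) (c : ι → ℂ)
    (j : Fin (n + 1)) :
    dzb (fun z => ∑ i ∈ s, c i * f i z) j w = ∑ i ∈ s, c i * dzb (f i) j w := by
  have h1 : fderiv ℝ (fun z => ∑ i ∈ s, c i * f i z) w = ∑ i ∈ s, c i • fderiv ℝ (f i) w :=
    (HasFDerivAt.fun_sum fun i hi => ((hf i hi).hasFDerivAt.const_mul (c i))).fderiv
  rw [dzb_eq, h1, dlb_sum]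
  exact Finset.sum_congr rfl fun i _ => dlb_smul _ _ _

theorem dz_add {f g : (Fin (n + 1) → ℂ) → ℂ} {w : Fin (n + 1) → ℂ}
    (hf : DifferentiableAt ℝ f w) (hg : DifferentiableAt ℝ g w) (j : Fin (n + 1)) :
    dz (fun z => f z + g z) j w = dz f j w + dz g j w := by
  rw [dz_eq, fderiv_fun_add hf hg, dl_add]; rfl

theorem dzb_add {f g : (Fin (n + 1) → ℂ) → ℂ} {w : Fin (n + 1) → ℂ}
    (hf : DifferentiableAt ℝ f w) (hg : DifferentiableAt ℝ g w) (j : Fin (n + 1)) :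
    dzb (fun z => f z + g z) j w = dzb f j w + dzb g j w := by
  rw [dzb_eq, fderiv_fun_add hf hg, dlb_add]; rfl

theorem dz_const_mul {f : (Fin (n + 1) → ℂ) → ℂ} {w : Fin (n + 1) → ℂ} (c : ℂ)
    (hf : DifferentiableAt ℝ f w) (j : Fin (n + 1)) :
    dz (fun z => c * f z) j w = c * dz f j w := by
  rw [dz_eq, (hf.hasFDerivAt.const_mul c).fderiv, dl_smul]; rfl

theorem dzb_const_mul {f : (Fin (n + 1) → ℂ) → ℂ} {w : Fin (n + 1) → ℂ} (c : ℂ)
    (hf : DifferentiableAt ℝ f w) (j : Fin (n + 1)) :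
    dzb (fun z => c * f z) j w = c * dzb f j w := by
  rw [dzb_eq, (hf.hasFDerivAt.const_mul c).fderiv, dlb_smul]; rfl

/-! ### Smooth functions -/

/-- `dzb f j` is differentiable where `f` is `C²`. -/
theorem differentiableAt_dzb {f : (Fin (n + 1) → ℂ) → ℂ} {w : Fin (n + 1) → ℂ}
    (hf : ContDiffAt ℝ 2 f w) (j : Fin (n + 1)) : DifferentiableAt ℝ (dzb f j) w := by
  have h1 : ContDiffAt ℝ 1 (fderiv ℝ f) w := hf.fderiv_right (by norm_num)
  have h2 : DifferentiableAt ℝ (fderiv ℝ f) w := h1.differentiableAt (by norm_num)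
  have h3 : ∀ v : Fin (n + 1) → ℂ, DifferentiableAt ℝ (fun z => fderiv ℝ f z v) w := fun v =>
    h2.clm_apply (differentiableAt_const v)
  exact ((h3 _).add ((h3 _).const_mul I)).const_mul _

theorem contDiffOn_dzb {U : Set (Fin (n + 1) → ℂ)} (hU : IsOpen U)
    {f : (Fin (n + 1) → ℂ) → ℂ} {m : ℕ} (hf : ContDiffOn ℝ (m + 1 : ℕ) f U)
    (j : Fin (n + 1)) : ContDiffOn ℝ m (dzb f j) U := by
  have h1 : ContDiffOn ℝ m (fderiv ℝ f) U := hf.fderiv_of_isOpen hU (by norm_cast)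
  have h3 : ∀ v : Fin (n + 1) → ℂ, ContDiffOn ℝ m (fun z => fderiv ℝ f z v) U := fun v =>
    h1.clm_apply contDiffOn_const
  exact contDiffOn_const.mul ((h3 _).add (contDiffOn_const.mul (h3 _)))

theorem contDiffOn_dz {U : Set (Fin (n + 1) → ℂ)} (hU : IsOpen U)
    {f : (Fin (n + 1) → ℂ) → ℂ} {m : ℕ} (hf : ContDiffOn ℝ (m + 1 : ℕ) f U)
    (j : Fin (n + 1)) : ContDiffOn ℝ m (dz f j) U := by
  have h1 : ContDiffOn ℝ m (fderiv ℝ f) U := hf.fderiv_of_isOpen hU (by norm_cast)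
  have h3 : ∀ v : Fin (n + 1) → ℂ, ContDiffOn ℝ m (fun z => fderiv ℝ f z v) U := fun v =>
    h1.clm_apply contDiffOn_const
  exact contDiffOn_const.mul ((h3 _).sub (contDiffOn_const.mul (h3 _)))

theorem contDiffOn_Box (k : Fin (n + 1) → ℝ) {U : Set (Fin (n + 1) → ℂ)} (hU : IsOpen U)
    {f : (Fin (n + 1) → ℂ) → ℂ} {m : ℕ} (hf : ContDiffOn ℝ (m + 1 + 1 : ℕ) f U) :
    ContDiffOn ℝ m (Box k f) U := by
  unfold Box
  exact ContDiffOn.sum fun j _ =>
    contDiffOn_const.mul (contDiffOn_dz hU (contDiffOn_dzb hU hf j) j)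

/-- `□` after a linear change of coordinates. -/
theorem Box_comp (k : Fin (n + 1) → ℝ) {f : (Fin (n + 1) → ℂ) → ℂ}
    {M : Matrix (Fin (n + 1)) (Fin (n + 1)) ℂ} {w : Fin (n + 1) → ℂ}
    (hf : ContDiffAt ℝ 2 f (M *ᵥ w)) :
    Box k (fun z => f (M *ᵥ z)) w = ∑ l, ∑ m,
      (∑ j, ((k j)⁻¹ : ℂ) * conj (M l j) * M m j) * dz (dzb f l) m (M *ᵥ w) := by
  have hc : ContinuousAt (fun z => M *ᵥ z) w := (ml M).continuous.continuousAt
  have h1 : ∀ j, dzb (fun z => f (M *ᵥ z)) j =ᶠ[nhds w]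
      fun z => ∑ l, conj (M l j) * dzb f l (M *ᵥ z) := by
    intro j
    have h2 : ∀ᶠ y in nhds (M *ᵥ w), ContDiffAt ℝ 2 f y := hf.eventually (by simp)
    filter_upwards [hc.eventually h2] with z hz
    exact dzb_comp (hz.differentiableAt (by norm_num)) j
  have h2 : ∀ j, dz (dzb (fun z => f (M *ᵥ z)) j) j w =
      ∑ l, conj (M l j) * ∑ m, M m j * dz (dzb f l) m (M *ᵥ w) := by
    intro j
    rw [dz_congr (h1 j) j, dz_sum Finset.univ (f := fun l z => dzb f l (M *ᵥ z))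
      (fun l _ => ?_) (fun l => conj (M l j)) j]
    · exact Finset.sum_congr rfl fun l _ => by rw [dz_comp (differentiableAt_dzb hf l) j]
    · exact (differentiableAt_dzb hf l).comp w (ml M).differentiableAt
  rw [Box]
  simp_rw [h2, Finset.mul_sum, Finset.sum_mul]
  rw [Finset.sum_comm]
  refine Finset.sum_congr rfl fun l _ => ?_
  rw [Finset.sum_comm]
  exact Finset.sum_congr rfl fun m _ => Finset.sum_congr rfl fun j _ => by ring

/-- Isometries: `g k⁻¹ g* = k⁻¹`. -/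
theorem isU_dual {k : Fin (n + 1) → ℝ} (hk : ∀ i, k i ≠ 0)
    {g : Matrix (Fin (n + 1)) (Fin (n + 1)) ℂ} (hg : Pool.CMN.Jac.IsU k g)
    (l m : Fin (n + 1)) :
    ∑ j, ((k j)⁻¹ : ℂ) * conj (g l j) * g m j = if m = l then ((k l)⁻¹ : ℂ) else 0 := by
  have hk' : ∀ i, (k i : ℂ) ≠ 0 := fun i => by exact_mod_cast hk i
  set D : Matrix (Fin (n + 1)) (Fin (n + 1)) ℂ := Matrix.diagonal fun i => (k i : ℂ) with hD
  set E : Matrix (Fin (n + 1)) (Fin (n + 1)) ℂ := Matrix.diagonal fun i => ((k i)⁻¹ : ℂ) with hE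
  have hDE : E * D = 1 := by
    rw [hD, hE, Matrix.diagonal_mul_diagonal, ← Matrix.diagonal_one]
    congr 1
    funext i
    exact inv_mul_cancel₀ (hk' i)
  have hED : D * E = 1 := by
    rw [hD, hE, Matrix.diagonal_mul_diagonal, ← Matrix.diagonal_one]
    congr 1
    funext i
    exact mul_inv_cancel₀ (hk' i)
  have h1 : (E * gᴴ * D) * g = 1 := by
    have h2 : gᴴ * D * g = D := hg
    calc (E * gᴴ * D) * g = E * (gᴴ * D * g) := by simp only [Matrix.mul_assoc]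
      _ = 1 := by rw [h2, hDE]
  have h2 : g * (E * gᴴ * D) = 1 := mul_eq_one_comm.1 h1
  have h3 : g * E * gᴴ = E := by
    calc g * E * gᴴ = (g * (E * gᴴ * D)) * E := by
          simp only [Matrix.mul_assoc]
          rw [hED, Matrix.mul_one]
      _ = E := by rw [h2, Matrix.one_mul]
  have h4 := congrFun (congrFun h3 m) l
  rw [Matrix.mul_apply] at h4
  rw [hE, Matrix.diagonal_apply] at h4
  have h5 : ∀ j, (g * Matrix.diagonal fun i => ((k i)⁻¹ : ℂ)) m j * gᴴ j l =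
      ((k j)⁻¹ : ℂ) * conj (g l j) * g m j := by
    intro j
    rw [Matrix.mul_diagonal, Matrix.conjTranspose_apply, RCLike.star_def]
    ring
  rw [Finset.sum_congr rfl fun j _ => h5 j] at h4
  rw [h4]
  split_ifs with h6
  · rw [h6]
  · rfl

/-- `□` commutes with the isometries. -/
theorem Box_isU {k : Fin (n + 1) → ℝ} (hk : ∀ i, k i ≠ 0) {f : (Fin (n + 1) → ℂ) → ℂ}
    {g : Matrix (Fin (n + 1)) (Fin (n + 1)) ℂ} (hg : Pool.CMN.Jac.IsU k g)
    {w : Fin (n + 1) → ℂ} (hf : ContDiffAt ℝ 2 f (g *ᵥ w)) :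
    Box k (fun z => f (g *ᵥ z)) w = Box k f (g *ᵥ w) := by
  rw [Box_comp k hf, Box]
  refine Finset.sum_congr rfl fun l _ => ?_
  simp_rw [isU_dual hk hg l]
  simp

/-- `□` and homotheties. -/
theorem Box_smul (k : Fin (n + 1) → ℝ) {f : (Fin (n + 1) → ℂ) → ℂ} (c : ℂ)
    {w : Fin (n + 1) → ℂ} (hf : ContDiffAt ℝ 2 f (c • w)) :
    Box k (fun z => f (c • z)) w = (c * conj c) * Box k f (c • w) := by
  have h1 : ∀ z : Fin (n + 1) → ℂ, c • z = (c • (1 : Matrix (Fin (n + 1)) (Fin (n + 1)) ℂ)) *ᵥ z := by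
    intro z
    rw [Matrix.smul_mulVec, Matrix.one_mulVec]
  have h2 : (fun z => f (c • z)) =
      fun z => f ((c • (1 : Matrix (Fin (n + 1)) (Fin (n + 1)) ℂ)) *ᵥ z) := by
    funext z
    rw [← h1]
  rw [h2, Box_comp k (by rwa [← h1]), ← h1, Box, Finset.mul_sum]
  refine Finset.sum_congr rfl fun l _ => ?_
  have h3 : ∀ m, ∑ j, ((k j)⁻¹ : ℂ) *
      conj ((c • (1 : Matrix (Fin (n + 1)) (Fin (n + 1)) ℂ)) l j) *
      (c • (1 : Matrix (Fin (n + 1)) (Fin (n + 1)) ℂ)) m j =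
      if m = l then ((k l)⁻¹ : ℂ) * (c * conj c) else 0 := by
    intro m
    simp only [Matrix.smul_apply, Matrix.one_apply, smul_eq_mul, mul_ite, mul_one, mul_zero]
    rw [Finset.sum_eq_single m]
    · by_cases h : m = l
      · subst h
        simp only [if_true]
        ring
      · have h' : ¬ l = m := fun h' => h h'.symm
        simp [h, h']
    · intro j _ hj
      simp [hj.symm]
    · intro h
      exact absurd (Finset.mem_univ m) h
  simp_rw [h3]
  rw [Finset.sum_eq_single l]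
  · simp only [if_true]
    ring
  · intro m _ hm
    simp [hm]
  · intro h
    exact absurd (Finset.mem_univ l) h

theorem Box_add (k : Fin (n + 1) → ℝ) {f g : (Fin (n + 1) → ℂ) → ℂ} {w : Fin (n + 1) → ℂ}
    (hf : ContDiffAt ℝ 2 f w) (hg : ContDiffAt ℝ 2 g w) :
    Box k (fun z => f z + g z) w = Box k f w + Box k g w := by
  rw [Box, Box, Box, ← Finset.sum_add_distrib]
  refine Finset.sum_congr rfl fun j _ => ?_
  have h1 : dzb (fun z => f z + g z) j =ᶠ[nhds w] fun z => dzb f j z + dzb g j z := by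
    filter_upwards [hf.eventually (by simp), hg.eventually (by simp)] with z h2 h3
    exact dzb_add (h2.differentiableAt (by norm_num)) (h3.differentiableAt (by norm_num)) j
  rw [dz_congr h1 j, dz_add (differentiableAt_dzb hf j) (differentiableAt_dzb hg j)]
  ring

theorem Box_const_mul (k : Fin (n + 1) → ℝ) {f : (Fin (n + 1) → ℂ) → ℂ}
    {w : Fin (n + 1) → ℂ} (c : ℂ) (hf : ContDiffAt ℝ 2 f w) :
    Box k (fun z => c * f z) w = c * Box k f w := by
  rw [Box, Box, Finset.mul_sum]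
  refine Finset.sum_congr rfl fun j _ => ?_
  have h1 : dzb (fun z => c * f z) j =ᶠ[nhds w] fun z => c * dzb f j z := by
    filter_upwards [hf.eventually (by simp)] with z h2
    exact dzb_const_mul c (h2.differentiableAt (by norm_num)) j
  rw [dz_congr h1 j, dz_const_mul c (differentiableAt_dzb hf j)]
  ring

/-- `□` of a linear function. -/
theorem Box_linear (k : Fin (n + 1) → ℝ) (l : Fin (n + 1) → ℂ) (w : Fin (n + 1) → ℂ) :
    Box k (fun z => ∑ j, l j * z j) w = 0 := by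
  have h1 : ∀ j, dzb (fun z : Fin (n + 1) → ℂ => ∑ i, l i * z i) j = fun _ => 0 := by
    intro j
    funext z
    have h2 : HasFDerivAt (fun z : Fin (n + 1) → ℂ => ∑ i, l i * z i)
        (∑ i, l i • (ContinuousLinearMap.proj i : (Fin (n + 1) → ℂ) →L[ℝ] ℂ)) z :=
      HasFDerivAt.fun_sum fun i _ => (hasFDerivAt_apply i z).const_mul (l i)
    rw [dzb_eq, h2.fderiv, dlb_sum]
    refine Finset.sum_eq_zero fun i _ => ?_
    rw [dlb_smul]
    by_cases hij : i = j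
    · subst hij
      simp [dlb, Complex.I_mul_I]
    · simp [dlb, Pi.single_eq_of_ne hij]
  rw [Box]
  refine Finset.sum_eq_zero fun j _ => ?_
  rw [h1 j, dz_eq]
  simp [dl]

/-- Cauchy-Riemann. -/
theorem differentiableAt_of_dzb {f : (Fin (n + 1) → ℂ) → ℂ} {w : Fin (n + 1) → ℂ}
    (hf : DifferentiableAt ℝ f w) (h : ∀ j, dzb f j w = 0) : DifferentiableAt ℂ f w := by
  have h1 : ∀ v, fderiv ℝ f w v = ∑ l, v l * dl (fderiv ℝ f w) l := by
    intro v
    rw [apply_eq]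
    refine Finset.sum_congr rfl fun l _ => ?_
    rw [show dlb (fderiv ℝ f w) l = 0 from h l, mul_zero, add_zero]
  let L : (Fin (n + 1) → ℂ) →L[ℂ] ℂ :=
    ∑ l, dl (fderiv ℝ f w) l • (ContinuousLinearMap.proj l : (Fin (n + 1) → ℂ) →L[ℂ] ℂ)
  have h2 : L.restrictScalars ℝ = fderiv ℝ f w := by
    ext v
    rw [h1]
    simp only [L, ContinuousLinearMap.coe_restrictScalars', _root_.sum_apply,
      _root_.smul_apply, ContinuousLinearMap.proj_apply, smul_eq_mul]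
    exact Finset.sum_congr rfl fun l _ => mul_comm _ _
  exact (hasFDerivAt_of_restrictScalars ℝ hf.hasFDerivAt h2).differentiableAt

end

end SX

end Pool.CMP
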