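import Pool.Agent.Lib.CMP.Cov

/-!
# CMP block K: unitary reflections, transitivity on the cone (helper2)
-/

set_option autoImplicit false

open scoped ComplexConjugate Matrix
open Complex MeasureTheory

namespace Pool.CMP.S2

noncomputable section

variable {n : ℕ} {k : Fin (n + 1) → ℝ}

open Pool.CMN.Jac (IsU Sg)

theorem isU_of_H {g : Matrix (Fin (n + 1)) (Fin (n + 1)) ℂ}
    (h : ∀ z w, H k (g *ᵥ z) (g *ᵥ w) = H k z w) : IsU k g := by
  have h1 : ∀ z w, star z ⬝ᵥ ((gᴴ * Matrix.diagonal (fun i => (k i : ℂ)) * g) *ᵥ w) =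
      star z ⬝ᵥ (Matrix.diagonal (fun i => (k i : ℂ)) *ᵥ w) := by
    intro z w
    have h2 := h z w
    rw [H_eq, H_eq, Matrix.star_mulVec, Matrix.mulVec_mulVec, ← Matrix.dotProduct_mulVec,
      Matrix.mulVec_mulVec, ← Matrix.mul_assoc] at h2
    exact h2
  refine Matrix.ext fun i j => ?_
  have h2 := h1 (Pi.single i 1) (Pi.single j 1)
  have h3 : star (Pi.single i 1 : Fin (n + 1) → ℂ) = Pi.single i 1 := by
    funext a
    by_cases ha : a = i
    · subst ha; simp
    · simp [Pi.single_eq_of_ne ha]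
  rw [h3, single_one_dotProduct, single_one_dotProduct, Matrix.mulVec_single_one,
    Matrix.mulVec_single_one] at h2
  exact h2

/-- The reflection `z ↦ z - 2 H(v,z)/H(v,v) v`. -/
def refl (k : Fin (n + 1) → ℝ) (v : Fin (n + 1) → ℂ) : Matrix (Fin (n + 1)) (Fin (n + 1)) ℂ :=
  1 - (2 / H k v v) • Matrix.vecMulVec v (fun j => (k j : ℂ) * conj (v j))

theorem refl_mulVec (v z : Fin (n + 1) → ℂ) :
    refl k v *ᵥ z = z - (2 * H k v z / H k v v) • v := by
  rw [refl, Matrix.sub_mulVec, Matrix.one_mulVec, Matrix.smul_mulVec, Matrix.vecMulVec_mulVec]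
  congr 1
  have h1 : (fun j => (k j : ℂ) * conj (v j)) ⬝ᵥ z = H k v z := rfl
  rw [h1]
  funext i
  simp only [Pi.smul_apply, smul_eq_mul, MulOpposite.smul_eq_mul_unop, MulOpposite.unop_op]
  ring

theorem refl_isU {v : Fin (n + 1) → ℂ} (hv : H k v v ≠ 0) : IsU k (refl k v) := by
  refine isU_of_H fun z w => ?_
  have h1 : conj (H k v v) = H k v v := H_conj v v
  rw [refl_mulVec, refl_mulVec, H_sub_left, H_sub_right, H_sub_right, H_smul_left, H_smul_left,
    H_smul_right, H_smul_right, map_div₀, map_mul, h1, H_conj, map_ofNat]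
  field_simp
  ring

theorem isU_neg {g : Matrix (Fin (n + 1)) (Fin (n + 1)) ℂ} (hg : IsU k g) : IsU k (-g) := by
  unfold IsU at *
  rw [Matrix.conjTranspose_neg, Matrix.neg_mul, Matrix.neg_mul, Matrix.mul_neg, neg_neg, hg]

/-! ### transitivity -/

theorem H_en_left (w : Fin (n + 1) → ℂ) : H k (en n) w = k (Fin.last n) * w (Fin.last n) := by
  rw [H, Fin.sum_univ_castSucc]
  have h1 : ∀ i : Fin n, (en n) i.castSucc = 0 := fun i => by
    rw [en, Pi.single_eq_of_ne (Fin.castSucc_lt_last i).ne]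
  have h2 : (en n) (Fin.last n) = 1 := by rw [en, Pi.single_eq_same]
  simp [h1, h2]

theorem H_en_right (w : Fin (n + 1) → ℂ) :
    H k w (en n) = k (Fin.last n) * conj (w (Fin.last n)) := by
  rw [← H_conj, H_en_left, map_mul, Complex.conj_ofReal]

theorem rho_en : rho k (en n) = -k (Fin.last n) := by
  have h1 := H_self (k := k) (en n)
  rw [H_en_left] at h1
  have h2 : (en n) (Fin.last n) = 1 := by rw [en, Pi.single_eq_same]
  rw [h2, mul_one] at h1
  have h3 : (rho k (en n) : ℂ) = -(k (Fin.last n) : ℂ) := by rw [h1, neg_neg]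
  exact_mod_cast h3

theorem en_mem (hk : Sg k) : en n ∈ cone k := by
  change 0 < rho k (en n)
  rw [rho_en]
  linarith [hk.neg]

theorem rho_split (w : Fin (n + 1) → ℂ) :
    rho k w = -(∑ j : Fin n, k j.castSucc * ‖w j.castSucc‖ ^ 2) -
      k (Fin.last n) * ‖w (Fin.last n)‖ ^ 2 := by
  rw [rho, Fin.sum_univ_castSucc]
  ring

theorem last_ne (hk : Sg k) {w : Fin (n + 1) → ℂ} (hw : w ∈ cone k) : w (Fin.last n) ≠ 0 := by
  intro h0
  have h1 : 0 < rho k w := hw
  rw [rho_split, h0, norm_zero] at h1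
  have h2 : 0 ≤ ∑ j : Fin n, k j.castSucc * ‖w j.castSucc‖ ^ 2 :=
    Finset.sum_nonneg fun j _ => mul_nonneg (hk.pos j).le (sq_nonneg _)
  simp at h1
  linarith

/-- **The unitary group is transitive on the lines of the cone.** -/
theorem exists_unitary (hk : Sg k) {w : Fin (n + 1) → ℂ} (hw : w ∈ cone k) :
    ∃ g : Matrix (Fin (n + 1)) (Fin (n + 1)) ℂ, IsU k g ∧ ∃ c : ℂ, c ≠ 0 ∧
      g *ᵥ en n = c • w := by
  have hρ : 0 < rho k w := hw
  have hl := last_ne hk hw
  have hln : 0 < ‖w (Fin.last n)‖ := norm_pos_iff.2 hl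
  set κ : ℝ := -k (Fin.last n) with hκ
  have hκ0 : 0 < κ := by rw [hκ]; linarith [hk.neg]
  set a : ℝ := √(κ / rho k w) with ha
  have ha0 : 0 < a := Real.sqrt_pos.2 (div_pos hκ0 hρ)
  have ha2 : a ^ 2 = κ / rho k w := Real.sq_sqrt (div_pos hκ0 hρ).le
  let c : ℂ := (a : ℂ) * (conj (w (Fin.last n)) / (‖w (Fin.last n)‖ : ℂ))
  have hcn : ‖c‖ = a := by
    change ‖(a : ℂ) * (conj (w (Fin.last n)) / (‖w (Fin.last n)‖ : ℂ))‖ = a
    rw [norm_mul, norm_div, Complex.norm_conj, Complex.norm_real, Complex.norm_real,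
      Real.norm_of_nonneg ha0.le, Real.norm_of_nonneg hln.le, div_self hln.ne', mul_one]
  have hc0 : c ≠ 0 := by
    intro h0
    rw [h0, norm_zero] at hcn
    exact ha0.ne hcn
  set s : ℝ := a * ‖w (Fin.last n)‖ with hs
  have hs0 : 0 < s := mul_pos ha0 hln
  set w' : Fin (n + 1) → ℂ := c • w with hw'
  have hw'l : w' (Fin.last n) = (s : ℂ) := by
    change (a : ℂ) * (conj (w (Fin.last n)) / (‖w (Fin.last n)‖ : ℂ)) * w (Fin.last n) = (s : ℂ)
    have h1 : conj (w (Fin.last n)) * w (Fin.last n) = (‖w (Fin.last n)‖ : ℂ) ^ 2 :=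
      Complex.conj_mul' _
    have h2 : (‖w (Fin.last n)‖ : ℂ) ≠ 0 := by exact_mod_cast hln.ne'
    rw [hs]
    push_cast
    rw [mul_assoc, div_mul_eq_mul_div, h1, sq, mul_div_assoc, div_self h2, mul_one]
  have hρ' : rho k w' = κ := by
    rw [hw', rho_smul, hcn, ha2, div_mul_cancel₀ _ hρ.ne']
  have hsum : ∑ j : Fin n, k j.castSucc * ‖w' j.castSucc‖ ^ 2 = κ * (s ^ 2 - 1) := by
    have h1 := rho_split (k := k) w'
    rw [hρ', hw'l, Complex.norm_real, Real.norm_of_nonneg hs0.le] at h1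
    have h2 : k (Fin.last n) = -κ := by rw [hκ, neg_neg]
    rw [h2] at h1
    linarith
  have hsum0 : 0 ≤ ∑ j : Fin n, k j.castSucc * ‖w' j.castSucc‖ ^ 2 :=
    Finset.sum_nonneg fun j _ => mul_nonneg (hk.pos j).le (sq_nonneg _)
  have hs1 : 1 ≤ s := by
    rw [hsum] at hsum0
    have h1 : 0 ≤ s ^ 2 - 1 := nonneg_of_mul_nonneg_right hsum0 hκ0
    nlinarith
  rcases eq_or_lt_of_le hs1 with h1 | h1
  · -- the point is `en`
    refine ⟨1, Pool.CMN.Jac.isU_one k, c, hc0, ?_⟩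
    rw [Matrix.one_mulVec]
    rw [← h1] at hsum
    have h2 : ∑ j : Fin n, k j.castSucc * ‖w' j.castSucc‖ ^ 2 = 0 := by
      rw [hsum]; ring
    have h3 : ∀ j : Fin n, w' j.castSucc = 0 := by
      intro j
      have h4 := (Finset.sum_eq_zero_iff_of_nonneg
        (fun j _ => mul_nonneg (hk.pos j).le (sq_nonneg ‖w' j.castSucc‖))).1 h2 j
        (Finset.mem_univ j)
      rcases mul_eq_zero.1 h4 with h5 | h5
      · exact absurd h5 (hk.pos j).ne'
      · exact norm_eq_zero.1 (pow_eq_zero_iff (two_ne_zero)|>.1 h5)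
    change en n = w'
    funext j
    refine Fin.lastCases ?_ (fun j => ?_) j
    · rw [hw'l, ← h1, en, Pi.single_eq_same]
      norm_num
    · rw [h3 j, en, Pi.single_eq_of_ne (Fin.castSucc_lt_last j).ne]
  · -- a reflection
    set v : Fin (n + 1) → ℂ := en n - w' with hv
    have hkl : (k (Fin.last n) : ℂ) = -(κ : ℂ) := by
      rw [hκ]; push_cast; ring
    have e1 : H k (en n) (en n) = -(κ : ℂ) := by rw [H_self, rho_en]
    have e2 : H k w' w' = -(κ : ℂ) := by rw [H_self, hρ']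
    have e3 : H k (en n) w' = -(κ : ℂ) * s := by rw [H_en_left, hw'l, hkl]
    have e4 : H k w' (en n) = -(κ : ℂ) * s := by
      rw [H_en_right, hw'l, hkl, Complex.conj_ofReal]
    have hvv : H k v v = 2 * κ * (s - 1) := by
      rw [hv, H_sub_left, H_sub_right, H_sub_right, e1, e2, e3, e4]
      ring
    have hve : H k v (en n) = κ * (s - 1) := by
      rw [hv, H_sub_left, e1, e4]
      ring
    have hne : (κ : ℂ) * (s - 1) ≠ 0 := by
      have h2 : κ * (s - 1) ≠ 0 := mul_ne_zero hκ0.ne' (sub_pos.2 h1).ne'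
      exact_mod_cast h2
    have hvv0 : H k v v ≠ 0 := by
      rw [hvv, mul_assoc]
      exact mul_ne_zero two_ne_zero hne
    refine ⟨refl k v, refl_isU hvv0, c, hc0, ?_⟩
    rw [refl_mulVec, hve, hvv]
    have h2 : 2 * ((κ : ℂ) * (s - 1)) / (2 * κ * (s - 1)) = 1 := by
      rw [← mul_assoc]
      exact div_self (by rw [mul_assoc]; exact mul_ne_zero two_ne_zero hne)
    rw [h2, one_smul, hv]
    change en n - (en n - w') = w'
    abel

/-- Integrals of functions of `t` and `ρ` do not depend on the point of the cone. -/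
theorem integral_tt (hk : Sg k) {E : Type*} [NormedAddCommGroup E] [NormedSpace ℝ E]
    (f : ℝ → ℝ → E) {w : Fin (n + 1) → ℂ} (hw : w ∈ cone k) :
    ∫ z, f (tt k w z) (rho k z) = ∫ z, f (tt k (en n) z) (rho k z) := by
  obtain ⟨g, hg, c, hc, hgc⟩ := exists_unitary hk hw
  have h1 : ∀ z, f (tt k (en n) z) (rho k z) = f (tt k w (g *ᵥ z)) (rho k (g *ᵥ z)) := by
    intro z
    rw [rho_mulVec hg, ← tt_mulVec hg (en n) z, hgc, tt_smul hc]
  simp_rw [h1]
  exact (integral_mulVec g (hg.norm_det hk.ne) fun z => f (tt k w z) (rho k z)).symm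

theorem integrable_tt (hk : Sg k) {E : Type*} [NormedAddCommGroup E]
    (f : ℝ → ℝ → E) {w : Fin (n + 1) → ℂ} (hw : w ∈ cone k) :
    (Integrable fun z => f (tt k w z) (rho k z)) ↔
      Integrable fun z => f (tt k (en n) z) (rho k z) := by
  obtain ⟨g, hg, c, hc, hgc⟩ := exists_unitary hk hw
  have h1 : ∀ z, f (tt k (en n) z) (rho k z) = f (tt k w (g *ᵥ z)) (rho k (g *ᵥ z)) := by
    intro z
    rw [rho_mulVec hg, ← tt_mulVec hg (en n) z, hgc, tt_smul hc]
  simp_rw [h1]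
  exact (integrable_mulVec g (hg.norm_det hk.ne) fun z => f (tt k w z) (rho k z)).symm

end

end Pool.CMP.S2
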