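import Pool.Agent.Lib.HCM.Alg

/-!
# The Tate conjecture for abelian varieties of CM type: statement, and the theorem of Pohlmann
(helper87)

`L` is a number field, Galois over `ℚ`, which contains the images of all `K i`, `τ₀ : L → ℂ`.
`ℂ` is identified with an algebraic closure of `ℚ_ℓ` over `τ₀ L`.
-/

set_option autoImplicit false

open scoped ComplexConjugate Matrix Polynomial
open Complex MeasureTheory Pool.Agent.CMN

namespace Pool.Agent.HCM

noncomputable section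

section defs

open Classical in
/-- The reflex norm.  `u ∈ Lˣ` acts on the line of the embedding `τ` in `H₁(A)`, `A` with complex
multiplication by `K` of type `Φ`, by the product of the `g⁻¹ u` over all `g ∈ Gal(L/ℚ)` with
`g τ ∈ Φ`. -/
def reflexNorm {K L : Type} [Field K] [Field L] [NumberField L] (τ₀ : L →+* ℂ)
    (Φ : Set (K →+* ℂ)) (τ : K →+* ℂ) (u : L) : ℂ :=
  ∏ g : L ≃ₐ[ℚ] L, if ∃ τ' : K →+* L, τ = τ₀.comp τ' ∧
    τ₀.comp (((g : L →ₐ[ℚ] L) : L →+* L).comp τ') ∈ Φ then τ₀ (g.symm u) else 1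

variable {ι : Type} {K : ι → Type} [∀ i, Field (K i)]

/-- The Tate classes in `H_{2n}(A)(-n)`: the classes fixed by all `u = 1 + m x`, `x` in the ring of
integers of `L`, for some `m > 0`. -/
def IsTate {L : Type} [Field L] [NumberField L] {n : ℕ} (τ₀ : L →+* ℂ)
    (Φ : ∀ i, Set (K i →+* ℂ)) (c : (Two n → Idx K) → ℂ) : Prop :=
  c ∈ Submodule.span ℂ (HQ K n : Set ((Two n → Idx K) → ℂ)) ∧ ∃ m : ℕ, 0 < m ∧
    ∀ x : L, IsIntegral ℤ x → ∀ t : Two n → Idx K,
      (∏ a, reflexNorm τ₀ (Φ (t a).1) (t a).2 (1 + (m : L) * x)) * c t =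
        ((Algebra.norm ℚ (1 + (m : L) * x) : ℚ) : ℂ) ^ n * c t

/-- **The Tate conjecture for abelian varieties of CM type**. -/
def TATE : Prop :=
  ∀ (n : ℕ) (ι : Type) [Finite ι] (K : ι → Type) [∀ i, Field (K i)] [∀ i, NumberField (K i)]
    [∀ i, NumberField.IsCMField (K i)] (Φ : ∀ i, Set (K i →+* ℂ)) (L : Type) [Field L]
    [NumberField L] [IsGalois ℚ L] (τ₀ : L →+* ℂ), 0 < n → (∀ i, IsCMType (Φ i)) →
    (∀ i (τ : K i →+* ℂ), ∃ τ' : K i →+* L, τ = τ₀.comp τ') →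
    ∀ c : (Two n → Idx K) → ℂ, IsTate τ₀ Φ c → c ∈ Submodule.span ℂ (BallCl Φ)

end defs

namespace Pohl

section dual

/-- dual bases -/
theorem exists_dual (K : Type) [Field K] [NumberField K] :
    ∃ (B : Type) (_ : Fintype B) (_ : DecidableEq B) (e e' : B → K), ∀ τ τ' : K →+* ℂ,
      ∑ b, τ (e b) * τ' (e' b) = open Classical in if τ = τ' then 1 else 0 := by
  classical
  let b := Module.finBasis ℚ K
  let b' := b.traceDual
  refine ⟨Fin (Module.finrank ℚ K), inferInstance, inferInstance, b, b', fun τ τ' => ?_⟩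
  let M : Matrix (K →ₐ[ℚ] ℂ) (Fin (Module.finrank ℚ K)) ℂ := fun τ j => τ (b j)
  let M' : Matrix (Fin (Module.finrank ℚ K)) (K →ₐ[ℚ] ℂ) ℂ := fun i τ => τ (b' i)
  have h1 : M' * M = 1 := by
    ext i j
    have h2 := trace_eq_sum_embeddings (K := ℚ) (L := K) ℂ (x := b' i * b j)
    rw [Module.Basis.trace_traceDual_mul] at h2
    simp only [map_mul] at h2
    rw [Matrix.mul_apply, Matrix.one_apply, ← h2]
    by_cases h : i = j
    · simp [h]
    · simp [h, Ne.symm h]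
  have h2 : Fintype.card (Fin (Module.finrank ℚ K)) = Fintype.card (K →ₐ[ℚ] ℂ) := by
    rw [AlgHom.card, Fintype.card_fin]
  have h3 : M * M' = 1 := (Matrix.mul_eq_one_comm_of_card_eq _ _ _ h2).1 h1
  have h4 := congrFun (congrFun h3 τ.toRatAlgHom) τ'.toRatAlgHom
  rw [Matrix.mul_apply, Matrix.one_apply] at h4
  have h5 : (τ.toRatAlgHom = τ'.toRatAlgHom) ↔ τ = τ' := by
    constructor
    · intro h
      ext x
      exact DFunLike.congr_fun h x
    · intro h; rw [h]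
  simp only [h5] at h4
  exact h4

end dual

section desc

variable {ι : Type} {K : ι → Type} [∀ i, Field (K i)] [∀ i, NumberField (K i)] {L : Type}
  [Field L] [NumberField L] {n : ℕ}

/-- the conjugate by `g` of a tuple of embeddings into `L`, seen in `ℂ` -/
def up (τ₀ : L →+* ℂ) (g : L ≃ₐ[ℚ] L) (t : Two n → Σ i, (K i →+* L)) : Two n → Idx K :=
  fun a => ⟨(t a).1, τ₀.comp (((g : L →ₐ[ℚ] L) : L →+* L).comp (t a).2)⟩

theorem ee_det (t s : Two n → Idx K) :
    ee t s = Matrix.det (Matrix.of fun b a => open Classical in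
      if s a = t b then (1 : ℂ) else 0) := by
  classical
  rw [← Matrix.det_transpose, Matrix.det_apply']
  rw [ee]
  rw [← Equiv.sum_comp (Equiv.inv (Equiv.Perm (Two n)))]
  refine Finset.sum_congr rfl fun σ _ => ?_
  simp only [Equiv.inv_apply, Equiv.Perm.sign_inv, Matrix.transpose_apply, Matrix.of_apply]
  rw [Finset.prod_ite_zero]
  by_cases h : s = t ∘ ⇑σ⁻¹
  · rw [if_pos h, if_pos]
    · simp
    · intro a _
      rw [h]
      simp
  · rw [if_neg h, if_neg]
    · simp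
    · intro h2
      apply h
      funext a
      have := h2 (σ⁻¹ a) (Finset.mem_univ _)
      simpa using this

open Classical in
theorem ee_expand {J : ι → Type} [∀ i, Fintype (J i)] [∀ i, DecidableEq (J i)]
    (e e' : ∀ i, J i → K i)
    (he : ∀ i (τ τ' : K i →+* ℂ), ∑ b, τ (e i b) * τ' (e' i b) = if τ = τ' then 1 else 0)
    (t : Two n → Idx K) :
    ee t = ∑ β : ∀ a, J (t a).1, (∏ a, (t a).2 (e' _ (β a))) •
      torusClass (fun a => Pi.single (t a).1 (e _ (β a))) := by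
  funext s
  rw [ee_det, Finset.sum_apply]
  have h1 : (Matrix.of fun b a => if s a = t b then (1 : ℂ) else 0) =
      Matrix.of fun b => ∑ j : J (t b).1, (t b).2 (e' _ j) •
        fun a => (s a).2 ((Pi.single (t b).1 (e _ j) : ∀ i, K i) (s a).1) := by
    ext b a
    rw [Matrix.of_apply, Matrix.of_apply, Finset.sum_apply]
    simp only [Pi.smul_apply, smul_eq_mul]
    generalize ht : t b = tb
    generalize hs : s a = sa
    obtain ⟨i, τ⟩ := tb
    obtain ⟨i', τ'⟩ := sa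
    by_cases hi : i' = i
    · subst hi
      have h2 := he i' τ' τ
      simp only [Pi.single_eq_same]
      rw [← Finset.sum_congr rfl fun j _ => mul_comm (τ' (e i' j)) (τ (e' i' j)), h2]
      by_cases hτ : τ' = τ
      · subst hτ; simp
      · rw [if_neg hτ, if_neg]
        intro h
        exact hτ (eq_of_heq (Sigma.mk.inj h).2)
    · rw [if_neg (fun h => hi (Sigma.mk.inj h).1)]
      symm
      refine Finset.sum_eq_zero fun j _ => ?_
      rw [Pi.single_eq_of_ne hi, map_zero, mul_zero]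
  rw [h1]
  have h3 := det_rows_sum (T := Two n) (J := fun b => J (t b).1)
    (fun b j => (t b).2 (e' _ j))
    (fun b j => fun a => (s a).2 ((Pi.single (t b).1 (e _ j) : ∀ i, K i) (s a).1))
  rw [h3]
  refine Finset.sum_congr rfl fun β _ => ?_
  rw [Pi.smul_apply, smul_eq_mul, torusClass, ← Matrix.det_transpose]
  rfl

/-- the Galois equivariant combination of the conjugates of `ee t` -/
def vv (τ₀ : L →+* ℂ) (t : Two n → Σ i, (K i →+* L)) (y : L) : (Two n → Idx K) → ℂ :=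
  ∑ g : L ≃ₐ[ℚ] L, τ₀ (g y) • ee (up τ₀ g t)

theorem vv_mem [IsGalois ℚ L] (τ₀ : L →+* ℂ) (t : Two n → Σ i, (K i →+* L)) (y : L) :
    vv τ₀ t y ∈ HQ K n := by
  classical
  choose J hJ1 hJ2 e e' he using fun i => exists_dual (K i)
  have h1 : ∀ g : L ≃ₐ[ℚ] L, ee (up τ₀ g t) = ∑ β : ∀ a, J (t a).1,
      τ₀ (g (∏ a, (t a).2 (e' _ (β a)))) •
      torusClass (fun a => Pi.single (t a).1 (e _ (β a))) := by
    intro g
    have h2 := ee_expand e e' he (up τ₀ g t)
    refine h2.trans (Finset.sum_congr rfl fun β _ => ?_)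
    congr 1
    rw [map_prod, map_prod]
    rfl
  have h2 : vv τ₀ t y = ∑ β : ∀ a, J (t a).1,
      (Algebra.trace ℚ L (y * ∏ a, (t a).2 (e' _ (β a)))) •
      torusClass (fun a => Pi.single (t a).1 (e _ (β a))) := by
    rw [vv]
    simp only [h1, Finset.smul_sum, smul_smul]
    rw [Finset.sum_comm]
    refine Finset.sum_congr rfl fun β _ => ?_
    rw [← Finset.sum_smul]
    have h3 := trace_eq_sum_automorphisms (K := ℚ) (y * ∏ a, (t a).2 (e' _ (β a)))
    have h4 := congrArg τ₀ h3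
    rw [map_sum, eq_ratCast, map_ratCast] at h4
    have h5 : ∑ g : L ≃ₐ[ℚ] L, τ₀ (g y) * τ₀ (g (∏ a, (t a).2 (e' _ (β a)))) =
        ((Algebra.trace ℚ L (y * ∏ a, (t a).2 (e' _ (β a))) : ℚ) : ℂ) := by
      rw [h4]
      refine Finset.sum_congr rfl fun g _ => ?_
      rw [map_mul, map_mul]
    rw [h5]
    funext s
    simp [Rat.smul_def]
  rw [h2]
  refine Submodule.sum_mem _ fun β _ => Submodule.smul_mem _ _ (Submodule.subset_span ⟨_, rfl⟩)

theorem ee_mem_vv [IsGalois ℚ L] (τ₀ : L →+* ℂ) (t : Two n → Σ i, (K i →+* L)) :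
    ee (up τ₀ 1 t) ∈ Submodule.span ℂ (Set.range (vv τ₀ t)) := by
  classical
  obtain ⟨B, hB1, hB2, e, e', he⟩ := exists_dual L
  have h1 : ee (up τ₀ 1 t) = ∑ b, τ₀ (e' b) • vv τ₀ t (e b) := by
    simp only [vv, Finset.smul_sum, smul_smul]
    rw [Finset.sum_comm]
    have h2 : ∀ g : L ≃ₐ[ℚ] L, ∑ b, (τ₀ (e' b) * τ₀ (g (e b))) • ee (up τ₀ g t) =
        if g = 1 then ee (up τ₀ g t) else 0 := by
      intro g
      rw [← Finset.sum_smul]
      have h3 := he (τ₀.comp ((g : L →ₐ[ℚ] L) : L →+* L)) τ₀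
      have h4 : ∑ b, τ₀ (e' b) * τ₀ (g (e b)) = if g = 1 then 1 else 0 := by
        have h5 : (τ₀.comp ((g : L →ₐ[ℚ] L) : L →+* L) = τ₀) ↔ g = 1 := by
          constructor
          · intro h
            ext x
            exact τ₀.injective (DFunLike.congr_fun h x)
          · intro h; rw [h]; ext x; rfl
        simp only [h5] at h3
        rw [← h3]
        refine Finset.sum_congr rfl fun b _ => mul_comm _ _
      rw [h4]
      split_ifs <;> simp
    simp only [h2]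
    rw [Finset.sum_ite_eq' Finset.univ (1 : L ≃ₐ[ℚ] L)]
    simp
  rw [h1]
  exact Submodule.sum_mem _ fun b _ => Submodule.smul_mem _ _ (Submodule.subset_span ⟨_, rfl⟩)

theorem vv_hodge {Φ : ∀ i, Set (K i →+* ℂ)} (τ₀ : L →+* ℂ) (t : Two n → Σ i, (K i →+* L))
    (ht : ∀ g : L ≃ₐ[ℚ] L, {a | (up τ₀ g t a).2 ∈ Φ (up τ₀ g t a).1}.ncard = n) (y : L) :
    IsHodge Φ (vv τ₀ t y) := by
  intro s hs
  rw [vv, Finset.sum_apply]
  refine Finset.sum_eq_zero fun g _ => ?_
  rw [Pi.smul_apply, smul_eq_mul, ee]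
  rw [Finset.sum_eq_zero, mul_zero]
  intro π _
  rw [if_neg]
  intro h
  apply hs
  subst h
  refine Eq.trans ?_ (ht g)
  have : {a | ((up τ₀ g t ∘ ⇑π) a).2 ∈ Φ ((up τ₀ g t ∘ ⇑π) a).1} =
      ⇑π ⁻¹' {a | (up τ₀ g t a).2 ∈ Φ (up τ₀ g t a).1} := rfl
  rw [this]
  exact Set.ncard_preimage_of_injective_subset_range π.injective (by
    rw [π.surjective.range_eq]; exact Set.subset_univ _)

theorem ee_mem_hodge [IsGalois ℚ L] {Φ : ∀ i, Set (K i →+* ℂ)} (τ₀ : L →+* ℂ)
    (t : Two n → Σ i, (K i →+* L))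
    (ht : ∀ g : L ≃ₐ[ℚ] L, {a | (up τ₀ g t a).2 ∈ Φ (up τ₀ g t a).1}.ncard = n) :
    ee (up τ₀ 1 t) ∈ Submodule.span ℂ {v | v ∈ HQ K n ∧ IsHodge Φ v} := by
  refine Submodule.span_mono ?_ (ee_mem_vv τ₀ t)
  rintro _ ⟨y, rfl⟩
  exact ⟨vv_mem τ₀ t y, vv_hodge τ₀ t ht y⟩

end desc

section count

variable {L : Type} [Field L] [NumberField L]

theorem pow_cancel {l p q : ℂ[X]} {r : ℂ} {a b : ℕ} (hl : l.eval r = 0) (hl0 : l ≠ 0)
    (hp : p.eval r ≠ 0) (hq : q.eval r ≠ 0) (h : l ^ a * p = l ^ b * q) : a = b := by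
  rcases lt_trichotomy a b with hab | hab | hab
  · exfalso
    obtain ⟨d, rfl⟩ : ∃ d, b = a + (d + 1) := ⟨b - a - 1, by omega⟩
    rw [pow_add, mul_assoc] at h
    have h2 := mul_left_cancel₀ (pow_ne_zero a hl0) h
    apply hp
    rw [h2, Polynomial.eval_mul, Polynomial.eval_pow, hl]
    simp
  · exact hab
  · exfalso
    obtain ⟨d, rfl⟩ : ∃ d, a = b + (d + 1) := ⟨a - b - 1, by omega⟩
    rw [pow_add, mul_assoc] at h
    have h2 := mul_left_cancel₀ (pow_ne_zero b hl0) h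
    apply hq
    rw [← h2, Polynomial.eval_mul, Polynomial.eval_pow, hl]
    simp

theorem exists_prim : ∃ y : L, IsIntegral ℤ y ∧ y ≠ 0 ∧
    ∀ g g' : L ≃ₐ[ℚ] L, g y = g' y → g = g' := by
  obtain ⟨z, hz⟩ := Field.exists_primitive_element ℚ L
  have h1 : ∀ g g' : L ≃ₐ[ℚ] L, g z = g' z → g = g' := by
    intro g g' h
    have h2 : ∀ x : L, g x = g' x := by
      intro x
      have hx : x ∈ IntermediateField.adjoin ℚ {z} := by rw [hz]; trivial
      induction hx using IntermediateField.adjoin_induction with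
      | mem x hx => rw [Set.mem_singleton_iff.1 hx]; exact h
      | algebraMap x => simp
      | add x y _ _ hx hy => rw [map_add, map_add, hx, hy]
      | inv x _ hx => rw [map_inv₀, map_inv₀, hx]
      | mul x y _ _ hx hy => rw [map_mul, map_mul, hx, hy]
    exact AlgEquiv.ext h2
  have hz2 : IsAlgebraic ℤ z :=
    (IsFractionRing.isAlgebraic_iff ℤ ℚ L).2 (Algebra.IsAlgebraic.isAlgebraic z)
  obtain ⟨c, hc, hcz⟩ := hz2.exists_integral_multiple
  have hc' : (c : L) ≠ 0 := by exact_mod_cast hc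
  have h2 : ∀ g g' : L ≃ₐ[ℚ] L, g (c • z) = g' (c • z) → g = g' := by
    intro g g' h
    refine h1 g g' ?_
    rw [zsmul_eq_mul, map_mul, map_mul, map_intCast, map_intCast] at h
    exact mul_left_cancel₀ hc' h
  by_cases h0 : c • z = 0
  · refine ⟨1, isIntegral_one, one_ne_zero, fun g g' _ => h2 g g' ?_⟩
    rw [h0, map_zero, map_zero]
  · exact ⟨_, hcz, h0, h2⟩

theorem count [IsGalois ℚ L] (τ₀ : L →+* ℂ) {m n : ℕ} (hm : 0 < m) (A : (L ≃ₐ[ℚ] L) → ℕ)
    (h : ∀ x : L, IsIntegral ℤ x → ∏ g : L ≃ₐ[ℚ] L, τ₀ (g.symm (1 + (m : L) * x)) ^ A g =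
      ((Algebra.norm ℚ (1 + (m : L) * x) : ℚ) : ℂ) ^ n) (g : L ≃ₐ[ℚ] L) : A g = n := by
  classical
  obtain ⟨y, hy, hy0, hinj⟩ := exists_prim (L := L)
  set a : (L ≃ₐ[ℚ] L) → ℂ := fun g => (m : ℂ) * τ₀ (g.symm y) with ha
  have hm' : (m : ℂ) ≠ 0 := by exact_mod_cast hm.ne'
  have ha0 : ∀ g, a g ≠ 0 := by
    intro g
    refine mul_ne_zero hm' ?_
    rw [map_ne_zero, map_ne_zero]
    exact hy0
  have hai : ∀ g g', a g = a g' → g = g' := by
    intro g g' h
    have h1 := τ₀.injective (mul_left_cancel₀ hm' h)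
    have h2 := hinj _ _ h1
    rw [← g.symm_symm, h2, g'.symm_symm]
  set l : (L ≃ₐ[ℚ] L) → ℂ[X] := fun g => 1 + Polynomial.C (a g) * Polynomial.X with hl
  have hnorm : ∀ u : L, ((Algebra.norm ℚ u : ℚ) : ℂ) = ∏ g : L ≃ₐ[ℚ] L, τ₀ (g.symm u) := by
    intro u
    have h1 := congrArg τ₀ (Algebra.norm_eq_prod_automorphisms ℚ u)
    rw [map_prod, eq_ratCast, map_ratCast] at h1
    rw [h1]
    exact (Equiv.prod_comp (Equiv.inv (L ≃ₐ[ℚ] L)) (fun g => τ₀ (g u))).symm
  have hu : ∀ (k : ℕ) (g : L ≃ₐ[ℚ] L), τ₀ (g.symm (1 + (m : L) * ((k : L) * y))) =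
      (l g).eval (k : ℂ) := by
    intro k g
    rw [hl]
    simp only [map_add, map_one, map_mul, map_natCast, Polynomial.eval_add, Polynomial.eval_one,
      Polynomial.eval_mul, Polynomial.eval_C, Polynomial.eval_X, ha, Polynomial.eval_natCast]
    ring
  have hPQ : ∏ g, l g ^ A g = ∏ g, l g ^ n := by
    refine Polynomial.eq_of_infinite_eval_eq _ _ ?_
    refine Set.infinite_of_injective_forall_mem (f := fun k : ℕ => (k : ℂ))
      (fun x y hxy => by simpa using hxy) fun k => ?_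
    have h1 := h ((k : L) * y) ((isIntegral_natCast (R := ℤ) k).mul hy)
    rw [hnorm] at h1
    simp only [hu] at h1
    show Polynomial.eval _ _ = Polynomial.eval _ _
    rw [Polynomial.eval_prod, Polynomial.eval_prod]
    simp only [Polynomial.eval_pow]
    rw [h1, Finset.prod_pow]
  rw [← Finset.mul_prod_erase Finset.univ _ (Finset.mem_univ g),
    ← Finset.mul_prod_erase Finset.univ (fun g => l g ^ n) (Finset.mem_univ g)] at hPQ
  have hr : ∀ g', (l g').eval (-(a g)⁻¹) = 1 - a g' * (a g)⁻¹ := by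
    intro g'
    rw [hl]
    simp only [Polynomial.eval_add, Polynomial.eval_one,
      Polynomial.eval_mul, Polynomial.eval_C, Polynomial.eval_X]
    ring
  have hne : ∀ B : (L ≃ₐ[ℚ] L) → ℕ,
      (∏ g' ∈ Finset.univ.erase g, l g' ^ B g').eval (-(a g)⁻¹) ≠ 0 := by
    intro B
    rw [Polynomial.eval_prod, Finset.prod_ne_zero_iff]
    intro g' hg'
    rw [Polynomial.eval_pow, hr]
    refine pow_ne_zero _ ?_
    intro h0
    apply (Finset.mem_erase.1 hg').1
    apply hai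
    have h1 : a g' * (a g)⁻¹ = 1 := by linear_combination -h0
    rw [mul_inv_eq_one₀ (ha0 g)] at h1
    exact h1
  refine pow_cancel (r := -(a g)⁻¹) ?_ ?_ (hne A) (hne fun _ => n) hPQ
  · rw [hr, mul_inv_cancel₀ (ha0 g), sub_self]
  · intro h0
    have h1 := congrArg (fun p => Polynomial.eval 0 p) h0
    simp [hl] at h1

end count

section fin

variable {ι : Type} {K : ι → Type} [∀ i, Field (K i)] {L : Type} [Field L] [NumberField L] {n : ℕ}

theorem alt_span {c : (Two n → Idx K) → ℂ}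
    (hc : c ∈ Submodule.span ℂ (HQ K n : Set ((Two n → Idx K) → ℂ))) (t : Two n → Idx K)
    (π : Equiv.Perm (Two n)) : c (t ∘ π) = ((Equiv.Perm.sign π : ℤ) : ℂ) * c t := by
  induction hc using Submodule.span_induction with
  | mem u hu => exact alt_of_mem hu t π
  | zero => simp
  | add u v _ _ hu hv => simp only [Pi.add_apply, hu, hv]; ring
  | smul q u _ hu => simp only [Pi.smul_apply, hu, smul_eq_mul]; ring

theorem prod_reflex (τ₀ : L →+* ℂ) (Φ : ∀ i, Set (K i →+* ℂ)) (t : Two n → Σ i, (K i →+* L))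
    (u : L) :
    ∏ a, reflexNorm τ₀ (Φ (up τ₀ 1 t a).1) (up τ₀ 1 t a).2 u =
      ∏ g : L ≃ₐ[ℚ] L, τ₀ (g.symm u) ^ {a | (up τ₀ g t a).2 ∈ Φ (up τ₀ g t a).1}.ncard := by
  classical
  simp only [reflexNorm]
  rw [Finset.prod_comm]
  refine Finset.prod_congr rfl fun g _ => ?_
  have h1 : ∀ a : Two n, (∃ τ' : K (up τ₀ 1 t a).1 →+* L, (up τ₀ 1 t a).2 = τ₀.comp τ' ∧
      τ₀.comp (((g : L →ₐ[ℚ] L) : L →+* L).comp τ') ∈ Φ (up τ₀ 1 t a).1) ↔
      (up τ₀ g t a).2 ∈ Φ (up τ₀ g t a).1 := by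
    intro a
    constructor
    · rintro ⟨τ', h1, h2⟩
      have h3 : τ' = (t a).2 := by
        ext x
        have := DFunLike.congr_fun h1 x
        exact (τ₀.injective this).symm
      rw [h3] at h2
      exact h2
    · intro h
      refine ⟨(t a).2, ?_, h⟩
      ext x
      rfl
  simp only [h1]
  rw [Finset.prod_ite, Finset.prod_const, Finset.prod_const_one, mul_one]
  congr 1
  rw [Set.ncard_eq_toFinset_card']
  congr 1
  ext a
  simp

end fin

end Pohl

/-- **Pohlmann's theorem**: Tate classes on abelian varieties of CM type are combinations of Hodge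
classes. -/
theorem pohlmann {n : ℕ} {ι : Type} [Finite ι] {K : ι → Type} [∀ i, Field (K i)]
    [∀ i, NumberField (K i)] {Φ : ∀ i, Set (K i →+* ℂ)} {L : Type} [Field L]
    [NumberField L] [IsGalois ℚ L] (τ₀ : L →+* ℂ)
    (hL : ∀ i (τ : K i →+* ℂ), ∃ τ' : K i →+* L, τ = τ₀.comp τ')
    (c : (Two n → Idx K) → ℂ) (hc : IsTate τ₀ Φ c) :
    c ∈ Submodule.span ℂ {v | v ∈ HQ K n ∧ IsHodge Φ v} := by
  obtain ⟨hc, m, hm, hT⟩ := hc
  refine mem_of_alt (Pohl.alt_span hc) fun t ht => ?_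
  choose τ' hτ' using fun a => hL (t a).1 (t a).2
  have e : t = Pohl.up τ₀ 1 (fun a => ⟨(t a).1, τ' a⟩) := by
    funext a
    refine Sigma.ext rfl (heq_of_eq ?_)
    rw [hτ' a]
    ext x
    rfl
  generalize hs : (fun a => ⟨(t a).1, τ' a⟩ : Two n → Σ i, (K i →+* L)) = s at e
  rw [e] at ht ⊢
  refine Pohl.ee_mem_hodge τ₀ s fun g => ?_
  refine Pohl.count (L := L) (n := n) τ₀ hm
    (fun g => {a | (Pohl.up τ₀ g s a).2 ∈ Φ (Pohl.up τ₀ g s a).1}.ncard) (fun x hx => ?_) g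
  have h1 := hT x hx (Pohl.up τ₀ 1 s)
  have h2 := mul_right_cancel₀ ht h1
  rw [← h2, Pohl.prod_reflex]

/-- **The Tate conjecture for abelian varieties of CM type** follows from the Hodge conjecture. -/
theorem tate_of_hodge (h : HODGE) : TATE := by
  intro n ι _ K _ _ _ Φ L _ _ _ τ₀ hn hΦ hL c hc
  refine (Submodule.span_le.2 ?_) (pohlmann τ₀ hL c hc)
  rintro v ⟨hv, hv'⟩
  exact h n ι K Φ hn hΦ v hv hv'

end

end Pool.Agent.HCM
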