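import Pool.Agent.Lib.CMH.TH8a

/-!
# Tank CMP, row V1, part a: the projection orthogonal to `p` and the matrix `c Z + d` (helper6)
-/

set_option autoImplicit false
set_option linter.unusedSectionVars false

open Matrix

namespace Pool.Agent.CMP.V1x

open Pool.Agent.CMH.TH8

noncomputable section

variable {n : Type} [Fintype n] [DecidableEq n] {H g g' : Matrix n n ℂ} {p : n → ℂ}

/-- `P_(g p) g' (1 - P_p) = 0`. -/
theorem Pm_g' (hH : Hᵀ = H) (hg : gᵀ * H * g' = H) (hb : bf H p p ≠ 0) :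
    Pm H (g *ᵥ p) * (g' * (1 - Pm H p)) = 0 := by
  have h4 : (H *ᵥ (g *ᵥ p)) ᵥ* g' = H *ᵥ p := by
    rw [← vecMul_H hH, vecMul_vecMul, ← vecMul_transpose g p, vecMul_vecMul, ← mul_assoc, hg,
      vecMul_H hH]
  have h5 : (H *ᵥ p) ᵥ* (1 - Pm H p) = 0 := by
    unfold Pm
    rw [vecMul_sub, vecMul_one, vecMul_smul, vecMul_vecMulVec, Hp_dot hH, smul_smul,
      inv_mul_cancel₀ hb, one_smul, sub_self]
  nth_rw 1 [Pm]
  rw [smul_mul_assoc, vecMulVec_mul, ← vecMul_vecMul, h4, h5]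
  ext i j
  simp

/-- `(1 - P_(g p)) (c Z + d) = g' (1 - P_p)`. -/
theorem proj_AA (hH : Hᵀ = H) (hg : gᵀ * H * g' = H) (hb : bf H p p ≠ 0)
    (hb' : bf H (g *ᵥ p) (g *ᵥ p) ≠ 0) :
    (1 - Pm H (g *ᵥ p)) * AA H g g' p = g' * (1 - Pm H p) := by
  have h1 : (1 - Pm H (g *ᵥ p)) * (g * Pm H p) = 0 := by
    have h2 : g * Pm H p = (bf H p p)⁻¹ • vecMulVec (g *ᵥ p) (H *ᵥ p) := by
      unfold Pm
      rw [Matrix.mul_smul, mul_vecMulVec]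
    rw [h2, Matrix.mul_smul, mul_vecMulVec, sub_mulVec, one_mulVec, Pm_self hH hb', sub_self]
    ext i j
    simp
  have h6 : AA H g g' p = g * Pm H p + g' * (1 - Pm H p) := by
    unfold AA
    rw [mul_sub, sub_mul, Matrix.mul_one]
    abel
  rw [h6, mul_add, h1, zero_add, sub_mul, Matrix.one_mul, Pm_g' hH hg hb, sub_zero]

/-- `H (1 - P) = (1 - P)ᵀ H`. -/
theorem H_proj (hH : Hᵀ = H) (p : n → ℂ) : H * (1 - Pm H p) = (1 - Pm H p)ᵀ * H := by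
  unfold Pm
  rw [transpose_sub, transpose_one, transpose_smul, transpose_vecMulVec, mul_sub, sub_mul,
    Matrix.mul_one, Matrix.one_mul, Matrix.mul_smul, mul_vecMulVec, smul_mul_assoc, vecMulVec_mul,
    vecMul_H hH]

/-- `E z = (1 - P_(g p)) g t`, from the formula for `(c Z + d)ᵀ H z`. -/
theorem E_tangent (hH : Hᵀ = H) (hdet : IsUnit H.det) (hg : gᵀ * H * g' = H)
    (hg2 : g'ᵀ * H * g = H) (hb : bf H p p ≠ 0) (hb' : bf H (g *ᵥ p) (g *ᵥ p) ≠ 0)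
    {z t : n → ℂ} {E : ℂ} (hE : E ≠ 0) (ht : bf H p t = 0)
    (h : (AA H g g' p)ᵀ *ᵥ (H *ᵥ z) = E⁻¹ • (H *ᵥ t)) :
    E • z = (1 - Pm H (g *ᵥ p)) *ᵥ (g *ᵥ t) := by
  have hPt : (1 - Pm H p) *ᵥ t = t := by
    rw [sub_mulVec, one_mulVec, Pm_orth hH ht, sub_zero]
  have hu : IsUnit (AA H g g' p).det := by
    rw [det_AA hH hdet hg hb]
    exact (isUnit_g' hdet hg).mul (isUnit_iff_ne_zero.2 (div_ne_zero hb' hb))
  have h1 : (AA H g g' p)ᵀ *ᵥ (H *ᵥ ((1 - Pm H (g *ᵥ p)) *ᵥ (g *ᵥ t))) = H *ᵥ t := by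
    rw [mulVec_mulVec (M := H), H_proj hH, ← mulVec_mulVec (M := (1 - Pm H (g *ᵥ p))ᵀ),
      mulVec_mulVec (M := (AA H g g' p)ᵀ), ← transpose_mul, proj_AA hH hg hb hb', transpose_mul,
      ← mulVec_mulVec, mulVec_mulVec (M := H), mulVec_mulVec (M := g'ᵀ), ← mul_assoc, hg2,
      mulVec_mulVec, ← H_proj hH, ← mulVec_mulVec, hPt]
  have h2 : (AA H g g' p)ᵀ *ᵥ (H *ᵥ (E • z)) = H *ᵥ t := by
    rw [mulVec_smul, mulVec_smul, h, smul_smul, mul_inv_cancel₀ hE, one_smul]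
  have hu' : IsUnit ((AA H g g' p)ᵀ * H).det := by
    rw [det_mul, det_transpose]
    exact hu.mul hdet
  have h3 : ((AA H g g' p)ᵀ * H) *ᵥ (E • z) =
      ((AA H g g' p)ᵀ * H) *ᵥ ((1 - Pm H (g *ᵥ p)) *ᵥ (g *ᵥ t)) := by
    rw [← mulVec_mulVec, ← mulVec_mulVec, h2, h1]
  have h4 := congrArg (fun u => ((AA H g g' p)ᵀ * H)⁻¹ *ᵥ u) h3
  simp only [mulVec_mulVec] at h4
  rw [nonsing_inv_mul _ hu', one_mulVec] at h4
  rw [h4, mulVec_mulVec, ← mul_assoc, nonsing_inv_mul _ hu', Matrix.one_mul]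

/-- `(1 - P_(g p)) g' t = g' t`. -/
theorem proj_g' (hH : Hᵀ = H) (hg : gᵀ * H * g' = H) (hb : bf H p p ≠ 0) {t : n → ℂ}
    (ht : bf H p t = 0) : (1 - Pm H (g *ᵥ p)) *ᵥ (g' *ᵥ t) = g' *ᵥ t := by
  have hPt : (1 - Pm H p) *ᵥ t = t := by
    rw [sub_mulVec, one_mulVec, Pm_orth hH ht, sub_zero]
  have h1 : Pm H (g *ᵥ p) *ᵥ (g' *ᵥ t) = 0 := by
    nth_rw 1 [← hPt]
    rw [mulVec_mulVec, mulVec_mulVec, mul_assoc, Pm_g' hH hg hb, zero_mulVec]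
  rw [sub_mulVec, one_mulVec, h1, sub_zero]

/-- `(c Z + d)⁻¹ c` is symmetric (`c` is a multiple of `(g - g') H⁻¹`). -/
theorem AA_symm (hH : Hᵀ = H) (hdet : IsUnit H.det) (hg : gᵀ * H * g' = H)
    (hg2 : g'ᵀ * H * g = H) : AA H g g' p * ((g - g') * H⁻¹)ᵀ = ((g - g') * H⁻¹) * (AA H g g' p)ᵀ := by
  have hHi : (H⁻¹)ᵀ = H⁻¹ := by rw [transpose_nonsing_inv, hH]
  have hPH : (Pm H p * H⁻¹)ᵀ = Pm H p * H⁻¹ := by
    have h1 : Pm H p * H⁻¹ = (bf H p p)⁻¹ • vecMulVec p p := by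
      unfold Pm
      rw [smul_mul_assoc, vecMulVec_mul]
      congr 2
      rw [← mulVec_transpose, hHi, mulVec_mulVec, nonsing_inv_mul _ hdet, one_mulVec]
    rw [h1, transpose_smul, transpose_vecMulVec]
  have hPH' : Pm H p * H⁻¹ = H⁻¹ * (Pm H p)ᵀ := by
    nth_rw 1 [← hPH]
    rw [transpose_mul, hHi]
  -- `g' H⁻¹ gᵀ = H⁻¹`, `g H⁻¹ g'ᵀ = H⁻¹`
  have key : ∀ a b : Matrix n n ℂ, aᵀ * H * b = H → b * H⁻¹ * aᵀ = H⁻¹ := by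
    intro a b h
    have h1 : (H⁻¹ * aᵀ * H) * b = 1 := g'_inv hdet h
    have h2 : b * (H⁻¹ * aᵀ * H) = 1 := mul_eq_one_comm.1 h1
    calc b * H⁻¹ * aᵀ = b * (H⁻¹ * aᵀ * H) * H⁻¹ := by
          rw [mul_assoc b (H⁻¹ * aᵀ * H), mul_assoc (H⁻¹ * aᵀ), mul_nonsing_inv _ hdet,
            Matrix.mul_one, mul_assoc]
      _ = H⁻¹ := by rw [h2, Matrix.one_mul]
  have k1 := key g g' hg
  have k2 := key g' g hg2
  unfold AA
  rw [transpose_mul, hHi, transpose_add, transpose_sub, transpose_mul, transpose_sub]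
  have e1 : (g' + (g - g') * Pm H p) * (H⁻¹ * (gᵀ - g'ᵀ)) =
      g' * H⁻¹ * gᵀ - g' * H⁻¹ * g'ᵀ + (g - g') * (Pm H p * H⁻¹) * (gᵀ - g'ᵀ) := by
    noncomm_ring
  have e2 : (g - g') * H⁻¹ * (g'ᵀ + (Pm H p)ᵀ * (gᵀ - g'ᵀ)) =
      g * H⁻¹ * g'ᵀ - g' * H⁻¹ * g'ᵀ + (g - g') * (H⁻¹ * (Pm H p)ᵀ) * (gᵀ - g'ᵀ) := by
    noncomm_ring
  rw [e1, e2, k1, k2, hPH']

end

end Pool.Agent.CMP.V1x
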