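import Pool.Agent.Lib.CMN.P1
import Pool.Agent.Lib.CMP.VDefs
import Pool.Agent.Lib.CMP.V1a

/-!
# Tank CMP, row V1, part b: the linear factors and the matrices at one place (helper6)
-/

set_option autoImplicit false
set_option linter.unusedSectionVars false

namespace Pool.Agent.CMP.V1x

open Matrix Complex Real
open Pool.Agent.CMN Pool.Agent.CMN.TH8
open Pool.Agent.CMH.TH8 (bf bf_smul_left bf_smul_right AA AA_smul lA lB lC lD Zh Zd S Pm def_cz
  Pm_smul Pm_mulVec Hp_dot)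
open Pool.CMH (tU tD tA tC vv Bl KF om Wm Wi red tm theta1 theta2 au mv uu qq ee bA bB bC bD Sieg
  qf lf qb Bl_au Bl_mv Bl_uu Bl_qq tD_det tU_mem Wi_mul Wm_mul vv_lf)
open scoped Kronecker ComplexConjugate

noncomputable section

variable {n : ℕ} {F : Type} [Field F] [NumberField F]
variable {v₁ : F →+* ℝ} {D : F} {h : Fin (n + 1) → F}

open Classical in
/-- the coefficients of `ξ ↦ vfac v₁ v h m ξ y` in the coordinates of the place `v` -/
def fv (v₁ v : F →+* ℝ) (h : Fin (n + 1) → F) (m : Fin (n + 1)) (y : Fin n → ℂ) :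
    Fin (n + 1) → ℂ :=
  if v = v₁ then (1 - Pm (HH (ev v₁ h)) (hat y))ᵀ *ᵥ Pi.single m 1 else Pi.single m 1

theorem vfac_eq (v : F →+* ℝ) (m : Fin (n + 1)) (ξ : Fin (n + 1) → F) (y : Fin n → ℂ) :
    vfac v₁ v h m ξ y = ∑ l, ((v (ξ l) : ℝ) : ℂ) * fv v₁ v h m y l := by
  unfold vfac fv
  by_cases hv : v = v₁
  · subst hv
    rw [if_pos rfl, if_pos rfl]
    have e1 : ∑ l, ((v (ξ l) : ℝ) : ℂ) *
        ((1 - Pm (HH (ev v h)) (hat y))ᵀ *ᵥ Pi.single m (1 : ℂ)) l =
        ((1 - Pm (HH (ev v h)) (hat y)) *ᵥ fun l => ((v (ξ l) : ℝ) : ℂ)) m := by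
      have : ∑ l, ((v (ξ l) : ℝ) : ℂ) *
        ((1 - Pm (HH (ev v h)) (hat y))ᵀ *ᵥ Pi.single m (1 : ℂ)) l =
        (fun l => ((v (ξ l) : ℝ) : ℂ)) ⬝ᵥ
          ((1 - Pm (HH (ev v h)) (hat y))ᵀ *ᵥ Pi.single m (1 : ℂ)) := rfl
      rw [this, dotProduct_mulVec, vecMul_transpose, dotProduct_single, mul_one]
    rw [e1, sub_mulVec, one_mulVec, Pm_mulVec]
    have e2 : (HH (ev v h) *ᵥ hat y) ⬝ᵥ (fun l => ((v (ξ l) : ℝ) : ℂ)) =
        pr (ev v h) (ev v ξ) y := by
      rw [Hp_dot (HH_symm _), bf_HH]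
      unfold pr
      refine Finset.sum_congr rfl fun j _ => ?_
      unfold ev
      ring
    rw [e2, ← neg_eq_iff_eq_neg.mpr (w_sq (ev v h) y)]
    unfold s
    simp only [Pi.sub_apply, Pi.smul_apply, smul_eq_mul]
    rw [inv_neg]
    ring
  · rw [if_neg hv, if_neg hv, add_zero]
    rw [Finset.sum_eq_single m]
    · rw [Pi.single_eq_same, mul_one]
    · intro l _ hl
      rw [Pi.single_eq_of_ne hl, mul_zero]
    · intro hm
      exact absurd (Finset.mem_univ _) hm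

variable {J : Type} [Fintype J] [DecidableEq J]

/-- a linear factor at a place -/
theorem lf_vv (N : ℕ) (hN0 : (N : ℂ) ≠ 0) (x : (J × Fin (n + 1)) × KF F → ℤ) (i : J)
    (v : F →+* ℝ) (f : Fin (n + 1) → ℂ) :
    lf (vv (Wm F) v (CMN.row i ((N : ℂ)⁻¹ • f))) x = ∑ l, ((v (lat N x i l) : ℝ) : ℂ) * f l := by
  classical
  have hX : ∀ (p : J × Fin (n + 1)), ∑ q, (x (p, q) : ℂ) * (Wm F v q : ℂ) =
      N * ((v (lat N x p.1 p.2) : ℝ) : ℂ) := by
    intro p
    rw [lat_at]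
    push_cast
    rw [mul_inv_cancel_left₀ hN0]
  rw [vv_lf, Fintype.sum_prod_type, Finset.sum_eq_single i]
  · refine Finset.sum_congr rfl fun l _ => ?_
    rw [hX]
    unfold CMN.row
    rw [if_pos rfl, Pi.smul_apply, smul_eq_mul]
    change (N : ℂ) * ((v (lat N x i l) : ℝ) : ℂ) * ((N : ℂ)⁻¹ * f l) =
      ((v (lat N x i l) : ℝ) : ℂ) * f l
    field_simp
  · intro b _ hb
    refine Finset.sum_eq_zero fun l _ => ?_
    unfold CMN.row
    rw [if_neg hb, mul_zero]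
  · intro hi
    exact absurd (Finset.mem_univ _) hi

/-- `(1 ⊗ B) (row f) = row (B f)` -/
theorem kron_row (i : J) (B : Matrix (Fin (n + 1)) (Fin (n + 1)) ℂ) (f : Fin (n + 1) → ℂ) :
    ((1 : Matrix J J ℂ) ⊗ₖ B) *ᵥ CMN.row i f = CMN.row i (B *ᵥ f) := by
  funext q
  obtain ⟨j, k⟩ := q
  simp only [mulVec, dotProduct, kroneckerMap_apply, Fintype.sum_prod_type, CMN.row]
  rw [Finset.sum_eq_single j]
  · simp only [one_apply_eq, one_mul]
    by_cases hj : j = i
    · simp [hj]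
    · simp [hj]
  · intro b _ hb
    refine Finset.sum_eq_zero fun l _ => ?_
    rw [one_apply_ne hb.symm]
    ring
  · intro hj
    exact absurd (Finset.mem_univ _) hj

theorem row_dot (i : J) (f f' : Fin (n + 1) → ℂ) : CMN.row i f ⬝ᵥ CMN.row i f' = f ⬝ᵥ f' := by
  simp only [dotProduct, Fintype.sum_prod_type, CMN.row]
  rw [Finset.sum_eq_single i]
  · simp
  · intro b _ hb
    refine Finset.sum_eq_zero fun l _ => ?_
    rw [if_neg hb, zero_mul]
  · intro hi
    exact absurd (Finset.mem_univ _) hi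

theorem mulVec_single_sum (B : Matrix (Fin (n + 1)) (Fin (n + 1)) ℂ) (m : Fin (n + 1)) :
    Bᵀ *ᵥ Pi.single m (1 : ℂ) = ∑ m', B m m' • Pi.single m' (1 : ℂ) := by
  funext l
  rw [mulVec_single, Finset.sum_apply, Finset.sum_eq_single l]
  · simp
  · intro b _ hb
    rw [Pi.smul_apply, Pi.single_eq_of_ne hb.symm, smul_zero]
  · intro hl
    exact absurd (Finset.mem_univ _) hl

theorem gm_conj (v : F →+* ℝ) (D : F) (g : Mat n F) (i j : Fin (n + 1)) :
    gm (g.1.map v) (g.2.map v) (√(v D)) i j = conj (cmat v D g i j) := by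
  rw [cmat_eq]
  unfold gm gp
  simp only [Matrix.sub_apply, Matrix.add_apply, Matrix.smul_apply, Matrix.map_apply, smul_eq_mul,
    map_add, map_mul, Complex.conj_I, Complex.conj_ofReal]
  ring

/-- the matrix `c Z + d` at the place `v₁` -/
theorem A_hyp {a : F} (ha0 : a ≠ 0) (hgd : Good v₁ D h) (R : (F →+* ℝ) → Matrix Unit Unit ℝ)
    (g : Mat n F) (y : Fin n → ℂ) :
    atv (sC D h (fun _ : Unit => a) g) v₁ * Zp v₁ D h (fun _ : Unit => a) R y v₁ +
      atv (sD Unit g) v₁ = (1 : Matrix Unit Unit ℂ) ⊗ₖ AA (HH (ev v₁ h))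
        (gp (g.1.map v₁) (g.2.map v₁) √(v₁ D)) (gm (g.1.map v₁) (g.2.map v₁) √(v₁ D)) (hat y) := by
  have hδ : 0 < √(v₁ D) := Real.sqrt_pos.mpr (hgd.D0 v₁)
  have hk : ∀ j, ev v₁ h j ≠ 0 := fun j => hgd.vne v₁ j
  rw [atv_sC (hgd.D0 v₁) hk (fun _ => ha0), atv_sD, Zp_hyp, ball_cz hδ hk (QQ_det (fun _ => ha0) v₁)]

/-- the matrix `c Z + d` at the other places -/
theorem A_def {a : F} (ha0 : a ≠ 0) (hgd : Good v₁ D h) {v : F →+* ℝ} (hv : v ≠ v₁)
    (g : Mat n F) (y : Fin n → ℂ) :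
    atv (sC D h (fun _ : Unit => a) g) v *
        Zp v₁ D h (fun _ : Unit => a) (fun v => diagonal fun _ => |v a|) y v +
      atv (sD Unit g) v = (1 : Matrix Unit Unit ℂ) ⊗ₖ
        (Matrix.of fun i j => cjs v a (cmat v D g i j)) := by
  have hδ : 0 < √(v D) := Real.sqrt_pos.mpr (hgd.D0 v)
  have hδ' : ((√(v D) : ℝ) : ℂ) ≠ 0 := by exact_mod_cast hδ.ne'
  have hk : ∀ j, ev v h j ≠ 0 := fun j => hgd.vne v j
  have hva : v a ≠ 0 := (map_ne_zero v).2 ha0
  have hva' : ((v a : ℝ) : ℂ) ≠ 0 := by exact_mod_cast hva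
  rw [atv_sC (hgd.D0 v) hk (fun _ => ha0), atv_sD,
    Zp_def D (fun _ : Unit => a) (fun v => diagonal fun _ => |v a|) y hv,
    def_cz hδ' (HH_det _ hk), QQ_inv (fun _ => ha0)]
  ext ⟨i, p⟩ ⟨j, q⟩
  simp only [Matrix.sub_apply, Matrix.smul_apply, kroneckerMap_apply, Matrix.map_apply,
    smul_eq_mul, Matrix.of_apply, Subsingleton.elim i (), Subsingleton.elim j (), one_apply_eq,
    one_mul, Matrix.mul_apply, Finset.univ_unique, Finset.sum_singleton, diagonal_apply_eq,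
    PUnit.default_eq_unit]
  rw [cmat_eq]
  unfold cjs gp
  simp only [Matrix.add_apply, Matrix.smul_apply, Matrix.map_apply, smul_eq_mul]
  split_ifs with hp
  · rw [abs_of_pos hp, inv_mul_cancel₀ hva', map_add, map_mul, map_mul, Complex.conj_I,
      Complex.conj_ofReal, Complex.conj_ofReal, Complex.conj_ofReal]
    ring
  · have hp' : v a < 0 := lt_of_le_of_ne (not_lt.1 hp) hva
    rw [abs_of_neg hp']
    push_cast
    rw [mul_neg, inv_mul_cancel₀ hva']
    ring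

/-- **K1**: the transposed matrix on the linear factors -/
theorem A_fv [NumberField.IsTotallyReal F] {a : F} (ha0 : a ≠ 0) (ha : 0 < v₁ a)
    (hgd : Good v₁ D h) {c : ℕ} {g : Mat n F} (hg : g ∈ Gam D h c) {y : Fin n → ℂ}
    (hy : y ∈ ball (ev v₁ h)) (v : F →+* ℝ) (m : Fin (n + 1)) :
    (atv (sC D h (fun _ : Unit => a) g) v *
        Zp v₁ D h (fun _ : Unit => a) (fun v => diagonal fun _ => |v a|) y v +
      atv (sD Unit g) v)ᵀ *ᵥ CMN.row () (fv v₁ v h m (act v₁ D g y)) =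
      CMN.row () (∑ m', cjs v a (cmat v D g m m') • fv v₁ v h m' y) := by
  by_cases hv : v = v₁
  · subst hv
    obtain ⟨hu, hv'⟩ := gam_place v (hgd.D0 v) hg
    have hj := jj_ne hgd.sg (gp_unitary hu hv') hy
    have hy' := actM_mem hgd.sg (gp_unitary hu hv') hy
    have hb := bf_hat_ne hgd.sg hy
    have hb' : bf (HH (ev v h)) (gp (g.1.map v) (g.2.map v) √(v D) *ᵥ hat y)
        (gp (g.1.map v) (g.2.map v) √(v D) *ᵥ hat y) ≠ 0 := by
      have h2 := bf_hat_ne hgd.sg hy'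
      rw [hat_actM hj, bf_smul_left, bf_smul_right] at h2
      intro h
      rw [h] at h2
      simp at h2
    rw [A_hyp ha0 hgd, ← kroneckerMap_transpose, transpose_one, kron_row]
    congr 1
    unfold fv
    simp only [if_pos]
    rw [act_eq, cmat_eq, hat_actM hj, Pm_smul _ (inv_ne_zero hj), mulVec_mulVec, ← transpose_mul,
      proj_AA (HH_symm _) (gp_gm hu hv') hb hb', transpose_mul, ← mulVec_mulVec,
      mulVec_single_sum, mulVec_sum]
    refine Finset.sum_congr rfl fun m' _ => ?_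
    rw [mulVec_smul]
    congr 1
    unfold cjs
    rw [if_pos ha, ← cmat_eq, gm_conj]
  · rw [A_def ha0 hgd hv, ← kroneckerMap_transpose, transpose_one, kron_row]
    congr 1
    unfold fv
    simp only [if_neg hv]
    rw [mulVec_single_sum]
    rfl

end

end Pool.Agent.CMP.V1x
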