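import Pool.Agent.Lib.CMP.V1b

/-!
# Tank CMP, row V1, part c: the cross terms (helper6)
-/

set_option autoImplicit false
set_option linter.unusedSectionVars false

namespace Pool.Agent.CMP.V1x

open Matrix Complex Real
open Pool.Agent.CMN Pool.Agent.CMN.TH8
open Pool.Agent.CMH.TH8 (bf bf_smul_left bf_smul_right AA AA_smul lA lB lC lD Zh Zd S Pm def_cz
  Pm_smul Pm_mulVec Hp_dot)
open Pool.CMH (tU tD tA tC vv Bl KF om Wm Wi red tm theta1 theta2 au mv uu qq ee bA bB bC bD Sieg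
  qf lf qb Bl_au Bl_mv Bl_uu Bl_qq tD_det tU_mem Wi_mul Wm_mul vv_lf)
open scoped Kronecker ComplexConjugate

noncomputable section

/-- no cross term between two different places -/
theorem Bl_qq_ne {m V κ : Type} [Fintype m] [Fintype V] [Fintype κ] [DecidableEq m]
    [DecidableEq V] [DecidableEq κ] {W : Matrix V κ ℝ} {W' : Matrix κ V ℝ}
    (h1 : W' * W = 1) (h2 : W * W' = 1)
    {M : Matrix ((m × κ) ⊕ (m × κ)) ((m × κ) ⊕ (m × κ)) ℤ} {A B C D : V → Matrix m m ℂ}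
    (h : Bl W W' M A B C D) {Z : V → Matrix m m ℂ}
    (hu : ∀ v, IsUnit (C v * Z v + D v).det) {v v' : V} (hv : v ≠ v') (e e' : m → ℂ) :
    vv W v e ⬝ᵥ (((au M ((2 : ℂ) • tU W Z))⁻¹ * bC M) *ᵥ vv W v' e') = 0 := by
  rw [Bl_au h1 h2 h, Pool.CMH.T8.tD_inv h1 h2 hu, h.hC, Matrix.mul_smul,
    Pool.CMH.T8.tD_mul_tC h2, smul_mulVec, dotProduct_smul, smul_eq_mul]
  rw [Pool.CMH.T8.tC_eq, Pool.CMH.T8.vv_eq, Pool.CMH.T8.vv_eq, mulVec_mulVec,
    Matrix.mul_assoc _ (Pool.CMH.Eh (m := m) W'ᵀ), Pool.CMH.Eh_mul (Pool.CMH.T8.h2t h2),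
    Matrix.mul_one, ← mulVec_mulVec, Pool.CMH.T8.bd_sgl]
  rw [Pool.CMH.T8.Eh_tr, mulVec_transpose, ← dotProduct_mulVec, mulVec_mulVec,
    Pool.CMH.Eh_mul h2, one_mulVec]
  simp only [dotProduct, Fintype.sum_prod_type, Pool.CMH.T8.sgl, ite_mul, zero_mul, mul_ite,
    mul_zero, Finset.sum_ite_eq', Finset.mem_univ, if_true, if_neg hv.symm,
    Finset.sum_const_zero]

/-- the symmetric form of `A⁻¹ C` -/
theorem sym_dot {ι : Type} [Fintype ι] [DecidableEq ι] {A C : Matrix ι ι ℂ} (hu : IsUnit A.det)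
    (hs : A * Cᵀ = C * Aᵀ) (e f : ι → ℂ) :
    e ⬝ᵥ ((A⁻¹ * C) *ᵥ (Aᵀ *ᵥ f)) + (Aᵀ *ᵥ f) ⬝ᵥ ((A⁻¹ * C) *ᵥ e) = 2 * (f ⬝ᵥ (C *ᵥ e)) := by
  have h1 : e ⬝ᵥ ((A⁻¹ * C) *ᵥ (Aᵀ *ᵥ f)) = f ⬝ᵥ (C *ᵥ e) := by
    rw [mulVec_mulVec, mul_assoc, ← hs, ← mul_assoc, nonsing_inv_mul _ hu, Matrix.one_mul,
      dotProduct_mulVec, vecMul_transpose, dotProduct_comm]
  have h2 : (Aᵀ *ᵥ f) ⬝ᵥ ((A⁻¹ * C) *ᵥ e) = f ⬝ᵥ (C *ᵥ e) := by
    rw [mulVec_transpose, ← dotProduct_mulVec, mulVec_mulVec, ← mul_assoc, mul_nonsing_inv _ hu,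
      Matrix.one_mul]
  rw [h1, h2]
  ring

variable {n : ℕ} {F : Type} [Field F] [NumberField F]
variable {v₁ : F →+* ℝ} {D : F} {h : Fin (n + 1) → F}

theorem vv_smul' {m V κ : Type} (W : Matrix V κ ℝ) (v : V) (c : ℂ) (e : m → ℂ) :
    vv W v (c • e) = c • vv W v e := by
  funext p; simp only [vv, Pi.smul_apply, smul_eq_mul]; ring

/-- the block `c` at the place `v₁` -/
theorem C_eq {a : F} (ha0 : a ≠ 0) (hgd : Good v₁ D h) (g : Mat n F) :
    atv (sC D h (fun _ : Unit => a) g) v₁ =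
      (I * (√(v₁ D) : ℂ) / (2 * (v₁ a : ℂ))) • ((1 : Matrix Unit Unit ℂ) ⊗ₖ
        ((gp (g.1.map v₁) (g.2.map v₁) √(v₁ D) - gm (g.1.map v₁) (g.2.map v₁) √(v₁ D)) *
          (HH (ev v₁ h))⁻¹)) := by
  have hδ : 0 < √(v₁ D) := Real.sqrt_pos.mpr (hgd.D0 v₁)
  have hk : ∀ j, ev v₁ h j ≠ 0 := fun j => hgd.vne v₁ j
  have hva : ((v₁ a : ℝ) : ℂ) ≠ 0 := by exact_mod_cast (map_ne_zero v₁).2 ha0
  rw [atv_sC (hgd.D0 v₁) hk (fun _ => ha0)]
  unfold lC gp gm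
  rw [QQ_inv (fun _ => ha0)]
  ext ⟨i, p⟩ ⟨j, q⟩
  simp only [Matrix.neg_apply, Matrix.smul_apply, kroneckerMap_apply, smul_eq_mul,
    Subsingleton.elim i (), Subsingleton.elim j (), one_apply_eq, one_mul, diagonal_apply_eq,
    HH_inv hk, mul_diagonal, Matrix.sub_apply, Matrix.add_apply, Matrix.map_apply]
  have hI := Complex.I_sq
  field_simp
  ring_nf
  rw [hI]
  ring

/-- **K2**: the cross term at the place `v₁` -/
theorem qb_hyp [NumberField.IsTotallyReal F] {a : F} (ha0 : a ≠ 0) (hgd : Good v₁ D h) {c : ℕ}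
    {g : Mat n F} (hg : g ∈ Gam D h c) {y : Fin n → ℂ} (hy : y ∈ ball (ev v₁ h))
    {R : (F →+* ℝ) → Matrix Unit Unit ℝ}
    (hu : ∀ v, IsUnit (atv (sC D h (fun _ : Unit => a) g) v * Zp v₁ D h (fun _ : Unit => a) R y v +
      atv (sD Unit g) v).det)
    {M : Matrix (((Unit × Fin (n + 1)) × KF F) ⊕ ((Unit × Fin (n + 1)) × KF F))
      (((Unit × Fin (n + 1)) × KF F) ⊕ ((Unit × Fin (n + 1)) × KF F)) ℤ}
    (hM : Rep D h (fun _ : Unit => a) g M) {N : ℕ} (hN : (N : ℂ) ≠ 0) (j : Fin n)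
    (m : Fin (n + 1)) :
    ((2 * N ^ 2 : ℕ) : ℂ) / (4 * π * I) * qb M (ZZ v₁ D h (fun _ : Unit => a) R y)
      (CMN.eta v₁ h N () j y) (vv (Wm F) v₁ ((atv (sC D h (fun _ : Unit => a) g) v₁ *
        Zp v₁ D h (fun _ : Unit => a) R y v₁ + atv (sD Unit g) v₁)ᵀ *ᵥ
          CMN.row () ((N : ℂ)⁻¹ • fv v₁ v₁ h m (act v₁ D g y)))) =
    ((√(v₁ D) / (4 * π * v₁ a) : ℝ) : ℂ) *
      (cE v₁ D h g y * (∑ l, dact v₁ D g y l j * de (ev v₁ h) l (act v₁ D g y) m) -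
        ∑ m', conj (cmat v₁ D g m m') * de (ev v₁ h) j y m') := by
  classical
  have hva : ((v₁ a : ℝ) : ℂ) ≠ 0 := by exact_mod_cast (map_ne_zero v₁).2 ha0
  have hk : ∀ j, ev v₁ h j ≠ 0 := fun j => hgd.vne v₁ j
  obtain ⟨hu1, hv1⟩ := gam_place v₁ (hgd.D0 v₁) hg
  have hGu := gp_unitary hu1 hv1
  have hg1 := gp_gm hu1 hv1
  have hg2 := gm_gp hu1 hv1
  have hj := jj_ne hgd.sg hGu hy
  have hy' := actM_mem hgd.sg hGu hy
  have hb := bf_hat_ne hgd.sg hy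
  have hH := HH_symm (ev v₁ h)
  have hHd := HH_det _ hk
  set G := gp (g.1.map v₁) (g.2.map v₁) √(v₁ D) with hG
  set G' := gm (g.1.map v₁) (g.2.map v₁) √(v₁ D) with hG'
  set H := HH (ev v₁ h) with hHdef
  have hb' : bf H (G *ᵥ hat y) (G *ᵥ hat y) ≠ 0 := by
    have h2 := bf_hat_ne hgd.sg hy'
    rw [hat_actM hj, bf_smul_left, bf_smul_right] at h2
    intro h
    rw [h] at h2
    simp at h2
  have hE := EE_ne hgd.sg hGu hy
  -- the tangent vectors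
  set t := de (ev v₁ h) j y with ht
  set z := ∑ l, dact v₁ D g y l j • de (ev v₁ h) l (act v₁ D g y) with hz
  have htan := tangent_ball hgd.sg hk hGu hg1 hg2 hy (Pi.single j 1)
  have h3 : ∑ l, Jac G y (Pi.single j 1) l • de (ev v₁ h) l (actM G y) = z := by
    rw [hz]
    refine Finset.sum_congr rfl fun l _ => ?_
    rw [hG, ← cmat_eq, Jac_single, act_eq]
  have h4 : ∑ l, (Pi.single j (1 : ℂ) : Fin n → ℂ) l • de (ev v₁ h) l y = t := by
    rw [Finset.sum_eq_single j]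
    · rw [Pi.single_eq_same, one_smul]
    · intro l _ hl
      rw [Pi.single_eq_of_ne hl, zero_smul]
    · intro hj
      exact absurd (Finset.mem_univ _) hj
  rw [h3, h4] at htan
  have hbt : bf H (hat y) t = 0 := by
    have hw := w_ne hgd.sg hy
    rw [ht]
    unfold de
    rw [show bf H (hat y) ((w (ev v₁ h) y)⁻¹ • Pi.single j.castSucc (1 : ℂ) +
      ((ev v₁ h j.castSucc : ℂ) * y j / w (ev v₁ h) y ^ 3) • hat y) =
      (w (ev v₁ h) y)⁻¹ * bf H (hat y) (Pi.single j.castSucc (1 : ℂ)) +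
      ((ev v₁ h j.castSucc : ℂ) * y j / w (ev v₁ h) y ^ 3) * bf H (hat y) (hat y) by
        unfold bf
        rw [mulVec_add, mulVec_smul, mulVec_smul, dotProduct_add, dotProduct_smul,
          dotProduct_smul, smul_eq_mul, smul_eq_mul]]
    have e1 : bf H (hat y) (Pi.single j.castSucc (1 : ℂ)) = (ev v₁ h j.castSucc : ℂ) * y j := by
      rw [hHdef, bf_HH, Finset.sum_eq_single j.castSucc]
      · rw [Pi.single_eq_same, hat_castSucc, mul_one]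
      · intro i _ hi
        rw [Pi.single_eq_of_ne hi, mul_zero]
      · intro hi
        exact absurd (Finset.mem_univ _) hi
    have e2 : bf H (hat y) (hat y) = -w (ev v₁ h) y ^ 2 := by
      rw [w_sq, neg_neg]
    rw [e1, e2]
    field_simp
    ring
  have hEz := E_tangent hH hHd hg1 hg2 hb hb' hE hbt htan
  have hgt := proj_g' hH hg1 hb hbt
  -- the quadratic form
  unfold qb CMN.eta ZZ
  rw [Bl_qq (Wi_mul F) (Wm_mul F) hM hu, Bl_qq (Wi_mul F) (Wm_mul F) hM hu]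
  rw [← mul_add, sym_dot (hu v₁) (by
    rw [A_hyp ha0 hgd, C_eq ha0 hgd, transpose_smul, ← kroneckerMap_transpose,
      ← kroneckerMap_transpose, transpose_one, Matrix.mul_smul, Matrix.smul_mul,
      ← mul_kronecker_mul, ← mul_kronecker_mul, Matrix.one_mul, AA_symm hH hHd hg1 hg2])]
  rw [C_eq ha0 hgd, smul_mulVec, kron_row, dotProduct_smul, row_dot, ← HH_de, mulVec_smul,
    mulVec_mulVec, ← hG, ← hG', ← hHdef, ← ht, Matrix.mul_assoc, nonsing_inv_mul _ hHd,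
    Matrix.mul_one, smul_dotProduct, dotProduct_smul]
  have e3 : fv v₁ v₁ h m (act v₁ D g y) ⬝ᵥ ((G - G') *ᵥ t) =
      cE v₁ D h g y * z m - (G' *ᵥ t) m := by
    unfold fv
    rw [if_pos rfl, act_eq, cmat_eq, hat_actM hj, Pm_smul _ (inv_ne_zero hj), mulVec_transpose,
      ← dotProduct_mulVec, single_dotProduct, one_mul, ← hHdef, sub_mulVec G G' t, mulVec_sub,
      hgt, ← hEz]
    rfl
  rw [e3]
  have e4 : (G' *ᵥ t) m = ∑ m', conj (cmat v₁ D g m m') * t m' := by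
    unfold mulVec dotProduct
    refine Finset.sum_congr rfl fun m' _ => ?_
    exact congrArg (fun x => x * t m') (gm_conj v₁ D g m m')
  have e5 : z m = ∑ l, dact v₁ D g y l j * de (ev v₁ h) l (act v₁ D g y) m := by
    rw [hz, Finset.sum_apply]
    rfl
  rw [e4, e5]
  set X := cE v₁ D h g y * (∑ l, dact v₁ D g y l j * de (ev v₁ h) l (act v₁ D g y) m) -
        ∑ m', conj (cmat v₁ D g m m') * t m'
  have hπ : (π : ℂ) ≠ 0 := by exact_mod_cast Real.pi_ne_zero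
  push_cast
  simp only [smul_eq_mul]
  field_simp

/-- no cross term at the other places -/
theorem qb_def [NumberField.IsTotallyReal F] {a : F} {g : Mat n F} {y : Fin n → ℂ}
    {R : (F →+* ℝ) → Matrix Unit Unit ℝ}
    (hu : ∀ v, IsUnit (atv (sC D h (fun _ : Unit => a) g) v * Zp v₁ D h (fun _ : Unit => a) R y v +
      atv (sD Unit g) v).det)
    {M : Matrix (((Unit × Fin (n + 1)) × KF F) ⊕ ((Unit × Fin (n + 1)) × KF F))
      (((Unit × Fin (n + 1)) × KF F) ⊕ ((Unit × Fin (n + 1)) × KF F)) ℤ}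
    (hM : Rep D h (fun _ : Unit => a) g M) (N : ℕ) (j : Fin n) {v : F →+* ℝ} (hv : v ≠ v₁)
    (e : Unit × Fin (n + 1) → ℂ) :
    qb M (ZZ v₁ D h (fun _ : Unit => a) R y) (CMN.eta v₁ h N () j y) (vv (Wm F) v e) = 0 := by
  classical
  unfold qb CMN.eta ZZ
  rw [Bl_qq_ne (Wi_mul F) (Wm_mul F) hM hu hv.symm, Bl_qq_ne (Wi_mul F) (Wm_mul F) hM hu hv,
    add_zero]

end

end Pool.Agent.CMP.V1x
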