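import Pool.Agent.Lib.CMP.KDefs

/-!
# Tank CMP: Wirtinger calculus (helper44)
-/

set_option autoImplicit false

open scoped ComplexConjugate Matrix
open Complex

namespace Pool.CMP.W

open Pool.CMP

noncomputable section

variable {n : ℕ} {f g : (Fin (n + 1) → ℂ) → ℂ} {w : Fin (n + 1) → ℂ} {U : Set (Fin (n + 1) → ℂ)}

/-! ### the differential in terms of `dz` and `dzb` -/

theorem fderiv_single_one (f : (Fin (n + 1) → ℂ) → ℂ) (j : Fin (n + 1)) (w : Fin (n + 1) → ℂ) :
    fderiv ℝ f w (Pi.single j 1) = dz f j w + dzb f j w := by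
  rw [dz, dzb]; ring

theorem fderiv_single_I (f : (Fin (n + 1) → ℂ) → ℂ) (j : Fin (n + 1)) (w : Fin (n + 1) → ℂ) :
    fderiv ℝ f w (Pi.single j I) = I * (dz f j w - dzb f j w) := by
  rw [dz, dzb]
  linear_combination (fderiv ℝ f w (Pi.single j I)) * I_mul_I

theorem fderiv_eq_sum (f : (Fin (n + 1) → ℂ) → ℂ) (w v : Fin (n + 1) → ℂ) :
    fderiv ℝ f w v = ∑ j, (v j * dz f j w + conj (v j) * dzb f j w) := by
  have h1 : v = ∑ j, ((v j).re • (Pi.single j 1 : Fin (n + 1) → ℂ) +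
      (v j).im • (Pi.single j I : Fin (n + 1) → ℂ)) := by
    funext i
    rw [Finset.sum_apply, Finset.sum_eq_single i]
    · simp only [Pi.add_apply, Pi.smul_apply, Pi.single_eq_same]
      rw [real_smul, real_smul, mul_one, re_add_im]
    · intro j _ hj
      simp [Pi.single_eq_of_ne (Ne.symm hj)]
    · simp
  conv_lhs => rw [h1]
  rw [map_sum]
  refine Finset.sum_congr rfl fun j _ => ?_
  rw [map_add, map_smul, map_smul, fderiv_single_one, fderiv_single_I, real_smul, real_smul]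
  have h2 := re_add_im (v j)
  have h3 : conj (v j) = ((v j).re : ℂ) - ((v j).im : ℂ) * I := by
    apply Complex.ext <;> simp
  rw [h3]
  linear_combination (dz f j w) * h2

/-! ### local nature -/

theorem dz_congr (hU : IsOpen U) (hw : w ∈ U) (h : ∀ x ∈ U, f x = g x) (j : Fin (n + 1)) :
    dz f j w = dz g j w := by
  have : f =ᶠ[nhds w] g := Filter.eventuallyEq_of_mem (hU.mem_nhds hw) h
  rw [dz, dz, this.fderiv_eq]

theorem dzb_congr (hU : IsOpen U) (hw : w ∈ U) (h : ∀ x ∈ U, f x = g x) (j : Fin (n + 1)) :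
    dzb f j w = dzb g j w := by
  have : f =ᶠ[nhds w] g := Filter.eventuallyEq_of_mem (hU.mem_nhds hw) h
  rw [dzb, dzb, this.fderiv_eq]

/-! ### algebra -/

@[simp] theorem dz_const (c : ℂ) (j : Fin (n + 1)) : dz (fun _ => c) j w = 0 := by
  simp [dz]

@[simp] theorem dzb_const (c : ℂ) (j : Fin (n + 1)) : dzb (fun _ => c) j w = 0 := by
  simp [dzb]

theorem dz_add (hf : DifferentiableAt ℝ f w) (hg : DifferentiableAt ℝ g w) (j : Fin (n + 1)) :
    dz (fun x => f x + g x) j w = dz f j w + dz g j w := by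
  simp only [dz, fderiv_fun_add hf hg, add_apply]
  ring

theorem dzb_add (hf : DifferentiableAt ℝ f w) (hg : DifferentiableAt ℝ g w) (j : Fin (n + 1)) :
    dzb (fun x => f x + g x) j w = dzb f j w + dzb g j w := by
  simp only [dzb, fderiv_fun_add hf hg, add_apply]
  ring

theorem dz_sub (hf : DifferentiableAt ℝ f w) (hg : DifferentiableAt ℝ g w) (j : Fin (n + 1)) :
    dz (fun x => f x - g x) j w = dz f j w - dz g j w := by
  simp only [dz, fderiv_fun_sub hf hg, sub_apply]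
  ring

theorem dzb_sub (hf : DifferentiableAt ℝ f w) (hg : DifferentiableAt ℝ g w) (j : Fin (n + 1)) :
    dzb (fun x => f x - g x) j w = dzb f j w - dzb g j w := by
  simp only [dzb, fderiv_fun_sub hf hg, sub_apply]
  ring

theorem dz_sum {ι : Type*} (s : Finset ι) {F : ι → (Fin (n + 1) → ℂ) → ℂ}
    (hF : ∀ i ∈ s, DifferentiableAt ℝ (F i) w) (j : Fin (n + 1)) :
    dz (fun x => ∑ i ∈ s, F i x) j w = ∑ i ∈ s, dz (F i) j w := by
  simp only [dz, fderiv_fun_sum hF, sum_apply, Finset.mul_sum,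
    ← Finset.sum_sub_distrib]

theorem dzb_sum {ι : Type*} (s : Finset ι) {F : ι → (Fin (n + 1) → ℂ) → ℂ}
    (hF : ∀ i ∈ s, DifferentiableAt ℝ (F i) w) (j : Fin (n + 1)) :
    dzb (fun x => ∑ i ∈ s, F i x) j w = ∑ i ∈ s, dzb (F i) j w := by
  simp only [dzb, fderiv_fun_sum hF, sum_apply, Finset.mul_sum,
    ← Finset.sum_add_distrib]

theorem dz_mul (hf : DifferentiableAt ℝ f w) (hg : DifferentiableAt ℝ g w) (j : Fin (n + 1)) :
    dz (fun x => f x * g x) j w = dz f j w * g w + f w * dz g j w := by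
  simp only [dz, fderiv_fun_mul hf hg, add_apply,
    smul_apply, smul_eq_mul]
  ring

theorem dzb_mul (hf : DifferentiableAt ℝ f w) (hg : DifferentiableAt ℝ g w) (j : Fin (n + 1)) :
    dzb (fun x => f x * g x) j w = dzb f j w * g w + f w * dzb g j w := by
  simp only [dzb, fderiv_fun_mul hf hg, add_apply,
    smul_apply, smul_eq_mul]
  ring

theorem dz_const_mul (c : ℂ) (hf : DifferentiableAt ℝ f w) (j : Fin (n + 1)) :
    dz (fun x => c * f x) j w = c * dz f j w := by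
  rw [dz_mul (differentiableAt_const c) hf, dz_const, zero_mul, zero_add]

theorem dzb_const_mul (c : ℂ) (hf : DifferentiableAt ℝ f w) (j : Fin (n + 1)) :
    dzb (fun x => c * f x) j w = c * dzb f j w := by
  rw [dzb_mul (differentiableAt_const c) hf, dzb_const, zero_mul, zero_add]

theorem fderiv_conj_comp (f : (Fin (n + 1) → ℂ) → ℂ) (w v : Fin (n + 1) → ℂ) :
    fderiv ℝ (fun x => conj (f x)) w v = conj (fderiv ℝ f w v) := by
  have h := ContinuousLinearEquiv.comp_fderiv (𝕜 := ℝ) conjCLE.toContinuousLinearEquiv (f := f)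
    (x := w)
  have h2 := congrArg (fun T => T v) h
  exact h2

theorem dz_conj (f : (Fin (n + 1) → ℂ) → ℂ) (j : Fin (n + 1)) (w : Fin (n + 1) → ℂ) :
    dz (fun x => conj (f x)) j w = conj (dzb f j w) := by
  simp only [dz, dzb, fderiv_conj_comp, map_mul, map_add, conj_I]
  rw [map_div₀, map_one, map_ofNat]
  ring

theorem dzb_conj (f : (Fin (n + 1) → ℂ) → ℂ) (j : Fin (n + 1)) (w : Fin (n + 1) → ℂ) :
    dzb (fun x => conj (f x)) j w = conj (dz f j w) := by
  simp only [dz, dzb, fderiv_conj_comp, map_mul, map_sub, conj_I]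
  rw [map_div₀, map_one, map_ofNat]
  ring

/-! ### coordinates -/

theorem differentiableAt_coord (l : Fin (n + 1)) :
    DifferentiableAt ℝ (fun x : Fin (n + 1) → ℂ => x l) w := by fun_prop

theorem fderiv_coord (l : Fin (n + 1)) (v : Fin (n + 1) → ℂ) :
    fderiv ℝ (fun x : Fin (n + 1) → ℂ => x l) w v = v l := by
  have h : HasFDerivAt (fun x : Fin (n + 1) → ℂ => x l)
      (ContinuousLinearMap.proj (R := ℝ) (φ := fun _ : Fin (n + 1) => ℂ) l) w :=
    (ContinuousLinearMap.proj (R := ℝ) (φ := fun _ : Fin (n + 1) => ℂ) l).hasFDerivAt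
  rw [h.fderiv]
  rfl

theorem dz_coord (l j : Fin (n + 1)) :
    dz (fun x : Fin (n + 1) → ℂ => x l) j w = if l = j then 1 else 0 := by
  rw [dz, fderiv_coord, fderiv_coord]
  split_ifs with h
  · subst h
    rw [Pi.single_eq_same, Pi.single_eq_same, I_mul_I]
    ring
  · rw [Pi.single_eq_of_ne h, Pi.single_eq_of_ne h]
    ring

theorem dzb_coord (l j : Fin (n + 1)) :
    dzb (fun x : Fin (n + 1) → ℂ => x l) j w = 0 := by
  rw [dzb, fderiv_coord, fderiv_coord]
  by_cases h : l = j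
  · subst h
    rw [Pi.single_eq_same, Pi.single_eq_same, I_mul_I]
    ring
  · rw [Pi.single_eq_of_ne h, Pi.single_eq_of_ne h]
    ring

theorem dz_conj_coord (l j : Fin (n + 1)) :
    dz (fun x : Fin (n + 1) → ℂ => conj (x l)) j w = 0 := by
  rw [dz_conj, dzb_coord, map_zero]

theorem dzb_conj_coord (l j : Fin (n + 1)) :
    dzb (fun x : Fin (n + 1) → ℂ => conj (x l)) j w = if l = j then 1 else 0 := by
  rw [dzb_conj, dz_coord]
  split_ifs <;> simp

/-! ### chain rules -/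

/-- linear change of variables -/
theorem fderiv_comp_mulVec {g : Matrix (Fin (n + 1)) (Fin (n + 1)) ℂ}
    (hf : DifferentiableAt ℝ f (g *ᵥ w)) (v : Fin (n + 1) → ℂ) :
    fderiv ℝ (fun x => f (g *ᵥ x)) w v = fderiv ℝ f (g *ᵥ w) (g *ᵥ v) := by
  set G : (Fin (n + 1) → ℂ) →L[ℝ] (Fin (n + 1) → ℂ) :=
    LinearMap.toContinuousLinearMap ((Matrix.mulVecLin g).restrictScalars ℝ) with hG
  have h1 : HasFDerivAt (fun x : Fin (n + 1) → ℂ => g *ᵥ x) G w := G.hasFDerivAt
  have h2 := HasFDerivAt.comp w hf.hasFDerivAt h1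
  have h3 := h2.fderiv
  change fderiv ℝ (f ∘ fun x : Fin (n + 1) → ℂ => g *ᵥ x) w v = _
  rw [h3]
  rfl

theorem dz_comp_mulVec {g : Matrix (Fin (n + 1)) (Fin (n + 1)) ℂ}
    (hf : DifferentiableAt ℝ f (g *ᵥ w)) (j : Fin (n + 1)) :
    dz (fun x => f (g *ᵥ x)) j w = ∑ l, g l j * dz f l (g *ᵥ w) := by
  rw [dz, fderiv_comp_mulVec hf, fderiv_comp_mulVec hf, fderiv_eq_sum, fderiv_eq_sum,
    Finset.mul_sum, ← Finset.sum_sub_distrib, Finset.mul_sum]
  refine Finset.sum_congr rfl fun l _ => ?_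
  rw [Matrix.mulVec_single, Matrix.mulVec_single]
  simp only [Pi.smul_apply, Matrix.col_apply, MulOpposite.smul_eq_mul_unop, MulOpposite.unop_op,
    mul_one, map_mul, conj_I]
  linear_combination (-(1 / 2 : ℂ) * (g l j * dz f l (g *ᵥ w) - conj (g l j) * dzb f l (g *ᵥ w))) *
    I_mul_I

theorem dzb_comp_mulVec {g : Matrix (Fin (n + 1)) (Fin (n + 1)) ℂ}
    (hf : DifferentiableAt ℝ f (g *ᵥ w)) (j : Fin (n + 1)) :
    dzb (fun x => f (g *ᵥ x)) j w = ∑ l, conj (g l j) * dzb f l (g *ᵥ w) := by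
  rw [dzb, fderiv_comp_mulVec hf, fderiv_comp_mulVec hf, fderiv_eq_sum, fderiv_eq_sum,
    Finset.mul_sum, ← Finset.sum_add_distrib, Finset.mul_sum]
  refine Finset.sum_congr rfl fun l _ => ?_
  rw [Matrix.mulVec_single, Matrix.mulVec_single]
  simp only [Pi.smul_apply, Matrix.col_apply, MulOpposite.smul_eq_mul_unop, MulOpposite.unop_op,
    mul_one, map_mul, conj_I]
  linear_combination ((1 / 2 : ℂ) * (g l j * dz f l (g *ᵥ w) - conj (g l j) * dzb f l (g *ᵥ w))) *
    I_mul_I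

/-! ### smooth functions -/

/-- Smooth on `U`. -/
def Sm (U : Set (Fin (n + 1) → ℂ)) (f : (Fin (n + 1) → ℂ) → ℂ) : Prop :=
  ∀ m : ℕ, ContDiffOn ℝ m f U

theorem Sm.differentiableAt (hf : Sm U f) (hU : IsOpen U) (hw : w ∈ U) : DifferentiableAt ℝ f w :=
  ((hf 1).differentiableOn (by norm_num)).differentiableAt (hU.mem_nhds hw)

theorem Sm.continuousOn (hf : Sm U f) : ContinuousOn f U := (hf 0).continuousOn

theorem Sm.congr (hf : Sm U f) (h : ∀ x ∈ U, g x = f x) : Sm U g := fun m => (hf m).congr h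

theorem Sm.const (c : ℂ) : Sm U (fun _ => c) := fun _ => contDiffOn_const

theorem Sm.add (hf : Sm U f) (hg : Sm U g) : Sm U (fun x => f x + g x) :=
  fun m => (hf m).add (hg m)

theorem Sm.sub (hf : Sm U f) (hg : Sm U g) : Sm U (fun x => f x - g x) :=
  fun m => (hf m).sub (hg m)

theorem Sm.mul (hf : Sm U f) (hg : Sm U g) : Sm U (fun x => f x * g x) :=
  fun m => (hf m).mul (hg m)

theorem Sm.neg (hf : Sm U f) : Sm U (fun x => -f x) := fun m => (hf m).neg

theorem Sm.pow (hf : Sm U f) (k : ℕ) : Sm U (fun x => f x ^ k) := fun m => (hf m).pow k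

theorem Sm.inv (hf : Sm U f) (h : ∀ x ∈ U, f x ≠ 0) : Sm U (fun x => (f x)⁻¹) :=
  fun m => (hf m).inv h

theorem Sm.sum {ι : Type*} (s : Finset ι) {F : ι → (Fin (n + 1) → ℂ) → ℂ}
    (hF : ∀ i ∈ s, Sm U (F i)) : Sm U (fun x => ∑ i ∈ s, F i x) :=
  fun m => ContDiffOn.sum fun i hi => hF i hi m

theorem Sm.conj (hf : Sm U f) : Sm U (fun x => (starRingEnd ℂ) (f x)) :=
  fun m => conjCLE.contDiff.comp_contDiffOn (hf m)

theorem Sm.coord (l : Fin (n + 1)) : Sm U (fun x => x l) := fun _ => by fun_prop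

theorem Sm.fderiv (hf : Sm U f) (hU : IsOpen U) (v : Fin (n + 1) → ℂ) :
    Sm U (fun x => fderiv ℝ f x v) := fun m =>
  ((hf (m + 1)).fderiv_of_isOpen hU (by norm_cast)).clm_apply contDiffOn_const

theorem Sm.dz (hf : Sm U f) (hU : IsOpen U) (j : Fin (n + 1)) : Sm U (dz f j) :=
  (Sm.const _).mul ((hf.fderiv hU _).sub ((Sm.const _).mul (hf.fderiv hU _)))

theorem Sm.dzb (hf : Sm U f) (hU : IsOpen U) (j : Fin (n + 1)) : Sm U (dzb f j) :=
  (Sm.const _).mul ((hf.fderiv hU _).add ((Sm.const _).mul (hf.fderiv hU _)))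

/-! ### second derivatives commute -/

theorem fderiv_fderiv_comm (hf : Sm U f) (hU : IsOpen U) (hw : w ∈ U) (u v : Fin (n + 1) → ℂ) :
    fderiv ℝ (fun x => fderiv ℝ f x u) w v = fderiv ℝ (fun x => fderiv ℝ f x v) w u := by
  have h1 : ContDiffAt ℝ 2 f w := (hf 2).contDiffAt (hU.mem_nhds hw)
  have h2 : IsSymmSndFDerivAt ℝ f w := h1.isSymmSndFDerivAt (by simp)
  have h3 : DifferentiableAt ℝ (fderiv ℝ f) w :=
    ((h1.fderiv_right (m := 1) (by norm_num)).differentiableAt (by norm_num))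
  have h4 : ∀ a b : Fin (n + 1) → ℂ, fderiv ℝ (fun x => fderiv ℝ f x a) w b =
      fderiv ℝ (fderiv ℝ f) w b a := by
    intro a b
    rw [fderiv_clm_apply h3 (differentiableAt_const a)]
    simp
  rw [h4, h4]
  exact h2 v u

theorem dz_dzb_comm (hf : Sm U f) (hU : IsOpen U) (hw : w ∈ U) (j l : Fin (n + 1)) :
    dz (dzb f j) l w = dzb (dz f l) j w := by
  have hd : ∀ v, DifferentiableAt ℝ (fun x => fderiv ℝ f x v) w :=
    fun v => (hf.fderiv hU v).differentiableAt hU hw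
  have h1 : dz (dzb f j) l w = (1 / 2 : ℂ) * (dz (fun x => fderiv ℝ f x (Pi.single j 1)) l w +
      I * dz (fun x => fderiv ℝ f x (Pi.single j I)) l w) := by
    have : dzb f j = fun x => (1 / 2 : ℂ) * (fderiv ℝ f x (Pi.single j 1) +
      I * fderiv ℝ f x (Pi.single j I)) := rfl
    rw [this, dz_const_mul _ ((hd _).fun_add ((hd _).const_mul I)), dz_add (hd _) ((hd _).const_mul I),
      dz_const_mul _ (hd _)]
  have h2 : dzb (dz f l) j w = (1 / 2 : ℂ) * (dzb (fun x => fderiv ℝ f x (Pi.single l 1)) j w -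
      I * dzb (fun x => fderiv ℝ f x (Pi.single l I)) j w) := by
    have : dz f l = fun x => (1 / 2 : ℂ) * (fderiv ℝ f x (Pi.single l 1) -
      I * fderiv ℝ f x (Pi.single l I)) := rfl
    rw [this, dzb_const_mul _ ((hd _).fun_sub ((hd _).const_mul I)),
      dzb_sub (hd _) ((hd _).const_mul I), dzb_const_mul _ (hd _)]
  rw [h1, h2, dz, dz, dzb, dzb, fderiv_fderiv_comm hf hU hw (Pi.single j 1) (Pi.single l 1),
    fderiv_fderiv_comm hf hU hw (Pi.single j 1) (Pi.single l I),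
    fderiv_fderiv_comm hf hU hw (Pi.single j I) (Pi.single l 1),
    fderiv_fderiv_comm hf hU hw (Pi.single j I) (Pi.single l I)]
  ring

theorem dz_dz_comm (hf : Sm U f) (hU : IsOpen U) (hw : w ∈ U) (j l : Fin (n + 1)) :
    dz (dz f j) l w = dz (dz f l) j w := by
  have hd : ∀ v, DifferentiableAt ℝ (fun x => fderiv ℝ f x v) w :=
    fun v => (hf.fderiv hU v).differentiableAt hU hw
  have h1 : ∀ j l, dz (dz f j) l w = (1 / 2 : ℂ) * (dz (fun x => fderiv ℝ f x (Pi.single j 1)) l w -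
      I * dz (fun x => fderiv ℝ f x (Pi.single j I)) l w) := by
    intro j l
    have : dz f j = fun x => (1 / 2 : ℂ) * (fderiv ℝ f x (Pi.single j 1) -
      I * fderiv ℝ f x (Pi.single j I)) := rfl
    rw [this, dz_const_mul _ ((hd _).fun_sub ((hd _).const_mul I)), dz_sub (hd _) ((hd _).const_mul I),
      dz_const_mul _ (hd _)]
  rw [h1, h1, dz, dz, dz, dz, fderiv_fderiv_comm hf hU hw (Pi.single j 1) (Pi.single l 1),
    fderiv_fderiv_comm hf hU hw (Pi.single j 1) (Pi.single l I),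
    fderiv_fderiv_comm hf hU hw (Pi.single j I) (Pi.single l 1),
    fderiv_fderiv_comm hf hU hw (Pi.single j I) (Pi.single l I)]
  ring

theorem dzb_dzb_comm (hf : Sm U f) (hU : IsOpen U) (hw : w ∈ U) (j l : Fin (n + 1)) :
    dzb (dzb f j) l w = dzb (dzb f l) j w := by
  have hd : ∀ v, DifferentiableAt ℝ (fun x => fderiv ℝ f x v) w :=
    fun v => (hf.fderiv hU v).differentiableAt hU hw
  have h1 : ∀ j l, dzb (dzb f j) l w =
      (1 / 2 : ℂ) * (dzb (fun x => fderiv ℝ f x (Pi.single j 1)) l w +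
      I * dzb (fun x => fderiv ℝ f x (Pi.single j I)) l w) := by
    intro j l
    have : dzb f j = fun x => (1 / 2 : ℂ) * (fderiv ℝ f x (Pi.single j 1) +
      I * fderiv ℝ f x (Pi.single j I)) := rfl
    rw [this, dzb_const_mul _ ((hd _).fun_add ((hd _).const_mul I)),
      dzb_add (hd _) ((hd _).const_mul I), dzb_const_mul _ (hd _)]
  rw [h1, h1, dzb, dzb, dzb, dzb, fderiv_fderiv_comm hf hU hw (Pi.single j 1) (Pi.single l 1),
    fderiv_fderiv_comm hf hU hw (Pi.single j 1) (Pi.single l I),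
    fderiv_fderiv_comm hf hU hw (Pi.single j I) (Pi.single l 1),
    fderiv_fderiv_comm hf hU hw (Pi.single j I) (Pi.single l I)]
  ring

end

end Pool.CMP.W
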